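import Pool.Agent.Lib.MP_696deb_nt.CU.GCS

/-! Two rounds of the box inequality. -/

set_option autoImplicit false

open Finset Function
open scoped BigOperators ComplexConjugate Classical

namespace Pool.Agent.Lib.MP_696deb_nt.CU

variable {ι α R : Type*} [Fintype ι] [DecidableEq ι] [CommRing R] [Finite R]

theorem cj_char (e : AddChar R ℂ) (n : ℕ) (t : R) : cj n (e t) = e ((-1) ^ n * t) := by
  unfold cj
  split_ifs with h
  · rw [h.neg_one_pow, one_mul]
  · rw [(Nat.not_even_iff_odd.1 h).neg_one_pow, neg_one_mul, AddChar.map_neg_eq_conj]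

omit [Finite R] in
theorem char_sum {β : Type*} (e : AddChar R ℂ) (s : Finset β) (t : β → R) :
    ∏ w ∈ s, e (t w) = e (∑ w ∈ s, t w) := by
  induction s using Finset.induction_on with
  | empty => simp
  | insert i s hi ih => rw [prod_insert hi, sum_insert hi, ih, AddChar.map_add_eq_mul]

/-- The indicator of a proposition. -/
noncomputable def ind (p : Prop) : ℂ := if p then 1 else 0

theorem norm_ind (p : Prop) : ‖ind p‖ ≤ 1 := by
  unfold ind
  split_ifs <;> simp

theorem cj_ind (n : ℕ) (p : Prop) : cj n (ind p) = ind p := by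
  unfold cj ind
  split_ifs <;> simp

theorem ind_and (p q : Prop) : ind (p ∧ q) = ind p * ind q := by
  unfold ind
  by_cases hp : p <;> by_cases hq : q <;> simp [hp, hq]

theorem prod_ind {β : Type*} (s : Finset β) (p : β → Prop) :
    ∏ w ∈ s, ind (p w) = ind (∀ w ∈ s, p w) := by
  unfold ind
  rw [prod_ite_zero]
  simp

theorem ind_ne {p : Prop} (h : ind p ≠ 0) : p := by
  by_contra hp
  exact h (if_neg hp)

omit [Fintype ι] in
theorem norm_cube (S : Finset ι) (H : (ι → α) → ℂ) (h : ∀ x, ‖H x‖ ≤ 1) (x x' : ι → α) :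
    ‖cube S H x x'‖ ≤ 1 := by
  rw [cube, norm_prod]
  exact prod_le_one (fun _ _ => norm_nonneg _) fun w _ => by rw [norm_cj]; exact h _

omit [Fintype ι] in
theorem cube_mul (S : Finset ι) (G H : (ι → α) → ℂ) (x x' : ι → α) :
    cube S (fun y => G y * H y) x x' = cube S G x x' * cube S H x x' := by
  simp only [cube, cj_mul, prod_mul_distrib]

omit [Fintype ι] in
theorem cube_char (e : AddChar R ℂ) (S : Finset ι) (D : (ι → α) → R) (x x' : ι → α) :
    cube S (fun y => e (D y)) x x' =
      e (∑ w ∈ S.powerset, (-1) ^ w.card * D (w.piecewise x' x)) := by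
  simp only [cube, cj_char, char_sum]

omit [Fintype ι] in
theorem cube_ind (S : Finset ι) (P : (ι → α) → Prop) (x x' : ι → α) :
    cube S (fun y => ind (P y)) x x' = ind (∀ w ∈ S.powerset, P (w.piecewise x' x)) := by
  simp only [cube, cj_ind, prod_ind]

/-- Degenerate cubes are rare. -/
theorem norm_expect_le_of_ne (X : ι → Finset α) (hX : ∀ i, (X i).Nonempty) (S : Finset ι) {η : ℝ}
    (hη : ∀ i ∈ S, 1 ≤ η * (X i).card) (F : (ι → α) → ℂ) (hF : ∀ x, ‖F x‖ ≤ 1) (x' : ι → α) :
    ‖𝔼 x ∈ Fintype.piFinset X, F x‖ ≤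
      S.card * η + ‖𝔼 x ∈ Fintype.piFinset X, ind (∀ i ∈ S, x i ≠ x' i) * F x‖ := by
  have h1 : ∀ i ∈ S, 𝔼 x ∈ Fintype.piFinset X, ‖ind (x i = x' i)‖ ≤ η := fun i hi => by
    have h := expect_update X i (hX i) fun x => (‖ind (x i = x' i)‖ : ℂ)
    rw [← Complex.ofReal_expect] at h
    simp only [update_self, ← Complex.ofReal_expect, Complex.ofReal_inj] at h
    rw [h, expect_const (Fintype.piFinset_nonempty.2 hX), expect_eq_sum_div_card,
      div_le_iff₀ (Nat.cast_pos.2 (hX i).card_pos)]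
    refine le_trans ?_ (hη i hi)
    have : ∀ a, ‖ind (a = x' i)‖ = if a = x' i then 1 else 0 := fun a => by
      unfold ind
      split_ifs <;> simp
    simp only [this, sum_ite_eq']
    split_ifs <;> simp
  have h2 : 𝔼 x ∈ Fintype.piFinset X, F x =
      (𝔼 x ∈ Fintype.piFinset X, (1 - ind (∀ i ∈ S, x i ≠ x' i)) * F x) +
        𝔼 x ∈ Fintype.piFinset X, ind (∀ i ∈ S, x i ≠ x' i) * F x := by
    rw [← expect_add_distrib]
    exact expect_congr rfl fun x _ => by ring
  rw [h2]
  refine (norm_add_le _ _).trans (add_le_add ?_ le_rfl)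
  refine (RCLike.norm_expect_le (K := ℂ)).trans ((expect_le_expect (g := fun x =>
    ∑ i ∈ S, ‖ind (x i = x' i)‖) fun x _ => ?_).trans ?_)
  · by_cases h : ∀ i ∈ S, x i ≠ x' i
    · rw [ind, if_pos h, sub_self, zero_mul, norm_zero]
      exact sum_nonneg fun _ _ => norm_nonneg _
    · rw [ind, if_neg h, sub_zero, one_mul]
      push Not at h
      obtain ⟨i, hi, h⟩ := h
      refine (hF x).trans (le_trans ?_
        (single_le_sum (f := fun i => ‖ind (x i = x' i)‖) (fun _ _ => norm_nonneg _) hi))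
      simp [ind, h]
  · rw [expect_sum_comm]
    exact (sum_le_sum h1).trans_eq (by rw [sum_const, nsmul_eq_mul])

theorem norm_expect_le_const {β : Type*} {s : Finset β} (hs : s.Nonempty) {F : β → ℂ} {c : ℝ}
    (h : ∀ x ∈ s, ‖F x‖ ≤ c) : ‖𝔼 x ∈ s, F x‖ ≤ c :=
  (RCLike.norm_expect_le (K := ℂ)).trans (expect_le hs h)

omit [Fintype ι] in
theorem piecewise_update_mem {w : Finset ι} {i : ι} (h : i ∈ w) (x' x : ι → α) (a : α) :
    w.piecewise x' (update x i a) = w.piecewise x' x := funext fun j => by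
  by_cases hj : j ∈ w
  · rw [piecewise_eq_of_mem _ _ _ hj, piecewise_eq_of_mem _ _ _ hj]
  · rw [piecewise_eq_of_notMem _ _ _ hj, piecewise_eq_of_notMem _ _ _ hj,
      update_of_ne (ne_of_mem_of_not_mem h hj).symm]

omit [Fintype ι] in
theorem piecewise_update_notMem {w : Finset ι} {i : ι} (h : i ∉ w) (x' x : ι → α) (a : α) :
    w.piecewise x' (update x i a) = update (w.piecewise x' x) i a := funext fun j => by
  by_cases e : j = i
  · subst e
    rw [piecewise_eq_of_notMem _ _ _ h, update_self, update_self]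
  · rw [update_of_ne e]
    by_cases hj : j ∈ w
    · rw [piecewise_eq_of_mem _ _ _ hj, piecewise_eq_of_mem _ _ _ hj]
    · rw [piecewise_eq_of_notMem _ _ _ hj, piecewise_eq_of_notMem _ _ _ hj, update_of_ne e]

/-- The face of the cube at the second pivot lies in `P` and is not degenerate. -/
def FaceC (U : Finset ι) (ia ic : ι) (P : (ι → α) → Prop) (x x' : ι → α) : Prop :=
  (∀ i ∈ insert ia U, x i ≠ x' i) ∧
    ∀ w ⊆ insert ia (insert ic U), ic ∈ w → P (w.piecewise x' x)

/-- The face of the cube at the first pivot and the second pointer lies in `P`. -/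
def FaceA (U : Finset ι) (ia ic : ι) (P : (ι → α) → Prop) (x x' : ι → α) : Prop :=
  x ic ≠ x' ic ∧ ∀ w ⊆ insert ia (insert ic U), ia ∈ w → ic ∉ w → P (w.piecewise x' x)

omit [Fintype ι] in
theorem cube_update {S : Finset ι} {i : ι} (hi : i ∉ S) (H : (ι → α) → ℂ)
    (h : ∀ x a, H (update x i a) = H x) (x x' : ι → α) (a : α) :
    cube S H (update x i a) x' = cube S H x x' :=
  prod_congr rfl fun w hw => by
    rw [piecewise_update_notMem fun k => hi (mem_powerset.1 hw k), h]

omit [Fintype ι] in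
theorem FaceC.update {U : Finset ι} {ia ic : ι} (hc : ic ∉ U) (hac : ia ≠ ic)
    (P : (ι → α) → Prop) (x x' : ι → α) (a : α) :
    FaceC U ia ic P (update x ic a) x' ↔ FaceC U ia ic P x x' := by
  refine and_congr (forall₂_congr fun i hi => ?_) (forall₃_congr fun w _ hw => ?_)
  · rw [update_of_ne]
    rintro rfl
    exact (mem_insert.1 hi).elim (fun h => hac h.symm) hc
  · rw [piecewise_update_mem hw]

omit [Fintype ι] in
theorem FaceA.update {U : Finset ι} {ia ic : ι} (hac : ia ≠ ic)
    (P : (ι → α) → Prop) (x x' : ι → α) (a : α) :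
    FaceA U ia ic P (update x ia a) x' ↔ FaceA U ia ic P x x' := by
  refine and_congr ?_ (forall₃_congr fun w _ hw => ?_)
  · rw [update_of_ne hac.symm]
  · rw [piecewise_update_mem hw]

/-- Both rounds of the box inequality. -/
theorem step_abs (X : ι → Finset α) (hX : ∀ i, (X i).Nonempty) (U : Finset ι) (ia ic : ι)
    (ha : ia ∉ U) (hc : ic ∉ U) (hac : ia ≠ ic) (e : AddChar R ℂ) (P : (ι → α) → Prop)
    (D : (ι → α) → R) (Lab M : (ι → α) → (ι → α) → R) {η δ κ : ℝ}
    (hη : ∀ i ∈ insert ia (insert ic U), 1 ≤ η * (X i).card)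
    (clo : ∀ x ∈ Fintype.piFinset X, ∀ x' ∈ Fintype.piFinset X,
      (∀ i ∈ insert ia (insert ic U), x i ≠ x' i) →
      (∀ w ⊆ insert ia (insert ic U), w.Nonempty → P (w.piecewise x' x)) → P x ∧
        ∑ w ∈ (insert ia (insert ic U)).powerset, (-1) ^ w.card * D (w.piecewise x' x) =
          Lab x x' + M x x')
    (hM : ∀ x x' a, M (update x ic a) x' = M x x')
    (bil : ∀ x ∈ Fintype.piFinset X, ∀ x' ∈ Fintype.piFinset X, ∀ x'' ∈ Fintype.piFinset X,
      (∀ j ∈ U, x j ≠ x'' j) → ∀ a b : α → ℂ, (∀ p, ‖a p‖ ≤ 1) → (∀ r, ‖b r‖ ≤ 1) →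
      (∀ p, a p ≠ 0 → ∀ v ⊆ U, FaceC U ia ic P (v.piecewise x'' (update x ia p)) x') →
      (∀ r, b r ≠ 0 → ∀ v ⊆ U, FaceA U ia ic P (v.piecewise x'' (update x ic r)) x') →
      ‖𝔼 p ∈ X ia, 𝔼 r ∈ X ic, a p * b r * e (∑ v ∈ U.powerset, (-1) ^ v.card *
        Lab (v.piecewise x'' (update (update x ia p) ic r)) x')‖ ≤ δ)
    (hδ0 : 0 ≤ δ) (hκ : 0 ≤ κ) (hδ : U.card * η + δ ≤ κ ^ 2 ^ U.card) :
    ‖𝔼 x ∈ Fintype.piFinset X, ind (P x) * e (D x)‖ ^ 2 ^ (U.card + 2) ≤
      (U.card + 2) * η + κ := by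
  have hne := Fintype.piFinset_nonempty.2 hX
  have ne1 : ∀ (p : Prop) (t : R), ‖ind p * e t‖ ≤ 1 := fun p t => by
    rw [norm_mul, AddChar.norm_apply, mul_one]
    exact norm_ind p
  have hS : (insert ia (insert ic U)).card = U.card + 2 := by
    rw [card_insert_of_notMem (by simp [ha, hac]), card_insert_of_notMem hc]
  have r1 := gcs X hX (insert ia (insert ic U)) (fun _ _ => 1) (fun x => ind (P x) * e (D x))
    (fun _ _ _ => by simp) fun _ _ _ _ => rfl
  simp only [prod_const_one, one_mul, hS] at r1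
  refine r1.trans (norm_expect_le_const hne fun x' hx' => ?_)
  refine (norm_expect_le_of_ne X hX _ hη _ (fun x => norm_cube _ _ (fun _ => ne1 _ _) x x')
    x').trans (add_le_add (by rw [hS]; push_cast; rfl) ?_)
  set A : (ι → α) → ℂ := fun y => ind (FaceC U ia ic P y x') * e (M y x') with hA
  set B : (ι → α) → ℂ := fun y => ind (FaceA U ia ic P y x') with hB
  set f : ι → (ι → α) → ℂ := fun j y => ind (∀ w ⊆ insert ia (insert ic U), j ∈ w →
    P (w.piecewise x' y)) with hf
  have key : ∀ x ∈ Fintype.piFinset X, ind (∀ i ∈ insert ia (insert ic U), x i ≠ x' i) *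
      cube (insert ia (insert ic U)) (fun x => ind (P x) * e (D x)) x x' =
      (∏ j ∈ U, f j x) * (A x * B x * e (Lab x x')) := fun x hx => by
    rw [cube_mul, cube_ind, cube_char]
    simp only [hA, hB, hf, prod_ind]
    by_cases h : (∀ i ∈ insert ia (insert ic U), x i ≠ x' i) ∧
        ∀ w ⊆ insert ia (insert ic U), w.Nonempty → P (w.piecewise x' x)
    · obtain ⟨h0, h1⟩ := clo x hx x' hx' h.1 h.2
      have h2 : ∀ w ⊆ insert ia (insert ic U), P (w.piecewise x' x) := fun w hw => by
        rcases w.eq_empty_or_nonempty with rfl | hw'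
        · rwa [piecewise_empty]
        · exact h.2 w hw hw'
      have c1 : FaceC U ia ic P x x' :=
        ⟨fun i hi => h.1 i (insert_subset_insert _ (subset_insert _ _) hi), fun w hw _ => h2 w hw⟩
      have c2 : FaceA U ia ic P x x' := ⟨h.1 ic (by simp), fun w hw _ _ => h2 w hw⟩
      rw [h1, AddChar.map_add_eq_mul, ind, if_pos h.1, ind,
        if_pos fun w hw => h2 w (mem_powerset.1 hw), ind, if_pos fun _ _ w hw _ => h2 w hw, ind,
        if_pos c1, ind, if_pos c2]
      ring
    · have l : ind (∀ i ∈ insert ia (insert ic U), x i ≠ x' i) *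
          ind (∀ w ∈ (insert ia (insert ic U)).powerset, P (w.piecewise x' x)) = 0 := by
        rw [← ind_and]
        exact if_neg fun k => h ⟨k.1, fun w hw _ => k.2 w (mem_powerset.2 hw)⟩
      have r : ind (∀ j ∈ U, ∀ w ⊆ insert ia (insert ic U), j ∈ w → P (w.piecewise x' x)) *
          (ind (FaceC U ia ic P x x') * ind (FaceA U ia ic P x x')) = 0 := by
        rw [← ind_and, ← ind_and]
        refine if_neg fun k => h ⟨fun i hi => ?_, fun w hw ⟨j, hj⟩ => ?_⟩
        · by_cases e : i = ic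
          · exact e ▸ k.2.2.1
          · exact k.2.1.1 i (by simpa [e] using hi)
        · by_cases h1 : ic ∈ w
          · exact k.2.1.2 w hw h1
          by_cases h2 : ia ∈ w
          · exact k.2.2.2 w hw h2 h1
          refine k.1 j ?_ w hw hj
          simpa [ne_of_mem_of_not_mem hj h1, ne_of_mem_of_not_mem hj h2] using hw hj
      rw [← mul_assoc, l, zero_mul]
      linear_combination -(e (M x x') * e (Lab x x')) * r
  rw [expect_congr rfl key]
  have r2 := gcs X hX U f (fun x => A x * B x * e (Lab x x')) (fun _ _ _ => norm_ind _)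
    fun j _ x a => by
      simp only [hf]
      exact congrArg ind (propext (forall₃_congr fun w _ hw => by rw [piecewise_update_mem hw]))
  refine (pow_le_pow_iff_left₀ (norm_nonneg _) hκ (pow_ne_zero _ two_ne_zero)).1
    (r2.trans (le_trans (norm_expect_le_const hne fun x'' hx'' => ?_) hδ))
  refine (norm_expect_le_of_ne X hX U (fun i hi => hη i (by simp [hi])) _
    (fun x => norm_cube _ _ (fun y => ?_) x x'') x'').trans (add_le_add le_rfl ?_)
  · rw [norm_mul, norm_mul, AddChar.norm_apply, mul_one]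
    exact mul_le_one₀ (ne1 _ _) (norm_nonneg _) (norm_ind _)
  rw [expect_update X ic (hX ic), expect_update X ia (hX ia)]
  refine norm_expect_le_const hne fun x hx => ?_
  have u : ∀ p r, (∀ i ∈ U, update (update x ia p) ic r i ≠ x'' i) ↔ ∀ i ∈ U, x i ≠ x'' i :=
    fun p r => forall₂_congr fun i hi => by
      rw [update_of_ne (ne_of_mem_of_not_mem hi hc), update_of_ne (ne_of_mem_of_not_mem hi ha)]
  simp only [u]
  by_cases h : ∀ i ∈ U, x i ≠ x'' i
  swap
  · simpa [ind, h] using hδ0
  refine le_of_eq_of_le ?_ (bil x hx x' hx' x'' hx'' h (fun p => cube U A (update x ia p) x'')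
    (fun r => cube U B (update x ic r) x'') (fun p => norm_cube _ _ (fun _ => ne1 _ _) _ _)
    (fun r => norm_cube _ _ (fun _ => norm_ind _) _ _) (fun p hp v hv => ?_) fun r hr v hv => ?_)
  · congr 1
    refine expect_congr rfl fun p _ => expect_congr rfl fun r _ => ?_
    rw [ind, if_pos h, one_mul, cube_mul, cube_mul, cube_char,
      cube_update hc A (fun y a => by simp only [hA, FaceC.update hc hac, hM]), update_comm hac,
      cube_update ha B fun y a => by simp only [hB, FaceA.update hac]]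
  · rw [hA, cube_mul, cube_ind] at hp
    exact ind_ne (left_ne_zero_of_mul hp) v (mem_powerset.2 hv)
  · rw [hB, cube_ind] at hr
    exact ind_ne hr v (mem_powerset.2 hv)

end Pool.Agent.Lib.MP_696deb_nt.CU
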