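import Mathlib

/-! Alternating sums over the vertices of a cube. -/

set_option autoImplicit false

open Finset

namespace Pool.Agent.Lib.MP_696deb_nt.CU

variable {ι M N : Type*} [DecidableEq ι] [AddCommGroup M] [AddCommGroup N]

/-- The alternating sum over the subsets of `T`. -/
def alt (T : Finset ι) (v : Finset ι → M) : M := ∑ R ∈ T.powerset, (-1 : ℤ) ^ R.card • v R

omit [DecidableEq ι] in
theorem alt_empty (v : Finset ι → M) : alt ∅ v = v ∅ := by simp [alt]

theorem alt_insert {T : Finset ι} {i : ι} (h : i ∉ T) (v : Finset ι → M) :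
    alt (insert i T) v = alt T v - alt T fun R => v (insert i R) := by
  rw [alt, sum_powerset_insert h, sub_eq_add_neg, alt, alt, ← sum_neg_distrib]
  refine congrArg _ (sum_congr rfl fun R hR => ?_)
  rw [card_insert_of_notMem fun k => h (mem_powerset.1 hR k), pow_succ, mul_neg_one, neg_smul]

omit [DecidableEq ι] in
theorem alt_congr {T : Finset ι} {v v' : Finset ι → M} (h : ∀ R ⊆ T, v R = v' R) :
    alt T v = alt T v' := sum_congr rfl fun R hR => by rw [h R (mem_powerset.1 hR)]

omit [DecidableEq ι] in
theorem alt_zero {T : Finset ι} {v : Finset ι → M} (h : ∀ R ⊆ T, v R = 0) : alt T v = 0 :=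
  sum_eq_zero fun R hR => by rw [h R (mem_powerset.1 hR), smul_zero]

omit [DecidableEq ι] in
theorem alt_add (T : Finset ι) (v v' : Finset ι → M) :
    alt T (fun R => v R + v' R) = alt T v + alt T v' := by
  simp only [alt, smul_add, sum_add_distrib]

omit [DecidableEq ι] in
theorem alt_sub (T : Finset ι) (v v' : Finset ι → M) :
    alt T (fun R => v R - v' R) = alt T v - alt T v' := by
  simp only [alt, smul_sub, sum_sub_distrib]

omit [DecidableEq ι] in
theorem map_alt (f : M →+ N) (T : Finset ι) (v : Finset ι → M) :
    f (alt T v) = alt T fun R => f (v R) := by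
  simp only [alt, map_sum, map_zsmul]

omit [DecidableEq ι] in
theorem smul_alt {O : Type*} [Ring O] [Module O M] (z : O) (T : Finset ι) (v : Finset ι → M) :
    z • alt T v = alt T fun R => z • v R := map_alt (DistribSMul.toAddMonoidHom M z) T v

omit [DecidableEq ι] in
theorem alt_ring {F : Type*} [Ring F] (T : Finset ι) (v : Finset ι → F) :
    alt T v = ∑ R ∈ T.powerset, (-1) ^ R.card * v R :=
  sum_congr rfl fun R _ => by simp

/-- The vertex `∅` and the other vertices. -/
theorem alt_eq_add (T : Finset ι) (v : Finset ι → M) :
    alt T v = v ∅ + alt T fun R => if R = ∅ then 0 else v R := by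
  have h : alt T (fun R => if R = ∅ then v ∅ else 0) = v ∅ := by
    rw [alt, sum_eq_single ∅ (fun R _ hR => by rw [if_neg hR, smul_zero]) (by simp)]
    simp
  rw [← h, ← alt_add]
  refine alt_congr fun R _ => ?_
  split_ifs with k
  · rw [k, add_zero]
  · rw [zero_add]

/-- A function that does not see one of the coordinates has alternating sum zero. -/
theorem alt_toggle {T : Finset ι} {i : ι} (hi : i ∈ T) {v : Finset ι → M}
    (h : ∀ R ⊆ T.erase i, v (insert i R) = v R) : alt T v = 0 := by
  rw [← insert_erase hi, alt_insert (notMem_erase i T), alt_congr h, sub_self]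

theorem alt_const {T : Finset ι} (hT : T.Nonempty) (a : M) : alt T (fun _ => a) = 0 :=
  alt_toggle hT.choose_spec fun _ _ => rfl

/-- A function of at most one coordinate has alternating sum zero in dimension at least two. -/
theorem alt_one {T : Finset ι} (hT : 2 ≤ T.card) (j : ι) {v : Finset ι → M}
    (h : ∀ R ⊆ T, ∀ R' ⊆ T, (j ∈ R ↔ j ∈ R') → v R = v R') : alt T v = 0 := by
  obtain ⟨i, hi, hij⟩ := exists_mem_ne hT j
  refine alt_toggle hi fun R hR => h _ (insert_subset hi (hR.trans (erase_subset _ _))) _
    (hR.trans (erase_subset _ _)) ?_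
  simp [hij.symm]

/-- An affine function has alternating sum zero in dimension at least two. -/
theorem alt_affine {T : Finset ι} (hT : 2 ≤ T.card) (a : M) (d : ι → M) :
    alt T (fun R => a + ∑ i ∈ R, d i) = 0 := by
  obtain ⟨i, hi⟩ : T.Nonempty := card_pos.1 (by omega)
  rw [← insert_erase hi, alt_insert (notMem_erase i T), ← alt_sub,
    alt_congr (v' := fun _ => -d i) fun R hR => by
      rw [sum_insert fun k => notMem_erase i T (hR k)]
      abel]
  exact alt_const (card_pos.1 (by rw [card_erase_of_mem hi]; omega)) _

/-- Twisting the vertices by a multiplicative function. -/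
theorem alt_star {O : Type*} [CommRing O] [Module O M] (T : Finset ι) (y : ι → O)
    (v : Finset ι → M) : alt T (fun R => (∏ i ∈ R, (1 + y i)) • v R) =
      alt T fun R => (∏ i ∈ R, y i) • alt (T \ R) fun R' => v (R ∪ R') := by
  induction T using Finset.induction_on generalizing v with
  | empty => simp [alt_empty]
  | insert i T hi ih =>
    have e1 : alt T (fun R => (∏ j ∈ insert i R, (1 + y j)) • v (insert i R)) =
        (1 + y i) • alt T fun R => (∏ j ∈ R, (1 + y j)) • v (insert i R) := by
      rw [smul_alt]
      exact alt_congr fun R hR => by rw [prod_insert fun k => hi (hR k), mul_smul]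
    have e2 : alt T (fun R => (∏ j ∈ R, y j) • alt (insert i T \ R) fun R' => v (R ∪ R')) =
        (alt T fun R => (∏ j ∈ R, y j) • alt (T \ R) fun R' => v (R ∪ R')) -
          alt T fun R => (∏ j ∈ R, y j) • alt (T \ R) fun R' => v (insert i (R ∪ R')) := by
      rw [← alt_sub]
      refine alt_congr fun R hR => ?_
      rw [insert_sdiff_of_notMem _ fun k => hi (hR k),
        alt_insert fun k => hi (mem_sdiff.1 k).1, smul_sub]
      simp only [union_insert]
    have e3 : alt T (fun R => (∏ j ∈ insert i R, y j) •
        alt (insert i T \ insert i R) fun R' => v (insert i R ∪ R')) =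
        y i • alt T fun R => (∏ j ∈ R, y j) • alt (T \ R) fun R' => v (insert i (R ∪ R')) := by
      rw [smul_alt]
      refine alt_congr fun R hR => ?_
      rw [prod_insert fun k => hi (hR k), mul_smul, insert_sdiff_insert,
        sdiff_insert_of_notMem hi]
      simp only [insert_union]
    rw [alt_insert hi, alt_insert hi, e1, e2, e3, ih v, ih fun R => v (insert i R), add_smul,
      one_smul]
    abel

end Pool.Agent.Lib.MP_696deb_nt.CU
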