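import Pool.Agent.Lib.MP_696deb_nt.CU.E2

/-! The local conditions at good primes and at the primes of the twist. -/

set_option autoImplicit false

open scoped Classical

namespace Pool.Agent.Lib.MP_696deb_nt.CU

variable {n e l q : ℕ} {g : Gam} {P : A} {c : Gam → A} {u k : Gam → F3}

theorem e5_JJ {w : Plc} (h : P ∈ K1 w) : JJ P ∈ K1 w := by
  rcases P with _ | ⟨x, y, k⟩
  · exact zero_mem _
  · have h1 := (H3.mem_K1.1 h).resolve_left (WeierstrassCurve.Affine.Point.some_ne_zero _)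
    refine H3.mem_K1.2 (.inr ?_)
    change 1 < w.V (zeta 1 ^ 2 * x)
    rw [map_mul, w.V_root_of_unity three_ne_zero zsq_cube, one_mul]
    exact h1

theorem smul_K1 {w : Plc} (z : O) (h : P ∈ K1 w) : z • P ∈ K1 w :=
  add_mem (zsmul_mem h z.re) (zsmul_mem (e5_JJ h) z.im)

theorem act_K1 {w : Plc} (hg : g ∈ Dec w) (h : P ∈ K1 w) : act n e g P ∈ K1 w :=
  zsmul_mem (smul_K1 _ ((H3.K1_smul hg).2 h)) _

theorem e5_div {w : Plc} (hw : w.p ≠ 3) (j : ℕ) (h : P ∈ K1 w) : ∃ Q ∈ K1 w, th ^ j • Q = P := by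
  induction j with
  | zero => exact ⟨P, h, one_smul _ _⟩
  | succ j ih =>
    obtain ⟨Q, h1, rfl⟩ := ih
    obtain ⟨R, h2, rfl⟩ := H3.K1_third hw h1
    refine ⟨(-th) • R, smul_K1 _ h2, ?_⟩
    have e : th * -th = ((3 : ℕ) : O) := by decide
    rw [pow_succ, mul_smul, smul_smul th, e, Nat.cast_smul_eq_nsmul]

theorem e5_act (n : ℕ) (e e' : ℕ) (hg : chi g = 1) (P : A) : act n e g P = act n e' g P := by
  rw [act_apply, act_apply, show ep g = 1 from if_pos hg, one_pow, one_pow]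

theorem e5_ine (n e : ℕ) (hg : chi g = 1) (P : A) :
    cob (act n e) P g = un (kk n g) • g • P - P := by
  rw [H3.cob, act_apply, show ep g = 1 from if_pos hg, one_pow, one_zsmul]

theorem e5_kil (h : th ^ l • P = 0) (g : Gam) : th ^ l • cob (act n e) P g = 0 := by
  rw [H3.cob, smul_sub, ← act_th_pow, h, map_zero, sub_zero]

theorem loc_good (hq : q.Prime) (h3 : q ≠ 3) (hn : ¬ q ∣ n) (h : Loc n e q c)
    (hl : ∀ g ∈ Gq q, th ^ l • c g = 0) : c (sq q) = 0 := by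
  obtain ⟨P, hP⟩ := h
  have hs := sq_ine hq h3
  refine H3.rd_K1_tors (w := pl q) ?_ (three_pow_smul (hl _ (sq_mem hq h3)))
  rw [hP _ (sq_mem hq h3), e5_ine n e (chi_ine hq h3 hs), kk_ine hq h3 hn hs, un_zero, one_smul]
  exact H3.K1_ine (by rwa [pl_p hq]) hs P

theorem e5_mem (h : ∀ g, th ^ l • cob (act n e) P g = 0) : cob (act n e) P ∈ Zs n e l :=
  ⟨coc_cob n e ⊤ P, h, fun q _ _ => loc_cob n e q P, fun q hq k =>
    loc_good hq (fun e => k (e ▸ dvd_mul_right 3 n)) (fun e => k (e.mul_left 3)) (loc_cob n e q P)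
      fun g _ => h g⟩

theorem cob_mem_Zs (n e : ℕ) (h : th ^ l • P = 0) : cob (act n e) P ∈ Zs n e l :=
  e5_mem (e5_kil h)

theorem e5_cob (n : ℕ) (a b : F3) (g : Gam) :
    cob (act n 1) (b.val • T3 + kT a) g = kT (-b * kk n g + a * (chi g - 1)) := by
  have e : cob (act n 1) (b.val • T3) g = b.val • cob (act n 1) T3 g := by
    simp only [H3.cob, map_nsmul, smul_sub]
  rw [cob_add, e, cob_T3, cob_kT, ← map_nsmul, ← map_add, nsmul_eq_mul, ZMod.natCast_zmod_val,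
    pow_one, mul_neg, neg_mul]

theorem e5_kC (n : ℕ) (a b : F3) : kC (fun g => -b * kk n g + a * (chi g - 1)) ∈ Zs n 1 1 := by
  rw [show kC _ = cob (act n 1) (b.val • T3 + kT a) from (funext (e5_cob n a b)).symm]
  exact e5_mem fun g => by rw [e5_cob, pow_one, th_kT]

theorem kk_mem_Zs (n : ℕ) : kC (kk n) ∈ Zs n 1 1 := by
  simpa only [neg_neg, one_mul, zero_mul, add_zero] using e5_kC n 0 (-1)

theorem chi_mem_Zs (n : ℕ) : kC (fun g => chi g - 1) ∈ Zs n 1 1 := by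
  simpa only [neg_zero, one_mul, zero_mul, zero_add] using e5_kC n 1 0

/-- At a prime of the twist the point can be chosen of finite order. -/
theorem Loc.tors (h : Loc n e q c) (hq : q.Prime) (h3 : q ≠ 3) (hn : kk n (sq q) ≠ 0)
    (hl : ∀ g ∈ Gq q, th ^ l • c g = 0) :
    ∃ P : A, th ^ (l + 1) • P = 0 ∧ ∀ g ∈ Gq q, c g = cob (act n e) P g := by
  obtain ⟨P, hP⟩ := h
  have hs := sq_ine hq h3
  have hw : (pl q).p ≠ 3 := by rwa [pl_p hq]
  obtain ⟨v, hv⟩ := (isUnit_nu hn).exists_left_inv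
  have h1 := hl _ (sq_mem hq h3)
  rw [hP _ (sq_mem hq h3), e5_ine n e (chi_ine hq h3 hs)] at h1
  have h2 : th ^ (l + 1) • P = (-(v * th ^ l * un (kk n (sq q)))) • (sq q • P - P) := by
    rw [un_eq] at h1 ⊢
    generalize sq q • P = R at h1 ⊢
    linear_combination (norm := module) v • h1 - hv • th ^ (l + 1) • P
  obtain ⟨Q, h4, h5⟩ := e5_div hw (l + 1) (h2 ▸ smul_K1 _ (H3.K1_ine hw hs P))
  have h6 : th ^ (l + 1) • (P - Q) = 0 := by rw [smul_sub, h5, sub_self]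
  refine ⟨P - Q, h6, fun g hg => ?_⟩
  have h7 := e5_kil (n := n) (e := e) h6 g
  rw [cob_sub, ← hP g hg] at h7 ⊢
  rw [smul_sub, pow_succ', mul_smul, hl g hg, smul_zero, zero_sub, neg_eq_zero, ← pow_succ'] at h7
  rw [show cob (act n e) Q g = 0 from
    H3.rd_K1_tors (w := pl q) (sub_mem (act_K1 hg h4) h4) (three_pow_smul h7), sub_zero]

theorem e5_two (h : Loc n e q (kC u)) (hq : q.Prime) (h3 : q ≠ 3) (hn : kk n (sq q) = 1) :
    ∃ a b : F3, ∀ g ∈ Gq q, kT (u g) = cob (act n e) (b.val • T3 + kT a) g := by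
  obtain ⟨P, h1, h2⟩ := h.tors (l := 1) hq h3 (hn ▸ one_ne_zero) fun g _ => by
    rw [pow_one, th_kT]
  rw [pow_succ, pow_one, mul_smul] at h1
  obtain ⟨b, hb⟩ := exists_kT h1
  obtain ⟨a, ha⟩ := exists_kT (P := P - b.val • T3) (by
    rw [smul_sub, hb, smul_comm]
    exact sub_self _)
  exact ⟨a, b, fun g hg => by rw [← ha, add_sub_cancel, ← h2 g hg]⟩

theorem f1_one (hq : q.Prime) (h3 : q ≠ 3) (hn : kk n (sq q) = 1) (hk : Kc 1 (Gq q) k) :
    Loc n 1 q (kC k) ↔ q % 3 = 2 ∨ k (fq q) = k (sq q) * kk n (fq q) := by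
  have hs := chi_ine hq h3 (sq_ine hq h3)
  constructor
  · intro h
    obtain ⟨a, b, h1⟩ := e5_two h hq h3 hn
    refine or_iff_not_imp_left.2 fun h2 => ?_
    have h4 : q % 3 = 1 := by
      have : ¬ 3 ∣ q := fun e => h3 ((Nat.prime_dvd_prime_iff_eq Nat.prime_three hq).1 e).symm
      omega
    rw [kT_inj ((h1 _ (fq_mem hq)).trans (e5_cob n a b _)),
      kT_inj ((h1 _ (sq_mem hq h3)).trans (e5_cob n a b _)), chi_Gq hq h4 (fq_mem hq), hs, hn]
    ring
  · intro h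
    obtain ⟨a, ha⟩ : ∃ a, k (fq q) = k (sq q) * kk n (fq q) + a * (chi (fq q) - 1) := by
      rcases h with h | h
      · refine ⟨k (fq q) - k (sq q) * kk n (fq q), ?_⟩
        rw [chi_fq hq h3, ← ZMod.natCast_mod q 3, h]
        push_cast
        ring
      · exact ⟨0, by rw [zero_mul, add_zero, h]⟩
    refine ⟨(-k (sq q)).val • T3 + kT a, fun g hg => ?_⟩
    rw [e5_cob, neg_neg]
    refine congrArg kT (sub_eq_zero.1 ?_)
    refine (hk.sub (((kc_kk n _).smul (k (sq q))).add ((kc_chi _).smul a))).det hq h3 ?_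
      (sub_eq_zero.2 ha) hg
    simp only [Pi.sub_apply, Pi.add_apply, hs, hn]
    ring

theorem f1_zero (hq : q.Prime) (h3 : q ≠ 3) (hn : kk n (sq q) = 1) (h : Loc n 0 q (kC u))
    (hg : g ∈ Gq q) : u g = u (sq q) * kk n g := by
  obtain ⟨a, b, h1⟩ := e5_two h hq h3 hn
  have h2 : ∀ g ∈ Gq q, chi g = 1 → u g = -b * kk n g := fun g hg e => kT_inj (by
    rw [h1 g hg, H3.cob, e5_act n 0 1 e, ← H3.cob, e5_cob, e, sub_self, mul_zero, add_zero])
  rw [h2 _ (sq_mem hq h3) (chi_ine hq h3 (sq_ine hq h3)), hn, mul_one]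
  refine (chi_cases g).elim (h2 g hg) fun e => ?_
  have h4 := congrArg (th • ·) (h1 g hg)
  simp only [th_kT, ← cob_th, smul_add, add_zero] at h4
  rw [smul_comm, show b.val • th • T3 = kT b from rfl, cob_kT, e, eq_comm,
    map_eq_zero_iff _ kT_inj] at h4
  have h5 : ∀ b : F3, b * ((-1) ^ (0 + 1) - 1) = 0 → b = 0 := by decide
  obtain rfl := h5 b h4
  refine kT_inj ?_
  rw [h1 g hg, ZMod.val_zero, zero_nsmul, zero_add, cob_kT, pow_zero, sub_self, mul_zero, neg_zero,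
    zero_mul]

end Pool.Agent.Lib.MP_696deb_nt.CU
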