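import Pool.Agent.Lib.MP_696deb_nt.CU.D0

/-! Algebra of the twisted actions. -/

set_option autoImplicit false

open scoped Classical

namespace Pool.Agent.Lib.MP_696deb_nt.CU

variable {n n' m e l q : ℕ} {D : Subgroup Gam} {g h : Gam} {P Q : A} {c c' : Gam → A}
  {u u' k : Gam → F3}

theorem F3_cases (a : F3) : a = 0 ∨ a = 1 ∨ a = 2 := by revert a; decide

theorem om_smul (P : A) : om • P = JJ P := by simp [smul_def, om]

theorem om_cube : om ^ 3 = 1 := by decide

theorem th_sq : th ^ 2 = -3 := by decide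

theorem un_zero : un 0 = 1 := by decide

theorem un_add (a b : F3) : un (a + b) = un a * un b := by revert a b; decide

theorem un_eq (a : F3) : un a = 1 + th * nu a := by revert a; decide

theorem nu_zero : nu 0 = 0 := rfl

theorem red_nu (a : F3) : red (nu a) = -a := by revert a; decide

theorem red_th : red th = 0 := by decide

theorem red_un (a : F3) : red (un a) = 1 := by revert a; decide

theorem isUnit_un (a : F3) : IsUnit (un a) :=
  IsUnit.of_mul_eq_one (un (-a)) (by rw [← un_add, add_neg_cancel, un_zero])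

theorem isUnit_nu {a : F3} (h : a ≠ 0) : IsUnit (nu a) := by
  rcases F3_cases a with rfl | rfl | rfl
  · exact absurd rfl h
  · exact IsUnit.of_mul_eq_one (-om) (by decide)
  · exact IsUnit.of_mul_eq_one (om ^ 2) (by decide)

theorem un_sum {ι : Type*} (s : Finset ι) (a : ι → F3) : un (∑ i ∈ s, a i) = ∏ i ∈ s, un (a i) := by
  induction s using Finset.induction_on with
  | empty => simpa using un_zero
  | insert i s hi ih => rw [Finset.sum_insert hi, Finset.prod_insert hi, un_add, ih]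

theorem e1_co {P : A} {a b c : Qbar} (h : MP_23455a_nt.Co P a b c) :
    MP_23455a_nt.Co (JJ P) a b (zeta 1 ^ 2 * c) := by
  obtain ⟨m, hm, rfl, rfl, rfl⟩ := h
  refine ⟨m, hm, ?_⟩
  rcases P with _ | ⟨x, y, h⟩
  · exact ⟨rfl, rfl, by
      show _ = m * 0
      simp [MP_23455a_nt.cC]⟩
  · exact ⟨rfl, rfl, by
      show _ * (m * (-3 * x)) = m * (-3 * (zeta 1 ^ 2 * x))
      ring⟩

theorem e1_mu {w : Qbar} (hw : w ^ 3 = 1) : JJ (MP_23455a_nt.mu w) = MP_23455a_nt.mu w :=
  (e1_co (MP_23455a_nt.co_mu hw)).inj (by simpa using MP_23455a_nt.co_mu hw)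

theorem e1_T3 : JJ T3 = T3 + MP_23455a_nt.mu (zeta 1) := by
  have h := H3.TA.zeta_cube
  refine (e1_co MP_23455a_nt.co_T).inj ?_
  have := (MP_23455a_nt.co_T.add_mu h).smul (l := zeta 1 ^ 2) (pow_ne_zero 2 (H3.zeta_ne 1))
  rwa [show zeta 1 ^ 2 * (zeta 1 * 1) = 1 by linear_combination h, mul_zero, mul_zero] at this

theorem e1_three : 3 • (MP_23455a_nt.mu (zeta 1) : A) = 0 :=
  MP_23455a_nt.e3_zero (zeta 1) ▸ MP_23455a_nt.three_e3 0 H3.TA.zeta_cube

theorem T_eq : T = -MP_23455a_nt.mu (zeta 1) := by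
  have h1 := H3.TA.three_T3
  have h2 := e1_three
  rw [T, smul_def, e1_T3]
  show (1 : ℤ) • T3 + (2 : ℤ) • (T3 + _) = _
  linear_combination (norm := module) h1 + h2

theorem e1_JJ_T : JJ T = T := by rw [T_eq, map_neg, e1_mu H3.TA.zeta_cube]

theorem smul_kT (z : O) (b : F3) : z • kT b = kT (red z * b) := by
  have h1 : JJ (kT b) = kT b := by
    show JJ (b.val • T) = b.val • T
    rw [map_nsmul, e1_JJ_T]
  rw [smul_def, h1, ← map_zsmul, ← map_zsmul, ← map_add]
  congr 1
  show _ = ((z.re : F3) + (z.im : F3)) * b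
  rw [add_mul, zsmul_eq_mul, zsmul_eq_mul]

theorem th_kT (b : F3) : th • kT b = 0 := by rw [smul_kT, red_th, zero_mul, map_zero]

theorem kT_one : kT 1 = T := by
  show (1 : F3).val • T = T
  rw [ZMod.val_one, one_nsmul]

theorem T_ne : T ≠ 0 := by
  rw [T_eq, neg_ne_zero]
  exact H3.TA.gn_T3.symm.ne

theorem kT_inj : Function.Injective kT := by
  refine (injective_iff_map_eq_zero _).2 fun b h => by_contra fun k => T_ne ?_
  have := congrArg (fun P => b.val • P) h
  simp only [← map_nsmul, nsmul_eq_mul, ZMod.natCast_val, ZMod.cast_id', id] at this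
  have e : ∀ b : F3, ¬ b = 0 → b * b = 1 := by decide
  rwa [e b k, kT_one, nsmul_zero] at this

theorem e1_three_eq (P : A) : 3 • P = -(th • th • P) := by
  rw [← mul_smul, ← pow_two, th_sq, neg_smul, neg_neg, ← Nat.cast_smul_eq_nsmul O]
  rfl

theorem e1_three_of (h : th • P = 0) : 3 • P = 0 := by rw [e1_three_eq, h, smul_zero, neg_zero]

theorem exists_kT (h : th • P = 0) : ∃ b, P = kT b := by
  have h3 : 3 • P = 0 := e1_three_of h
  obtain ⟨i, w, hw, rfl⟩ := MP_23455a_nt.exists_e3 h3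
  obtain ⟨a, rfl⟩ := H3.exists_zeta_val (m := 1) hw
  have e : ∀ j : ℕ, (MP_23455a_nt.mu (zeta 1 ^ j) : A) = kT (-j) := fun j => by
    induction j with
    | zero => simp [MP_23455a_nt.mu_one]
    | succ j ih =>
      rw [pow_succ, MP_23455a_nt.mu_mul (by rw [pow_right_comm, H3.TA.zeta_cube, one_pow])
        H3.TA.zeta_cube, ih, Nat.cast_succ, neg_add, map_add, map_neg kT 1, kT_one, T_eq, neg_neg]
  rw [MP_23455a_nt.e3, e] at h ⊢
  rw [smul_add, th_kT, add_zero, smul_comm] at h
  have h1 : i = 0 := kT_inj (h.trans (map_zero _).symm)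
  exact ⟨_, by rw [h1, ZMod.val_zero, zero_nsmul, zero_add]⟩

theorem exists_root (k : ℕ) (P : A) : ∃ Q : A, th ^ k • Q = P := by
  induction k with
  | zero => exact ⟨P, by simp⟩
  | succ k ih =>
    obtain ⟨Q, rfl⟩ := ih
    obtain ⟨R, rfl⟩ := H3.pw_third Q
    exact ⟨-(th • R), by rw [pow_succ, mul_smul, smul_neg, e1_three_eq]⟩

theorem finite_tors (k : ℕ) : {P : A | th ^ k • P = 0}.Finite := by
  induction k with
  | zero => simp
  | succ k ih =>
    refine Set.Finite.of_finite_fibers (fun P => th • P) (ih.subset ?_) ?_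
    · rintro _ ⟨P, hP, rfl⟩
      simpa only [Set.mem_ofPred_eq, pow_succ, mul_smul] using hP
    · rintro _ ⟨P, -, rfl⟩
      refine (Set.finite_range fun b => P + kT b).subset fun Q hQ => ?_
      obtain ⟨b, hb⟩ := exists_kT (P := Q - P) (by rw [smul_sub, sub_eq_zero]; exact hQ.2)
      exact ⟨b, by simp [← hb]⟩

theorem card_tors (k : ℕ) : {P : A | th ^ k • P = 0}.ncard = 3 ^ k := by
  choose s hs using exists_root 1
  simp only [pow_one] at hs
  induction k with
  | zero => simp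
  | succ k ih =>
    have e : {P : A | th ^ (k + 1) • P = 0} =
        (fun x : A × F3 => s x.1 + kT x.2) '' ({P : A | th ^ k • P = 0} ×ˢ Set.univ) := by
      ext P
      constructor
      · intro hP
        obtain ⟨b, hb⟩ := exists_kT (P := P - s (th • P)) (by rw [smul_sub, hs, sub_self])
        exact ⟨(th • P, b), ⟨by simpa only [Set.mem_ofPred_eq, pow_succ, mul_smul] using hP,
          trivial⟩, by simp [← hb]⟩
      · rintro ⟨⟨Q, b⟩, ⟨hQ, -⟩, rfl⟩
        simpa only [Set.mem_ofPred_eq, pow_succ, mul_smul, smul_add, hs, th_kT, add_zero,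
          smul_zero] using hQ
    rw [e, Set.ncard_image_of_injective _ ?_, Set.ncard_prod, ih, Set.ncard_univ, Nat.card_zmod,
      pow_succ]
    rintro ⟨P, a⟩ ⟨Q, b⟩ h
    have h1 := congrArg (fun R => th • R) h
    simp only [smul_add, hs, th_kT, add_zero] at h1
    subst h1
    exact Prod.ext rfl (kT_inj (add_left_cancel h))

theorem three_pow_iff (k : ℕ) (P : A) : 3 ^ k • P = 0 ↔ th ^ (2 * k) • P = 0 := by
  rw [← Nat.cast_smul_eq_nsmul O, Nat.cast_pow, Nat.cast_ofNat, pow_mul, th_sq, neg_pow (3 : O),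
    mul_smul, (isUnit_one.neg.pow k).smul_eq_zero]

theorem three_pow_smul {k : ℕ} (h : th ^ k • P = 0) : 3 ^ k • P = 0 := by
  rw [three_pow_iff, two_mul, pow_add, mul_smul, h, smul_zero]

theorem un_T3 (a : F3) : un a • T3 = T3 - kT a := by
  rw [un_eq, add_smul, one_smul, mul_comm, mul_smul, ← T, ← kT_one, smul_kT, red_nu, mul_one,
    map_neg, sub_eq_add_neg]

theorem chi_mul (g h : Gam) : chi (g * h) = chi g * chi h := H3.cy_mul 1 g h

theorem chi_one : chi 1 = 1 := H3.cy_one 1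

theorem chi_cases (g : Gam) : chi g = 1 ∨ chi g = -1 := H3.cy_one_or g

theorem chi_sq (g : Gam) : chi g * chi g = 1 := by
  rcases chi_cases g with e | e <;> rw [e] <;> decide

theorem chi_cc : chi cc = -1 := H3.cy_cc 1

theorem mem_GK : g ∈ GK 3 ↔ chi g = 1 := H3.mem_GK3

theorem sm_chi (D : Subgroup Gam) : Sm D chi := H3.sm_cy 1

theorem ep_mul (g h : Gam) : ep (g * h) = ep g * ep h := by
  have : (-1 : F3) ≠ 1 := by decide
  rcases chi_cases g with e | e <;> rcases chi_cases h with e' | e' <;>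
    simp [ep, chi_mul, e, e', this]

theorem ep_one : ep 1 = 1 := if_pos chi_one

theorem ep_sq (g : Gam) : ep g * ep g = 1 := by
  unfold ep
  split_ifs <;> rfl

theorem ep_cast (g : Gam) : (ep g : F3) = chi g := by
  have : (-1 : F3) ≠ 1 := by decide
  rcases chi_cases g with e | e <;> simp [ep, e, this]

theorem gal_smul (g : Gam) (z : O) (P : A) :
    g • z • P = (if chi g = 1 then z else star z) • g • P := by
  have k : g • JJ P = if chi g = 1 then JJ (g • P) else JJ (JJ (g • P)) := by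
    have h3 := H3.TA.zeta_cube
    rcases P with _ | ⟨x, y, h⟩
    · split_ifs <;> rfl
    have h1 := H3.b1b_spec 1 g
    split_ifs with e
    · refine H3.TA.tae_ext ?_ rfl
      change g (zeta 1 ^ 2 * x) = zeta 1 ^ 2 * g x
      rw [map_mul, map_pow, H3.smul_zeta_one (mem_GK.2 e)]
    · refine H3.TA.tae_ext ?_ rfl
      change g (zeta 1 ^ 2 * x) = zeta 1 ^ 2 * (zeta 1 ^ 2 * g x)
      rw [map_mul, map_pow, h1, show cy 1 g = -1 from (chi_cases g).resolve_left e,
        show (-1 : ZMod (3 ^ 1)).val = 2 from rfl]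
      ring
  rw [smul_def, smul_def, smul_add, smul_comm g, smul_comm g, k]
  split_ifs with e
  · rfl
  · rw [JJ_JJ, QuadraticAlgebra.re_star, QuadraticAlgebra.im_star]
    generalize g • P = Q
    module

theorem gal_th (g : Gam) (P : A) : g • th • P = ep g • th • g • P := by
  rw [gal_smul, ep]
  split_ifs
  · rw [one_smul]
  · rw [show star th = -th by decide, neg_smul, neg_one_smul]

theorem gal_un (g : Gam) (a : F3) (P : A) : g • un a • P = un (chi g * a) • g • P := by
  rw [gal_smul]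
  split_ifs with e
  · rw [e, one_mul]
  · rw [(chi_cases g).resolve_left e, show star (un a) = un (-1 * a) by revert a; decide]

theorem gal_kT (g : Gam) (b : F3) : g • kT b = kT (chi g * b) := by
  have h : g • T = kT (chi g) := by
    rw [T, gal_th, H3.TA.smul_T3, ← T, ← kT_one, ← map_zsmul, zsmul_eq_mul, ep_cast, mul_one]
  show g • b.val • T = _
  rw [smul_comm, h, ← map_nsmul, nsmul_eq_mul, ZMod.natCast_val, ZMod.cast_id', id, mul_comm]

theorem rho_cube (n : ℕ) : rho n ^ 3 = n := (H3.exists_real_cbrt ⟨n, map_natCast cc n⟩).choose_spec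

theorem cc_rho (n : ℕ) : cc (rho n) = rho n := (H3.exists_real_cbrt ⟨n, map_natCast cc n⟩).choose.2

theorem rho_ne (h : n ≠ 0) : rho n ≠ 0 := fun e => h (by
  have := rho_cube n
  rw [e] at this
  exact_mod_cast (this.symm.trans (by norm_num) : (n : Qbar) = 0))

theorem rho_eq {r : Qbar} (h : r ^ 3 = n) (k : cc r = r) : r = rho n := by
  rcases eq_or_ne n 0 with rfl | hn
  · have h1 := rho_cube 0
    rw [Nat.cast_zero, pow_eq_zero_iff three_ne_zero] at h h1
    rw [h, h1]
  have h0 := rho_ne hn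
  obtain ⟨a, ha⟩ := H3.exists_zeta_val (m := 1) (x := r / rho n) (by
    rw [pow_one, div_pow, h, rho_cube, div_self (Nat.cast_ne_zero.2 hn)])
  have h1 : cc (r / rho n) = r / rho n := by rw [map_div₀, k, cc_rho]
  rw [ha, H3.smul_zeta_val, H3.cy_cc] at h1
  have e : ∀ a : ZMod (3 ^ 1), -1 * a = a → a = 0 := by decide
  rwa [e a (H3.zeta_val_inj h1), ZMod.val_zero, pow_zero, div_eq_iff h0, one_mul] at ha

theorem rho_mul (m n : ℕ) : rho (m * n) = rho m * rho n := (rho_eq (by rw [mul_pow, rho_cube, rho_cube, Nat.cast_mul])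
  (by rw [map_mul, cc_rho, cc_rho])).symm

theorem kk_spec (n : ℕ) (g : Gam) : g (rho n) = rho n * zeta 1 ^ (kk n g).val := by
  unfold kk
  split_ifs with h1 h2
  · rw [h1, ZMod.val_zero, pow_zero, mul_one]
  · rw [h2, ZMod.val_one, pow_one]
  · have h3 : g (rho n) ^ 3 = rho n ^ 3 := by rw [← map_pow, rho_cube, map_natCast]
    have h4 := H3.zeta_one
    rw [show (2 : F3).val = 2 from rfl]
    have h5 : (g (rho n) - rho n) * ((g (rho n) - rho n * zeta 1) *
        (g (rho n) - rho n * zeta 1 ^ 2)) = 0 := by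
      linear_combination h3 + (-g (rho n) ^ 2 * rho n + g (rho n) * rho n ^ 2 * zeta 1 -
        rho n ^ 3 * (zeta 1 - 1)) * h4
    exact sub_eq_zero.1 ((mul_eq_zero.1 ((mul_eq_zero.1 h5).resolve_left
      (sub_ne_zero.2 h1))).resolve_left (sub_ne_zero.2 h2))

theorem kk_eq (hn : n ≠ 0) {a : F3} (h : g (rho n) = rho n * zeta 1 ^ a.val) : kk n g = a := H3.zeta_val_inj (m := 1) (mul_left_cancel₀ (rho_ne hn) ((kk_spec n g).symm.trans h))

theorem kk_zero (g : Gam) : kk 0 g = 0 := if_pos (by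
  rw [← rho_eq (n := 0) (r := 0) (by simp) (map_zero _), map_zero])

theorem kk_one (g : Gam) : kk 1 g = 0 := if_pos (by
  rw [← rho_eq (n := 1) (r := 1) (by simp) (map_one _), map_one])

theorem kk_mul (hm : m ≠ 0) (hn : n ≠ 0) (g : Gam) : kk (m * n) g = kk m g + kk n g := kk_eq (mul_ne_zero hm hn) (by
  rw [rho_mul, map_mul, kk_spec m, kk_spec n, H3.zeta_val_add 1 (kk m g) (kk n g)]
  ring)

theorem kk_pow (n j : ℕ) (g : Gam) : kk (n ^ j) g = j * kk n g := by
  rcases eq_or_ne n 0 with rfl | hn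
  · rcases j with _ | j
    · simp [kk_one]
    · simp [kk_zero]
  induction j with
  | zero => simp [kk_one]
  | succ j ih => rw [pow_succ, kk_mul (pow_ne_zero j hn) hn, ih, Nat.cast_succ, add_one_mul]

theorem kk_prod {ι : Type*} (s : Finset ι) {x : ι → ℕ} (hx : ∀ i ∈ s, x i ≠ 0) (g : Gam) :
    kk (∏ i ∈ s, x i) g = ∑ i ∈ s, kk (x i) g := by
  induction s using Finset.induction_on with
  | empty => simp [kk_one]
  | insert i s hi ih =>
    have h := fun j hj => hx j (Finset.mem_insert_of_mem hj)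
    rw [Finset.prod_insert hi, Finset.sum_insert hi, kk_mul (hx i (Finset.mem_insert_self _ _))
      (Finset.prod_ne_zero_iff.2 h), ih h]

theorem kk_fac (hn : n ≠ 0) (g : Gam) :
    kk n g = ∑ p ∈ n.primeFactors, (n.factorization p : F3) * kk p g := by
  conv_lhs => rw [← Nat.prod_factorization_pow_eq_self hn, Finsupp.prod, Nat.support_factorization]
  rw [kk_prod _ fun p hp => pow_ne_zero _ (Nat.prime_of_mem_primeFactors hp).ne_zero]
  simp only [kk_pow]

theorem kk_cc (n : ℕ) : kk n cc = 0 := if_pos (cc_rho n)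

theorem kum_kk (hn : n ≠ 0) (D : Subgroup Gam) : Kum 1 D n (kk n) := ⟨rho n, rho_ne hn, rho_cube n, fun g _ => kk_spec n g⟩

theorem kc_kk (n : ℕ) (D : Subgroup Gam) : Kc 1 D (kk n) := by
  rcases eq_or_ne n 0 with rfl | hn
  · exact ⟨(B2.Sm.const 0).congr fun g _ => (kk_zero g).symm, fun g _ h _ => by simp [kk_zero]⟩
  · exact ⟨(kum_kk hn D).sm, fun g hg h hh => by
      rw [pow_one]
      exact (kum_kk hn D).coc g hg h hh⟩

theorem kc_chi (D : Subgroup Gam) : Kc 1 D fun g => chi g - 1 := ⟨(sm_chi D).comp (· - 1), fun g _ h _ => by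
  simp only [chi_mul]
  ring⟩

theorem Kc.zero (e : ℕ) (D : Subgroup Gam) : Kc e D 0 := ⟨B2.Sm.const 0, fun _ _ _ _ => by simp⟩

theorem Kc.add (h : Kc e D u) (h' : Kc e D u') : Kc e D (u + u') := ⟨h.1.comp₂ h'.1 (· + ·), fun g hg k hk => by
  simp only [Pi.add_apply, h.2 g hg k hk, h'.2 g hg k hk]
  ring⟩

theorem Kc.smul (h : Kc e D u) (a : F3) : Kc e D fun g => a * u g := ⟨h.1.comp (a * ·), fun g hg k hk => by
  simp only [h.2 g hg k hk]
  ring⟩

theorem Kc.neg (h : Kc e D u) : Kc e D (-u) := ⟨h.1.comp Neg.neg, fun g hg k hk => by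
  simp only [Pi.neg_apply, h.2 g hg k hk]
  ring⟩

theorem Kc.sub (h : Kc e D u) (h' : Kc e D u') : Kc e D (u - u') := by
  rw [sub_eq_add_neg]
  exact h.add h'.neg

theorem Kc.sum {ι : Type*} (s : Finset ι) {v : ι → Gam → F3} (h : ∀ i ∈ s, Kc e D (v i)) :
    Kc e D fun g => ∑ i ∈ s, v i g := by
  induction s using Finset.induction_on with
  | empty => exact Kc.zero e D
  | insert i s hi ih =>
    simp only [Finset.sum_insert hi]
    exact (h i (Finset.mem_insert_self _ _)).add (ih fun j hj => h j (Finset.mem_insert_of_mem hj))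

theorem Kc.mono {D' : Subgroup Gam} (h : Kc e D u) (k : D' ≤ D) : Kc e D' u := ⟨h.1.mono k, fun g hg l hl => h.2 g (k hg) l (k hl)⟩

theorem Kc.congr (h : Kc e D u) (k : ∀ g ∈ D, u g = u' g) : Kc e D u' := ⟨h.1.congr k, fun g hg l hl => by
  rw [← k _ (mul_mem hg hl), ← k g hg, ← k l hl, h.2 g hg l hl]⟩

theorem Kc.one (h : Kc e D u) : u 1 = 0 := by
  have := h.2 1 D.one_mem 1 D.one_mem
  rwa [mul_one, chi_one, one_pow, one_mul, left_eq_add] at this

theorem chi_pow_mod (g : Gam) (e : ℕ) : chi g ^ (e % 2) = chi g ^ e := by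
  conv_rhs => rw [← Nat.mod_add_div e 2, pow_add, pow_mul, pow_two, chi_sq, one_pow, mul_one]

theorem kc_mod : Kc (e % 2) D u ↔ Kc e D u := by
  simp only [Kc, chi_pow_mod]

theorem kc_zero : Kc 0 D u ↔ Sm D u ∧ IsHom D u := by
  simp only [Kc, pow_zero, one_mul, IsHom]

theorem act_apply (n e : ℕ) (g : Gam) (P : A) :
    act n e g P = ep g ^ (e + 1) • un (kk n g) • g • P := rfl

theorem act_one (n e : ℕ) (P : A) : act n e 1 P = P := by
  rw [act_apply, ep_one, one_pow, (kc_kk n ⊤).one, un_zero, one_smul, one_smul, one_smul]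

theorem act_mul (n e : ℕ) (g h : Gam) (P : A) : act n e (g * h) P = act n e g (act n e h P) := by
  rw [act_apply, act_apply, act_apply, (kc_kk n ⊤).2 g trivial h trivial, pow_one, smul_comm g,
    gal_un, ep_mul, mul_pow, un_add, mul_smul, mul_smul, mul_smul,
    smul_comm (un (kk n g)) (ep h ^ _)]

theorem act_add_two (n e : ℕ) : act n (e + 2) = act n e := by
  funext g
  ext P
  rw [act_apply, act_apply, add_right_comm, pow_add _ _ 2, pow_two, ep_sq, mul_one]

theorem act_mod (n e : ℕ) : act n (e % 2) = act n e := by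
  induction e using Nat.strong_induction_on with
  | _ e ih =>
    rcases e with _ | _ | e
    · rfl
    · rfl
    · rw [show e + 1 + 1 = e + 2 from rfl, act_add_two, Nat.add_mod_right, ih e (by omega)]

theorem act_smul (n e : ℕ) (g : Gam) (z : O) (P : A) :
    act n e g (z • P) = (if chi g = 1 then z else star z) • act n e g P := by
  rw [act_apply, act_apply, gal_smul, smul_comm (un _), smul_comm (ep g ^ _)]

theorem act_th (n e : ℕ) (g : Gam) (P : A) : act n (e + 1) g (th • P) = th • act n e g P := by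
  rw [act_apply, act_apply, gal_th, smul_comm (un _) (ep g), ← mul_smul, ← pow_succ,
    show e + 1 + 1 + 1 = e + 1 + 2 from rfl, pow_add _ _ 2, pow_two, ep_sq, mul_one,
    smul_comm (un _), smul_comm (ep g ^ _)]

theorem act_th' (n e : ℕ) (g : Gam) (P : A) : act n e g (th • P) = th • act n (e + 1) g P := by
  rw [← act_th, show e + 1 + 1 = e + 2 from rfl, act_add_two]

theorem act_th_pow (n e j : ℕ) (g : Gam) (P : A) :
    act n (e + j) g (th ^ j • P) = th ^ j • act n e g P := by
  induction j with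
  | zero => simp
  | succ j ih => rw [pow_succ', mul_smul, mul_smul, ← add_assoc, act_th, ih]

theorem act_kT (n e : ℕ) (g : Gam) (b : F3) : act n e g (kT b) = kT (chi g ^ e * b) := by
  rw [act_apply, gal_kT, smul_kT, red_un, one_mul, ← map_zsmul, zsmul_eq_mul, Int.cast_pow, ep_cast,
    pow_succ, mul_assoc, ← mul_assoc (chi g), chi_sq, one_mul]

theorem act_congr (e : ℕ) (h : kk n g = kk n' g) : act n e g = act n' e g := by
  ext P
  rw [act_apply, act_apply, h]

theorem act_rel (n n' e : ℕ) (g : Gam) (P : A) :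
    act n' e g P = un (kk n' g - kk n g) • act n e g P := by
  rw [act_apply, act_apply, smul_comm (un (_ - _)), ← mul_smul (un _), ← un_add, sub_add_cancel]

theorem sm_act (n e : ℕ) (D : Subgroup Gam) (P : A) : Sm D fun g => act n e g P := (((sm_chi D).comp₂ (kc_kk n D).1 Prod.mk).comp₂ (H3.sm_pt D P)
  fun x Q => (if x.1 = 1 then (1 : ℤ) else -1) ^ (e + 1) • un x.2 • Q)

theorem cob_sub (a : Gam → A →+ A) (P Q : A) (g : Gam) :
    cob a (P - Q) g = cob a P g - cob a Q g := by
  simp only [cob, map_sub]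
  abel

theorem cob_th (n e : ℕ) (P : A) (g : Gam) :
    cob (act n (e + 1)) (th • P) g = th • cob (act n e) P g := by
  rw [cob, cob, act_th, smul_sub]

theorem cob_th' (n e : ℕ) (P : A) (g : Gam) :
    cob (act n e) (th • P) g = th • cob (act n (e + 1)) P g := by
  rw [cob, cob, act_th', smul_sub]

theorem cob_kT (n e : ℕ) (b : F3) (g : Gam) :
    cob (act n e) (kT b) g = kT (b * (chi g ^ e - 1)) := by
  rw [cob, act_kT, ← map_sub, mul_sub, mul_one, mul_comm]

theorem cob_T3 (n : ℕ) (g : Gam) : cob (act n 1) T3 g = kT (-kk n g) := by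
  rw [cob, act_apply, H3.TA.smul_T3, un_T3, one_add_one_eq_two, pow_two, ep_sq, one_smul, map_neg]
  abel

theorem coc_cob (n e : ℕ) (D : Subgroup Gam) (P : A) : Coc D (act n e) (cob (act n e) P) := ⟨(sm_act n e D P).comp (· - P), fun g _ h _ => by
  simp only [cob, act_mul, map_sub]
  abel⟩

theorem coc_kC : Coc D (act n e) (kC u) ↔ Kc e D u := by
  refine and_congr ⟨fun h => (h.comp (Function.invFun kT)).congr fun g _ =>
    Function.leftInverse_invFun kT_inj _, fun h => h.comp kT⟩ ?_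
  simp only [act_kT, ← map_add, kT_inj.eq_iff]

theorem coc_one (h : Coc D (act n e) c) : c 1 = 0 := by
  have := h.2 1 D.one_mem 1 D.one_mem
  rwa [mul_one, act_one, left_eq_add] at this

theorem coc_th (h : Coc D (act n e) c) : Coc D (act n (e + 1)) (th • c) := ⟨h.1.comp (th • ·), fun g hg k hk => by
  simp only [Pi.smul_apply, h.2 g hg k hk, smul_add, act_th]⟩

theorem coc_th_pow (h : Coc D (act n e) c) (j : ℕ) : Coc D (act n (e + j)) (th ^ j • c) := ⟨h.1.comp (th ^ j • ·), fun g hg k hk => by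
  simp only [Pi.smul_apply, h.2 g hg k hk, smul_add, act_th_pow]⟩

theorem coc_zsmul (h : Coc D (act n e) c) (a : ℤ) : Coc D (act n e) (a • c) := ⟨h.1.comp (a • ·), fun g hg k hk => by
  simp only [Pi.smul_apply, h.2 g hg k hk, smul_add, map_zsmul]⟩

theorem coc_congr_act (h : Coc D (act n e) c) (k : ∀ g ∈ D, kk n g = kk n' g) :
    Coc D (act n' e) c := ⟨h.1, fun g hg l hl => by rw [h.2 g hg l hl, act_congr e (k g hg)]⟩

theorem exists_kC (h : Coc D (act n e) c) (k : ∀ g ∈ D, th • c g = 0) :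
    ∃ u, Kc e D u ∧ ∀ g ∈ D, c g = kT (u g) := by
  have e1 : ∀ g ∈ D, c g = kT (Function.invFun kT (c g)) := fun g hg => by
    obtain ⟨b, hb⟩ := exists_kT (k g hg)
    rw [hb, Function.leftInverse_invFun kT_inj]
  exact ⟨fun g => Function.invFun kT (c g), coc_kC.1 (h.lo_congr fun g hg => (e1 g hg).symm), e1⟩

theorem Loc.congr (h : Loc n e q c) (k : ∀ g ∈ Gq q, kk n g = kk n' g)
    (k' : ∀ g ∈ Gq q, c g = c' g) : Loc n' e q c' := by
  obtain ⟨P, hP⟩ := h
  exact ⟨P, fun g hg => by rw [← k' g hg, hP g hg, cob, cob, act_congr e (k g hg)]⟩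

theorem Loc.th_smul (h : Loc n e q c) : Loc n (e + 1) q (th • c) := by
  obtain ⟨P, hP⟩ := h
  exact ⟨th • P, fun g hg => by rw [Pi.smul_apply, hP g hg, cob_th]⟩

theorem loc_cob (n e q : ℕ) (P : A) : Loc n e q (cob (act n e) P) := ⟨P, fun _ _ => rfl⟩

theorem zs_mod (n e l : ℕ) : Zs n (e % 2) l = Zs n e l := by
  have e1 : ∀ q c, Loc n (e % 2) q c ↔ Loc n e q c := fun q c => by simp only [Loc, act_mod]
  ext c
  exact ⟨fun h => ⟨act_mod n e ▸ h.coc, h.kil, fun q hq k => (e1 q c).1 (h.loc q hq k), h.unr⟩,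
    fun h => ⟨(act_mod n e).symm ▸ h.coc, h.kil, fun q hq k => (e1 q c).2 (h.loc q hq k), h.unr⟩⟩

theorem zs_mono {l' : ℕ} (h : l ≤ l') : Zs n e l ≤ Zs n e l' := fun c hc => ⟨hc.coc, fun g => by
  obtain ⟨j, rfl⟩ := Nat.exists_eq_add_of_le' h
  rw [pow_add, mul_smul, hc.kil, smul_zero], hc.loc, hc.unr⟩

theorem zs_th (h : c ∈ Zs n e (l + 1)) : th • c ∈ Zs n (e + 1) l := ⟨coc_th h.coc, fun g => by
  rw [Pi.smul_apply, ← mul_smul, ← pow_succ, h.kil], fun q hq k => (h.loc q hq k).th_smul,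
  fun q hq k => by rw [Pi.smul_apply, h.unr q hq k, smul_zero]⟩

theorem zs_th_pow (j : ℕ) (h : c ∈ Zs n e (l + j)) : th ^ j • c ∈ Zs n (e + j) l := by
  induction j generalizing l with
  | zero => simpa using h
  | succ j ih =>
    rw [pow_succ', mul_smul]
    exact zs_th (ih (by rwa [add_assoc, add_comm 1 j]))

theorem zs_one (h : c ∈ Zs n e 1) : ∃ u, Kc e ⊤ u ∧ c = kC u := by
  obtain ⟨u, h1, h2⟩ := exists_kC h.coc fun g _ => by simpa using h.kil g
  exact ⟨u, h1, funext fun g => h2 g trivial⟩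

end Pool.Agent.Lib.MP_696deb_nt.CU
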