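import Pool.Agent.Lib.MP_696deb_nt.CU.E2a
import Pool.Agent.Lib.MP_696deb_nt.CU.E1

/-! Cocycles on tame decomposition groups, the local pairing. -/

set_option autoImplicit false

open scoped Classical

namespace Pool.Agent.Lib.MP_696deb_nt.CU

variable {n e l q : ℕ} {g : Gam} {P : A} {c c' : Gam → A} {u u' k k' : Gam → F3}

theorem e2_op : Op (⊤ : Subgroup Gam) := isOpen_univ

theorem e2_top {x : Gam → Gam → F3} (hx : C2 1 (Gq q) x) : C2 1 (⊤ ⊓ Dec (pl q)) x :=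
  hx.mono inf_le_right

theorem c2_lp {D : Subgroup Gam} (hu : Kc 0 D u) (hk : Kc 1 D k) :
    C2 1 D fun g h => (u g * chi g * k h : F3) :=
  H3.c2_cup (m := 1) hu.1 (kc_zero.1 hu).2 hk.1 fun g hg h hh =>
    (hk.2 g hg h hh).trans (by rw [pow_one]; rfl)

theorem inv_congr {x y : Gam → Gam → F3} (h : ∀ g ∈ Gq q, ∀ h ∈ Gq q, x g h = y g h) :
    inv q x = inv q y := FF.congr (m := 1) fun g hg g' hg' => h g hg.2 g' hg'.2

theorem inv_add {x y : Gam → Gam → F3} (hx : C2 1 (Gq q) x) (hy : C2 1 (Gq q) y) :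
    inv q (x + y) = inv q x + inv q y := FF.add (m := 1) e2_op (e2_top hx) (e2_top hy)

theorem inv_smul {x : Gam → Gam → F3} (hx : C2 1 (Gq q) x) (a : F3) :
    inv q (fun g h => a * x g h) = a * inv q x := FF.smul (m := 1) e2_op (e2_top hx) a

theorem inv_eq_zero {x : Gam → Gam → F3} (hx : C2 1 (Gq q) x) : inv q x = 0 ↔ Spl 1 (Gq q) x :=
  (FF.zero_iff (m := 1) e2_op (e2_top hx)).trans (by rw [top_inf_eq])

theorem inv_unr {x : Gam → Gam → F3} (hx : C2 1 (Gq q) x)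
    (h : ∀ g ∈ Gq q, ∀ h ∈ Gq q, ∀ s ∈ Iq q, ∀ t ∈ Iq q, x (g * s) (h * t) = x g h) : inv q x = 0 :=
  FF.unr (m := 1) e2_op (e2_top hx) fun g hg g' hg' s hs t ht => h g hg.2 g' hg'.2 s hs.2 t ht.2

theorem lp_congr (h : ∀ g ∈ Gq q, u g = u' g) (h' : ∀ g ∈ Gq q, k g = k' g) :
    lp q u k = lp q u' k' := inv_congr fun g hg g' hg' => by rw [h g hg, h' g' hg']

theorem lp_add_left (hu : Kc 0 (Gq q) u) (hu' : Kc 0 (Gq q) u') (hk : Kc 1 (Gq q) k) :
    lp q (u + u') k = lp q u k + lp q u' k :=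
  (inv_congr fun g _ g' _ => by simp only [Pi.add_apply]; ring).trans
    (inv_add (c2_lp hu hk) (c2_lp hu' hk))

theorem lp_add_right (hu : Kc 0 (Gq q) u) (hk : Kc 1 (Gq q) k) (hk' : Kc 1 (Gq q) k') :
    lp q u (k + k') = lp q u k + lp q u k' :=
  (inv_congr fun g _ g' _ => by simp only [Pi.add_apply]; ring).trans
    (inv_add (c2_lp hu hk) (c2_lp hu hk'))

theorem lp_smul_left (hu : Kc 0 (Gq q) u) (hk : Kc 1 (Gq q) k) (a : F3) :
    lp q (fun g => a * u g) k = a * lp q u k :=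
  (inv_congr fun g _ g' _ => by ring).trans (inv_smul (c2_lp hu hk) a)

theorem lp_smul_right (hu : Kc 0 (Gq q) u) (hk : Kc 1 (Gq q) k) (a : F3) :
    lp q u (fun g => a * k g) = a * lp q u k :=
  (inv_congr fun g _ g' _ => by ring).trans (inv_smul (c2_lp hu hk) a)

theorem e2_zero : inv q (fun _ _ => 0) = 0 := H3.B3c_inv_zero (m := 1) FF e2_op

theorem lp_zero_left (h : ∀ g ∈ Gq q, u g = 0) (k : Gam → F3) : lp q u k = 0 :=
  (inv_congr fun g hg g' _ => by rw [h g hg, zero_mul, zero_mul]).trans e2_zero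

theorem lp_zero_right (u : Gam → F3) (h : ∀ g ∈ Gq q, k g = 0) : lp q u k = 0 :=
  (inv_congr fun g _ g' hg' => by rw [h g' hg', mul_zero]).trans e2_zero

theorem lp_chi (hu : Kc 0 (Gq q) u) : lp q u (fun g => chi g - 1) = 0 :=
  have h := kc_zero.1 (hu.mono (inf_le_right : ⊤ ⊓ Dec (pl q) ≤ _))
  (H3.B3c_cup_cob (m := 1) (κ := fun g => chi g - 1) FF e2_op h.1 h.2 1
    fun _ _ => (mul_one _).symm).2

/-- The other order of the cup product. -/
theorem inv_flip (hu : Kc 0 (Gq q) u) (hk : Kc 1 (Gq q) k) :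
    inv q (fun g h => k g * u h) = -lp q u k := by
  have h1 : C2 1 (Gq q) fun g h => (k g * u h : F3) :=
    ⟨hk.1.left.comp₂ hu.1.right (· * ·), fun a ha b hb c hc => by
      change chi a * (k b * u c) + k a * u (b * c) = k (a * b) * u c + k a * u b
      rw [hu.2 b hb c hc, hk.2 a ha b hb]
      ring⟩
  have h2 := c2_lp hu hk
  rw [eq_neg_iff_add_eq_zero, lp, ← inv_add h1 h2, inv_eq_zero (h1.add h2)]
  refine ⟨fun g => (-(u g * k g) : F3), hu.1.comp₂ hk.1 fun a b => -(a * b), fun a ha b hb => ?_⟩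
  change k a * u b + u a * chi a * k b =
    -(u a * k a) + chi a * -(u b * k b) - -(u (a * b) * k (a * b))
  rw [hu.2 a ha b hb, hk.2 a ha b hb]
  ring

theorem e2_ine (hq : q.Prime) (h3 : q ≠ 3) (hu : Kc e (Gq q) u) (hs : u (sq q) = 0)
    (hg : g ∈ Iq q) : u g = 0 := by
  rw [(hu.mono (B2.Ine_le _)).ine hq h3 hg, hs, mul_zero]

theorem e2_dec (hk : Kc e (Gq q) k) (hk' : Kc e (Gq q) k') (a : F3) :
    Kc e (Gq q) (k - fun g => a * k' g) ∧ k = (k - fun g => a * k' g) + fun g => a * k' g :=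
  ⟨hk.sub (hk'.smul a), (sub_add_cancel _ _).symm⟩

theorem lp_unr (hq : q.Prime) (h3 : q ≠ 3) (hu : Kc 0 (Gq q) u) (hk : Kc 1 (Gq q) k)
    (hs : u (sq q) = 0) : lp q u k = u (fq q) * k (sq q) := by
  obtain ⟨h1, h2⟩ := e2_dec hk (kc_kk q _) (k (sq q))
  have h4 : lp q u (kk q) = u (fq q) := by
    have h := kc_zero.1 (hu.mono (inf_le_right : ⊤ ⊓ Dec (pl q) ≤ _))
    have h5 := FF.kum (m := 1) (H := ⊤) (w := pl q) (φ := fq q) 1 e2_op le_top trivial
      (by rw [top_inf_eq, Subgroup.relIndex_self, pow_one, pl_p hq]; exact fq_frob hq) h.1 h.2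
      (fun s hs' => e2_ine hq h3 hu hs hs') (kum_kk hq.ne_zero _)
      (by rw [zpow_one, ← (pl q).hV, pl_p hq])
    rw [Int.cast_one, mul_one] at h5
    exact h5
  have h5 : lp q u (k - fun g => k (sq q) * kk q g) = 0 :=
    inv_unr (c2_lp hu h1) fun a ha b hb s hs' t ht => by
      rw [hu.2 a ha s (B2.Ine_le _ hs'), h1.2 b hb t (B2.Ine_le _ ht), chi_mul, chi_ine hq h3 hs',
        e2_ine hq h3 hu hs hs', e2_ine hq h3 h1 (by
          rw [Pi.sub_apply, kk_sq_self hq h3, mul_one, sub_self]) ht]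
      ring
  rw [congrArg (lp q u) h2, lp_add_right hu h1 ((kc_kk q _).smul _), h5,
    lp_smul_right hu (kc_kk q _), h4, zero_add, mul_comm]

theorem lp_tame (hq : q.Prime) (h3 : q ≠ 3) (hu : Kc 0 (Gq q) u) (hk : Kc 1 (Gq q) k) :
    lp q u k = u (fq q) * k (sq q) - u (sq q) * k (fq q) := by
  have h0 : q % 3 ≠ 0 := fun h => h3 ((Nat.prime_dvd_prime_iff_eq Nat.prime_three hq).1
    (Nat.dvd_of_mod_eq_zero h)).symm
  rcases (by omega : q % 3 = 2 ∨ q % 3 = 1) with h2 | h1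
  · rw [lp_unr hq h3 hu hk (hu.ev hq h2), hu.ev hq h2, zero_mul, sub_zero]
  have sw : ∀ {e e' : ℕ} {v : Gam → F3}, Kc e (Gq q) v → Kc e' (Gq q) v := fun h =>
    ⟨h.1, fun a ha b hb => by rw [h.2 a ha b hb, chi_Gq hq h1 ha, one_pow, one_pow]⟩
  have fl : ∀ {v v' : Gam → F3}, Kc 0 (Gq q) v → Kc 1 (Gq q) v' → lp q v' v = -lp q v v' :=
    fun h h' => (inv_congr fun a ha b _ => by rw [chi_Gq hq h1 ha, mul_one]).trans (inv_flip h h')
  have k1 : Kc 1 (Gq q) (kk q) := kc_kk q _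
  have k0 : Kc 0 (Gq q) (kk q) := sw k1
  have z : ∀ v : Gam → F3, (v - fun g => v (sq q) * kk q g) (sq q) = 0 := fun v => by
    rw [Pi.sub_apply, kk_sq_self hq h3, mul_one, sub_self]
  have e1 : lp q (kk q) (kk q) = 0 :=
    (by decide : ∀ x : F3, x = -x → x = 0) _ (fl k0 k1)
  obtain ⟨a1, a2⟩ := e2_dec hu k0 (u (sq q))
  obtain ⟨b1, b2⟩ := e2_dec hk k1 (k (sq q))
  have e2 : lp q (kk q) k = -(k (fq q) - k (sq q) * kk q (fq q)) := by
    rw [congrArg (lp q (kk q)) b2, lp_add_right k0 b1 (k1.smul _), lp_smul_right k0 k1, e1,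
      fl (sw b1) k1, lp_unr hq h3 (sw b1) k1 (z k), kk_sq_self hq h3, Pi.sub_apply]
    ring
  rw [congrArg (lp q · k) a2, lp_add_left a1 (k0.smul _) hk, lp_smul_left k0 hk, e2,
    lp_unr hq h3 a1 hk (z u), Pi.sub_apply]
  ring

end Pool.Agent.Lib.MP_696deb_nt.CU
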