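import Pool.Agent.Lib.MP_696deb_nt.CU.E6n
import Pool.Agent.Lib.MP_696deb_nt.CU.E2
import Pool.Agent.Lib.MP_23455a_nt.H3.TAa
import Pool.Agent.Lib.MP_23455a_nt.H3.TAc

/-! The Weil pairing and the isotropy of the local conditions. -/

set_option autoImplicit false

open scoped Classical

namespace Pool.Agent.Lib.MP_696deb_nt.CU

variable {n q : ℕ} {P Q : A} {u k : Gam → F3}

/-- What is used of the Weil pairing on the points of order three. -/
structure IsWe (we : A → A → F3) : Prop where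
  add_left : ∀ x x' y, 3 • x = 0 → 3 • x' = 0 → 3 • y = 0 → we (x + x') y = we x y + we x' y
  skew : ∀ x y, 3 • x = 0 → 3 • y = 0 → we y x = -we x y
  kT : ∀ a b y, th • y = kT b → we (kT a) y = a * b
  act : ∀ n g x y, 3 • x = 0 → 3 • y = 0 → we (act n 0 g x) (act n 0 g y) = chi g * we x y
  iso : ∀ n q P Q, n ≠ 0 → q.Prime → (∀ g ∈ Gq q, 3 • cob (CU.act n 0) P g = 0) →
    (∀ g ∈ Gq q, 3 • cob (CU.act n 0) Q g = 0) →
    Spl 1 (Gq q) fun g h => we (cob (CU.act n 0) P g) (CU.act n 0 g (cob (CU.act n 0) Q h))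

/-- A basis of the Tate module. -/
noncomputable def EE : H3.TA.Emb PW := H3.TA.exists_emb.choose

theorem EE_weil : EE.Weil := H3.TA.exists_emb.choose_spec

/-- Coordinates of torsion points. -/
noncomputable def crd (m : ℕ) (x : A) : Fin 2 → ZMod (3 ^ m) := Function.invFun (EE.emb m) x

/-- The Weil pairing. -/
noncomputable def wm (m : ℕ) (x y : A) : ZMod (3 ^ m) := H3.det2 (crd m x) (crd m y)

section

open H3 H3.TA Matrix

variable {m e : ℕ} {x x' y y' : A}

theorem emb_crd (hx : 3 ^ m • x = 0) : EE.emb m (crd m x) = x :=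
  Function.invFun_eq (EE.surj m x hx)

theorem crd_emb (m : ℕ) (v : Fin 2 → ZMod (3 ^ m)) : crd m (EE.emb m v) = v :=
  Function.leftInverse_invFun (EE.inj m) v

theorem crd_add (hx : 3 ^ m • x = 0) (hx' : 3 ^ m • x' = 0) :
    crd m (x + x') = crd m x + crd m x' := by
  conv_lhs => rw [← emb_crd hx, ← emb_crd hx', ← map_add, crd_emb]

theorem wm_add_left (hx : 3 ^ m • x = 0) (hx' : 3 ^ m • x' = 0) (y : A) :
    wm m (x + x') y = wm m x y + wm m x' y := by
  simp only [wm, crd_add hx hx', det2, Pi.add_apply]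
  ring

theorem wm_add_right (x : A) (hy : 3 ^ m • y = 0) (hy' : 3 ^ m • y' = 0) :
    wm m x (y + y') = wm m x y + wm m x y' := by
  simp only [wm, crd_add hy hy', det2, Pi.add_apply]
  ring

theorem wm_self (m : ℕ) (x : A) : wm m x x = 0 := by
  simp only [wm, det2]
  ring

theorem wm_skew (m : ℕ) (x y : A) : wm m y x = -wm m x y := by
  simp only [wm, det2]
  ring

theorem wm_nsmul (hx : 3 ^ m • x = 0) (j : ℕ) (y : A) : wm m (j • x) y = j * wm m x y := by
  conv_lhs => rw [← emb_crd hx, ← map_nsmul, wm, crd_emb]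
  simp only [wm, det2, Pi.smul_apply, nsmul_eq_mul]
  ring

theorem e6_gn {f : A →+ A} (hf : Function.Injective f) (h : TA.Gn x y) : TA.Gn (f x) (f y) := by
  have k : ∀ {a b : A}, f a ∈ AddSubgroup.zmultiples (f b) → a ∈ AddSubgroup.zmultiples b := by
    rintro a b ⟨c, e⟩
    exact ⟨c, hf ((map_zsmul f c b).trans e)⟩
  exact ⟨mt k h.1, mt k h.2⟩

theorem e6_psi {f : A →+ A} {c : Qbar} (hc : c ≠ 0) (h : ∀ P, xco (f P) = c * xco P) (m : ℕ)
    (x y : A) : wpsi m (f x) (f y) = wpsi m x y := by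
  have k : ∀ n a b, ppi n (f a) (f b) =
      (∏ k ∈ Finset.range n, ∏ _j ∈ Finset.range k, c) * ppi n a b := fun n a b => by
    simp only [ppi, ← map_nsmul, ← map_add, h, ← mul_sub, Finset.prod_mul_distrib]
  rw [wpsi, wpsi, k, k, mul_div_mul_left _ _
    (Finset.prod_ne_zero_iff.2 fun _ _ => Finset.prod_ne_zero_iff.2 fun _ _ => hc)]

theorem psi_JJ (m : ℕ) (x y : A) : wpsi m (JJ x) (JJ y) = wpsi m x y :=
  e6_psi (tae_ne zsq_cube) (fun P => by
    rcases P with _ | ⟨a, b, h⟩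
    · exact (mul_zero _).symm
    · rfl) m x y

theorem psi_neg (m : ℕ) (x y : A) : wpsi m (-x) (-y) = wpsi m x y :=
  e6_psi (f := -AddMonoidHom.id A) one_ne_zero (fun P => by
    rcases P with _ | ⟨a, b, h⟩
    · exact (mul_zero _).symm
    · exact (one_mul _).symm) m x y

theorem psi_act (m n e : ℕ) (g : Gam) (x y : A) :
    g (wpsi m x y) = wpsi m (act n e g x) (act n e g y) := by
  have h1 : ∀ (j : ℕ) (a b : A), wpsi m (om ^ j • a) (om ^ j • b) = wpsi m a b := fun j => by
    induction j with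
    | zero => simp
    | succ j ih => exact fun a b => by rw [pow_succ', mul_smul, mul_smul, om_smul, om_smul,
        psi_JJ, ih]
  have h2 : ep g ^ (e + 1) = 1 ∨ ep g ^ (e + 1) = -1 := by
    unfold ep
    split_ifs
    · exact .inl (one_pow _)
    · exact neg_one_pow_eq_or _ _
  rw [wpsi_smul, act_apply, act_apply, un]
  rcases h2 with h | h <;> rw [h]
  · rw [one_smul, one_smul, h1]
  · rw [neg_one_smul, neg_one_smul, psi_neg, h1]

theorem wm_map {f : A →+ A} (hf : Function.Injective f) {g : Gam}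
    (h : ∀ a b, g (wpsi m a b) = wpsi m (f a) (f b)) (hx : 3 ^ m • x = 0) (hy : 3 ^ m • y = 0) :
    wm m (f x) (f y) = cy m g * wm m x y := by
  obtain ⟨u, hu⟩ := EE_weil m
  obtain ⟨a, ha⟩ := pw_third_pow m T3
  obtain ⟨b, hb⟩ := pw_third_pow m (Lib.MP_23455a_nt.mu (zeta 1))
  have k : TA.Gn (3 ^ m • a) (3 ^ m • b) := ha ▸ hb ▸ gn_T3
  have k' : TA.Gn (3 ^ m • f a) (3 ^ m • f b) := by
    rw [← map_nsmul, ← map_nsmul]
    exact e6_gn hf k
  have hx' : 3 ^ m • f x = 0 := by rw [← map_nsmul, hx, map_zero]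
  have hy' : 3 ^ m • f y = 0 := by rw [← map_nsmul, hy, map_zero]
  have e1 := congrArg g (hu a b (crd m x) (crd m y) k)
  have e2 := hu _ _ (crd m (f x)) (crd m (f y)) k'
  simp only [map_mul, h, map_add, smul_zeta_val, emb_crd hx, emb_crd hy] at e1
  rw [emb_crd hx', emb_crd hy', e1] at e2
  have e3 := zeta_val_inj (mul_right_cancel₀ (mul_ne_zero
    (wpsi_ne m (Gn.of_nsmul (n := 3 ^ m) (by rwa [smul_add, hy', add_zero])))
    (wpsi_ne m (Gn.of_nsmul (n := 3 ^ m) (by rwa [smul_add, hx', add_zero])))) e2)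
  exact u.mul_right_inj.1 (by rw [wm, wm, ← e3, mul_left_comm])

theorem act_inj (n e : ℕ) (g : Gam) : Function.Injective (act n e g) := fun a b h => by
  rw [← act_one n e a, ← act_one n e b, ← inv_mul_cancel g, act_mul, act_mul, h]

theorem wm_act (n e : ℕ) (g : Gam) (hx : 3 ^ m • x = 0) (hy : 3 ^ m • y = 0) :
    wm m (act n e g x) (act n e g y) = cy m g * wm m x y :=
  wm_map (act_inj n e g) (psi_act m n e g) hx hy

theorem wm_JJ (hx : 3 ^ m • x = 0) (hy : 3 ^ m • y = 0) : wm m (JJ x) (JJ y) = wm m x y := by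
  have h := wm_map (f := JJ) (g := 1) (fun a b h => by
    have := congrArg (om ^ 2 • ·) h
    simpa only [← om_smul, ← mul_smul, ← pow_succ, Nat.reduceAdd, om_cube, one_smul] using this)
    (fun a b => (psi_JJ m a b).symm) hx hy
  rwa [cy_one, one_mul] at h

theorem e6_mod (m j : ℕ) : (3 ^ m * j : ZMod (3 ^ (m + 1))) = 3 ^ m * ((j : F3).val : ℕ) := by
  have h : (3 ^ m * 3 : ZMod (3 ^ (m + 1))) = 0 := by
    rw [← pow_succ]
    exact_mod_cast ZMod.natCast_self (3 ^ (m + 1))
  conv_lhs => rw [← Nat.div_add_mod j 3]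
  rw [ZMod.val_natCast]
  push_cast
  linear_combination (j / 3 : ℕ) * h

theorem e6_sq {b : F3} (h : b ≠ 0) : b * b = 1 := by
  revert b
  decide

theorem wm_T (m : ℕ) : ∃ ε : F3, ε ≠ 0 ∧ ∀ (x : A) (a : F3), th ^ (2 * m + 1) • x = kT a →
    wm (m + 1) T x = 3 ^ m * ((ε * a).val : ZMod (3 ^ (m + 1))) := by
  have z3 : (3 : F3) = 0 := rfl
  have hT : 3 ^ (m + 1) • T = 0 := by rw [pow_succ, mul_smul, three_T, smul_zero]
  have T0 : T ≠ 0 := fun h => one_ne_zero (kT_inj (kT_one.trans (h.trans kT.map_zero.symm)))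
  have t1 : ∀ {x : A} {a : F3}, th ^ (2 * m + 1) • x = kT a → 3 ^ (m + 1) • x = 0 := fun h => by
    rw [three_pow_iff, mul_add, pow_succ', mul_smul, h, th_kT]
  have h3 : ∀ y, 3 * wm (m + 1) T y = 0 := fun y => by
    have := wm_nsmul hT 3 y
    rw [three_T, ← zero_smul ℕ T, wm_nsmul hT] at this
    simpa using this.symm
  have h0 : ∀ x : A, th ^ (2 * m + 1) • x = 0 → wm (m + 1) T x = 0 := fun x hx => by
    obtain ⟨y, rfl⟩ := exists_root 1 x
    have hy : 3 ^ (m + 1) • y = 0 := by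
      rwa [three_pow_iff, mul_add, pow_succ, mul_smul, ← pow_one th]
    have hy' : 3 ^ (m + 1) • JJ y = 0 := by rw [← map_nsmul, hy, map_zero]
    have e1 : th ^ 1 • y = y + (JJ y + JJ y) := by simp [smul_def, th, two_zsmul]
    have e2 := wm_JJ hT hy
    rw [← om_smul, ← kT_one, smul_kT, show red om * 1 = 1 by decide, kT_one] at e2
    rw [e1, wm_add_right _ hy (by rw [smul_add, hy', add_zero]), wm_add_right _ hy' hy', e2]
    linear_combination h3 y
  obtain ⟨v, hv⟩ : ∃ v, wm (m + 1) T (EE.emb (m + 1) v) ≠ 0 := by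
    by_contra hc
    push Not at hc
    have a0 := hc ![0, 1]
    have a1 := hc ![1, 0]
    simp only [wm, crd_emb, det2, cons_val_zero, cons_val_one, mul_one, mul_zero, sub_zero,
      zero_sub, neg_eq_zero] at a0 a1
    refine T0 ((emb_crd hT).symm.trans ((congrArg _ (funext fun i => ?_)).trans (map_zero _)))
    fin_cases i
    exacts [a0, a1]
  have hz := EE.tors (m + 1) v
  generalize EE.emb (m + 1) v = z at hv hz
  obtain ⟨b, hb⟩ := exists_kT (P := th ^ (2 * m + 1) • z) (by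
    rwa [three_pow_iff, mul_add, pow_succ', mul_smul] at hz)
  have b2 : b * b = 1 := by
    exact e6_sq fun h => hv (h0 z (by rw [hb, h, map_zero]))
  obtain ⟨c, hc⟩ : 3 ^ m ∣ (wm (m + 1) T z).val := by
    have : ((3 * (wm (m + 1) T z).val : ℕ) : ZMod (3 ^ (m + 1))) = 0 := by
      rw [Nat.cast_mul, ZMod.natCast_zmod_val]
      exact h3 z
    exact Nat.dvd_of_mul_dvd_mul_left three_pos
      ((pow_succ' 3 m).symm.dvd.trans ((ZMod.natCast_eq_zero_iff _ _).1 this))
  have hw : wm (m + 1) T z = 3 ^ m * c := by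
    rw [← ZMod.natCast_zmod_val (wm (m + 1) T z), hc, Nat.cast_mul, Nat.cast_pow, Nat.cast_ofNat]
  refine ⟨c * b, fun h => hv ?_, fun x a hx => ?_⟩
  · rw [hw, e6_mod, show (c : F3) = 0 by linear_combination b * h - c * b2]
    simp
  · have hs : 3 ^ (m + 1) • (2 * a * b).val • z = 0 := by rw [smul_comm, hz, smul_zero]
    have e1 := h0 (x + (2 * a * b).val • z) (by
      rw [smul_add, smul_comm, hx, hb, ← map_nsmul, ← map_add, nsmul_eq_mul,
        ZMod.natCast_zmod_val, mul_assoc, b2, ← kT.map_zero]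
      exact congrArg kT (by linear_combination a * z3))
    rw [wm_add_right _ (t1 hx) hs, wm_skew _ (_ • z) T, wm_nsmul hz, wm_skew _ T z, hw] at e1
    have e2 := e6_mod m (2 * ((2 * a * b).val * c))
    have e3 := h3 x
    rw [show ((2 * ((2 * a * b).val * c) : ℕ) : F3) = c * b * a by
      push_cast
      rw [ZMod.natCast_zmod_val]
      linear_combination a * b * c * z3] at e2
    push_cast at e2
    linear_combination e2 - 2 * e1 + e3

/-- The points with the twisted action. -/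
def Tw (_n _e : ℕ) : Type := PW

noncomputable instance : AddCommGroup (Tw n e) := inferInstanceAs (AddCommGroup PW)

noncomputable instance : DistribMulAction Gam (Tw n e) where
  smul g P := act n e g P
  one_smul := act_one n e
  mul_smul := act_mul n e
  smul_zero g := (act n e g).map_zero
  smul_add g := (act n e g).map_add

/-- The basis on the twisted points. -/
noncomputable def ET (n e : ℕ) : Emb (Tw n e) := EE

/-- The twisted representation. -/
noncomputable def TT (n e : ℕ) : TB (Tw n e) where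
  toEmb := ET n e
  ρ := (ET n e).exists_rho.choose.ρ
  smul := by
    have h := (ET n e).exists_rho.choose.smul
    rwa [(ET n e).exists_rho.choose_spec] at h

theorem TT_smul (n e m : ℕ) (g : Gam) (v : Fin 2 → ZMod (3 ^ m)) :
    act n e g (EE.emb m v) = EE.emb m (mred m ((TT n e).ρ g) *ᵥ v) := (TT n e).smul m g v

theorem TT_det (n e : ℕ) (g : Gam) : ((TT n e).ρ g).det = cyc g := by
  refine PadicInt.ext_of_toZModPow.1 fun m => ?_
  have h := wm_act n e g (EE.tors m ![1, 0]) (EE.tors m ![0, 1])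
  simp only [TT_smul, wm, crd_emb, det2_mulVec, mred_det] at h
  simpa [det2, cy] using h

theorem TT_sm (n e : ℕ) (x : Tw n e) : Sm ⊤ fun g => g • x := sm_act n e ⊤ x

section

variable {D : Subgroup Gam} {a b : Gam → Fin 2 → ZMod (3 ^ m)} {S S' : A}

theorem e6_gen (hD : IsClosed (D : Set Gam)) (hx : tacK (TT n e) D a S)
    (hy : tacK (TT n e) D b S') (h : TA.Gn (3 ^ m • S) (3 ^ m • S')) :
    Spl m D (tacU (TT n e) a b) := by
  obtain ⟨u, hu⟩ := EE_weil m
  have k1 : ∀ g ∈ D, TA.Gn (3 ^ m • S) (3 ^ m • act n e g S') := fun g hg => by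
    rwa [← map_nsmul, show act n e g (3 ^ m • S') = 3 ^ m • S' from hy.fix hg]
  have k0 := wpsi_ne m h.of_nsmul
  have key : Spl m D fun g k => u * tacU (TT n e) a b g k := by
    refine (spl_iff hD ((tac_c2 (TT_sm n e) (TT_det n e) hx hy).smul u)).2
      ⟨fun g => if g ∈ D then wpsi m S (act n e g S') / wpsi m S S' else 1,
        ((sm_act n e D S').comp fun P => wpsi m S P / wpsi m S S').congr fun g hg =>
          (if_pos hg).symm, fun g => ?_, fun g hg k hk => ?_⟩
    · dsimp only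
      split_ifs with hg
      exacts [div_ne_zero (wpsi_ne m (k1 g hg).of_nsmul) k0, one_ne_zero]
    · have e1 := hu S (act n e g S') (a g) (mred m ((TT n e).ρ g) *ᵥ b k) (k1 g hg)
      have k2 : wpsi m (act n e g S) (act n e g S') ≠ 0 := by
        rw [← psi_act]
        exact (map_ne_zero g).2 k0
      rw [← TT_smul, show EE.emb m (a g) = act n e g S - S from hx g hg,
        show EE.emb m (b k) = act n e k S' - S' from hy k hk, map_sub, add_sub_cancel,
        add_sub_cancel] at e1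
      simp only [if_pos hg, if_pos hk, if_pos (mul_mem hg hk), tacU]
      rw [map_div₀, psi_act m n e, psi_act m n e, act_mul]
      field_simp
      linear_combination -e1
  exact tac_lin key key ↑u⁻¹ 0 fun g _ k _ => by simp

theorem e6_mem (hD : IsClosed (D : Set Gam)) (h3 : D ≤ GK 3) (hx : tacK (TT n e) D a S)
    (hy : tacK (TT n e) D b S') (hn : ∀ j : ℤ, j • 3 ^ m • S' = 0 → j = 0)
    (h : 3 ^ m • S ∈ AddSubgroup.zmultiples (3 ^ m • S')) : Spl m D (tacU (TT n e) a b) := by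
  have T0 : T ≠ 0 := fun h => one_ne_zero (kT_inj (kT_one.trans (h.trans kT.map_zero.symm)))
  have T3' : (3 : ℤ) • T = 0 := (natCast_zsmul T 3).trans three_T
  obtain ⟨R, hR⟩ := pw_third_pow m T
  obtain ⟨z, hz⟩ := tac_ex (T := TT n e) (D := D) (m := m) (R := R) fun g hg => by
    refine (congrArg (act n e g) hR).trans (Eq.trans ?_ hR.symm)
    rw [← kT_one, act_kT, mem_GK.1 (h3 hg), one_pow, one_mul]
  have k : ∀ P ∈ AddSubgroup.zmultiples (3 ^ m • S'), TA.Gn (P + T) (3 ^ m • S') := fun P hP => by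
    refine ⟨fun e => ?_, fun e => ?_⟩
    · obtain ⟨c, hc⟩ := AddSubgroup.mem_zmultiples_iff.1 ((add_mem_cancel_left hP).1 e)
      have := hn (3 * c) (by rw [mul_smul, hc, T3'])
      rw [show c = 0 by omega, zero_smul] at hc
      exact T0 hc.symm
    · obtain ⟨i, rfl⟩ := AddSubgroup.mem_zmultiples_iff.1 hP
      obtain ⟨c, hc⟩ := AddSubgroup.mem_zmultiples_iff.1 e
      have h1 := hn (3 * (c * i - 1)) (by
        rw [smul_add, ← eq_sub_iff_add_eq] at hc
        rw [mul_smul, sub_smul, mul_smul, hc, one_smul, sub_sub_cancel_left, smul_neg, smul_comm,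
          T3', smul_zero, neg_zero])
      have h2 : c * i = 1 := by omega
      rw [smul_add, ← mul_smul, h2, one_smul, add_eq_left] at hc
      rcases Int.eq_one_or_neg_one_of_mul_eq_one h2 with rfl | rfl <;> simp [T0] at hc
  refine tac_lin (e6_gen hD (hx.add hz) hy (by
      change TA.Gn (3 ^ m • (S + R)) _
      rw [smul_add, hR]
      exact k _ h))
    (e6_gen hD hz hy (by simpa [hR] using k 0 (zero_mem _))) 1 (-1) fun g _ k _ => ?_
  simp only [tacU, det2, Pi.add_apply]
  ring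

theorem e6_nt {R : A} (hR : ∀ g ∈ D, act n e g R = R) (hR' : ∀ j : ℤ, j • R = 0 → j = 0)
    (hx : tacK (TT n e) D a S) :
    ∃ S₁ : A, tacK (TT n e) D a S₁ ∧ ∀ j : ℤ, j • 3 ^ m • S₁ = 0 → j = 0 := by
  by_cases h : ∀ j : ℤ, j • 3 ^ m • S = 0 → j = 0
  · exact ⟨S, hx, h⟩
  push Not at h
  obtain ⟨i, h1, h2⟩ := h
  refine ⟨S + R, fun g hg => (hx g hg).trans ?_, fun j hj => ?_⟩
  · change act n e g S - S = act n e g (S + R) - (S + R)
    rw [map_add, hR g hg, add_sub_add_right_eq_sub]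
  · have := hR' (i * j * (3 ^ m : ℕ)) (by
      have := congrArg (i • ·) hj
      simp only [smul_add, smul_comm i j, h1, smul_zero, zero_add] at this
      rw [mul_smul, natCast_zsmul, mul_comm, mul_smul, this])
    simpa [h2] using this

end

theorem wm_iso (hn : n ≠ 0) (hq : q.Prime) (hP : ∀ g ∈ Gq q, 3 ^ m • cob (act n e) P g = 0)
    (hQ : ∀ g ∈ Gq q, 3 ^ m • cob (act n e) Q g = 0) :
    Spl m (Gq q) fun g h => wm m (cob (act n e) P g) (act n e g (cob (act n e) Q h)) := by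
  have hD : IsClosed (Gq q : Set Gam) := B2.closed_Dec _
  have hx : tacK (TT n e) (Gq q) (fun g => crd m (cob (act n e) P g)) P :=
    fun g hg => emb_crd (hP g hg)
  have hy : tacK (TT n e) (Gq q) (fun g => crd m (cob (act n e) Q g)) Q :=
    fun g hg => emb_crd (hQ g hg)
  suffices k : Spl m (Gq q) (tacU (TT n e) _ _) by
    refine tac_lin k k 1 0 fun g _ h hh => ?_
    conv_lhs => rw [← emb_crd (hQ h hh), TT_smul, wm, crd_emb]
    exact ((add_zero _).symm.trans (by rw [one_mul, zero_mul]; rfl))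
  refine spl_of_GK hD (tac_c2 (TT_sm n e) (TT_det n e) hx hy) ?_
  have hD' : IsClosed ((GK 3 ⊓ Gq q : Subgroup Gam) : Set Gam) := (B2.op_GK 3).closed.inter hD
  obtain ⟨R, r1, r2⟩ := exists_nt hn hq
  have r3 : ∀ g ∈ GK 3 ⊓ Gq q, act n e g R = R := fun g hg => by
    have := r1 g hg.2
    rwa [act_apply, ep, if_pos (mem_GK.1 hg.1), one_pow, ← one_pow (e + 1),
      ← if_pos (c := chi g = 1) (e := (-1 : ℤ)) (t := 1) (mem_GK.1 hg.1)] at this
  obtain ⟨S, hx', s1⟩ := e6_nt r3 r2 (fun g hg => hx g hg.2)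
  obtain ⟨S', hy', s2⟩ := e6_nt r3 r2 (fun g hg => hy g hg.2)
  by_cases h1 : 3 ^ m • S ∈ AddSubgroup.zmultiples (3 ^ m • S')
  · exact e6_mem hD' inf_le_left hx' hy' s2 h1
  by_cases h2 : 3 ^ m • S' ∈ AddSubgroup.zmultiples (3 ^ m • S)
  · exact tac_swap (TT_sm n e) (TT_det n e) hx' hy' (e6_mem hD' inf_le_left hy' hx' s1 h2)
  · exact e6_gen hD' hx' hy' ⟨h1, h2⟩

end

theorem exists_we : ∃ we, IsWe we := by
  obtain ⟨ε, h0, h⟩ := wm_T 0
  have h2 := e6_sq h0
  refine ⟨fun x y => ε * (wm 1 x y : F3), fun x x' y hx hx' _ => ?_, fun x y _ _ => ?_,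
    fun a b y hy => ?_, fun n g x y hx hy => ?_, fun n q P Q hn hq hP hQ => ?_⟩
  · exact (congrArg (ε * ·) (wm_add_left (m := 1) hx hx' y)).trans (mul_add _ _ _)
  · exact (congrArg (ε * ·) (wm_skew 1 x y)).trans (mul_neg _ _)
  · have e1 : (wm 1 T y : F3) = 1 * ((ε * b).val : F3) := h y b hy
    have e2 : (wm 1 (kT a) y : F3) = (a.val : F3) * wm 1 T y := wm_nsmul (m := 1) three_T a.val y
    rw [e2, e1, ZMod.natCast_zmod_val, ZMod.natCast_zmod_val]
    linear_combination a * b * h2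
  · exact (congrArg (ε * ·) (wm_act (m := 1) n 0 g hx hy)).trans (mul_left_comm _ _ _)
  · have k := wm_iso (m := 1) hn hq hP hQ
    exact H3.TA.tac_lin k k ε 0 fun _ _ _ _ => ((add_zero _).symm.trans (by rw [zero_mul]))

theorem f3 (hn : n ≠ 0) (hq : q.Prime) (hu : Loc n 0 q (kC u)) (hk : Loc n 1 q (kC k)) :
    lp q u k = 0 := by
  obtain ⟨we, h⟩ := exists_we
  obtain ⟨P, hP⟩ := hu
  obtain ⟨Q, hQ⟩ := hk
  obtain ⟨Q, rfl⟩ := exists_root 1 Q
  have e : ∀ g ∈ Gq q, th • cob (act n 0) Q g = kT (k g) := fun g hg => by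
    rw [← cob_th, ← pow_one th]
    exact (hQ g hg).symm
  have h1 := h.iso n q P Q hn hq (fun g hg => by
    rw [← hP g hg]
    exact three_pow_smul (k := 1) (by rw [pow_one, th_kT])) fun g hg =>
    (three_pow_iff 1 _).2 (by rw [mul_one, pow_two, mul_smul, e g hg, th_kT])
  refine (inv_congr fun g hg j hj => ?_).trans ((inv_eq_zero (H3.Spl.c2 h1)).2 h1)
  rw [← hP g hg, h.kT (u g) (chi g * k j) _ (by rw [← act_th, e j hj, act_kT, zero_add, pow_one])]
  exact mul_assoc _ _ _

end Pool.Agent.Lib.MP_696deb_nt.CU
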