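import Pool.Agent.Lib.MP_696deb_nt.CU.E2
import Pool.Agent.Lib.MP_23455a_nt.H3.GWn

/-! Finiteness of the local cocycles at three. -/

set_option autoImplicit false

open scoped Classical

namespace Pool.Agent.Lib.MP_696deb_nt.CU

/-- The cocycles of level one on the decomposition group at three. -/
def Z3 (e : ℕ) : Set (Gam → F3) := {u | Kc e (Gq 3) u ∧ ∀ g ∉ Gq 3, u g = 0}

/-- The action through a power of the cyclotomic character. -/
noncomputable def e4_a (e : ℕ) (g : Gam) : F3 →+ F3 := AddMonoidHom.mulLeft (chi g ^ e)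

theorem e4_a_apply (e : ℕ) (g : Gam) (x : F3) : e4_a e g x = chi g ^ e * x := rfl

theorem e4_act (e : ℕ) (D : Subgroup Gam) : H3.Act D (e4_a e) where
  sm := (sm_chi D).comp fun t : F3 => (AddMonoidHom.mulLeft (t ^ e) : F3 →+ F3)
  one x := by rw [e4_a_apply, chi_one, one_pow, one_mul]
  mul g _ h _ x := by rw [e4_a_apply, e4_a_apply, e4_a_apply, chi_mul, mul_pow, mul_assoc]
  three g _ k := ⟨0, fun x => by
    rw [pow_zero, pow_one, e4_a_apply, mem_GK.1 k, one_pow, one_mul]⟩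

theorem e4_dual (e : ℕ) (D : Subgroup Gam) :
    H3.Dual (M := F3) (M' := F3) 1 D (e4_a e) (e4_a (e + 1)) H3.mu3 where
  act := e4_act e D
  act' := e4_act (e + 1) D
  eqv g _ x y := by
    show (chi g ^ e * x * (chi g ^ (e + 1) * y) : F3) = chi g * (x * y)
    have h : chi g ^ e * chi g ^ e = 1 := by rw [← mul_pow, chi_sq, one_pow]
    linear_combination chi g * x * y * h
  left x h := by
    have : (x * 1 : F3) = 0 := h 1
    rwa [mul_one] at this
  right y h := by
    have : (1 * y : F3) = 0 := h 1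
    rwa [one_mul] at this

theorem finite_Z3 (e : ℕ) : (Z3 e).Finite := by
  have h := (H3.ld FF 1 ⊤ (pl 3) F3 F3 (e4_a e) (e4_a (e + 1)) H3.mu3 isOpen_univ inferInstance
    (e4_dual e _)).1
  rw [top_inf_eq] at h
  exact h

/-- The number of local cocycles at three. -/
noncomputable def K3 : ℕ := max (Z3 0).ncard (Z3 1).ncard

theorem e4_mod (e : ℕ) : Z3 (e % 2) = Z3 e := Set.ext fun _ => and_congr_left' kc_mod

theorem card_Z3 (e : ℕ) : (Z3 e).ncard ≤ K3 := by
  rw [← e4_mod]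
  rcases Nat.mod_two_eq_zero_or_one e with h | h <;> rw [h]
  · exact le_max_left _ _
  · exact le_max_right _ _

theorem K3_pos : 0 < K3 :=
  ((Set.ncard_pos (finite_Z3 0)).2 ⟨0, Kc.zero 0 _, fun _ _ => rfl⟩).trans_le (card_Z3 0)

/-- The cocycles of level `l` on the decomposition group at three. -/
def Z3l (n e l : ℕ) : Set (Gam → A) :=
  {c | Coc (Gq 3) (act n e) c ∧ (∀ g, th ^ l • c g = 0) ∧ ∀ g ∉ Gq 3, c g = 0}

theorem e4_zero (n e : ℕ) : Z3l n e 0 ⊆ {0} := fun c hc => funext fun g => by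
  have := hc.2.1 g
  rwa [pow_zero, one_smul] at this

theorem e4_top {n e l : ℕ} {c : Gam → A} (hc : c ∈ Z3l n e (l + 1)) :
    th ^ l • c ∈ kC '' Z3 (e + l) := by
  obtain ⟨u, hu, k⟩ := exists_kC (coc_th_pow hc.1 l) fun g _ => by
    rw [Pi.smul_apply, ← mul_smul, ← pow_succ', hc.2.1]
  refine ⟨fun g => if g ∈ Gq 3 then u g else 0,
    ⟨hu.congr fun g hg => (if_pos hg).symm, fun g hg => if_neg hg⟩, funext fun g => ?_⟩
  by_cases hg : g ∈ Gq 3
  · rw [k g hg]
    exact congrArg kT (if_pos hg)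
  · rw [Pi.smul_apply, hc.2.2 g hg, smul_zero]
    exact (congrArg kT (if_neg hg)).trans (map_zero _)

theorem e4_step (n e l : ℕ) : ∃ f : (Gam → A) → (Gam → A) × (Gam → A), Function.Injective f ∧
    Set.MapsTo f (Z3l n e (l + 1)) ((kC '' Z3 (e + l)) ×ˢ Z3l n e l) := by
  obtain ⟨s, hs⟩ : ∃ s : (Gam → A) → Gam → A, ∀ c ∈ Z3l n e (l + 1),
      s (th ^ l • c) ∈ Z3l n e (l + 1) ∧ th ^ l • s (th ^ l • c) = th ^ l • c := by
    refine ⟨fun y => if h : ∃ c ∈ Z3l n e (l + 1), th ^ l • c = y then h.choose else 0,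
      fun c hc => ?_⟩
    have h : ∃ c' ∈ Z3l n e (l + 1), th ^ l • c' = th ^ l • c := ⟨c, hc, rfl⟩
    simp only [dif_pos h]
    exact h.choose_spec
  refine ⟨fun c => (th ^ l • c, c + -s (th ^ l • c)), fun c c' h => ?_, fun c hc => ?_⟩
  · have h1 : th ^ l • c = th ^ l • c' := congrArg Prod.fst h
    have h2 : c + -s (th ^ l • c) = c' + -s (th ^ l • c') := congrArg Prod.snd h
    rwa [h1, add_left_inj] at h2
  · obtain ⟨k1, k2⟩ := hs c hc
    refine ⟨e4_top hc, hc.1.add k1.1.neg, fun g => ?_, fun g hg => ?_⟩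
    · have k3 : th ^ l • s (th ^ l • c) g = th ^ l • c g := congrFun k2 g
      show th ^ l • (c g + -s (th ^ l • c) g) = 0
      rw [smul_add, smul_neg, k3, add_neg_cancel]
    · show c g + -s (th ^ l • c) g = 0
      rw [hc.2.2 g hg, k1.2.2 g hg, neg_zero, add_zero]

theorem finite_Z3l (n e l : ℕ) : (Z3l n e l).Finite := by
  induction l with
  | zero => exact (Set.finite_singleton 0).subset (e4_zero n e)
  | succ l ih =>
    obtain ⟨f, f1, f2⟩ := e4_step n e l
    exact Set.Finite.of_injOn f2 f1.injOn (((finite_Z3 _).image _).prod ih)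

theorem card_Z3l (n e l : ℕ) : (Z3l n e l).ncard ≤ K3 ^ l := by
  induction l with
  | zero =>
    exact (Set.ncard_le_ncard (e4_zero n e) (Set.finite_singleton 0)).trans
      (Set.ncard_singleton _).le
  | succ l ih =>
    obtain ⟨f, f1, f2⟩ := e4_step n e l
    refine (Set.ncard_le_ncard_of_injOn f f2 f1.injOn
      (((finite_Z3 _).image _).prod (finite_Z3l n e l))).trans ?_
    rw [Set.ncard_prod, pow_succ']
    exact Nat.mul_le_mul ((Set.ncard_image_le (finite_Z3 _)).trans (card_Z3 _)) ih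

end Pool.Agent.Lib.MP_696deb_nt.CU
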