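import Pool.Agent.Lib.MP_696deb_nt.CU.D0

/-! The growth of the Selmer groups. -/

set_option autoImplicit false

namespace Pool.Agent.Lib.MP_696deb_nt.CU

/-- The number of Selmer cocycles that are killed by `3 ^ k` is at most `C * 3 ^ (s * k)`. -/
def Gro (n s : ℕ) : Prop := ∃ C : ℕ, ∀ k : ℕ, Nat.card (Zs n 1 (2 * k)) ≤ C * 3 ^ (s * k)

/-- The statement of the core: the growth exponent is at most three for almost all `n`. -/
def CoreStmt : Prop := ∀ ε : ℝ, 0 < ε → ∃ X0 : ℕ, ∀ X ≥ X0,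
  (Set.ncard {n : ℕ | 1 ≤ n ∧ n ≤ X ∧ ¬ Gro n 3} : ℝ) ≤ ε * X

end Pool.Agent.Lib.MP_696deb_nt.CU
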