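import Pool.Agent.Lib.MP_696deb_nt.CU.Gov0
import Pool.Agent.Lib.MP_696deb_nt.CU.Box

/-! Selmer patterns, relaxed lifts, fibres, colours and cubes: the definitions. -/

set_option autoImplicit false

open scoped Classical
open Finset

namespace Pool.Agent.Lib.MP_696deb_nt.CU

/-- The map `kC` as a homomorphism. -/
noncomputable def kM : (Gam → F3) →+ (Gam → A) := kT.compLeft Gam

theorem kM_apply (k : Gam → F3) : kM k = kC k := rfl

/-- The cubic characters that are unramified outside of `3 n`. -/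
def WW (n : ℕ) : Set (Gam → F3) := {u | Kc 0 ⊤ u ∧ ∀ q : ℕ, q.Prime → ¬ q ∣ 3 * n → u (sq q) = 0}

/-- Cocycles of level `l` on the side zero that are unramified outside of `3 n`. -/
structure Pre (n l : ℕ) (c : Gam → A) : Prop where
  coc : Coc ⊤ (act n 0) c
  kil : ∀ g, th ^ l • c g = 0
  unr : ∀ q : ℕ, q.Prime → ¬ q ∣ 3 * n → c (sq q) = 0

/-- Relaxed lifts of level `l`. -/
structure RL (n l : ℕ) (c : Gam → A) : Prop extends Pre n l c where
  loc : ∀ q : ℕ, q.Prime → q ∣ 3 * n → Loc n 1 q (th • c)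

/-- The top digits of the Selmer cocycles of level `2 m` on the side zero. -/
noncomputable def AA (n m : ℕ) : AddSubgroup (Gam → A) :=
  (Zs n 0 (2 * m)).map (DistribSMul.toAddMonoidHom (Gam → A) (th ^ (2 * m - 1)))

/-- There are many top digits. -/
def Big (n m : ℕ) : Prop := 27 < Nat.card (AA n m)

/-- A finite set as a `Finset`. -/
noncomputable def fs {α : Type} (s : Set α) : Finset α := if h : s.Finite then h.toFinset else ∅

theorem mem_fs {α : Type} {s : Set α} (h : s.Finite) {a : α} : a ∈ fs s ↔ a ∈ s := by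
  rw [fs, dif_pos h, Set.Finite.mem_toFinset]

theorem mem_of_fs {α : Type} {s : Set α} {a : α} (h : a ∈ fs s) : a ∈ s := by
  by_cases k : s.Finite
  · exact (mem_fs k).1 h
  · rw [fs, dif_neg k] at h
    exact absurd h (notMem_empty a)

namespace Bx

variable (B : Bx)

/-- The Kummer cocycle of a pattern. -/
noncomputable def kA (x : B.Pt) : B.Pat →+ (Gam → F3) :=
  AddMonoidHom.mk' (fun a => ∑ q : B.S0, a.1 q • kk q + ∑ j, a.2 j • kk (x j)) fun a b => by
    simp only [Prod.fst_add, Prod.snd_add, Pi.add_apply, add_smul, sum_add_distrib]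
    abel

/-- The Selmer patterns. -/
noncomputable def V (x : B.Pt) : AddSubgroup B.Pat := (Zs (B.nn x) 1 1).comap (kM.comp (B.kA x))

/-- The same set as a `Finset`. -/
noncomputable def VF (x : B.Pt) : Finset B.Pat := univ.filter (· ∈ B.V x)

/-- The multiples of the pattern of the twist. -/
noncomputable def L1 : AddSubgroup B.Pat := AddSubgroup.zmultiples B.tau

/-- The span of `a` and the pattern of the twist. -/
noncomputable def L2 (a : B.Pat) : AddSubgroup B.Pat := AddSubgroup.closure {a, B.tau}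

/-- The Selmer cocycles of level `l` on the side zero with top digit `a`. -/
noncomputable def Om (x : B.Pt) (l : ℕ) (a : B.Pat) : Finset (Gam → A) :=
  fs {c | c ∈ Zs (B.nn x) 0 l ∧ th ^ (l - 1) • c = kC (B.kA x a)}

/-- The relaxed lifts of level `l` with top digit `a`. -/
noncomputable def RF (x : B.Pt) (l : ℕ) (a : B.Pat) : Finset (Gam → A) :=
  fs {c | RL (B.nn x) l c ∧ th ^ (l - 1) • c = kC (B.kA x a)}

/-- The number of lifts. -/
noncomputable def wB : ℕ := (WW B.N0).ncard * 3 ^ B.J.card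

/-- The pairing of a lift and a pattern. -/
noncomputable def Dx (x : B.Pt) (c : Gam → A) (b : B.Pat) : F3 := Dl (B.nn x) c (B.kA x b)

/-- The pairing on the Selmer patterns. -/
noncomputable def CT (x : B.Pt) (a b : B.Pat) : F3 := DD (B.nn x) (kC (B.kA x a)) (B.kA x b)

/-- The radical. -/
def Rad (x : B.Pt) : Set B.Pat := {a | a ∈ B.V x ∧ ∀ b ∈ B.V x, B.CT x a b = 0}

/-- The type of the level one data. -/
abbrev Lv := (Fin B.r → B.S0 → Gam → F3) × (Fin B.r → B.S0 → F3) × (Fin B.r → Fin B.r → F3 × F3)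

/-- The level one data of a point. -/
noncomputable def lv (x : B.Pt) : B.Lv :=
  (fun j q => H3.rs (Gq q) (kk (x j)), fun j q => kk q (fq (x j)),
    fun i j => (kk (x i) (fq (x j)), uq (x i) (fq (x j))))

/-- The level one data with the matrix of the pairing. -/
noncomputable def key (x : B.Pt) : B.Lv × (B.Pat → B.Pat → F3) :=
  (B.lv x, fun a b => if a ∈ B.V x ∧ b ∈ B.V x then B.CT x a b else 0)

/-- No Selmer pattern vanishes at all upper indices. -/
def G0 (x : B.Pt) : Prop := ∀ a ∈ B.V x, (∀ j ∈ B.Up, a.2 j = 0) → a = 0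

/-- The necessary conditions on the side zero at the large primes. -/
def Nec (x : B.Pt) (e : Fin B.r → F3) (w : Gam → F3) : Prop :=
  ∀ j, ∑ i, e i * uq (x i) (fq (x j)) + w (fq (x j)) = e j * kk (B.nn x) (fq (x j))

/-- These conditions have only the trivial solution. -/
def G1 (x : B.Pt) : Prop := ∀ e : Fin B.r → F3, (∀ j ∉ B.J, e j = 0) → ∀ w ∈ WW B.N0,
  B.Nec x e w → e = 0 ∧ w = 0

/-- Good points. -/
structure Good (x : B.Pt) : Prop where
  g0 : B.G0 x
  g1 : B.G1 x
  bal : ∀ a ∈ B.Rad x, a ∉ B.L1 → B.Bal a.2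

/-- The type of colours. -/
abbrev Col := (B.S0 → A) × (Fin B.r → A) × (Gam → A)

/-- The colour of a cocycle. -/
noncomputable def col (x : B.Pt) (c : Gam → A) : B.Col :=
  (fun q => c (sq q), fun j => c (sq (x j)), H3.rs (Gq 3) c)

/-- There is a relaxed lift with top digit `a` and colour `γ`. -/
def Has (l : ℕ) (a : B.Pat) (γ : B.Col) (x : B.Pt) : Prop := ∃ c ∈ B.RF x l a, B.col x c = γ

/-- This lift. -/
noncomputable def cg (l : ℕ) (a : B.Pat) (γ : B.Col) (x : B.Pt) : Gam → A :=
  if h : B.Has l a γ x then h.choose else 0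

/-- Nondegenerate cubes. -/
structure Cb (S : Finset (Fin B.r)) (x x' : B.Pt) : Prop where
  wf : B.Wf
  mem : x ∈ B.pts
  mem' : x' ∈ B.pts
  ne : ∀ i ∈ S, x i ≠ x' i

/-- The alternating sum over a cube. -/
noncomputable def Del (c : B.Pt → Gam → A) (S : Finset (Fin B.r)) (x x' : B.Pt) : Gam → A :=
  ∑ y ∈ S.powerset, (-1 : ℤ) ^ y.card • c (y.piecewise x' x)

/-- Properties that pass from all other vertices of a cube to the base vertex. -/
def Closed (S : Finset (Fin B.r)) (P : B.Pt → Prop) : Prop :=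
  ∀ x x', B.Cb S x x' → (∀ y ⊆ S, y.Nonempty → P (y.piecewise x' x)) → P x

/-- The indicator of `Q` is a combination of at most `M` indicators of closed subsets of `Q`. -/
def Comb (S : Finset (Fin B.r)) (M : ℝ) (Q : B.Pt → Prop) : Prop :=
  ∃ (ι : Type) (Γ : Finset ι) (w : ℝ) (P : ι → B.Pt → Prop), 0 ≤ w ∧ w * Γ.card ≤ M ∧
    (∀ γ ∈ Γ, B.Closed S (P γ) ∧ ∀ x ∈ B.pts, P γ x → Q x) ∧
    ∀ x ∈ B.pts, Q x → w * (Γ.filter fun γ => P γ x).card = 1

/-- Directions for a pair of patterns. -/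
structure Dir (n : ℕ) (a b : B.Pat) (U : Finset (Fin B.r)) (ia ic : Fin B.r) : Prop where
  card : U.card = n
  low : U ⊆ B.I 0
  ha : ia ∈ B.Up
  hc : ic ∈ B.Up
  ne : ia ≠ ic
  aU : ∀ i ∈ U, a.2 i = 0
  bU : ∀ i ∈ U, b.2 i = 0
  aa : a.2 ia ≠ 0
  ba : b.2 ia = 0
  bc : b.2 ic ≠ 0

/-- The governing function of a cube. -/
noncomputable def gv (a : B.Pat) (U : Finset (Fin B.r)) (ia : Fin B.r) (x x' : B.Pt) : Gam → F3 :=
  gov U (fun i => kk (x' i) - kk (x i)) (a.2 ia • (kk (x ia) - kk (x' ia)))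

/-- The number of Selmer cocycles with a top digit that is not a multiple of the twist. -/
noncomputable def wt (x : B.Pt) (l : ℕ) : ℕ := ∑ a ∈ B.VF x with a ∉ B.L1, (B.Om x l a).card

end Bx

end Pool.Agent.Lib.MP_696deb_nt.CU
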