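import Pool.Agent.Lib.MP_696deb_nt.CU.E9
import Pool.Agent.Lib.MP_696deb_nt.CU.E4
import Pool.Agent.Lib.MP_696deb_nt.CU.S0
import Pool.Agent.Lib.MP_696deb_nt.CU.Gro

/-! Finiteness and counting of Selmer cocycles. -/

set_option autoImplicit false

open scoped Classical
open Finset

namespace Pool.Agent.Lib.MP_696deb_nt.CU

variable {n e l m : ℕ} {c y : Gam → A} {u : Gam → F3}

theorem z1_mem {q : ℕ} (hn : n ≠ 0) (hq : q.Prime) : q ∈ (3 * n).primeFactors ↔ q ∣ 3 * n := by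
  simp [Nat.mem_primeFactors, hq, hn]

/-- The cocycles of level one that are unramified outside of `3 n`. -/
def KK (n e : ℕ) : Set (Gam → F3) := {u | Kc e ⊤ u ∧ ∀ q : ℕ, q.Prime → ¬ q ∣ 3 * n → u (sq q) = 0}

theorem z1_inj (hn : n ≠ 0) : Set.InjOn (fun u : Gam → F3 =>
    (H3.rs (Gq 3) u, fun q : (3 * n).primeFactors => u (sq q))) (KK n e) := fun u hu v hv h => by
  obtain ⟨h1, h2⟩ := Prod.mk.inj h
  refine funext fun g => sub_eq_zero.1 (unr (hu.1.sub hv.1) (fun g hg => sub_eq_zero.2 ?_)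
    (fun q hq _ => sub_eq_zero.2 ?_) g)
  · simpa only [H3.rs_of_mem hg] using congrFun h1 g
  · by_cases k : q ∣ 3 * n
    · exact congrFun h2 ⟨q, (z1_mem hn hq).2 k⟩
    · rw [hu.2 q hq k, hv.2 q hq k]

theorem z1_maps (n e : ℕ) : Set.MapsTo (fun u : Gam → F3 =>
    (H3.rs (Gq 3) u, fun q : (3 * n).primeFactors => u (sq q))) (KK n e) (Z3 e ×ˢ Set.univ) :=
  fun _ hu => ⟨⟨(hu.1.mono le_top).congr fun _ hg => (H3.rs_of_mem hg _).symm,
    fun _ hg => H3.rs_of_notMem hg _⟩, trivial⟩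

theorem finite_KK (hn : n ≠ 0) (e : ℕ) : (KK n e).Finite :=
  Set.Finite.of_injOn (z1_maps n e) (z1_inj hn) ((finite_Z3 e).prod Set.finite_univ)

theorem card_KK (hn : n ≠ 0) (e : ℕ) : (KK n e).ncard ≤ K3 * 3 ^ (3 * n).primeFactors.card := by
  refine (Set.ncard_le_ncard_of_injOn _ (z1_maps n e) (z1_inj hn)
    ((finite_Z3 e).prod Set.finite_univ)).trans ?_
  rw [Set.ncard_prod, Set.ncard_univ, Nat.card_fun, Nat.card_zmod, Nat.card_eq_fintype_card,
    Fintype.card_coe]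
  exact Nat.mul_le_mul_right _ (card_Z3 e)

theorem finite_WW (hn : n ≠ 0) : (WW n).Finite := finite_KK hn 0

theorem card_WW_le (hn : n ≠ 0) : (WW n).ncard ≤ K3 * 3 ^ (3 * n).primeFactors.card := card_KK hn 0

theorem zero_mem_WW (n : ℕ) : 0 ∈ WW n := ⟨Kc.zero _ _, fun _ _ _ => rfl⟩

theorem card_WW_pos (hn : n ≠ 0) : 0 < (WW n).ncard :=
  (Set.ncard_pos (finite_WW hn)).2 ⟨0, zero_mem_WW n⟩

theorem finite_unr (hn : n ≠ 0) (e l : ℕ) : {c : Gam → A | Coc ⊤ (act n e) c ∧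
    (∀ g, th ^ l • c g = 0) ∧ ∀ q : ℕ, q.Prime → ¬ q ∣ 3 * n → c (sq q) = 0}.Finite := by
  refine Set.Finite.of_injOn (f := fun c : Gam → A =>
    (H3.rs (Gq 3) c, fun q : (3 * n).primeFactors => c (sq q)))
    (t := Z3l n e l ×ˢ Set.univ.pi fun _ => {P : A | th ^ l • P = 0}) (fun c hc => ?_)
    (fun c hc d hd h => ?_) ((finite_Z3l n e l).prod (Set.Finite.pi fun _ => finite_tors l))
  · refine ⟨⟨(hc.1.lo_mono le_top).lo_congr fun _ hg => H3.rs_of_mem hg _, fun g => ?_,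
      fun _ hg => H3.rs_of_notMem hg _⟩, fun _ _ => hc.2.1 _⟩
    show th ^ l • H3.rs (Gq 3) c g = 0
    by_cases hg : g ∈ Gq 3
    · rw [H3.rs_of_mem hg, hc.2.1]
    · rw [H3.rs_of_notMem hg, smul_zero]
  · obtain ⟨h1, h2⟩ := Prod.mk.inj h
    refine funext fun g => sub_eq_zero.1 (unr_l (l := l) (hc.1.lo_sub hd.1) (fun g => ?_)
      (fun g hg => sub_eq_zero.2 ?_) (fun q hq _ => sub_eq_zero.2 ?_) g)
    · rw [Pi.sub_apply, smul_sub, hc.2.1, hd.2.1, sub_self]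
    · simpa only [H3.rs_of_mem hg] using congrFun h1 g
    · by_cases k : q ∣ 3 * n
      · exact congrFun h2 ⟨q, (z1_mem hn hq).2 k⟩
      · rw [hc.2.2 q hq k, hd.2.2 q hq k]

theorem finite_Pre (hn : n ≠ 0) (l : ℕ) : {c | Pre n l c}.Finite :=
  (finite_unr hn 0 l).subset fun _ h => ⟨h.coc, h.kil, h.unr⟩

theorem finite_RL (hn : n ≠ 0) (l : ℕ) : {c | RL n l c}.Finite :=
  (finite_Pre hn l).subset fun _ h => h.toPre

theorem finite_Zs (hn : n ≠ 0) (e l : ℕ) : (Zs n e l : Set (Gam → A)).Finite :=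
  (finite_unr hn e l).subset fun _ h => ⟨h.coc, h.kil, h.unr⟩

theorem zs_level {l' : ℕ} (h : c ∈ Zs n e l) (k : ∀ g, th ^ l' • c g = 0) : c ∈ Zs n e l' :=
  ⟨h.coc, k, h.loc, h.unr⟩

theorem zs_zero (n e : ℕ) : Zs n e 0 = ⊥ :=
  (AddSubgroup.eq_bot_iff_forall _).2 fun _ h => funext fun g => by simpa using h.kil g

theorem zs_add_two (n e l : ℕ) : Zs n (e + 2) l = Zs n e l := by
  rw [← zs_mod, Nat.add_mod_right, zs_mod]

/-- The top digits of the Selmer cocycles of level `l + 1`. -/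
noncomputable def Top (n e l : ℕ) : AddSubgroup (Gam → A) :=
  (Zs n e (l + 1)).map (DistribSMul.toAddMonoidHom (Gam → A) (th ^ l))

theorem mem_Top : y ∈ Top n e l ↔ ∃ c ∈ Zs n e (l + 1), th ^ l • c = y := Iff.rfl

theorem AA_eq (n m : ℕ) : AA n (m + 1) = Top n 0 (2 * m + 1) := rfl

theorem mem_AA : y ∈ AA n m ↔ ∃ c ∈ Zs n 0 (2 * m), th ^ (2 * m - 1) • c = y := Iff.rfl

theorem Top_le (n e l : ℕ) : Top n e l ≤ Zs n (e + l) 1 := by
  rintro _ ⟨c, hc, rfl⟩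
  exact zs_th_pow l (by rwa [add_comm])

theorem Top_anti (n e l : ℕ) : Top n e (l + 2) ≤ Top n e l := by
  rintro _ ⟨c, hc, rfl⟩
  exact ⟨th ^ 2 • c, zs_add_two n e _ ▸ zs_th_pow 2 hc, by
    simp only [DistribSMul.toAddMonoidHom_apply, smul_smul, ← pow_add]⟩

theorem AA_le1 (n m : ℕ) : AA n m ≤ Zs n 1 1 := by
  rcases m with _ | m
  · rintro _ ⟨c, hc, rfl⟩
    rw [mul_zero, zs_zero] at hc
    rw [AddSubgroup.mem_bot.1 hc, map_zero]
    exact zero_mem _
  · rw [AA_eq, ← zs_mod n 1, show 1 % 2 = (0 + (2 * m + 1)) % 2 by omega, zs_mod]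
    exact Top_le _ _ _

theorem AA_anti {m' : ℕ} (hm : 1 ≤ m) (h : m ≤ m') : AA n m' ≤ AA n m := by
  induction h with
  | refl => exact le_rfl
  | @step k hk ih =>
    refine le_trans ?_ ih
    obtain ⟨k, rfl⟩ := Nat.exists_eq_add_of_le' (hm.trans hk)
    exact Top_anti n 0 (2 * k + 1)

theorem finite_Top (hn : n ≠ 0) (e l : ℕ) : (Top n e l : Set (Gam → A)).Finite :=
  (finite_Zs hn _ 1).subset (Top_le n e l)

theorem finite_AA (hn : n ≠ 0) (m : ℕ) : (AA n m : Set (Gam → A)).Finite :=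
  (finite_Zs hn 1 1).subset (AA_le1 n m)

theorem z1_card {G H : Type*} [AddCommGroup G] [AddCommGroup H] (f : G →+ H)
    (Z Z' : AddSubgroup G) (h : ∀ x, x ∈ Z' ↔ x ∈ Z ∧ f x = 0) :
    Nat.card Z = Nat.card Z' * Nat.card (Z.map f) := by
  have h1 := AddSubgroup.card_eq_card_quotient_mul_card_addSubgroup (f.comp Z.subtype).ker
  rw [Nat.card_congr (QuotientAddGroup.quotientKerEquivRange _).toEquiv,
    ← AddMonoidHom.map_range, AddSubgroup.range_subtype, mul_comm] at h1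
  rw [h1]
  congr 1
  exact Nat.card_congr ⟨fun x => ⟨x.1.1, (h _).2 ⟨x.1.2, x.2⟩⟩,
    fun x => ⟨⟨x.1, ((h _).1 x.2).1⟩, ((h _).1 x.2).2⟩, fun _ => rfl, fun _ => rfl⟩

theorem card_top (n e l : ℕ) :
    Nat.card (Zs n e (l + 1)) = Nat.card (Zs n e l) * Nat.card (Top n e l) :=
  z1_card _ _ _ fun _ => ⟨fun h => ⟨zs_mono (Nat.le_succ l) h, funext h.kil⟩,
    fun h => zs_level h.1 (congrFun h.2)⟩

theorem card_Zs_th (hn : n ≠ 0) (e l : ℕ) :
    Nat.card (Zs n e (l + 1)) ≤ Nat.card (Zs n e 1) * Nat.card (Zs n (e + 1) l) := by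
  rw [z1_card (DistribSMul.toAddMonoidHom (Gam → A) th) (Zs n e (l + 1)) (Zs n e 1) fun _ =>
    ⟨fun h => ⟨zs_mono (by omega) h, funext fun g => by simpa using h.kil g⟩,
      fun h => zs_level h.1 fun g => by simpa using congrFun h.2 g⟩]
  have := (finite_Zs hn (e + 1) l).to_subtype
  refine Nat.mul_le_mul_left _ (AddSubgroup.card_le_of_le ?_)
  rintro _ ⟨c, hc, rfl⟩
  exact zs_th hc

/-- The Selmer cocycles with a given top digit form a coset. -/
theorem fib_eq (hc : c ∈ Zs n e (l + 1)) :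
    {d | d ∈ Zs n e (l + 1) ∧ th ^ l • d = th ^ l • c} = (c + ·) '' (Zs n e l : Set (Gam → A)) := by
  ext d
  constructor
  · rintro ⟨h1, h2⟩
    refine ⟨d - c, zs_level (sub_mem h1 hc) fun g => ?_, add_sub_cancel _ _⟩
    rw [← Pi.smul_apply, smul_sub, h2, sub_self, Pi.zero_apply]
  · rintro ⟨z, hz, rfl⟩
    exact ⟨add_mem hc (zs_mono (Nat.le_succ l) hz), by
      rw [smul_add, show th ^ l • z = 0 from funext hz.kil, add_zero]⟩

theorem card_fib (hy : y ∈ Top n e l) :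
    {d | d ∈ Zs n e (l + 1) ∧ th ^ l • d = y}.ncard = Nat.card (Zs n e l) := by
  obtain ⟨c, hc, rfl⟩ := mem_Top.1 hy
  rw [fib_eq hc, Set.ncard_image_of_injective _ (add_right_injective c)]
  rfl

theorem card_odd (h0 : Zs n 0 1 = ⊥) (m : ℕ) :
    Nat.card (Zs n 0 (2 * m + 1)) = Nat.card (Zs n 0 (2 * m)) := by
  have h := Top_le n 0 (2 * m)
  rw [← zs_mod, show (0 + 2 * m) % 2 = 0 by omega, h0, le_bot_iff] at h
  rw [card_top, h, AddSubgroup.card_bot, mul_one]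

theorem card_even (h0 : Zs n 0 1 = ⊥) (m : ℕ) :
    Nat.card (Zs n 0 (2 * (m + 1))) = Nat.card (Zs n 0 (2 * m)) * Nat.card (AA n (m + 1)) := by
  rw [← card_odd h0 m, AA_eq, ← card_top]
  rfl

theorem gro_of (hn : n ≠ 0) (h0 : Zs n 0 1 = ⊥) (hm : 1 ≤ m) (h : ¬ Big n m) : Gro n 3 := by
  have key : ∀ k, Nat.card (Zs n 0 (2 * (m + k))) ≤ Nat.card (Zs n 0 (2 * m)) * 27 ^ k := by
    intro k
    induction k with
    | zero => simp
    | succ k ih =>
      have := (finite_AA hn m).to_subtype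
      rw [← add_assoc, card_even h0, pow_succ, ← mul_assoc]
      exact Nat.mul_le_mul ih ((AddSubgroup.card_le_of_le (AA_anti hm (by omega))).trans
        (not_lt.1 h))
  refine ⟨Nat.card (Zs n 1 1) * Nat.card (Zs n 0 (2 * m)), fun k => ?_⟩
  have h1 := (finite_Zs hn 1 (2 * (m + k) + 1)).to_subtype
  have h2 := card_Zs_th hn 1 (2 * (m + k))
  rw [zs_add_two n 0] at h2
  rw [pow_mul, mul_assoc]
  exact ((AddSubgroup.card_le_of_le (zs_mono (by omega))).trans h2).trans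
    (Nat.mul_le_mul_left _ (key k))

theorem three_Zs (h : c ∈ Zs n e 1) : 3 • c = 0 :=
  funext fun g => by simpa using three_pow_smul (h.kil g)

theorem card_pow (hn : n ≠ 0) {H : AddSubgroup (Gam → A)} (h : H ≤ Zs n e 1) :
    ∃ k, Nat.card H = 3 ^ k := by
  have : Finite H := ((finite_Zs hn e 1).subset h).to_subtype
  have := Fact.mk Nat.prime_three
  have hp : IsPGroup 3 (Multiplicative H) := fun c =>
    ⟨1, Subtype.ext (three_Zs (h (Multiplicative.toAdd c).2))⟩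
  exact hp.exists_card_eq

theorem Big.le81 (h : Big n m) (hn : n ≠ 0) : 81 ≤ Nat.card (AA n m) := by
  obtain ⟨k, hk⟩ := card_pow hn (AA_le1 n m)
  rw [Big, hk, show 27 = 3 ^ 3 from rfl, Nat.pow_lt_pow_iff_right (by norm_num)] at h
  rw [hk]
  exact Nat.pow_le_pow_right (i := 4) (n := 3) (by norm_num) h

theorem Big.pos (h : Big n m) : 1 ≤ m := by
  refine Nat.pos_of_ne_zero ?_
  rintro rfl
  rw [Big, AA, mul_zero, zs_zero, AddSubgroup.map_bot, AddSubgroup.card_bot] at h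
  omega

theorem card_Zs_mono (hn : n ≠ 0) (e : ℕ) {l' : ℕ} (h : l ≤ l') :
    Nat.card (Zs n e l) ≤ Nat.card (Zs n e l') := by
  have := (finite_Zs hn e l').to_subtype
  exact AddSubgroup.card_le_of_le fun _ hc => zs_mono h hc

theorem Big.card0 (h : Big n m) (hn : n ≠ 0) {i : ℕ} (hi : i ≤ m) :
    81 ^ i ≤ Nat.card (Zs n 0 (2 * i)) := by
  induction i with
  | zero => rw [mul_zero, zs_zero, AddSubgroup.card_bot, pow_zero]
  | succ i ih =>
    have := (finite_AA hn (i + 1)).to_subtype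
    rw [show 2 * (i + 1) = 2 * i + 1 + 1 from rfl, card_top, ← AA_eq, pow_succ]
    exact Nat.mul_le_mul ((ih (by omega)).trans (card_Zs_mono hn 0 (Nat.le_succ _)))
      ((h.le81 hn).trans (AddSubgroup.card_le_of_le (AA_anti (by omega) hi)))

/-- Every top digit has many lifts. -/
theorem Big.fib (h : Big n m) (hn : n ≠ 0) (hy : y ∈ AA n m) :
    81 ^ (m - 1) ≤ {d | d ∈ Zs n 0 (2 * m) ∧ th ^ (2 * m - 1) • d = y}.ncard := by
  obtain ⟨m, rfl⟩ := Nat.exists_eq_add_of_le' h.pos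
  exact ((h.card0 hn (Nat.le_succ m)).trans (card_Zs_mono hn 0 (Nat.le_succ _))).trans_eq
    (card_fib hy).symm

theorem cob_th_pow (n e j : ℕ) (P : A) (g : Gam) :
    cob (act n (e + j)) (th ^ j • P) g = th ^ j • cob (act n e) P g := by
  rw [cob, cob, act_th_pow, smul_sub]

theorem cob_mem_AA (hm : 1 ≤ m) {P : A} (h : th ^ 2 • P = 0) : cob (act n 1) P ∈ AA n m := by
  obtain ⟨m, rfl⟩ := Nat.exists_eq_add_of_le' hm
  obtain ⟨Q, rfl⟩ := exists_root (2 * m + 1) P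
  have e1 : act n 1 = act n (0 + (2 * m + 1)) := by
    rw [← act_mod n (0 + _), show (0 + (2 * m + 1)) % 2 = 1 by omega]
  rw [smul_smul, ← pow_add] at h
  refine ⟨cob (act n 0) Q, zs_level (cob_mem_Zs n 0 h) fun g => ?_, funext fun g => ?_⟩
  · obtain ⟨b, hb⟩ := exists_kT (P := th ^ (2 * (m + 1)) • Q) (by
      rw [smul_smul, ← pow_succ', ← h]; congr 2; ring)
    rw [← cob_th_pow, hb, cob_kT, ← chi_pow_mod, show (0 + 2 * (m + 1)) % 2 = 0 by omega, pow_zero,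
      sub_self, mul_zero, map_zero]
  · rw [e1, cob_th_pow]
    rfl

theorem kk_mem_AA (hm : 1 ≤ m) : kC (kk n) ∈ AA n m := by
  have h := neg_mem (cob_mem_AA (n := n) hm (P := T3) (by
    rw [pow_two, mul_smul, ← T, ← kT_one, th_kT]))
  convert h using 1
  exact funext fun g => by rw [Pi.neg_apply, cob_T3, map_neg, neg_neg]

theorem chi_AA (hm : 1 ≤ m) : kC (fun g => chi g - 1) ∈ AA n m := by
  have h := cob_mem_AA (n := n) hm (P := kT 1) (by rw [pow_two, mul_smul, th_kT, smul_zero])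
  convert h using 1
  exact funext fun g => by rw [cob_kT, one_mul, pow_one]

theorem rl_lift (hc : c ∈ Zs n 1 l) {d : Gam → A} : RL n (l + 1) d ∧ th • d = c ↔ IsLift n c d :=
  ⟨fun h => ⟨h.1.coc, congrFun h.2, h.1.unr⟩, fun h => ⟨⟨⟨h.coc, h.kil hc, h.unr⟩, fun q hq k => by
    rw [show th • d = c from funext h.th_smul]
    exact hc.loc q hq k⟩, funext h.th_smul⟩⟩

theorem RL.th_mem {d : Gam → A} (h : RL n (l + 1) d) : th • d ∈ Zs n 1 l :=
  ⟨coc_th h.coc, fun g => by rw [Pi.smul_apply, ← mul_smul, ← pow_succ, h.kil], h.loc,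
    fun q hq k => by rw [Pi.smul_apply, h.unr q hq k, smul_zero]⟩

theorem RL.isLift {d : Gam → A} (h : RL n l d) : IsLift n (th • d) d := ⟨h.coc, fun _ => rfl, h.unr⟩

theorem rl_of_mem (hc : c ∈ Zs n 0 l) : RL n l c :=
  ⟨⟨hc.coc, hc.kil, hc.unr⟩, fun q hq k => (hc.loc q hq k).th_smul⟩

theorem kC_inj : Function.Injective kC := fun _ _ h => funext fun g => kT_inj (congrFun h g)

/-- The lifts form a torsor. -/
theorem lift_eq {d : Gam → A} (h : IsLift n c d) :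
    {d' | IsLift n c d'} = (fun u => d + kC u) '' WW n := by
  ext d'
  constructor
  · intro h'
    obtain ⟨u, h1, h2, h3⟩ := h.sub h'
    exact ⟨u, ⟨h1, h2⟩, h3.symm⟩
  · rintro ⟨u, hu, rfl⟩
    exact h.add_kC hu.1 hu.2

theorem card_lift (hc : c ∈ Zs n 1 l) : {d | IsLift n c d}.ncard = (WW n).ncard := by
  obtain ⟨d, hd⟩ := ext hc
  rw [lift_eq hd, Set.ncard_image_of_injective _ fun _ _ h => kC_inj (add_left_cancel h)]

end Pool.Agent.Lib.MP_696deb_nt.CU
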