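import Pool.Agent.Lib.MP_696deb_nt.CU.KtA2

/-! Local properties of the cochain of cube roots. -/

set_option autoImplicit false

open Finset
open scoped Classical NNReal

namespace Pool.Agent.Lib.MP_696deb_nt.CU.Kt

open B2 hiding zeta cy cyc Gen Kum C2 Spl cup

variable {U : Type} [Fintype U] {m : U → ℕ} {β : U → Qbar} {d : U → Gam → ZMod 3}
  {n : (U → ZMod 3) → ℤ} {w : Plc} {σ φ : Gam}

theorem ktb_cube {z : Qbar} (h : w.V (z ^ 3) = 1) : w.V z = 1 := by
  rw [map_pow] at h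
  exact (pow_eq_one_iff_of_nonneg zero_le three_ne_zero).1 h

theorem unit_fix (hw : w.p ≠ 3) (hσ : σ ∈ Ine w) {z : Qbar} (hz : w.V z = 1)
    (h : σ (z ^ 3) = z ^ 3) : σ z = z := by
  have h1 := ex_spec (x := σ z) (y := z) (by rw [← map_pow, h])
  have h2 := hσ.2 z hz.le
  rw [h1, ← sub_one_mul, map_mul, hz, mul_one, ← zt_zero] at h2
  rw [h1, zt_eq_of_V hw h2, zt_zero, one_mul]

theorem gn_cube (hw : w.p ≠ 3) (hσ : Gn w σ) {x : Qbar} {k : ℕ} (h : σ (x ^ 3) = x ^ 3)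
    (hV : w.V (x ^ 3) = ((w.p : ℝ≥0) ^ k)⁻¹) : σ x = zt k * x := by
  have p0 : (w.p : Qbar) ≠ 0 := by exact_mod_cast w.prime.ne_zero
  have r0 : cr w.p ≠ 0 := fun e => p0 (by rw [← cr_cube w.p, e, zero_pow three_ne_zero])
  have e : (x / cr w.p ^ k) ^ 3 = x ^ 3 / w.p ^ k := by
    rw [div_pow, ← pow_mul, mul_comm, pow_mul, cr_cube]
  have h1 := unit_fix hw hσ.1 (z := x / cr w.p ^ k) (ktb_cube (by
    rw [e, map_div₀, hV, map_pow, w.hV, inv_pow, div_self]
    exact inv_ne_zero (pow_ne_zero _ (one_pos.trans (b2a_one_lt w)).ne')))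
    (by rw [e, map_div₀, h, map_pow, map_natCast])
  rw [map_div₀, map_pow, hσ.2 _ (cr_cube _), mul_pow, zt_pow, mul_one,
    div_eq_iff (mul_ne_zero (zt_ne _) (pow_ne_zero _ r0))] at h1
  rw [h1, mul_comm (zt _), ← mul_assoc, div_mul_cancel₀ _ (pow_ne_zero _ r0), mul_comm]

omit [Fintype U] in
theorem d_ine (h : Rad m β d) (hw : w.p ≠ 3) (hσ : σ ∈ Ine w) {j : U} (hj : ¬ w.p ∣ m j) :
    d j σ = 0 := by
  have h1 := unit_fix hw hσ (z := β j) (ktb_cube (by
    rw [h.cube, ← Int.cast_natCast, w.V_int_eq_one]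
    exact_mod_cast hj)) (by rw [h.cube, map_natCast])
  rw [h.act] at h1
  exact zt_inj (mul_right_cancel₀ (h.ne j) (by rw [h1, zt_zero, one_mul]))

omit [Fintype U] in
theorem d_gn (h : Rad m β d) (hw : w.p ≠ 3) (hσ : Gn w σ) {j : U} (h1 : w.p ∣ m j)
    (h2 : ¬ w.p ^ 2 ∣ m j) : d j σ = 1 := by
  obtain ⟨c, hc⟩ := h1
  have h3 : ¬ (w.p : ℤ) ∣ (c : ℤ) := fun e =>
    h2 (by rw [hc, sq]; exact mul_dvd_mul_left _ (by exact_mod_cast e))
  have h4 := gn_cube hw hσ (x := β j) (k := 1) (by rw [h.cube, map_natCast]) (by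
    rw [h.cube, hc, Nat.cast_mul, map_mul, w.hV, ← Int.cast_natCast (R := Qbar) c,
      w.V_int_eq_one.2 h3, mul_one, pow_one])
  rw [h.act, Nat.cast_one] at h4
  exact zt_inj (mul_right_cancel₀ (h.ne j) h4)

/-- The radicands are independent modulo cubes. -/
theorem d_surj (h : Rad m β d) (v : U → Plc) (τ : U → Gam) (h3 : ∀ j, (v j).p ≠ 3)
    (hτ : ∀ j, Gn (v j) (τ j)) (h1 : ∀ j, (v j).p ∣ m j) (h2 : ∀ j, ¬ (v j).p ^ 2 ∣ m j)
    (h0 : ∀ i j, i ≠ j → ¬ (v j).p ∣ m i) (γ : U → ZMod 3) :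
    ∃ g, ch g = 1 ∧ ∀ j, d j g = γ j := by
  have d1 : ∀ j, d j 1 = 0 := fun j => by
    have := h.coc j 1 1
    rwa [mul_one, ch_one, one_mul, left_eq_add] at this
  have pw : ∀ g, ch g = 1 → ∀ k : ℕ, ch (g ^ k) = 1 ∧ ∀ j, d j (g ^ k) = k * d j g :=
    fun g hg k => by
      induction k with
      | zero => exact ⟨by rw [pow_zero, ch_one], fun j => by rw [pow_zero, d1]; simp⟩
      | succ k ih => exact ⟨by rw [pow_succ, ch_mul, ih.1, hg, one_mul], fun j => by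
          rw [pow_succ, h.coc, ih.1, ih.2, Nat.cast_succ, add_mul]⟩
  have key : ∀ s : Finset U, ∃ g, ch g = 1 ∧ ∀ j, d j g = if j ∈ s then γ j else 0 := fun s => by
    induction s using Finset.induction_on with
    | empty => exact ⟨1, ch_one, fun j => by simp [d1]⟩
    | insert a s ha ih =>
      obtain ⟨g, g1, g2⟩ := ih
      obtain ⟨t1, t2⟩ := pw (τ a) (ch_ine (h3 a) (hτ a).1) (γ a).val
      refine ⟨g * τ a ^ (γ a).val, by rw [ch_mul, g1, t1, one_mul], fun j => ?_⟩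
      rw [h.coc, g1, g2, t2, one_mul, ZMod.natCast_zmod_val]
      by_cases e : j = a
      · rw [e, d_gn h (h3 a) (hτ a) (h1 a) (h2 a)]
        simp [ha]
      · rw [d_ine h (h3 a) (hτ a).1 (h0 j a e)]
        simp [e]
  simpa using key univ

theorem int_of_frob (hφ : IsFrob w w.p φ) {x : Qbar} (hx : w.V x ≤ 1) (h : w.V (φ x - x) < 1) :
    ∃ a : ℤ, w.V (x - a) < 1 := by
  have : Fact w.p.Prime := ⟨w.prime⟩
  let O := w.V.valuationSubring
  have hr : ∀ a b : O, IsLocalRing.residue O a = IsLocalRing.residue O b ↔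
      w.V ((a : Qbar) - b) < 1 := fun a b => by
    rw [← sub_eq_zero, ← map_sub, IsLocalRing.residue_eq_zero_iff,
      Valuation.mem_maximalIdeal_iff]
    rfl
  have hp : ((w.p : ℕ) : IsLocalRing.ResidueField O) = 0 := by
    rw [← map_natCast (IsLocalRing.residue O), ← map_zero (IsLocalRing.residue O), hr]
    simpa using b2a_p_lt w
  have : CharP (IsLocalRing.ResidueField O) w.p := (CharP.charP_iff_prime_eq_zero w.prime).2 hp
  have h1 : IsLocalRing.residue O ⟨x, hx⟩ ^ w.p = IsLocalRing.residue O ⟨x, hx⟩ := by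
    rw [← map_pow, hr]
    have := w.V.map_sub_lt h (hφ.2 x hx)
    rw [sub_sub_sub_cancel_left] at this
    exact this
  obtain ⟨a, ha⟩ := (mem_bot_iff_intCast w.p _).1 ((Subfield.mem_bot_iff_pow_eq_self _ w.p).2 h1)
  refine ⟨a, ?_⟩
  rw [← map_intCast (IsLocalRing.residue O), eq_comm, hr] at ha
  simpa using ha

end Pool.Agent.Lib.MP_696deb_nt.CU.Kt
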