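import Pool.Agent.Lib.MP_696deb_nt.CU.B1pA
import Pool.Agent.Lib.MP_696deb_nt.TF.FM

/-! The mass of the primes modulo which a given number is not a cube. -/

set_option autoImplicit false

open Finset
open scoped Classical

namespace Pool.Agent.Lib.MP_696deb_nt.CU

open Pool.Agent.B6.S

variable {d p : ℕ}

theorem exists_om_zmod (hp : p.Prime) (h : p % 3 = 1) :
    ∃ w : ZMod p, w ^ 2 + w + 1 = 0 ∧ w ≠ 1 := by
  have := Fact.mk hp
  have := Fact.mk Nat.prime_three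
  obtain ⟨u, hu⟩ := exists_prime_orderOf_dvd_card (G := (ZMod p)ˣ) 3 (by
    rw [ZMod.card_units]
    omega)
  have h1 : (u : ZMod p) ≠ 1 := fun e => by
    rw [Units.val_eq_one.1 e, orderOf_one] at hu
    omega
  have h2 : (u : ZMod p) ^ 3 = 1 := by rw [← Units.val_pow_eq_pow_val, ← hu, pow_orderOf_eq_one,
    Units.val_one]
  exact ⟨u, mul_left_cancel₀ (sub_ne_zero.2 h1) (by linear_combination h2), h1⟩

theorem spl_of_one (hp : p.Prime) (h : p % 3 = 1) : Spl (-3) p := by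
  obtain ⟨w, hw, -⟩ := exists_om_zmod hp h
  exact ⟨2 * w + 1, by push_cast; linear_combination -4 * hw⟩

theorem not_spl (hp : p.Prime) (h : p % 3 = 2) (h2 : p ≠ 2) : ¬ Spl (-3) p := by
  rintro ⟨s, hs⟩
  have := Fact.mk hp
  push_cast at hs
  have t : (2 : ZMod p) ≠ 0 := fun e =>
    h2 ((Nat.prime_dvd_prime_iff_eq hp Nat.prime_two).1 ((ZMod.natCast_eq_zero_iff 2 p).1 e))
  obtain ⟨w, rfl⟩ : ∃ w, s = 2 * w + 1 := ⟨(s - 1) / 2, by field_simp; ring⟩
  have hw : w ^ 2 + w + 1 = 0 :=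
    mul_left_cancel₀ (mul_ne_zero t t) (by linear_combination -hs)
  have h3 : w ^ 3 = 1 := by linear_combination (w - 1) * hw
  have h4 : w ^ (3 * (p / 3) + 2) = w :=
    (congrArg (w ^ ·) (by omega : 3 * (p / 3) + 2 = p)).trans (ZMod.pow_card w)
  rw [pow_add, pow_mul, h3, one_pow, one_mul] at h4
  have h5 : (3 : ZMod p) = 0 := by linear_combination (3 - 2 * w) * hw + (2 * w + 1) * h4
  have := (Nat.prime_dvd_prime_iff_eq hp Nat.prime_three).1 ((ZMod.natCast_eq_zero_iff 3 p).1 h5)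
  omega

theorem val_mem_Rt (hp : p.Prime) {y : ZMod p} (h : y ^ 3 = d) : y.val ∈ Rt d p := by
  have := Fact.mk hp
  refine mem_filter.2 ⟨mem_range.2 y.val_lt, (ZMod.natCast_eq_natCast_iff _ _ _).1 ?_⟩
  rw [Nat.cast_pow, ZMod.natCast_zmod_val, h]

theorem rt_inert (hp : p.Prime) (h : p % 3 = 2) : 1 ≤ (Rt d p).card := by
  have := Fact.mk hp
  refine card_pos.2 ⟨_, val_mem_Rt hp (y := (d : ZMod p) ^ (2 * (p / 3) + 1)) ?_⟩
  rw [← pow_mul, show (2 * (p / 3) + 1) * 3 = p + (p - 1) by omega, pow_add, ZMod.pow_card]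
  by_cases h0 : (d : ZMod p) = 0
  · rw [h0, zero_mul]
  · rw [ZMod.pow_card_sub_one_eq_one h0, mul_one]

theorem rt_split (hp : p.Prime) (h : p % 3 = 1) (hd : ¬ p ∣ d) (hc : ∃ y, y ^ 3 ≡ d [MOD p]) :
    3 ≤ (Rt d p).card := by
  have := Fact.mk hp
  obtain ⟨w, hw, w1⟩ := exists_om_zmod hp h
  obtain ⟨y, hy⟩ := hc
  have h1 : (y : ZMod p) ^ 3 = d := by
    rw [← Nat.cast_pow]
    exact (ZMod.natCast_eq_natCast_iff _ _ _).2 hy
  have y0 : (y : ZMod p) ≠ 0 := fun e => hd ((ZMod.natCast_eq_zero_iff d p).1 (by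
    rw [← h1, e, zero_pow three_ne_zero]))
  have w0 : w ≠ 0 := fun e => by simp [e] at hw
  have k : (y : ZMod p) ≠ w * y := fun e => w1 (mul_right_cancel₀ y0 (by linear_combination -e))
  refine two_lt_card_iff.2 ⟨_, _, _, val_mem_Rt hp h1, val_mem_Rt hp (y := w * y) ?_,
    val_mem_Rt hp (y := w * (w * y)) ?_, (ZMod.val_injective p).ne k,
    (ZMod.val_injective p).ne fun e => k ?_, (ZMod.val_injective p).ne fun e => k ?_⟩
  · linear_combination h1 + (y : ZMod p) ^ 3 * (w - 1) * hw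
  · linear_combination h1 + (y : ZMod p) ^ 3 * (w ^ 3 + 1) * (w - 1) * hw
  · linear_combination -w * e - y * (w - 1) * hw
  · exact mul_left_cancel₀ w0 e

theorem cube_mass (hd : ¬ ∃ y : ℕ, y ^ 3 = d) {z X : ℕ} (hz : 6 * d ^ 2 ≤ z) (hX : 2 ≤ X) :
    ms (Wn z X fun p => p.Prime ∧ p % 3 = 2) +
      3 * ms (Wn z X fun p => p.Prime ∧ p % 3 = 1 ∧ ∃ y : ℕ, y ^ 3 ≡ d [MOD p]) ≤ LL X + 85 := by
  have d1 : 1 ≤ d := Nat.pos_of_ne_zero fun h => hd ⟨0, by simp [h]⟩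
  set P := Wn z X fun p => p.Prime ∧ p % 3 = 2
  set Q := Wn z X fun p => p.Prime ∧ p % 3 = 1 ∧ ∃ y : ℕ, y ^ 3 ≡ d [MOD p]
  have hPQ : Disjoint P Q := disjoint_left.2 fun p hp hq => by
    have := (mem_Wn.1 hp).2.2.2
    have := (mem_Wn.1 hq).2.2.2.1
    omega
  have k : ∀ p ∈ P ∪ Q, p.Prime ∧ z < p ∧ p ≤ X ∧
      (if p % 3 = 2 then 1 else 3 : ℝ) ≤ (Rt d p).card := fun p hp => by
    rcases mem_union.1 hp with h | h <;> rw [mem_Wn] at h
    · refine ⟨h.2.2.1, h.1, h.2.1, ?_⟩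
      rw [if_pos h.2.2.2]
      exact_mod_cast rt_inert h.2.2.1 h.2.2.2
    · refine ⟨h.2.2.1, h.1, h.2.1, ?_⟩
      rw [if_neg (by omega)]
      exact_mod_cast rt_split h.2.2.1 h.2.2.2.1
        (fun e => by nlinarith [Nat.le_of_dvd d1 e, h.1]) h.2.2.2.2
  have pf : ∀ S ⊆ P ∪ Q, (∏ p ∈ S, p).primeFactors = S := fun S hS =>
    Nat.primeFactors_prod fun p hp => (k p (hS hp)).1
  have h := Pool.Agent.B6.mass_le (P := P ∪ Q) hX (fun p hp => ⟨(k p hp).1, (k p hp).2.2.1⟩)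
    (r := fun p => if p % 3 = 2 then 1 else 3) (g := 3) (K := 27)
    (fun p => by split_ifs <;> norm_num) (by norm_num) fun x => by
      have h1 := sum_roots_le hd (z := x)
        (((P ∪ Q).powerset.filter fun S => ∏ p ∈ S, p ≤ x).image fun S => ∏ p ∈ S, p)
        fun m hm => by
          obtain ⟨S, hS, rfl⟩ := mem_image.1 hm
          obtain ⟨h1, h2⟩ := mem_filter.1 hS
          rw [mem_powerset] at h1
          refine ⟨h2, Finset.squarefree_prod_of_pairwise_isCoprime (fun p hp q hq h => ?_)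
            fun p hp => (k p (h1 hp)).1.squarefree, fun p hp => ?_⟩
          · simp only [Function.onFun, ← Nat.coprime_iff_isRelPrime]
            exact (Nat.coprime_primes (k p (h1 hp)).1 (k q (h1 hq)).1).2 h
          · rw [pf S h1] at hp
            exact hz.trans_lt (k p (h1 hp)).2.1
      rw [sum_image fun S hS S' hS' e => by
        rw [← pf S (mem_powerset.1 (mem_filter.1 hS).1), e,
          pf S' (mem_powerset.1 (mem_filter.1 hS').1)]] at h1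
      refine le_trans (sum_le_sum fun S hS => ?_) (le_of_eq_of_le (Nat.cast_sum _ _).symm
        (by exact_mod_cast h1))
      have h2 := mem_powerset.1 (mem_filter.1 hS).1
      rw [pf S h2, Nat.cast_prod]
      exact prod_le_prod (fun p _ => by split_ifs <;> norm_num) fun p hp => (k p (h2 hp)).2.2.2
  rw [sum_union hPQ, sum_congr rfl fun p hp => by rw [if_pos (mem_Wn.1 hp).2.2.2],
    sum_congr (s₁ := Q) rfl fun p hp => by
      rw [if_neg (by have := (mem_Wn.1 hp).2.2.2.1; omega), ← mul_one_div], ← mul_sum] at h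
  have := Real.log_le_sub_one_of_pos (show (0 : ℝ) < 27 by norm_num)
  unfold ms LL
  linarith

theorem not_sq_neg_three : ¬ IsSquare (-3 : ℤ) := fun ⟨r, h⟩ => by nlinarith [mul_self_nonneg r]

theorem inert_mass_le : ∃ c : ℝ, ∀ z X : ℕ, 2 ≤ z → 2 ≤ X →
    ms (Wn z X fun p => p.Prime ∧ p % 3 = 2) ≤ LL X / 2 + c := by
  obtain ⟨c, h⟩ := spl_lower not_sq_neg_three
  refine ⟨17 + c / 2, fun z X hz hX => ?_⟩
  have hd : Disjoint (Wn z X fun p => p.Prime ∧ p % 3 = 2)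
      (Wn 0 X fun p => p.Prime ∧ Spl (-3) p) := disjoint_left.2 fun p hp hq => by
    rw [mem_Wn] at hp hq
    exact not_spl hp.2.2.1 hp.2.2.2 (by omega) hq.2.2.2
  have h1 := ms_le (P := (Wn z X fun p => p.Prime ∧ p % 3 = 2) ∪
    Wn 0 X fun p => p.Prime ∧ Spl (-3) p) hX fun p hp => by
      rcases mem_union.1 hp with k | k <;> exact ⟨(mem_Wn.1 k).2.2.1, (mem_Wn.1 k).2.1⟩
  rw [ms, sum_union hd] at h1
  have h2 := h X hX
  unfold ms at *
  linarith

theorem noncube_mass : ∃ c : ℝ, ∀ d z X : ℕ, (¬ ∃ y : ℕ, y ^ 3 = d) → (2 * d) ^ 27 ≤ z → 2 ≤ X →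
    LL X / 3 - LL z - c ≤
      ms (Wn z X fun p => p.Prime ∧ p % 3 = 1 ∧ ¬ ∃ y : ℕ, y ^ 3 ≡ d [MOD p]) := by
  obtain ⟨c, h⟩ := inert_mass_le
  refine ⟨50 + 2 / 3 * c, fun d z X hd hz hX => ?_⟩
  have d1 : 1 ≤ d := Nat.pos_of_ne_zero fun h => hd ⟨0, by simp [h]⟩
  have z1 : 8 * d ^ 2 ≤ z := le_trans (le_trans (by nlinarith [Nat.pow_le_pow_right d1 (Nat.le_succ 2)])
    (Nat.pow_le_pow_right (n := 2 * d) (by omega) (show 3 ≤ 27 by norm_num))) hz
  have z2 : 3 ≤ z := by nlinarith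
  have h1 := cube_mass hd (z := z) (by omega) hX
  have h2 := h z X (by omega) hX
  have h3 := (ms_win (z := z) (by omega) hX).trans ((ms_mono fun p hp => by
    simp only [mem_union, mem_Wn] at hp ⊢
    have : p % 3 ≠ 0 := fun e => by
      have := (Nat.prime_dvd_prime_iff_eq Nat.prime_three hp.2.2).1 (Nat.dvd_of_mod_eq_zero e)
      omega
    by_cases e : p % 3 = 2
    · exact .inl ⟨hp.1, hp.2.1, hp.2.2, e⟩
    by_cases e' : ∃ y : ℕ, y ^ 3 ≡ d [MOD p]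
    · exact .inr (.inl ⟨hp.1, hp.2.1, hp.2.2, by omega, e'⟩)
    · exact .inr (.inr ⟨hp.1, hp.2.1, hp.2.2, by omega, e'⟩)).trans
    ((ms_union (Wn z X fun p => p.Prime ∧ p % 3 = 2) _).trans (add_le_add le_rfl (ms_union
      (Wn z X fun p => p.Prime ∧ p % 3 = 1 ∧ ∃ y : ℕ, y ^ 3 ≡ d [MOD p])
      (Wn z X fun p => p.Prime ∧ p % 3 = 1 ∧ ¬ ∃ y : ℕ, y ^ 3 ≡ d [MOD p])))))
  linarith

theorem inert_mass : ∃ c : ℝ, ∀ z X : ℕ, 3 ≤ z → 2 ≤ X →
    LL X / 2 - LL z - c ≤ ms (Wn z X fun p => p.Prime ∧ p % 3 = 2) := by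
  obtain ⟨c, h⟩ := spl_upper not_sq_neg_three
  refine ⟨18 + c / 2, fun z X hz hX => ?_⟩
  have h2 := h X hX
  have h3 := (ms_win (z := z) (by omega) hX).trans ((ms_mono fun p hp => by
    simp only [mem_union, mem_Wn] at hp ⊢
    have : p % 3 ≠ 0 := fun e => by
      have := (Nat.prime_dvd_prime_iff_eq Nat.prime_three hp.2.2).1 (Nat.dvd_of_mod_eq_zero e)
      omega
    by_cases e : p % 3 = 2
    · exact .inl ⟨hp.1, hp.2.1, hp.2.2, e⟩
    · exact .inr ⟨by omega, hp.2.1, hp.2.2, spl_of_one hp.2.2 (by omega)⟩).trans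
    (ms_union (Wn z X fun p => p.Prime ∧ p % 3 = 2) (Wn 0 X fun p => p.Prime ∧ Spl (-3) p)))
  linarith

end Pool.Agent.Lib.MP_696deb_nt.CU
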