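import Pool.Agent.Lib.MP_696deb_nt.CU.N0

/-! Rare events, and a sieve over families of sets of primes. -/

set_option autoImplicit false

open scoped Classical
open Finset

namespace Pool.Agent.Lib.MP_696deb_nt.CU.An

open Pool.Agent.Lib.MP_696deb_nt.Sa Pool.Agent.B6.S

theorem markov {X : ℕ} {T : ℝ} (P : Finset ℕ) {S : Finset ℕ} (hS : S ⊆ Icc 1 X)
    (h : ∀ n ∈ S, T ≤ (n.primeFactors ∩ P).card) : (S.card : ℝ) * T ≤ X * ms P := by
  rw [← nsmul_eq_mul]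
  exact (card_nsmul_le_sum _ _ _ h).trans ((sum_le_sum_of_subset_of_nonneg hS
    fun _ _ _ => Nat.cast_nonneg _).trans ((sum_inter_le X P).trans (mul_le_mul_of_nonneg_left
      (ms_mono (filter_subset _ _)) X.cast_nonneg)))

theorem rare0 : Rare fun m _ n => ¬ G0 m n := by
  refine rare_of 1 1 fun m hm X _ S hS => ?_
  have h1 : S.card ≤ ∑ a ∈ Ioc m (m + X), X / a ^ 2 := by
    refine (card_le_card (t := (Ioc m (m + X)).biUnion fun a => (Ioc 0 X).filter (a ^ 2 ∣ ·))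
      fun n hn => ?_).trans (card_biUnion_le.trans (sum_le_sum fun a _ =>
        (Nat.Ioc_filter_dvd_card_eq_div _ _).le))
    obtain ⟨b, a, e, k⟩ := Nat.sq_mul_squarefree n
    obtain ⟨a1, a2⟩ := mem_Icc.1 (hS n hn).1
    have := Nat.le_of_dvd a1 ((dvd_pow_self a two_ne_zero).trans (Dvd.intro _ e))
    exact mem_biUnion.2 ⟨a, mem_Ioc.2 ⟨not_le.1 fun c => (hS n hn).2 ⟨a, b, c, k, e.symm⟩,
      by omega⟩, mem_filter.2 ⟨mem_Ioc.2 ⟨a1, a2⟩, Dvd.intro _ e⟩⟩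
  have h2 : (S.card : ℝ) ≤ X * ∑ a ∈ Ioc m (m + X), ((a : ℝ) ^ 2)⁻¹ := by
    rw [mul_sum]
    refine (Nat.cast_le.2 h1).trans (Nat.cast_sum (R := ℝ) _ _ ▸ sum_le_sum fun a _ => ?_)
    exact Nat.cast_div_le.trans_eq (by push_cast; rfl)
  have h3 := sum_Ioc_inv_sq_le_sub (α := ℝ) (k := m) (n := m + X) (by omega) (by omega)
  have m0 : (0 : ℝ) < m := by exact_mod_cast hm
  rw [← le_div_iff₀ m0, one_mul, div_eq_mul_inv]
  exact h2.trans (mul_le_mul_of_nonneg_left (h3.trans (sub_le_self _ (by positivity)))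
    X.cast_nonneg)

theorem card_Ck (m X : ℕ) : (((Wn (YY m) X Nat.Prime).image (Ck m X)).card : ℝ) ≤
    (Real.log X * (m : ℝ) ^ 11 + 1) * 3 := by
  let g : ℕ × ℕ → Finset ℕ := fun t => Wn (YY m) X fun q => q.Prime ∧ kap m q = t.1 ∧ q % 3 = t.2
  have hs : (Wn (YY m) X Nat.Prime).image (Ck m X) ⊆
      (range (kap m X + 1) ×ˢ range 3).image g := by
    intro T hT
    obtain ⟨p, hp, rfl⟩ := mem_image.1 hT
    obtain ⟨p1, p2, -⟩ := mem_Wn.1 hp
    refine mem_image.2 ⟨(kap m p, p % 3), ?_, rfl⟩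
    simp only [mem_product, mem_range]
    refine ⟨Nat.lt_succ_of_le (Nat.floor_le_floor ?_), Nat.mod_lt _ three_pos⟩
    have h0 : (0 : ℝ) < p := by exact_mod_cast (Nat.zero_le _).trans_lt p1
    exact mul_le_mul_of_nonneg_right (Real.log_le_log h0 (by exact_mod_cast p2)) (by positivity)
  have h1 := (card_le_card hs).trans card_image_le
  rw [card_product, card_range, card_range] at h1
  have h2 : (kap m X : ℝ) ≤ Real.log X * (m : ℝ) ^ 11 :=
    Nat.floor_le (mul_nonneg (Real.log_natCast_nonneg X) (by positivity))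
  refine (Nat.cast_le.2 h1).trans ?_
  push_cast
  gcongr

theorem rareH4 : Rare fun m X n => ¬ H4 m X n := by
  refine rare_of 20 1 fun m hm X hX S hS => ?_
  have h1 := markov (T := 1) ((Wn (YY m) X Nat.Prime).filter fun p =>
    ((Ck m X p).card : ℝ) < (1 / 2) ^ m ^ 5 * p) (fun n hn => (hS n hn).1) fun n hn => by
      obtain ⟨a, b⟩ := hS n hn
      simp only [H4, not_forall, not_le] at b
      obtain ⟨p, hp, b⟩ := b
      exact_mod_cast card_pos.2 ⟨p, mem_inter.2 ⟨(mem_up.1 hp).1, mem_filter.2 ⟨mem_Wn.2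
        ⟨(mem_up.1 hp).2, (Nat.le_of_mem_primeFactors (mem_up.1 hp).1).trans (mem_Icc.1 a).2,
          up_prime hp⟩, b⟩⟩⟩
  have h2 := (small_cls (Wn (YY m) X Nat.Prime) (Ck m X) (fun p hp => by
    rw [mem_Wn] at hp
    exact mem_Ck.2 ⟨hp.1, hp.2.1, hp.2.2, rfl, rfl⟩) (θ := (1 / 2) ^ m ^ 5) (by positivity)).trans
      (mul_le_mul_of_nonneg_left (card_Ck m X) (by positivity))
  have h3 := hX.log_le (by omega)
  have h4 : ((1 : ℝ) / 2) ^ m ^ 5 * ((Real.log X * (m : ℝ) ^ 11 + 1) * 3) ≤ (1 / 2) ^ m := by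
    refine le_trans ?_ (anB_num hm)
    refine le_trans ?_ (le_mul_of_one_le_left (by positivity) (le_add_of_nonneg_right
      (by positivity)))
    refine mul_le_mul_of_nonneg_left (le_trans ?_ (le_mul_of_one_le_right (by positivity)
      (one_le_pow₀ one_le_two))) (by positivity)
    gcongr
    norm_num
  have h5 : ((1 : ℝ) / 2) ^ m * m ≤ 1 := by
    rw [one_div_pow, one_div_mul_eq_div, div_le_one (by positivity)]
    exact_mod_cast Nat.lt_two_pow_self.le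
  rw [mul_one] at h1
  refine (mul_le_mul_of_nonneg_right (h1.trans (mul_le_mul_of_nonneg_left (h2.trans h4)
    X.cast_nonneg)) m.cast_nonneg).trans ?_
  rw [mul_assoc, one_mul]
  exact mul_le_of_le_one_right X.cast_nonneg h5

theorem rareH5 {c : ℝ} (h : ∀ z X : ℕ, 3 ≤ z → 2 ≤ X →
    LL X / 2 - LL z - c ≤ ms (Wn z X fun p => p.Prime ∧ p % 3 = 2)) :
    Rare fun m _ n => ¬ H5 m n := by
  intro ε hε
  obtain ⟨m0, h0⟩ := r7a (P := fun _ p => p.Prime ∧ p % 3 = 2) (fun _ _ k => k.1) YY ε hε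
  obtain ⟨m1, h1⟩ := exists_nat_ge c
  refine ⟨m0 + m1 + 20, fun m hm X hX => le_trans (Nat.cast_le.2 (card_le_card fun n hn => ?_))
    (h0 m (by omega) X hX)⟩
  simp only [mem_filter] at hn ⊢
  refine ⟨hn.1, le_abs.2 (.inr ?_)⟩
  have h2 := h (YY m) X (le_trans (by omega) (le_YY m)) (two_le_X hX)
  have h4 := LL_YY (m := m) (by omega)
  have h5 := LL_ge hX.1
  have m2 : (20 : ℝ) ≤ m := by exact_mod_cast (by omega : 20 ≤ m)
  have m1 : (m1 : ℝ) ≤ m := by exact_mod_cast (by omega : m1 ≤ m)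
  have m3 : 20 * (m : ℝ) ≤ (m : ℝ) ^ 2 := by nlinarith
  have m4 : 400 * (m : ℝ) ^ 2 ≤ (m : ℝ) ^ 4 := by nlinarith
  have h6 : ((n.primeFactors ∩ Wn (YY m) X fun p => p.Prime ∧ p % 3 = 2).card : ℝ) ≤
      (m : ℝ) ^ 2 := by
    refine Nat.cast_le.2 ((card_le_card fun p hp => ?_).trans (not_le.1 hn.2).le) |>.trans_eq
      (Nat.cast_pow m 2)
    obtain ⟨a, b⟩ := mem_inter.1 hp
    obtain ⟨b1, -, -, b2⟩ := mem_Wn.1 b
    exact mem_filter.2 ⟨mem_up.2 ⟨a, b1⟩, b2⟩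
  push_cast at h5
  linarith

/-- Not too many lower primes. -/
def H7 (m n : ℕ) : Prop := 100 * (n.primeFactors.filter fun p => p ≤ 2 * TT m).card ≤ m ^ 4

theorem aa_le {m : ℕ} (hm : 6 ≤ m) : (aa m 1 + 3) * m ^ 4 ≤ 2 ^ (2 * m ^ 3) := by
  have h1 : 1 ≤ aa m 1 := Nat.mul_pos (by positivity) (by positivity)
  have h2 : m ^ 29 ≤ 2 ^ (m * 29) := by
    rw [pow_mul]; exact Nat.pow_le_pow_left Nat.lt_two_pow_self.le 29
  have h3 : 36 * m ≤ m ^ 3 := by
    rw [pow_succ]; exact Nat.mul_le_mul_right _ (Nat.pow_le_pow_left hm 2)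
  calc _ ≤ 4 * aa m 1 * m ^ 4 := Nat.mul_le_mul_right _ (by omega)
    _ = 2 ^ (m ^ 3 + 2) * m ^ 29 := by simp only [aa]; ring
    _ ≤ 2 ^ (m ^ 3 + 2) * 2 ^ (m * 29) := Nat.mul_le_mul_left _ h2
    _ ≤ _ := by rw [← pow_add]; exact Nat.pow_le_pow_right two_pos (by omega)

theorem rareH7 : Rare fun m _ n => ¬ H7 m n := by
  refine rare_of 6 300 fun m hm X _ S hS => ?_
  have e : 2 * TT m = 2 ^ (aa m 1 + 1) := by rw [TT, pow_succ, mul_comm]
  have h1 := markov (T := (m : ℝ) ^ 4 / 100) (Wn 0 (2 * TT m) Nat.Prime)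
    (fun n hn => (hS n hn).1) fun n hn => by
      have a := (not_le.1 (hS n hn).2).le.trans (Nat.mul_le_mul_left 100 (card_le_card
        (t := n.primeFactors ∩ Wn 0 (2 * TT m) Nat.Prime) fun p hp => by
          have b := Nat.prime_of_mem_primeFactors (mem_filter.1 hp).1
          exact mem_inter.2 ⟨(mem_filter.1 hp).1, mem_Wn.2 ⟨b.pos, (mem_filter.1 hp).2, b⟩⟩))
      rw [div_le_iff₀' (by norm_num)]
      exact_mod_cast a
  have h2 := ms_le (P := Wn 0 (2 * TT m) Nat.Prime) (X := 2 * TT m)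
    (Nat.le_mul_of_pos_right _ Nat.one_le_two_pow) fun p hp =>
      ⟨(mem_Wn.1 hp).2.2, (mem_Wn.1 hp).2.1⟩
  have h3 := LL_le (a := aa m 1 + 1) (e := 2 * m ^ 3) (by omega) (le_trans (by
    have := Nat.one_le_pow 4 m (by omega)
    nlinarith) (aa_le hm))
  rw [← e] at h3
  push_cast at h3
  have m2 : (6 : ℝ) ≤ m := by exact_mod_cast hm
  have m3 : (6 : ℝ) ^ 3 ≤ (m : ℝ) ^ 3 := pow_le_pow_left₀ (by norm_num) m2 3
  have h4 := h1.trans (mul_le_mul_of_nonneg_left (h2.trans (show _ ≤ 3 * (m : ℝ) ^ 3 by linarith))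
    X.cast_nonneg)
  refine le_of_mul_le_mul_right (a := (m : ℝ) ^ 3 / 100) ?_ (by positivity)
  linarith

theorem see (F : ℕ → Finset (ℕ → Prop)) (c : ℝ) (T : ℕ → ℕ)
    (hT : ∀ m, 1 ≤ m → YY m ≤ T m ∧ T m ≤ 2 * TT m)
    (hF : ∀ d, d ≠ 0 → (F d).card ≤ 3 ^ (d.primeFactors.card + 1))
    (hP : ∀ d, ∀ i ∈ F d, ∀ p, i p → p.Prime)
    (hm : ∀ d z X : ℕ, d ≠ 0 → (18 * d ^ 2) ^ 27 ≤ z → 2 ≤ X → ∀ i ∈ F d,
      LL X / 3 - LL z - c ≤ ms (Wn z X i)) :
    Rare fun m _ n => G0 m n ∧ H7 m n ∧ ∃ i ∈ F (lo (T m) n), ∀ p ∈ up (T m) n, ¬ i p := by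
  obtain ⟨m1, h1⟩ := exists_nat_ge c
  refine rare_of (m1 + 100) 27 fun m hm' X hX S hS => ?_
  obtain ⟨t1, t2⟩ := hT m (by omega)
  have y2 := le_YY m
  have m3 : 100 * m ^ 3 ≤ m ^ 4 := by
    rw [pow_succ _ 3, mul_comm]; exact Nat.mul_le_mul_left _ (by omega)
  have m4 := Nat.le_self_pow three_ne_zero m
  obtain ⟨a, ha⟩ : ∃ a, a = 2 ^ (2 * m ^ 3) := ⟨_, rfl⟩
  have a1 : 2 * m ^ 3 ≤ a := ha ▸ Nat.lt_two_pow_self.le
  obtain ⟨D, hD⟩ : ∃ D, D = (Icc 1 (2 ^ a)).filter fun d => 100 * d.primeFactors.card ≤ m ^ 4 :=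
    ⟨_, rfl⟩
  obtain ⟨G, hG⟩ : ∃ G : ℕ → (ℕ → Prop) → Finset ℕ, ∀ d i, G d i = (Den.SO (X / d)).filter
    fun k => ∀ p ∈ Wn (2 ^ (64 * a)) (X / d) i, ¬ p ∣ k := ⟨_, fun _ _ => rfl⟩
  have c1 : S.card ≤ ∑ d ∈ D, ∑ i ∈ F d, (G d i).card := by
    refine le_trans (card_le_card (t := D.biUnion fun d => (F d).biUnion fun i =>
      (G d i).image fun k => d * k) fun n hn => ?_) (card_biUnion_le.trans (sum_le_sum fun d _ =>
        card_biUnion_le.trans (sum_le_sum fun c _ => card_image_le)))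
    obtain ⟨b1, b2, b3, i, b4, b5⟩ := hS n hn
    obtain ⟨n1, n2⟩ := mem_Icc.1 b1
    have d1 := Nat.pos_of_ne_zero (lo_ne (T := T m) (n := n) (by omega))
    have b6 : 100 * (n.primeFactors.filter fun p => p ≤ T m).card ≤ m ^ 4 :=
      (Nat.mul_le_mul_left 100 (card_le_card (monotone_filter_right _
        fun p _ hp => hp.trans t2))).trans b3
    have hk : Squarefree (∏ p ∈ up (T m) n, p) :=
      Finset.squarefree_prod_of_pairwise_isCoprime (fun p hp q hq h => by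
        simp only [Function.onFun, ← Nat.coprime_iff_isRelPrime]
        exact (Nat.coprime_primes (up_prime hp) (up_prime hq)).2 h)
        fun p hp => (up_prime hp).squarefree
    have pf : ∀ p, p.Prime → p ∣ ∏ p ∈ up (T m) n, p → p ∈ up (T m) n := fun p hp e => by
      rw [← Nat.primeFactors_prod fun p (hp : p ∈ up (T m) n) => up_prime hp]
      exact Nat.mem_primeFactors.2 ⟨hp, e, hk.ne_zero⟩
    refine mem_biUnion.2 ⟨lo (T m) n, ?_, mem_biUnion.2 ⟨i, b4, mem_image.2 ⟨_, ?_, lo_mul _ n⟩⟩⟩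
    · rw [hD]
      refine mem_filter.2 ⟨mem_Icc.2 ⟨d1, (lo_le b2 (by omega)).trans ?_⟩,
        by rwa [lo_pf b2 (by omega) (by omega)]⟩
      refine (Nat.mul_le_mul (Nat.pow_le_pow_left Nat.lt_two_pow_self.le 2)
        ((Nat.pow_le_pow_left t2 _).trans (Nat.pow_le_pow_right (n := 2 * TT m)
          (by omega) (j := m ^ 4) (by omega)))).trans ?_
      rw [TT, ← pow_succ', ← pow_mul, ← pow_mul, ← pow_add]
      refine Nat.pow_le_pow_right two_pos (le_trans ?_ (ha ▸ aa_le (by omega)))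
      nlinarith
    · rw [hG]
      refine mem_filter.2 ⟨Mom.HT.mem_SO.2 ⟨⟨Nat.pos_of_ne_zero hk.ne_zero, ?_⟩, hk,
        Nat.not_even_iff_odd.1 fun e => ?_⟩, fun p hp e => ?_⟩
      · rwa [Nat.le_div_iff_mul_le d1, mul_comm, lo_mul]
      · have := (mem_up.1 (pf 2 Nat.prime_two e.two_dvd)).2
        omega
      · have := (mem_Wn.1 hp).2.2
        exact b5 p (pf p (hP _ i b4 p this) e) this
  obtain ⟨μ, hμ⟩ : ∃ μ : ℝ, μ = (((m : ℝ) ^ 4 - 1) / 2 - 1) / 3 - (2 * (m : ℝ) ^ 3 + 6) - c :=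
    ⟨_, rfl⟩
  have c2 : ∀ d ∈ D, ((∑ i ∈ F d, (G d i).card : ℕ) : ℝ) ≤
      Real.exp ((m : ℝ) ^ 4 / 50 + 2) * (27 * X * Real.exp (15 - μ)) * (1 / d : ℝ) := by
    intro d hd
    obtain ⟨d1, d2⟩ := mem_filter.1 (hD ▸ hd)
    obtain ⟨d0, d1⟩ := mem_Icc.1 d1
    have hZ : 2 ^ 2 ^ (m ^ 4 - 1) ≤ X / d := by
      rw [Nat.le_div_iff_mul_le d0]
      refine le_trans (Nat.mul_le_mul_left _ (d1.trans (Nat.pow_le_pow_right two_pos
        (ha ▸ Nat.pow_le_pow_right two_pos (j := m ^ 4 - 1) (by omega))))) (le_trans ?_ hX.1)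
      rw [← pow_add, ← two_mul, ← pow_succ', Nat.sub_add_cancel (by omega)]
    have hZ2 : 2 ≤ X / d := le_trans (Nat.le_self_pow (by positivity) 2) hZ
    have e2 : ((F d).card : ℝ) ≤ Real.exp ((m : ℝ) ^ 4 / 50 + 2) := by
      have k : (100 * d.primeFactors.card : ℝ) ≤ (m : ℝ) ^ 4 := by exact_mod_cast d2
      refine (Nat.cast_le.2 (hF d (by omega))).trans ?_
      push_cast
      refine (pow_le_pow_left₀ (by norm_num) (show (3 : ℝ) ≤ Real.exp 2 by
        linarith [Real.add_one_le_exp 2]) _).trans ?_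
      rw [← Real.exp_nat_mul]
      push_cast
      exact Real.exp_le_exp.2 (by linarith)
    have z1 : (18 * d ^ 2) ^ 27 ≤ 2 ^ (64 * a) := by
      refine (Nat.pow_le_pow_left (Nat.mul_le_mul (show 18 ≤ 2 ^ 5 by norm_num)
        (Nat.pow_le_pow_left d1 2)) 27).trans ?_
      rw [← pow_mul, ← pow_add, ← pow_mul]
      exact Nat.pow_le_pow_right two_pos (by omega)
    have z2 := LL_le (a := 64 * a) (e := 2 * m ^ 3 + 6) (by omega) (by rw [ha, pow_add]; omega)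
    have z3 := LL_ge hZ
    rw [Nat.cast_sub (by omega)] at z3
    push_cast at z2 z3
    rw [Nat.cast_sum, mul_assoc]
    refine (sum_le_card_nsmul _ _ (27 * X * Real.exp (15 - μ) * (1 / d : ℝ))
      fun i hi => ?_).trans ?_
    · have f4 := hm d _ (X / d) (by omega) z1 hZ2 i hi
      have hq : ((X / d : ℕ) : ℝ) ≤ X / d := Nat.cast_div_le
      refine (sieve hZ2 (P := Wn (2 ^ (64 * a)) (X / d) i)
        (fun p hp => ?_) fun k hk => mem_filter.1 (hG d i ▸ hk)).trans ?_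
      · obtain ⟨b0, b1, b2⟩ := mem_Wn.1 hp
        have := Nat.le_self_pow (n := 64 * a) (by omega) 2
        exact ⟨hP d i hi p b2, (hP d i hi p b2).odd_of_ne_two (by omega), b1⟩
      · exact (mul_le_mul (mul_le_mul_of_nonneg_left hq (by norm_num)) (Real.exp_le_exp.2
          (show _ ≤ 15 - μ by linarith)) (Real.exp_pos _).le (by positivity)).trans_eq (by ring)
    · rw [nsmul_eq_mul]
      exact mul_le_mul_of_nonneg_right e2 (by positivity)
  have c4 : ∑ d ∈ D, (1 / d : ℝ) ≤ Real.exp (2 * (m : ℝ) ^ 3 + 1) := by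
    have k1 : (a : ℝ) ≤ Real.exp (2 * (m : ℝ) ^ 3) := by
      rw [ha]
      push_cast
      refine (pow_le_pow_left₀ (by norm_num) (show (2 : ℝ) ≤ Real.exp 1 by
        linarith [Real.add_one_le_exp 1]) _).trans_eq ?_
      rw [← Real.exp_nat_mul]
      simp
    have k2 := Real.one_le_exp (x := 2 * (m : ℝ) ^ 3) (by positivity)
    rw [hD, Real.exp_add]
    refine (sum_le_sum_of_subset_of_nonneg (filter_subset _ _) fun d _ _ => by positivity).trans
      ((sum_inv_le _).trans ?_)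
    nlinarith [(log_pow_two a).2, Real.add_one_le_exp 1]
  have c3 := (Nat.cast_le (α := ℝ).2 c1).trans (Nat.cast_sum (R := ℝ) _ _ ▸ sum_le_sum c2)
  rw [← mul_sum] at c3
  have r1 : (m1 : ℝ) ≤ m := by exact_mod_cast (by omega : m1 ≤ m)
  have r2 : (100 : ℝ) ≤ m := by exact_mod_cast (by omega : 100 ≤ m)
  have r3 : 100 * (m : ℝ) ^ 3 ≤ (m : ℝ) ^ 4 := by exact_mod_cast m3
  have r4 : (m : ℝ) ≤ (m : ℝ) ^ 3 := by exact_mod_cast m4
  refine (mul_le_mul (c3.trans (mul_le_mul_of_nonneg_left c4 (by positivity)))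
    (show (m : ℝ) ≤ Real.exp m by linarith [Real.add_one_le_exp m]) m.cast_nonneg
    (by positivity)).trans (le_of_eq_of_le (b := 27 * X * Real.exp ((m : ℝ) ^ 4 / 50 + 2 +
      (15 - μ) + (2 * (m : ℝ) ^ 3 + 1) + m)) (by simp only [Real.exp_add]; ring)
    (mul_le_of_le_one_right (by positivity) (Real.exp_le_one_iff.2 (by linarith))))

end Pool.Agent.Lib.MP_696deb_nt.CU.An
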