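import Pool.Agent.Lib.MP_696deb_nt.B6.SBd

/-! Cubic characters: their number and the mass of the primes that see them. -/

set_option autoImplicit false

open scoped Classical
open Finset

namespace Pool.Agent.Lib.MP_696deb_nt.CU.An

open Pool.Agent.Lib.MP_696deb_nt.Sm Pool.Agent.Lib.MP_696deb_nt.B2 Pool.Agent.B6 Pool.Agent.B6.S

/-- Cubic characters. -/
abbrev Ch3 (M : ℕ) := (ZMod M)ˣ →* Multiplicative (ZMod 3)

instance (M : ℕ) : Finite (Ch3 M) := DFunLike.finite _

theorem card_ch3 (M : ℕ) : M ≠ 0 → Nat.card (Ch3 M) ≤ 3 ^ M.primeFactors.card := by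
  induction M using Nat.recOnPosPrimePosCoprime with
  | zero => exact fun h => absurd rfl h
  | one =>
    refine fun _ => (Finite.card_le_one_iff_subsingleton.2
      ⟨fun f g => MonoidHom.ext fun x => ?_⟩).trans (Nat.one_le_pow _ _ three_pos)
    rw [Subsingleton.elim x 1, map_one, map_one]
  | prime_pow p n hp hn =>
    intro _
    rw [Nat.primeFactors_prime_pow hn.ne' hp, card_singleton, pow_one]
    by_cases h2 : p = 2
    · subst h2
      refine (Finite.card_le_one_iff_subsingleton.2 ⟨fun f g => MonoidHom.ext fun x => ?_⟩).trans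
        (by norm_num)
      have k : ∀ f : Ch3 (2 ^ n), f x = 1 := fun f => by
        have a : f x ^ 2 ^ (n - 1) = 1 := by
          rw [← map_pow, show 2 ^ (n - 1) = Fintype.card (ZMod (2 ^ n))ˣ by
            rw [ZMod.card_units_eq_totient, Nat.totient_prime_pow hp hn]; simp, pow_card_eq_one,
            map_one]
        have b : f x ^ 3 = 1 := by generalize f x = y; revert y; decide
        exact (pow_eq_one_iff_of_coprime (Nat.Coprime.pow_left (n - 1) (by norm_num))).1 ⟨a, b⟩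
      rw [k, k]
    · obtain ⟨g, hg⟩ := (ZMod.isCyclic_units_of_prime_pow p hp h2 n).exists_generator
      refine (Nat.card_le_card_of_injective (fun f : Ch3 (p ^ n) => f g)
        fun f f' e => MonoidHom.ext fun x => ?_).trans (by simp)
      obtain ⟨k, rfl⟩ := hg x
      simp only [map_zpow]
      exact congrArg (· ^ k) e
  | coprime a b ha hb h ia ib =>
    intro _
    let e := (Units.mapEquiv (ZMod.chineseRemainder h).toMulEquiv).trans MulEquiv.prodUnits
    rw [h.primeFactors_mul, card_union_of_disjoint h.disjoint_primeFactors, pow_add]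
    refine le_trans (Nat.card_le_card_of_injective (β := Ch3 a × Ch3 b) (fun f =>
      ((f.comp e.symm.toMonoidHom).comp (.inl _ _), (f.comp e.symm.toMonoidHom).comp (.inr _ _)))
      fun f f' k => MonoidHom.ext fun x => ?_) ?_
    · have k1 : f.comp e.symm.toMonoidHom = f'.comp e.symm.toMonoidHom := by
        rw [← MonoidHom.coprod_unique (f.comp _), ← MonoidHom.coprod_unique (f'.comp _)]
        exact congrArg₂ _ (Prod.ext_iff.1 k).1 (Prod.ext_iff.1 k).2
      simpa using DFunLike.congr_fun k1 (e x)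
    · rw [Nat.card_prod]
      exact Nat.mul_le_mul (ia (by omega)) (ib (by omega))

/-- The primes that see a character. -/
def See {M : ℕ} (f : Ch3 M) (p : ℕ) : Prop :=
  p.Prime ∧ ∃ h : p.Coprime M, f (ZMod.unitOfCoprime p h) ≠ 1

theorem tc_per {M : ℕ} [NeZero M] {f : Ch3 M} (hf : f ≠ 1) {ζ : Qbar} (hζ : IsPrimitiveRoot ζ M) :
    ∃ t : ZMod 3 → Qbar, Tc t (fun g i => i + (f (hζ.autToPow ℚ g)).toAdd) M := by
  let e := AddChar.zmodChar M hζ.pow_eq_one
  have e1 : ∀ x, e x ^ M = 1 := fun x => by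
    rw [AddChar.zmodChar_apply, ← pow_mul, mul_comm, pow_mul, hζ.pow_eq_one, one_pow]
  have ea : ∀ (g : Gam) x, g (e x) = e (x * hζ.autToPow ℚ g) := fun g x => by
    rw [AddChar.zmodChar_apply, map_pow, ← hζ.autToPow_spec ℚ g, ← pow_mul,
      ← AddChar.zmodChar_apply' hζ.pow_eq_one, Nat.cast_mul, ZMod.natCast_zmod_val,
      ZMod.natCast_zmod_val, mul_comm]
  let t : ZMod M → ZMod 3 → Qbar := fun j i => ∑ u with (f u).toAdd = i, e (j * u)
  have ta : ∀ j (g : Gam) i, g (t j i) = t j (i + (f (hζ.autToPow ℚ g)).toAdd) := fun j g i => by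
    simp only [t, map_sum, ea]
    refine sum_equiv (Equiv.mulRight (hζ.autToPow ℚ g)) (fun u => ?_) fun u _ => ?_
    · simp
    · simp [mul_assoc]
  obtain ⟨j, hj⟩ : ∃ j, t j 0 ≠ t j 1 := by
    by_contra h
    simp only [not_exists, not_not] at h
    have k : ∀ i, ∑ j, t j i * e (-j) = if i = 0 then (M : Qbar) else 0 := fun i => by
      simp only [t, sum_mul, ← AddChar.map_add_eq_mul]
      rw [sum_comm]
      have k1 : ∀ u : (ZMod M)ˣ, ∑ j : ZMod M, e (j * u + -j) = if u = 1 then (M : Qbar) else 0 :=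
        fun u => by
          have := AddChar.sum_mulShift ((u : ZMod M) - 1)
            (AddChar.zmodChar_primitive_of_primitive_root M hζ)
          simp only [mul_sub, mul_one, sub_eq_zero, Units.val_eq_one, ZMod.card, Nat.cast_ite,
            Nat.cast_zero] at this
          simpa only [← sub_eq_add_neg] using this
      simp [k1, eq_comm]
    have k0 := k 0
    simp only [h, k 1] at k0
    exact NeZero.ne M (by simpa using k0.symm)
  obtain ⟨g0, hg⟩ : ∃ g : Gam, (f (hζ.autToPow ℚ g)).toAdd ≠ 0 := by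
    obtain ⟨u, hu⟩ := DFunLike.ne_iff.1 hf
    have h1 := hζ.pow_of_coprime _ (ZMod.val_coe_unit_coprime u)
    obtain ⟨g, h2⟩ := IsConjRoot.exists_algEquiv (K := ℚ) (x := ζ ^ (u : ZMod M).val) (y := ζ)
      ((Polynomial.cyclotomic_eq_minpoly_rat h1 (NeZero.pos M)).symm.trans
        (Polynomial.cyclotomic_eq_minpoly_rat hζ (NeZero.pos M)))
    have h3 : hζ.autToPow ℚ g = u := Units.ext (ZMod.val_injective M (hζ.pow_inj (ZMod.val_lt _)
      (ZMod.val_lt _) ((hζ.autToPow_spec ℚ g).trans h2)))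
    exact ⟨g, h3 ▸ hu⟩
  have tr : ∀ i k : ZMod 3, ∃ g : Gam, i + (f (hζ.autToPow ℚ g)).toAdd = k := fun i k => by
    have : ∀ a : ZMod 3, a ≠ 0 → ∀ i k : ZMod 3, i + 0 = k ∨ i + a = k ∨ i + (a + a) = k := by
      decide
    rcases this _ hg i k with h | h | h
    · exact ⟨1, by simpa using h⟩
    · exact ⟨g0, h⟩
    · exact ⟨g0 * g0, by simpa using h⟩
  refine ⟨t j, fun a b h => ?_, fun i => IsIntegral.sum _ fun u _ => ?_, ta j, tr,
    Nat.one_le_cast.2 (NeZero.pos M), fun i => ?_⟩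
  · by_contra hc
    have : ∀ a b : ZMod 3, a ≠ b → ∃ c, a + c = 0 ∧ b + c = 1 ∨ a + c = 1 ∧ b + c = 0 := by decide
    obtain ⟨c, k⟩ := this a b hc
    obtain ⟨g, rfl⟩ := tr 0 c
    have h1 := congrArg g h
    rw [ta, ta] at h1
    rw [zero_add] at k
    rcases k with k | k <;> rw [k.1, k.2] at h1
    exacts [hj h1, hj h1.symm]
  · exact IsIntegral.of_pow (NeZero.pos M) (e1 _ ▸ isIntegral_one)
  · rw [map_sum]
    refine (norm_sum_le _ _).trans ((sum_le_card_nsmul _ _ 1 fun u _ => ?_).trans ?_)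
    · exact (Complex.norm_eq_one_of_pow_eq_one (n := M) (by rw [← map_pow, e1, map_one])
        (NeZero.ne M)).le
    · rw [nsmul_eq_mul, mul_one, Nat.cast_le]
      exact (card_le_univ _).trans ((ZMod.card_units_eq_totient M).trans_le (Nat.totient_le M))

theorem frb_pow {M p : ℕ} [NeZero M] {ζ : Qbar} (hζ : IsPrimitiveRoot ζ M) (hp : p.Prime)
    (h2 : p ≠ 2) (h : p.Coprime M) : hζ.autToPow ℚ (frb p) = ZMod.unitOfCoprime p h := by
  have z0 : ζ ^ p ≠ 0 := pow_ne_zero _ (hζ.ne_zero (NeZero.ne M))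
  have v := (pl p).V_root_of_unity (NeZero.ne M) hζ.pow_eq_one
  have h1 : frb p ζ / ζ ^ p = 1 := by
    refine (pl p).eq_one_of_root (n := M) (by rw [pl_p hp]; exact hp.coprime_iff_not_dvd.1 h) ?_ ?_
    · rw [div_pow, ← map_pow, ← pow_mul, mul_comm, pow_mul, hζ.pow_eq_one, map_one, one_pow,
        div_one]
    · rw [div_sub_one z0, map_div₀, map_pow, v, one_pow, div_one]
      exact (frb_spec hp h2).1.2 ζ v.le
  refine Units.ext (ZMod.val_injective M (hζ.pow_inj (ZMod.val_lt _) (ZMod.val_lt _) ?_))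
  rw [hζ.autToPow_spec ℚ, (div_eq_one_iff_eq z0).1 h1, ZMod.coe_unitOfCoprime, ZMod.val_natCast,
    ← pow_eq_pow_mod p hζ.pow_eq_one]

theorem cubic_mass {M z X : ℕ} (hM : M ≠ 0) {f : Ch3 M} (hf : f ≠ 1) (hz : (2 * M) ^ 27 ≤ z)
    (hX : 2 ≤ X) : LL X / 3 - LL z - 41 ≤ ms (Wn z X (See f)) := by
  have := NeZero.mk hM
  obtain ⟨ζ, hζ⟩ := HasEnoughRootsOfUnity.exists_primitiveRoot Qbar M
  obtain ⟨t, ht⟩ := tc_per hf hζ
  have z1 : 2 * M ≤ z := (Nat.le_self_pow (by norm_num) _).trans hz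
  have z2 : ((2 * M) ^ 27 : ℝ) ≤ z := by exact_mod_cast hz
  have m1 : (1 : ℝ) ≤ M := ht.B1
  have h1 := tc_ms ht (z := z) (by omega) hX (by
    rw [ZMod.card 3]
    refine le_trans ?_ z2
    push_cast
    refine (pow_le_pow_left₀ (by positivity) (show _ ≤ (2 * (M : ℝ)) ^ 3 by
      nlinarith [pow_pos (zero_lt_one.trans_le m1) 3]) 3).trans ?_
    rw [← pow_mul]
    exact pow_le_pow_right₀ (by linarith) (by norm_num))
    ((pow_le_pow_right₀ (by linarith) (by rw [ZMod.card 3]; norm_num)).trans z2)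
    (fun p => p.Prime ∧ p ≠ 2 ∧ ∃ h : p.Coprime M, f (ZMod.unitOfCoprime p h) = 1) (fun _ => False)
    3 0 (fun p hp => by
      obtain ⟨a, b, c, d⟩ := hp
      exact ⟨a, id, by simp [frb_pow hζ a b c, d]⟩) fun _ h => h.elim
  have h2 := (ms_win (z := z) (by omega) hX).trans ((ms_mono (Q := Wn z X (See f) ∪ Wn z X fun p =>
    p.Prime ∧ p ≠ 2 ∧ ∃ h : p.Coprime M, f (ZMod.unitOfCoprime p h) = 1) fun p hp => by
      obtain ⟨a, b, c⟩ := mem_Wn.1 hp
      have d : p.Coprime M := Nat.coprime_of_lt_prime hM (by omega) c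
      rw [mem_union, mem_Wn, mem_Wn]
      exact (ne_or_eq (f (ZMod.unitOfCoprime p d)) 1).imp (fun k => ⟨a, b, c, d, k⟩)
        fun k => ⟨a, b, c, by omega, d, k⟩).trans (ms_union _ _))
  have h3 := (LL_pow one_ne_zero).1.trans (LL_mono le_rfl hX)
  rw [ZMod.card 3] at h1
  norm_num at h1 h3
  linarith

end Pool.Agent.Lib.MP_696deb_nt.CU.An
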