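import Pool.Agent.Lib.MP_696deb_nt.CU.N1
import Pool.Agent.Lib.MP_696deb_nt.CU.N2
import Pool.Agent.Lib.MP_696deb_nt.CU.N3
import Pool.Agent.Lib.MP_696deb_nt.CU.B1p

/-! Almost all integers lie in good boxes. -/

set_option autoImplicit false

open scoped Classical
open Finset

namespace Pool.Agent.Lib.MP_696deb_nt.CU.An

open Pool.Agent.Lib.MP_696deb_nt.Sa Pool.Agent.B6.S

theorem pf_three {d : ℕ} (h : d ≠ 0) (k : ℕ) :
    (3 ^ (k + 1) * d).primeFactors.card ≤ d.primeFactors.card + 1 := by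
  rw [Nat.primeFactors_mul (by positivity) h, Nat.primeFactors_prime_pow (by omega) Nat.prime_three,
    add_comm]
  exact card_union_le _ _

theorem rareC : Rare fun m _ n => G0 m n ∧ H7 m n ∧ ¬ C1 m n := by
  let F : ℕ → Finset (ℕ → Prop) := fun d =>
    ((Set.toFinite (Set.univ : Set (Ch3 (9 * d)))).toFinset.erase 1).image See
  have hF : ∀ d i, i ∈ F d ↔ ∃ f : Ch3 (9 * d), f ≠ 1 ∧ See f = i := fun d i => by simp [F]
  refine (((see F 41 YY (fun m hm => ⟨le_rfl, by have := YY_TT hm; omega⟩) (fun d hd => ?_)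
    (fun d i hi p hp => ?_) fun d z X hd hz hX i hi => ?_).or rare0).mono fun m X n h => ?_)
  · refine card_image_le.trans (card_erase_le.trans (le_trans ?_ ((card_ch3 (9 * d)
      (by omega)).trans (Nat.pow_le_pow_right three_pos (pf_three hd 1)))))
    rw [← Set.ncard_eq_toFinset_card, Set.ncard_univ]
  · obtain ⟨f, -, rfl⟩ := (hF d i).1 hi
    exact hp.1
  · obtain ⟨f, a, rfl⟩ := (hF d i).1 hi
    exact cubic_mass (by omega) a ((Nat.pow_le_pow_left
      (by have := Nat.le_self_pow two_ne_zero d; omega) 27).trans hz) hX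
  · obtain ⟨g0, g7, g⟩ := h
    simp only [C1, not_forall] at g
    obtain ⟨ψ, a, b, c, x, d, e⟩ := g
    refine .inl ⟨g0, g7, ?_⟩
    change ∀ p ∈ up (YY m) n, ψ p = 0 at c
    generalize up (YY m) n = U at c
    generalize lo (YY m) n = D at a b d
    rcases eq_or_ne D 0 with rfl | D0
    · obtain rfl : x = 1 := by simpa using d
      exact absurd (left_eq_add.1 (a 1 1 d d)) e
    have := NeZero.mk (show 9 * D ≠ 0 by omega)
    have co : ∀ y : ℕ, y.Coprime (9 * D) ↔ y.Coprime (3 * D) := fun y => by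
      rw [show 9 = 3 ^ 2 from rfl]
      simp only [Nat.coprime_mul_iff_right, Nat.coprime_pow_right_iff two_pos]
    have cu : ∀ u : (ZMod (9 * D))ˣ, (u : ZMod (9 * D)).val.Coprime (3 * D) := fun u =>
      (co _).1 (ZMod.val_coe_unit_coprime u)
    let f : Ch3 (9 * D) := MonoidHom.mk' (fun u => .ofAdd (ψ (u : ZMod (9 * D)).val)) fun u v => by
      rw [← ofAdd_add, ← a _ _ (cu u) (cu v)]
      refine congrArg _ (b _ _ (cu (u * v)) ?_)
      rw [Units.val_mul, ZMod.val_mul]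
      exact Nat.mod_modEq _ _
    have f1 : ∀ (y : ℕ) (h : y.Coprime (9 * D)), f (ZMod.unitOfCoprime y h) = .ofAdd (ψ y) :=
      fun y h => by
        refine congrArg Multiplicative.ofAdd (b _ y (cu (ZMod.unitOfCoprime y h)) ?_)
        rw [ZMod.coe_unitOfCoprime, ZMod.val_natCast]
        exact Nat.mod_modEq _ _
    refine ⟨_, (hF D _).2 ⟨f, fun k => e ?_, rfl⟩, fun p hp k => ?_⟩
    · have := f1 x ((co x).2 d)
      rw [k] at this
      exact ofAdd_eq_one.1 this.symm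
    · obtain ⟨-, k1, k2⟩ := k
      exact k2 (by rw [f1, c p hp, ofAdd_zero])

theorem rd_sq (d : ℕ) : Squarefree (rd d) :=
  Finset.squarefree_prod_of_pairwise_isCoprime (fun p hp q hq h => by
    simp only [Function.onFun, ← Nat.coprime_iff_isRelPrime]
    exact (Nat.coprime_primes (Nat.prime_of_mem_primeFactors hp)
      (Nat.prime_of_mem_primeFactors hq)).2 h)
    fun p hp => (Nat.prime_of_mem_primeFactors hp).squarefree

theorem rareP : Rare fun m _ n => G0 m n ∧ H7 m n ∧ ¬ P1 m n := by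
  obtain ⟨c, hc⟩ := noncube_mass
  let F : ℕ → Finset (ℕ → Prop) := fun d => ((rd d ^ 2).divisors.erase 1).image
    fun e p => p.Prime ∧ p % 3 = 1 ∧ ¬ ∃ y : ℕ, y ^ 3 ≡ e [MOD p]
  have r0 := fun d => (rd_sq d).ne_zero
  refine (see F c (fun m => 2 * TT m) (fun m hm => ⟨by have := YY_TT hm; omega, le_rfl⟩)
    (fun d hd => ?_) (fun d i hi p hp => ?_) fun d z X hd hz hX i hi => ?_).mono fun m X n h => ?_
  · refine card_image_le.trans (card_erase_le.trans ?_)
    rw [Nat.card_divisors (pow_ne_zero _ (r0 d)), Nat.primeFactors_pow _ two_ne_zero]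
    refine (prod_le_pow_card _ _ 3 fun p _ => ?_).trans (Nat.pow_le_pow_right three_pos ?_)
    · have := (rd_sq d).natFactorization_le_one p
      rw [Nat.factorization_pow, Finsupp.smul_apply, smul_eq_mul]
      omega
    · rw [rd, Nat.primeFactors_prod_primeFactors]
      exact pf_three hd 0
  · obtain ⟨e, -, rfl⟩ := mem_image.1 hi
    exact hp.1
  · obtain ⟨e, a, rfl⟩ := mem_image.1 hi
    obtain ⟨a1, a2⟩ := mem_erase.1 a
    have a3 := Nat.dvd_of_mem_divisors a2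
    refine hc e z X ?_ ((Nat.pow_le_pow_left ?_ 27).trans hz) hX
    · rintro ⟨y, rfl⟩
      obtain ⟨p, p1, p2⟩ := Nat.exists_prime_and_dvd (n := y) fun k => a1 (by simp [k])
      have b1 := (p1.pow_dvd_iff_le_factorization (pow_ne_zero _ (r0 d))).1
        ((pow_dvd_pow_of_dvd p2 3).trans a3)
      have := (rd_sq d).natFactorization_le_one p
      rw [Nat.factorization_pow, Finsupp.smul_apply, smul_eq_mul] at b1
      omega
    · have b1 := (Nat.le_of_dvd (pow_pos (r0 d).bot_lt 2) a3).trans (Nat.pow_le_pow_left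
        (Nat.le_of_dvd (by omega) (Nat.prod_primeFactors_dvd (3 * d))) 2)
      rw [mul_pow] at b1
      omega
  · obtain ⟨g0, g7, g⟩ := h
    simp only [P1, not_forall, not_exists] at g
    obtain ⟨e, a, b, g⟩ := g
    exact ⟨g0, g7, _, mem_image_of_mem _ (mem_erase.2 ⟨b, Nat.mem_divisors.2
      ⟨a, pow_ne_zero _ (r0 _)⟩⟩), fun p hp k => g p ⟨hp, k.2.1, not_exists.1 k.2.2⟩⟩

end Pool.Agent.Lib.MP_696deb_nt.CU.An

namespace Pool.Agent.Lib.MP_696deb_nt.CU

open Pool.Agent.Lib.MP_696deb_nt.Sa An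

theorem an_main : AnStmt := fun c ε hε => by
  obtain ⟨m1, h1⟩ := (((((((((rare0.or rare1).or rare2).or rare3).or rareH4).or
    (rareH5 inert_mass.choose_spec)).or rare6).or rareH7).or rareC).or rareP) ε hε
  obtain ⟨X0, h3⟩ := exists_sz (m1 + 5 * c + 17)
  refine ⟨X0, fun X hX => ?_⟩
  obtain ⟨m, hm, hz⟩ := h3 X hX
  obtain ⟨N, f, a1, a2, a3⟩ := An.cover (m := m) (X := X) (by omega)
  refine ⟨N, fun i => bx m X (f i), fun i => bx_hyp (by omega) hz (a1 i), a2,
    le_trans ?_ (h1 m (by omega) X hz)⟩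
  refine Nat.cast_le.2 (card_le_card fun n hn => ?_)
  simp only [mem_filter, mem_Icc] at hn ⊢
  refine ⟨hn.1, ?_⟩
  by_contra hc
  simp only [not_or, not_and, not_not] at hc
  obtain ⟨⟨⟨⟨⟨⟨⟨⟨⟨b0, b1⟩, b2⟩, b3⟩, b4⟩, b5⟩, b6⟩, b7⟩, b8⟩, b9⟩ := hc
  obtain ⟨i, x, hx, e⟩ := a3 n ⟨hn.1.1, hn.1.2, b0, b1, b2, b3, b4, b5, b6⟩
  exact hn.2 ⟨i, x, hx, e, (a1 i).b1c hx (e.symm ▸ b8 b0 b7),
    (a1 i).b1p (by omega) hx (e.symm ▸ b9 b0 b7)⟩

end Pool.Agent.Lib.MP_696deb_nt.CU
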