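import Pool.Agent.Lib.MP_696deb_nt.Sa.AnD

/-! Cube roots modulo squarefree numbers are counted by short vectors. -/

set_option autoImplicit false

open Finset
open scoped Classical

namespace Pool.Agent.Lib.MP_696deb_nt.CU

variable {d : ℕ}

theorem b1_cube (hd : ¬ ∃ e : ℕ, e ^ 3 = d) {u v : ℤ} (h : u ^ 3 = d * v ^ 3) : v = 0 := by
  by_contra hv
  obtain ⟨w, rfl⟩ : v ∣ u := (Int.pow_dvd_pow_iff three_ne_zero).1 ⟨d, by rw [h, mul_comm]⟩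
  have h1 : w ^ 3 = d := mul_left_cancel₀ (pow_ne_zero 3 hv) (by linear_combination h)
  exact hd ⟨w.natAbs, by simpa [Int.natAbs_pow] using congrArg Int.natAbs h1⟩

theorem b1_lin (hd : ¬ ∃ e : ℕ, e ^ 3 = d) {θ : ℝ} (hθ : θ ^ 3 = d) {x y z : ℤ}
    (h : (x : ℝ) + y * θ + z * θ ^ 2 = 0) : x = 0 ∧ y = 0 ∧ z = 0 := by
  have h1 : ((y ^ 2 - x * z : ℤ) : ℝ) * θ = ((z ^ 2 * d - x * y : ℤ) : ℝ) := by
    push_cast
    linear_combination (y - z * θ : ℝ) * h + (z : ℝ) ^ 2 * hθ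
  have h2 : (z ^ 2 * d - x * y) ^ 3 = d * (y ^ 2 - x * z) ^ 3 := by
    have : ((z ^ 2 * d - x * y : ℤ) : ℝ) ^ 3 = d * ((y ^ 2 - x * z : ℤ) : ℝ) ^ 3 := by
      rw [← h1, mul_pow, hθ, mul_comm]
    exact_mod_cast this
  have h3 := b1_cube hd h2
  rw [h3, zero_pow three_ne_zero, mul_zero, pow_eq_zero_iff three_ne_zero] at h2
  have hz : z = 0 := b1_cube hd (u := y) (by linear_combination y * h3 - z * h2)
  have hy : y = 0 := by simpa [hz] using h3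
  refine ⟨?_, hy, hz⟩
  simpa [hy, hz] using h

/-- The norm form of the cubic ring. -/
def nf (d : ℕ) (a b c : ℤ) : ℤ := a ^ 3 + d * b ^ 3 + d ^ 2 * c ^ 3 - 3 * d * a * b * c

theorem nf_ne (hd : ¬ ∃ e : ℕ, e ^ 3 = d) {a b c : ℤ} (h : nf d a b c = 0) :
    a = 0 ∧ b = 0 ∧ c = 0 := by
  obtain ⟨θ, hθ⟩ : ∃ θ : ℝ, θ ^ 3 = d :=
    ⟨(d : ℝ) ^ ((3 : ℕ) : ℝ)⁻¹, Real.rpow_inv_natCast_pow (Nat.cast_nonneg d) three_ne_zero⟩
  have h0 : ((nf d a b c : ℤ) : ℝ) = 0 := by rw [h, Int.cast_zero]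
  have h1 : ((a : ℝ) + b * θ + c * θ ^ 2) * (((a ^ 2 - d * b * c : ℤ) : ℝ) +
      ((d * c ^ 2 - a * b : ℤ) : ℝ) * θ + ((b ^ 2 - a * c : ℤ) : ℝ) * θ ^ 2) = 0 := by
    simp only [nf] at h0
    push_cast at h0 ⊢
    linear_combination h0 + ((b : ℝ) ^ 3 + d * c ^ 3 - 2 * a * b * c + (b ^ 2 - a * c) * c * θ) * hθ
  rcases mul_eq_zero.1 h1 with h2 | h2
  · exact b1_lin hd hθ h2
  · obtain ⟨e1, e2, e3⟩ := b1_lin hd hθ h2
    have hc : c = 0 := b1_cube hd (u := b) (by linear_combination b * e3 - c * e2)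
    have hb : b = 0 := by simpa [hc] using e3
    exact ⟨by simpa [hc] using e1, hb, hc⟩

theorem nf_le {a b c m : ℤ} {N : ℕ} (hd : 1 ≤ d) (ha : |a| ≤ N) (hb : |b| ≤ N) (hc : |c| ≤ N)
    (hN : (N : ℤ) ^ 3 ≤ m) : |nf d a b c| ≤ 6 * d ^ 2 * m := by
  have d1 : (1 : ℤ) ≤ d := by exact_mod_cast hd
  have d2 : (d : ℤ) ≤ d ^ 2 := by nlinarith
  have m0 : 0 ≤ m := le_trans (by positivity) hN
  have k : ∀ x y z : ℤ, |x| ≤ N → |y| ≤ N → |z| ≤ N → |x * y * z| ≤ m := fun x y z hx hy hz => by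
    rw [abs_mul, abs_mul]
    refine le_trans ?_ hN
    rw [pow_three']
    gcongr
  have h1 := abs_le.1 (k a a a ha ha ha)
  have h2 := abs_le.1 (k b b b hb hb hb)
  have h3 := abs_le.1 (k c c c hc hc hc)
  have h4 := abs_le.1 (k a b c ha hb hc)
  have e : nf d a b c = a * a * a + d * (b * b * b) + d ^ 2 * (c * c * c) - 3 * d * (a * b * c) := by
    unfold nf
    ring
  rw [e, abs_le]
  constructor <;> nlinarith [mul_nonneg (sub_nonneg.2 d2) m0, mul_nonneg (sub_nonneg.2 d1) m0]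

theorem nf_dvd {p a b c t : ℤ} (ht : p ∣ t ^ 3 - d) (h : p ∣ a + b * t + c * t ^ 2) :
    p ∣ nf d a b c := by
  obtain ⟨u, hu⟩ := ht
  obtain ⟨v, hv⟩ := h
  refine ⟨v * (a ^ 2 - d * b * c + (d * c ^ 2 - a * b) * t + (b ^ 2 - a * c) * t ^ 2) -
    u * (b ^ 3 + d * c ^ 3 - 2 * a * b * c + (b ^ 2 - a * c) * c * t), ?_⟩
  unfold nf
  linear_combination
    (a ^ 2 - d * b * c + (d * c ^ 2 - a * b) * t + (b ^ 2 - a * c) * t ^ 2) * hv -
      (b ^ 3 + d * c ^ 3 - 2 * a * b * c + (b ^ 2 - a * c) * c * t) * hu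

theorem dvd_of_eq' {p x y : ℤ} (h : p ∣ y) (e : x = y) : p ∣ x := e ▸ h

/-- Two different roots force the square of the prime to divide the norm. -/
theorem nf_sq_dvd {p a b c t t' : ℤ} (hp : Prime p) (ht : p ∣ t ^ 3 - d) (ht' : p ∣ t' ^ 3 - d)
    (h : p ∣ a + b * t + c * t ^ 2) (h' : p ∣ a + b * t' + c * t' ^ 2) (hn : ¬ p ∣ t - t') :
    p * p ∣ nf d a b c := by
  have h1 : p ∣ b + c * (t + t') := (hp.dvd_or_dvd (a := t - t')
    (by convert h.sub h' using 1; ring)).resolve_left hn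
  have h2 : p ∣ t ^ 2 + t * t' + t' ^ 2 := (hp.dvd_or_dvd (a := t - t')
    (by convert ht.sub ht' using 1; ring)).resolve_left hn
  have h3 : p ∣ a - c * (t * t') := dvd_of_eq' (h.sub (h1.mul_left t)) (by ring)
  obtain ⟨A, hA⟩ : p ∣ a ^ 2 - d * b * c :=
    dvd_of_eq' ((((h2.mul_left (c ^ 2 * t ^ 2)).add (h3.mul_left (a + c * (t * t')))).add
      (ht.mul_left (b * c))).sub (h1.mul_left (c * t ^ 3))) (by ring)
  obtain ⟨B, hB⟩ : p ∣ d * c ^ 2 - a * b :=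
    dvd_of_eq' ((((h2.mul_left (c ^ 2 * t)).sub (h3.mul_left b)).sub
      (ht.mul_left (c ^ 2))).sub (h1.mul_left (c * (t * t')))) (by ring)
  obtain ⟨C, hC⟩ : p ∣ b ^ 2 - a * c :=
    dvd_of_eq' (((h2.mul_left (c ^ 2)).sub (h3.mul_left c)).add
      (h1.mul_left (b - c * (t + t')))) (by ring)
  have e : nf d a b c ^ 2 = p ^ 3 * nf d A B C := by
    have : nf d a b c ^ 2 = nf d (a ^ 2 - d * b * c) (d * c ^ 2 - a * b) (b ^ 2 - a * c) := by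
      unfold nf
      ring
    rw [this, hA, hB, hC]
    unfold nf
    ring
  obtain ⟨k, hk⟩ := nf_dvd ht h
  rw [hk] at e ⊢
  refine mul_dvd_mul_left p (hp.dvd_of_dvd_pow (n := 2) ⟨nf d A B C, ?_⟩)
  exact mul_left_cancel₀ (pow_ne_zero 2 hp.ne_zero) (by linear_combination e)

theorem exists_cbrt (m : ℕ) : ∃ N : ℕ, N ^ 3 ≤ m ∧ m < (N + 1) ^ 3 := by
  induction m with
  | zero => exact ⟨0, by simp⟩
  | succ m ih =>
    obtain ⟨N, h1, h2⟩ := ih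
    rcases (Nat.succ_le_of_lt h2).eq_or_lt with h | h
    · exact ⟨N + 1, h.ge, h.trans_lt (Nat.pow_lt_pow_left (Nat.lt_succ_self _) three_ne_zero)⟩
    · exact ⟨N, by omega, h⟩

/-- The lemma of Thue. -/
theorem b1_thue {m N : ℕ} (hm : Squarefree m) (hN : m < (N + 1) ^ 3)
    (t : ∀ p ∈ m.primeFactors, ℕ) : ∃ v : ℤ × ℤ × ℤ, v ≠ 0 ∧ |v.1| ≤ N ∧ |v.2.1| ≤ N ∧
      |v.2.2| ≤ N ∧ ∀ (p : ℕ) hp, (p : ℤ) ∣ v.1 + v.2.1 * t p hp + v.2.2 * t p hp ^ 2 := by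
  obtain ⟨x, hx, y, hy, hne, e⟩ := exists_ne_map_eq_of_card_lt_of_maps_to
    (s := range (N + 1) ×ˢ range (N + 1) ×ˢ range (N + 1)) (t := m.primeFactors.pi range)
    (f := fun x p hp => (x.1 + x.2.1 * t p hp + x.2.2 * t p hp ^ 2) % p)
    (by
      rw [card_pi, card_product, card_product, card_range, prod_congr rfl fun p _ => card_range p,
        Nat.prod_primeFactors_of_squarefree hm, ← pow_three]
      exact hN)
    fun x _ => mem_coe.2 (mem_pi.2 fun p hp =>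
      mem_range.2 (Nat.mod_lt _ (Nat.prime_of_mem_primeFactors hp).pos))
  simp only [mem_product, mem_range] at hx hy
  have k : ∀ a b : ℕ, a < N + 1 → b < N + 1 → |(a : ℤ) - b| ≤ N := fun a b ha hb =>
    abs_le.2 ⟨by omega, by omega⟩
  refine ⟨((x.1 : ℤ) - y.1, (x.2.1 : ℤ) - y.2.1, (x.2.2 : ℤ) - y.2.2), fun h => hne ?_,
    k _ _ hx.1 hy.1, k _ _ hx.2.1 hy.2.1, k _ _ hx.2.2 hy.2.2, fun p hp => ?_⟩
  · simp only [Prod.mk_eq_zero] at h
    exact Prod.ext (by omega) (Prod.ext (by omega) (by omega))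
  · refine dvd_of_eq' (Nat.modEq_iff_dvd.1 (congrFun (congrFun e p) hp).symm) ?_
    push_cast
    ring

/-- The cube roots of `d` modulo `p`. -/
def Rt (d p : ℕ) : Finset ℕ := (range p).filter fun t => t ^ 3 ≡ d [MOD p]

/-- The number of cube roots of `d` modulo rough squarefree numbers up to `z`. -/
theorem sum_roots_le (hd : ¬ ∃ e : ℕ, e ^ 3 = d) {z : ℕ} (S : Finset ℕ)
    (hS : ∀ m ∈ S, m ≤ z ∧ Squarefree m ∧ ∀ p ∈ m.primeFactors, 6 * d ^ 2 < p) :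
    ∑ m ∈ S, ∏ p ∈ m.primeFactors, (Rt d p).card ≤ 27 * z := by
  rcases S.eq_empty_or_nonempty with rfl | ⟨m0, hm0⟩
  · simp
  have d1 : 1 ≤ d := Nat.pos_of_ne_zero fun h => hd ⟨0, by simp [h]⟩
  obtain ⟨K, K1, K2⟩ := exists_cbrt z
  have K0 : 1 ≤ K := by
    have := Nat.pos_of_ne_zero (hS m0 hm0).2.1.ne_zero
    have := (hS m0 hm0).1
    by_contra h
    obtain rfl : K = 0 := by omega
    omega
  let T := S.sigma fun m => m.primeFactors.pi (Rt d)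
  have ex : ∀ x : T, ∃ v : ℤ × ℤ × ℤ, v ∈ Icc (-K : ℤ) K ×ˢ Icc (-K : ℤ) K ×ˢ Icc (-K : ℤ) K ∧
      (∀ (p : ℕ) hp, (p : ℤ) ∣ v.1 + v.2.1 * x.1.2 p hp + v.2.2 * x.1.2 p hp ^ 2) ∧
      ∃ c : ℤ, nf d v.1 v.2.1 v.2.2 = x.1.1 * c ∧ c ≠ 0 ∧ |c| ≤ 6 * d ^ 2 := by
    rintro ⟨⟨m, t⟩, hx⟩
    obtain ⟨h1, h2⟩ := mem_sigma.1 hx
    obtain ⟨a1, a2, -⟩ := hS m h1
    obtain ⟨N, N1, N2⟩ := exists_cbrt m
    obtain ⟨v, v0, v1, v2, v3, v4⟩ := b1_thue a2 N2 t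
    have NK : (N : ℤ) ≤ K := by
      exact_mod_cast Nat.lt_succ_iff.1 (lt_of_pow_lt_pow_left₀ 3 (Nat.zero_le _)
        (N1.trans_lt (a1.trans_lt K2)))
    obtain ⟨c, hc⟩ : (m : ℤ) ∣ nf d v.1 v.2.1 v.2.2 := by
      rw [Int.natCast_dvd, ← Nat.prod_primeFactors_of_squarefree a2]
      refine prod_primes_dvd _ (fun p hp => (Nat.prime_of_mem_primeFactors hp).prime) fun p hp => ?_
      rw [← Int.natCast_dvd]
      refine nf_dvd ?_ (v4 p hp)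
      simpa using Nat.modEq_iff_dvd.1 (mem_filter.1 (mem_pi.1 h2 p hp)).2.symm
    refine ⟨v, by simpa only [mem_product, mem_Icc, ← abs_le] using
      ⟨v1.trans NK, v2.trans NK, v3.trans NK⟩, v4, c, hc, fun h => v0 ?_, ?_⟩
    · obtain ⟨e1, e2, e3⟩ := nf_ne hd (hc.trans (by rw [h, mul_zero]))
      exact Prod.ext e1 (Prod.ext e2 e3)
    · have := nf_le (m := m) d1 v1 v2 v3 (by exact_mod_cast N1)
      rw [hc, abs_mul, Nat.abs_cast, mul_comm] at this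
      exact le_of_mul_le_mul_right this (by exact_mod_cast Nat.pos_of_ne_zero a2.ne_zero)
  choose v v1 v2 c c1 c2 c3 using ex
  have nd : ∀ x y : T, ∀ p ∈ x.1.1.primeFactors, ¬ (p : ℤ) ∣ c y := fun x y p hp h => by
    have h1 := Int.le_of_dvd (abs_pos.2 (c2 y)) ((dvd_abs _ _).2 h)
    have h2 : (6 * d ^ 2 : ℤ) < p := by exact_mod_cast (hS _ (mem_sigma.1 x.2).1).2.2 p hp
    linarith [c3 y]
  have dv : ∀ x y : T, v x = v y → x.1.1 ∣ y.1.1 := fun x y e => by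
    have h1 : (x.1.1 : ℤ) ∣ y.1.1 * c y := ⟨c x, by rw [← c1, ← c1, e]⟩
    rw [Int.natCast_dvd, Int.natAbs_mul, Int.natAbs_natCast] at h1
    refine Nat.Coprime.dvd_of_dvd_mul_right (Nat.coprime_of_dvd fun p hp h2 h3 => ?_) h1
    exact nd x y p (Nat.mem_primeFactors.2 ⟨hp, h2, (hS _ (mem_sigma.1 x.2).1).2.1.ne_zero⟩)
      (Int.natCast_dvd.2 h3)
  have inj : Function.Injective v := by
    rintro ⟨⟨m, t⟩, hx⟩ ⟨⟨m', t'⟩, hy⟩ e
    obtain rfl : m = m' := Nat.dvd_antisymm (dv _ _ e) (dv _ _ e.symm)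
    obtain rfl : t = t' := by
      funext p hp
      have pp := Nat.prime_of_mem_primeFactors hp
      have r := mem_filter.1 (mem_pi.1 (mem_sigma.1 hx).2 p hp)
      have r' := mem_filter.1 (mem_pi.1 (mem_sigma.1 hy).2 p hp)
      refine Nat.ModEq.eq_of_lt_of_lt (Nat.modEq_iff_dvd.2 ?_) (mem_range.1 r.1) (mem_range.1 r'.1)
      by_contra hn
      have h1 := nf_sq_dvd (d := d) (Nat.prime_iff_prime_int.1 pp)
        (by simpa using Nat.modEq_iff_dvd.1 r'.2.symm) (by simpa using Nat.modEq_iff_dvd.1 r.2.symm)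
        (e ▸ v2 ⟨_, hy⟩ p hp) (v2 ⟨_, hx⟩ p hp) hn
      rw [c1] at h1
      have h2 : (p : ℤ) * p ∣ m := by
        refine IsCoprime.dvd_of_dvd_mul_right ?_ h1
        have := ((Nat.prime_iff_prime_int.1 pp).coprime_iff_not_dvd).2 (nd ⟨_, hx⟩ ⟨_, hx⟩ p hp)
        exact this.mul_left this
      exact pp.not_isUnit ((hS _ (mem_sigma.1 hx).1).2.1 p (by exact_mod_cast h2))
    rfl
  have h1 := card_le_card_of_injOn (s := univ) v (fun x _ => mem_coe.2 (v1 x)) inj.injOn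
  rw [card_univ, Fintype.card_coe, card_sigma, card_product, card_product, Int.card_Icc,
    show ((K : ℤ) + 1 - -K).toNat = 2 * K + 1 by omega] at h1
  simp only [card_pi] at h1
  refine h1.trans (le_trans ?_ (Nat.mul_le_mul_left 27 K1))
  calc _ ≤ 3 * K * (3 * K * (3 * K)) := by gcongr <;> omega
    _ = _ := by ring

end Pool.Agent.Lib.MP_696deb_nt.CU
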