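import Mathlib

/-! Balanced patterns with values in the field with three elements. -/

set_option autoImplicit false

namespace Pool.Agent.Lib.MP_696deb_nt.CU

open Finset

variable {ι : Type} [DecidableEq ι]

/-- Every value occurs at three tenths of the indices in `I`. -/
def Bal (I : Finset ι) (v : ι → ZMod 3) : Prop :=
  ∀ t, 3 * I.card ≤ 10 * (I.filter fun j => v j = t).card

omit [DecidableEq ι] in
theorem bal_lines (I : Finset ι) (a b : ι → ZMod 3) (α β : ZMod 3) :
    (I.filter fun j => a j = α).card + (I.filter fun j => b j = β).card +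
      (I.filter fun j => (a + b) j = α + β).card + (I.filter fun j => (a - b) j = α - β).card =
      I.card + 3 * (I.filter fun j => a j = α ∧ b j = β).card := by
  simp only [card_filter, ← sum_add_distrib, Pi.add_apply, Pi.sub_apply]
  rw [card_eq_sum_ones, mul_sum, ← sum_add_distrib]
  refine sum_congr rfl fun j _ => ?_
  generalize a j = x
  generalize b j = y
  revert x y α β
  decide

omit [DecidableEq ι] in
theorem bal_point {I : Finset ι} {a b : ι → ZMod 3} (h1 : Bal I a) (h2 : Bal I b)
    (h3 : Bal I (a + b)) (h4 : Bal I (a - b)) (α β : ZMod 3) :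
    I.card ≤ 15 * (I.filter fun j => a j = α ∧ b j = β).card := by
  have := bal_lines I a b α β
  have := h1 α
  have := h2 β
  have := h3 (α + β)
  have := h4 (α - β)
  omega

theorem bal_gen [Fintype ι] (I : Finset ι) (t : ZMod 3) (z : ℝ) :
    ∑ v : ι → ZMod 3, z ^ (I.filter fun j => v j = t).card =
      3 ^ (Fintype.card ι - I.card) * (2 + z) ^ I.card := by
  have h1 : ∀ v : ι → ZMod 3, z ^ (I.filter fun j => v j = t).card =
      ∏ j, if j ∈ I ∧ v j = t then z else 1 := fun v => by
    rw [prod_ite, prod_const_one, mul_one, prod_const]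
    congr 2
    ext j
    simp
  have h2 : ∀ j, (∑ s : ZMod 3, if j ∈ I ∧ s = t then z else 1) = if j ∈ I then 2 + z else 3 := by
    intro j
    by_cases hj : j ∈ I
    · simp only [hj, true_and, if_true]
      rw [← add_sum_erase _ _ (mem_univ t), if_pos rfl,
        sum_congr rfl fun s hs => if_neg (ne_of_mem_erase hs), sum_const,
        card_erase_of_mem (mem_univ t), card_univ, ZMod.card]
      norm_num [add_comm]
    · simp [hj]
  simp only [h1]
  rw [← Fintype.piFinset_univ, ← prod_univ_sum (fun _ => univ)
    fun j s => if j ∈ I ∧ s = t then z else 1]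
  simp only [h2]
  rw [prod_ite, prod_const, prod_const, mul_comm, filter_mem_eq_inter, univ_inter]
  congr 2
  rw [← card_compl]
  congr 1
  ext j
  simp

open Classical in
theorem bal_count [Fintype ι] (I : Finset ι) :
    ((univ.filter fun v : ι → ZMod 3 => ¬ Bal I v).card : ℝ) ≤
      3 * 3 ^ Fintype.card ι * (399 / 400) ^ I.card := by
  have key : ∀ t : ZMod 3, ((univ.filter fun v : ι → ZMod 3 =>
      10 * (I.filter fun j => v j = t).card < 3 * I.card).card : ℝ) ≤
      3 ^ Fintype.card ι * (399 / 400) ^ I.card := by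
    intro t
    have h1 : ∀ v : ι → ZMod 3, 10 * (I.filter fun j => v j = t).card < 3 * I.card →
        (2387 / 2500 : ℝ) ^ I.card ≤ (6 / 7) ^ (I.filter fun j => v j = t).card := by
      intro v hv
      refine le_of_pow_le_pow_left₀ (n := 10) (by norm_num) (by positivity) ?_
      rw [← pow_mul, ← pow_mul, mul_comm I.card, pow_mul]
      calc ((2387 / 2500 : ℝ) ^ 10) ^ I.card ≤ ((6 / 7) ^ 3) ^ I.card :=
            pow_le_pow_left₀ (by positivity) (by norm_num) _
        _ ≤ _ := by
            rw [← pow_mul]
            exact pow_le_pow_of_le_one (by norm_num) (by norm_num) (by omega)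
    have h2 := (card_nsmul_le_sum (univ.filter fun v : ι → ZMod 3 =>
      10 * (I.filter fun j => v j = t).card < 3 * I.card)
      (fun v => (6 / 7 : ℝ) ^ (I.filter fun j => v j = t).card) _
      fun v hv => h1 v (mem_filter.1 hv).2).trans
      (sum_le_sum_of_subset_of_nonneg (filter_subset _ _) fun _ _ _ => by positivity)
    rw [bal_gen, nsmul_eq_mul] at h2
    have h3 : (3 : ℝ) ^ Fintype.card ι = 3 ^ (Fintype.card ι - I.card) * 3 ^ I.card := by
      rw [← pow_add, Nat.sub_add_cancel (card_le_univ I)]
    refine le_of_mul_le_mul_right (h2.trans ?_) (by positivity : (0 : ℝ) < (2387 / 2500) ^ I.card)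
    rw [h3, mul_assoc, mul_assoc, ← mul_pow, ← mul_pow]
    exact mul_le_mul_of_nonneg_left (pow_le_pow_left₀ (by norm_num) (by norm_num) _)
      (by positivity)
  have h4 : (univ.filter fun v : ι → ZMod 3 => ¬ Bal I v) ⊆ univ.biUnion fun t : ZMod 3 =>
      univ.filter fun v : ι → ZMod 3 => 10 * (I.filter fun j => v j = t).card < 3 * I.card := by
    intro v hv
    obtain ⟨t, ht⟩ := not_forall.1 (mem_filter.1 hv).2
    exact mem_biUnion.2 ⟨t, mem_univ _, mem_filter.2 ⟨mem_univ _, not_le.1 ht⟩⟩
  have h5 := (Nat.cast_le (α := ℝ)).2 ((card_le_card h4).trans card_biUnion_le)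
  rw [Nat.cast_sum] at h5
  refine h5.trans ((sum_le_sum fun t _ => key t).trans ?_)
  rw [sum_const, card_univ, ZMod.card, nsmul_eq_mul, mul_assoc]
  norm_num

end Pool.Agent.Lib.MP_696deb_nt.CU
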