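import Pool.Agent.Lib.MP_696deb_nt.CU.GovA

/-! Cubes of cocycles: vanishing of alternating sums, closure, governing families. -/

set_option autoImplicit false

open scoped Classical
open Finset

namespace Pool.Agent.Lib.MP_696deb_nt.CU

variable {ι : Type} [inst : DecidableEq ι] {l : ℕ} {S b T : Finset ι} {n : Finset ι → ℕ} {d : ι → Gam → F3}
  {c : Finset ι → Gam → A}

/-- The alternating sum over the face with base `b` and directions `T`. -/
noncomputable def fD (c : Finset ι → Gam → A) (b T : Finset ι) (g : Gam) : A :=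
  alt T fun R => c (b ∪ R) g

/-- The twists at the vertices of the cube differ by the directions `d`. -/
def Dirs (S : Finset ι) (n : Finset ι → ℕ) (d : ι → Gam → F3) : Prop :=
  ∀ w ⊆ S, ∀ g, kk (n w) g = kk (n ∅) g + ∑ i ∈ w, d i g

/-- Cocycles with the same local data at all vertices above `b`. -/
structure Abv (l : ℕ) (S : Finset ι) (n : Finset ι → ℕ) (c : Finset ι → Gam → A) (b : Finset ι) :
    Prop where
  coc : ∀ w, b ⊆ w → w ⊆ S → Coc ⊤ (act (n w) 0) (c w)
  kil : ∀ w, b ⊆ w → w ⊆ S → ∀ g, th ^ l • c w g = 0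
  three : ∀ w, b ⊆ w → w ⊆ S → ∀ w', b ⊆ w' → w' ⊆ S → ∀ g ∈ Gq 3, c w g = c w' g
  one : ∀ q : ℕ, q.Prime → q ≠ 3 → ∀ w, b ⊆ w → w ⊆ S → ∀ T ⊆ S, 2 ≤ T.card →
    fD c w T (sq q) = 0

theorem Abv.mono (h : Abv l S n c b) {b' : Finset ι} (k : b ⊆ b') : Abv l S n c b' :=
  ⟨fun w h1 => h.coc w (k.trans h1), fun w h1 => h.kil w (k.trans h1),
    fun w h1 h2 w' h3 => h.three w (k.trans h1) h2 w' (k.trans h3),
    fun q hq h3 w h1 => h.one q hq h3 w (k.trans h1)⟩

theorem sm_alt {M : Type} [AddCommGroup M] {D : Subgroup Gam} {v : Finset ι → Gam → M}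
    (h : ∀ R ⊆ T, Sm D (v R)) : Sm D fun g => alt T fun R => v R g := by
  induction T using Finset.induction_on generalizing v with
  | empty => simpa only [alt_empty] using h ∅ Subset.rfl
  | insert i T hi ih =>
    simp only [alt_insert hi]
    exact (ih fun R hR => h R (hR.trans (subset_insert _ _))).comp₂
      (ih fun R hR => h _ (insert_subset_insert _ hR)) fun x y => x - y

theorem fD_insert {i : ι} (hi : i ∉ T) (g : Gam) :
    fD c b (insert i T) g = fD c b T g - fD c (insert i b) T g := by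
  simp only [fD, alt_insert hi, union_insert, insert_union]

omit inst in
theorem th_act (m e : ℕ) (R : Finset ι) (g : Gam) (P : A) :
    th ^ e • (∏ i ∈ R, th * nu (d i g)) • act m 0 g P =
      (∏ i ∈ R, nu (d i g)) • act m (e + R.card) g (th ^ (e + R.card) • P) := by
  have h := act_th_pow m 0 (e + R.card) g P
  rw [zero_add] at h
  rw [h, prod_mul_distrib, prod_const, smul_smul, smul_smul, pow_add]
  congr 1
  ring

/-- The defect of an alternating sum. -/
theorem fD_mul (hd : Dirs S n d) (hb : b ⊆ S) (hT : T ⊆ S) (hbT : Disjoint b T)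
    (h : ∀ w, b ⊆ w → w ⊆ S → Coc ⊤ (act (n w) 0) (c w)) (e : ℕ) (g g' : Gam) :
    th ^ e • fD c b T (g * g') = th ^ e • fD c b T g + alt T fun R => (∏ i ∈ R, nu (d i g)) •
      act (n b) (e + R.card) g (th ^ (e + R.card) • fD c (b ∪ R) (T \ R) g') := by
  have e1 : fD c b T (g * g') = fD c b T g + alt T fun R =>
      (∏ i ∈ R, (1 + th * nu (d i g))) • act (n b) 0 g (c (b ∪ R) g') := by
    rw [fD, fD, ← alt_add]
    refine alt_congr fun R hR => ?_
    have hs := union_subset hb (hR.trans hT)
    rw [(h _ subset_union_left hs).2 g trivial g' trivial, act_rel (n b), hd _ hs, hd _ hb,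
      sum_union (hbT.mono_right hR), add_sub_add_left_eq_sub, add_sub_cancel_left, un_sum]
    simp only [un_eq]
  rw [e1, alt_star, smul_add, smul_alt]
  refine congrArg _ (alt_congr fun R _ => ?_)
  rw [← th_act, fD, map_alt]
  simp only [union_assoc]

theorem Abv.sm (h : Abv l S n c b) (hb : b ⊆ S) (hT : T ⊆ S) : Sm ⊤ (fD c b T) :=
  sm_alt fun _ hR => (h.coc _ subset_union_left (union_subset hb (hR.trans hT))).1

theorem Abv.fD_three (h : Abv l S n c b) (hb : b ⊆ S) (hT : T ⊆ S) (h0 : T.Nonempty) {g : Gam}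
    (hg : g ∈ Gq 3) : fD c b T g = 0 := by
  rw [fD, alt_congr (v' := fun _ => c b g) fun R hR => h.three _ subset_union_left
    (union_subset hb (hR.trans hT)) _ Subset.rfl hb g hg, alt_const h0]

theorem Abv.fD_sq (h : Abv l S n c b) (hb : b ⊆ S) (hT : T ⊆ S) (h2 : 2 ≤ T.card) {q : ℕ}
    (hq : q.Prime) (h3 : q ≠ 3) : fD c b T (sq q) = 0 := h.one q hq h3 b Subset.rfl hb T hT h2

theorem Abv.fD_kil (h : Abv l S n c b) (hb : b ⊆ S) (hT : T ⊆ S) {e : ℕ} (he : l ≤ e) (g : Gam) :
    th ^ e • fD c b T g = 0 := by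
  obtain ⟨e, rfl⟩ := Nat.exists_eq_add_of_le' he
  rw [fD, smul_alt]
  exact alt_zero fun R hR => by
    rw [pow_add, mul_smul, h.kil _ subset_union_left (union_subset hb (hR.trans hT)), smul_zero]

theorem card_sdiff_add {R : Finset ι} (h : R ⊆ T) : R.card + (T \ R).card = T.card := by
  rw [add_comm, card_sdiff_add_card_eq_card h]

/-- Alternating sums over large faces vanish. -/
theorem Abv.blem (hd : Dirs S n d) (h : Abv l S n c b) (hb : b ⊆ S) (hT : T ⊆ S)
    (hbT : Disjoint b T) {e : ℕ} (he : l < e + T.card) (g : Gam) : th ^ e • fD c b T g = 0 := by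
  induction T using Finset.strongInduction generalizing b e g with
  | H T ih =>
    by_cases h2 : T.card < 2
    · exact h.fD_kil hb hT (by omega) g
    refine unr_l (n := n b) (e := e) (l := l) (c := fun g => th ^ e • fD c b T g)
      ⟨(h.sm hb hT).comp _, fun g _ g' _ => ?_⟩ (fun g => ?_) (fun g hg => ?_)
      (fun q hq h3 => ?_) g
    · beta_reduce
      rw [fD_mul hd hb hT hbT h.coc, alt_eq_add, alt_zero fun R hR => ?_]
      · simp
      split_ifs with h0
      · rfl
      have := card_sdiff_add hR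
      rw [ih _ (sdiff_ssubset hR (nonempty_iff_ne_empty.2 h0)) (h.mono subset_union_left)
        (union_subset hb (hR.trans hT)) (sdiff_subset.trans hT)
        (disjoint_union_left.2 ⟨hbT.mono_right sdiff_subset, disjoint_sdiff⟩) (by omega),
        map_zero, smul_zero]
    · rw [smul_comm, h.fD_kil hb hT le_rfl, smul_zero]
    · rw [h.fD_three hb hT (card_pos.1 (by omega)) hg, smul_zero]
    · rw [h.fD_sq hb hT (by omega) hq h3, smul_zero]

/-- The function at the base vertex that makes the alternating sum vanish. -/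
noncomputable def clo (S : Finset ι) (c : Finset ι → Gam → A) (g : Gam) : A :=
  -alt S fun R => if R = ∅ then 0 else c R g

/-- A function of the vertex with vanishing alternating sum is reproduced. -/
theorem clo_eq {M : Type} [AddCommGroup M] (f : A →+ M) (g : Gam) {v : Finset ι → M}
    (h : ∀ R ⊆ S, R ≠ ∅ → f (c R g) = v R) (hv : alt S v = 0) : f (clo S c g) = v ∅ := by
  rw [alt_eq_add, add_eq_zero_iff_eq_neg] at hv
  rw [hv, clo, map_neg, map_alt]
  refine congrArg _ (alt_congr fun R hR => ?_)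
  split_ifs with h0
  exacts [map_zero f, h R hR h0]

theorem clo_coc (hd : Dirs S n d) (h : ∀ i ∈ S, Abv l S n c {i}) (hl : l < S.card) :
    Coc ⊤ (act (n ∅) 0) (clo S c) := by
  set c' : Finset ι → Gam → A := fun R => if R = ∅ then 0 else c R with hc'
  have e : ∀ g, clo S c g = -fD c' ∅ S g := fun g => by
    simp only [clo, fD, empty_union, hc', ite_apply, Pi.zero_apply]
  have h1 : ∀ w ⊆ S, w ≠ ∅ → Abv l S n c w := fun w hw h0 => by
    obtain ⟨i, hi⟩ := nonempty_iff_ne_empty.2 h0
    exact (h i (hw hi)).mono (singleton_subset_iff.2 hi)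
  have h2 : ∀ w, ∅ ⊆ w → w ⊆ S → Coc ⊤ (act (n w) 0) (c' w) := fun w _ hw => by
    simp only [hc']
    split_ifs with h0
    exacts [H3.Coc.zero _ _, (h1 w hw h0).coc w Subset.rfl hw]
  refine ⟨((sm_alt (T := S) fun R hR => (h2 (∅ ∪ R) subset_union_left
    (by rwa [empty_union])).1).comp fun x => -x).congr fun g _ => (e g).symm, fun g _ g' _ => ?_⟩
  have k := fD_mul hd (empty_subset _) Subset.rfl (disjoint_empty_left _) h2 0 g g'
  rw [alt_eq_add, alt_zero fun R hR => ?_] at k
  · simp only [pow_zero, one_smul, prod_empty, card_empty, add_zero, union_empty, sdiff_empty] at k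
    rw [e, e, e, k, map_neg, neg_add]
  split_ifs with h0
  · rfl
  have e2 : fD c' (∅ ∪ R) (S \ R) g' = fD c R (S \ R) g' := alt_congr fun R' _ => by
    simp only [hc', empty_union]
    rw [if_neg fun k => h0 (union_eq_empty.1 k).1]
  have := card_sdiff_add hR
  rw [e2, (h1 R hR h0).blem hd hR sdiff_subset disjoint_sdiff (by omega), map_zero, smul_zero]

/-- The part of the closure that comes from the vertices without the coordinate `j`. -/
theorem clo_split {j : ι} (hj : j ∈ S) (g : Gam) :
    clo S c g = clo (S.erase j) c g + fD c {j} (S.erase j) g := by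
  rw [clo, clo, fD, ← insert_erase hj, alt_insert (notMem_erase j S), erase_insert_eq_erase,
    erase_idem, neg_sub, neg_add_eq_sub]
  simp only [insert_ne_empty, if_false, ← insert_eq]

theorem Abv.base (hd : Dirs S n d) (h : Abv l S n c b) (hb : b ⊆ S) (hT : T ⊆ S) {e : ℕ}
    (he : l ≤ e + T.card) (R : Finset ι) (hR : R ⊆ S) (hbT : Disjoint (b ∪ R) T) (g : Gam) :
    th ^ e • fD c (b ∪ R) T g = th ^ e • fD c b T g := by
  induction R using Finset.induction_on with
  | empty => rw [union_empty]
  | insert i R hi ih =>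
    have hR' := (subset_insert i R).trans hR
    have k := hbT.mono_left (union_subset_union_right (subset_insert i R))
    by_cases h0 : i ∈ b
    · rw [union_insert, insert_eq_of_mem (mem_union_left _ h0), ih hR' k]
    have hiT : i ∉ T := disjoint_left.1 hbT (mem_union_right _ (mem_insert_self _ _))
    have z := (h.mono subset_union_left).blem hd (union_subset hb hR')
      (insert_subset (hR (mem_insert_self _ _)) hT)
      (disjoint_insert_right.2 ⟨by simp [h0, hi], k⟩)
      (e := e) (by rw [card_insert_of_notMem hiT]; omega) g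
    rw [fD_insert hiT, smul_sub, sub_eq_zero] at z
    rw [union_insert, ← z, ih hR' k]

theorem chi_pow_eq (g : Gam) {a a' : ℕ} (h : Even (a + a')) : chi g ^ a = chi g ^ a' := by
  rcases chi_cases g with k | k <;> rw [k]
  · rw [one_pow, one_pow]
  · rw [neg_one_pow_eq_pow_mod_two, neg_one_pow_eq_pow_mod_two (n := a')]
    congr 1
    have := Nat.even_iff.1 h
    omega

/-- The top digits of the alternating sums. -/
theorem Abv.exists_top (hd : Dirs S n d) (h : Abv l S n c b) (hb : b ⊆ S) {W : Finset ι}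
    (hW : W ⊆ S) (hbW : Disjoint b W) (hl : W.card ≤ l) : ∃ Ψ : Finset ι → Gam → F3,
      (∀ T ⊆ W, ∀ g, th ^ (l - T.card) • fD c b T g = kT (Ψ T g)) ∧ (∀ T ⊆ W, Sm ⊤ (Ψ T)) ∧
      ∀ T ⊆ W, ∀ g g', Ψ T (g * g') = Ψ T g +
        ∑ R ∈ T.powerset, (∏ i ∈ R, d i g) * chi g ^ (l - (T \ R).card) * Ψ (T \ R) g' := by
  set Ψ : Finset ι → Gam → F3 :=
    fun T g => Function.invFun kT (th ^ (l - T.card) • fD c b T g) with hΨ
  have h1 : ∀ T ⊆ W, ∀ g, th ^ (l - T.card) • fD c b T g = kT (Ψ T g) := fun T hT g => by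
    refine (Function.invFun_eq ((exists_kT ?_).imp fun _ => Eq.symm)).symm
    have := card_le_card hT
    rw [smul_smul, ← pow_succ']
    exact h.blem hd hb (hT.trans hW) (hbW.mono_right hT) (by omega) g
  refine ⟨Ψ, h1, fun T hT => (h.sm hb (hT.trans hW)).comp fun x =>
    Function.invFun kT (th ^ (l - T.card) • x), fun T hT g g' => kT_inj ?_⟩
  rw [map_add, ← h1 T hT, ← h1 T hT, fD_mul hd hb (hT.trans hW) (hbW.mono_right hT) h.coc, map_sum,
    alt]
  refine congrArg _ (sum_congr rfl fun R hR => ?_)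
  have hR' := mem_powerset.1 hR
  have := card_sdiff_add hR'
  have := card_le_card hT
  rw [show l - T.card + R.card = l - (T \ R).card by omega,
    h.base hd hb (sdiff_subset.trans (hT.trans hW)) (by omega) R (hR'.trans (hT.trans hW))
      (disjoint_union_left.2 ⟨hbW.mono_right (sdiff_subset.trans hT), disjoint_sdiff⟩),
    h1 _ (sdiff_subset.trans hT), act_kT, smul_kT, ← map_zsmul, map_prod]
  simp only [red_nu]
  rw [prod_neg, zsmul_eq_mul]
  congr 1
  push_cast
  rw [← mul_assoc, ← mul_assoc, ← mul_assoc, ← mul_pow]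
  simp

/-- The governing family of a face. -/
theorem Abv.gov (hd : Dirs S n d) {U : Finset ι} {ia : ι} (h : Abv (U.card + 1) S n c b)
    (hb : b ⊆ S) (ha : ia ∉ U) (hW : insert ia U ⊆ S) (hbW : Disjoint b (insert ia U))
    (hU : Odd U.card) {κ k : Gam → F3} (top : ∀ w, b ⊆ w → w ⊆ b ∪ insert ia U → ∀ g,
      th ^ U.card • c w g = kT (κ g - if ia ∈ w then k g else 0)) :
    ∃ Φ, Gov U d k Φ ∧ ∀ g, fD c b (insert ia U) g = kT (Φ U g) := by
  obtain rfl : inst = fun a b => Classical.propDecidable (a = b) := Subsingleton.elim _ _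
  have hab : ia ∉ b := (disjoint_insert_right.1 hbW).1
  obtain ⟨Ψ, h1, h2, h3⟩ := h.exists_top hd hb hW hbW (card_insert_of_notMem ha).le
  have t3 : ∀ T ⊆ insert ia U, T.Nonempty → ∀ g ∈ Gq 3, Ψ T g = 0 := fun T hT h0 g hg =>
    kT_inj (by rw [← h1 T hT, h.fD_three hb (hT.trans hW) h0 hg, smul_zero, map_zero])
  have ts : ∀ T ⊆ insert ia U, 2 ≤ T.card → ∀ q : ℕ, q.Prime → q ≠ 3 → Ψ T (sq q) = 0 :=
    fun T hT h0 q hq hq3 =>
      kT_inj (by rw [← h1 T hT, h.fD_sq hb (hT.trans hW) h0 hq hq3, smul_zero, map_zero])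
  have t1 : ∀ i ∈ insert ia U, ∀ g, Ψ {i} g = if i = ia then k g else 0 := fun i hi g => by
    refine kT_inj ?_
    rw [← h1 _ (singleton_subset_iff.2 hi), card_singleton, Nat.add_sub_cancel,
      ← insert_empty_eq, fD_insert (notMem_empty _), fD, fD, alt_empty, alt_empty, union_empty,
      union_empty, smul_sub, top _ Subset.rfl subset_union_left, top _ (subset_insert _ _)
      (insert_subset (mem_union_right _ hi) subset_union_left), ← map_sub, if_neg hab]
    simp [hab, eq_comm]
  have z : ∀ T ⊆ U, ∀ g, Ψ T g = 0 := fun T hT => by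
    induction T using Finset.strongInduction with
    | H T ih =>
      have hT' := hT.trans (subset_insert ia U)
      obtain h0 | h0 | h0 : T.card = 0 ∨ T.card = 1 ∨ 2 ≤ T.card := by omega
      · exact fun g => kT_inj (by
          rw [← h1 T hT', h.fD_kil hb (hT'.trans hW) (by omega), map_zero])
      · obtain ⟨i, rfl⟩ := card_eq_one.1 h0
        have hi := singleton_subset_iff.1 hT
        exact fun g => by rw [t1 i (mem_insert_of_mem hi), if_neg (ne_of_mem_of_not_mem hi ha)]
      refine unr (e := U.card + 1 - T.card) ⟨h2 T hT', fun g _ g' _ => ?_⟩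
        (t3 T hT' (card_pos.1 (by omega))) (ts T hT' h0)
      rw [h3 T hT', sum_eq_single ∅ (fun R hR hR0 => ?_) (by simp)]
      · simp
      · have k : T \ R ⊂ T := sdiff_ssubset (mem_powerset.1 hR) (nonempty_iff_ne_empty.2 hR0)
        rw [ih _ k (k.subset.trans hT), mul_zero]
  refine ⟨fun T => Ψ (insert ia T), ⟨funext fun g => ?_, fun T hT => h2 _
    (insert_subset_insert _ hT), fun T hT g g' => ?_, fun T hT _ => t3 _
    (insert_subset_insert _ hT) (insert_nonempty _ _), fun T hT h0 => ts _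
    (insert_subset_insert _ hT) ?_⟩, fun g => ?_⟩
  · rw [insert_empty_eq, t1 ia (mem_insert_self _ _), if_pos rfl]
  · have haT : ia ∉ T := fun k => ha (hT k)
    rw [h3 _ (insert_subset_insert _ hT), sum_powerset_insert haT,
      sum_eq_zero (s := T.powerset) (f := fun R => _ * Ψ (insert ia T \ insert ia R) g')
        fun R _ => by
          rw [insert_sdiff_insert, z _ (sdiff_subset.trans hT), mul_zero], add_zero]
    refine congrArg _ (sum_congr rfl fun R hR => ?_)
    have := card_le_card ((sdiff_subset (t := R)).trans hT)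
    rw [insert_sdiff_of_notMem _ fun k => haT (mem_powerset.1 hR k),
      card_insert_of_notMem fun k => haT (mem_sdiff.1 k).1,
      chi_pow_eq g (a' := (T \ R).card + 1) (by
        rw [Nat.sub_add_cancel (by omega)]
        exact hU.add_one)]
  · have := card_pos.2 (nonempty_iff_ne_empty.2 h0)
    rw [card_insert_of_notMem fun k => ha (hT k)]
    omega
  · rw [← h1 _ Subset.rfl, card_insert_of_notMem ha, Nat.sub_self, pow_zero, one_smul]

end Pool.Agent.Lib.MP_696deb_nt.CU
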