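import Pool.Agent.Lib.MP_696deb_nt.CU.E3

/-! The cubic characters of prime conductor. -/

set_option autoImplicit false

open scoped Classical

namespace Pool.Agent.Lib.MP_696deb_nt.CU

variable {p q : ℕ} {u : Gam → F3}

theorem e3u_phi (hq : q.Prime) (h1 : q % 3 = 1) :
    ∃ φ : (ZMod q)ˣ →* Multiplicative F3, ∃ c, φ c ≠ 1 := by
  have := Fact.mk hq
  have hd : 3 ∣ Nat.card (ZMod q)ˣ := by
    rw [Nat.card_eq_fintype_card, ZMod.card_units]
    omega
  let e := zmodCyclicMulEquiv (G := (ZMod q)ˣ) inferInstance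
  refine ⟨(AddMonoidHom.toMultiplicative (ZMod.castHom hd F3).toAddMonoidHom).comp
    e.symm.toMonoidHom, e (Multiplicative.ofAdd 1), ?_⟩
  simp only [MonoidHom.comp_apply, MulEquiv.coe_toMonoidHom, MulEquiv.symm_apply_apply,
    AddMonoidHom.toMultiplicative_apply_apply, toAdd_ofAdd, RingHom.toAddMonoidHom_eq_coe,
    AddMonoidHom.coe_coe, map_one]
  decide

theorem e3u_le (w : Plc) {y : Qbar} (hy : w.V y ≤ 1) (k : ℕ) : w.V (1 - y ^ k) ≤ w.V (1 - y) := by
  rw [← mul_neg_geom_sum, map_mul]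
  exact mul_le_of_le_one_right' (w.V.map_sum_le fun i _ => by
    rw [map_pow]; exact pow_le_one' hy i)

theorem e3u_eq (w : Plc) (hq : q ≠ 0) {y z : Qbar} (hy : IsPrimitiveRoot y q)
    (hz : IsPrimitiveRoot z q) : w.V (1 - y) = w.V (1 - z) := by
  have := NeZero.mk hq
  have k {y z : Qbar} (hy : IsPrimitiveRoot y q) (hz : IsPrimitiveRoot z q) :
      w.V (1 - y) ≤ w.V (1 - z) := by
    obtain ⟨i, -, rfl⟩ := hz.eq_pow_of_pow_eq_one hy.pow_eq_one
    exact e3u_le w (w.V_root_of_unity hq hz.pow_eq_one).le i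
  exact (k hy hz).antisymm (k hz hy)

theorem e3u_pow (w : Plc) (hq : q.Prime) {z : Qbar} (hz : IsPrimitiveRoot z q) :
    w.V (1 - z) ^ (q - 1) = w.V q := by
  obtain ⟨m, rfl⟩ := Nat.exists_eq_succ_of_ne_zero hq.ne_zero
  rw [Nat.cast_succ, ← hz.prod_one_sub_pow_eq_order, map_prod, Finset.prod_congr rfl fun k hk =>
    e3u_eq w hq.ne_zero (hz.pow_of_coprime (k + 1) (Nat.coprime_of_lt_prime (Nat.succ_ne_zero k)
      (Nat.succ_lt_succ (Finset.mem_range.1 hk)) hq).symm) hz, Finset.prod_const,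
    Finset.card_range, Nat.succ_sub_one]

theorem exists_uq (hq : q.Prime) (h1 : q % 3 = 1) :
    ∃ u, Kc 0 ⊤ u ∧ u (sq q) = 1 ∧ ∀ p : ℕ, p.Prime → p ≠ 3 → p ≠ q → u (sq p) = 0 := by
  have := Fact.mk hq
  have q3 : q ≠ 3 := by rintro rfl; omega
  obtain ⟨φ, c₀, hc₀⟩ := e3u_phi hq h1
  obtain ⟨z, hz⟩ := HasEnoughRootsOfUnity.exists_primitiveRoot Qbar q
  let a : Gam →* (ZMod q)ˣ := hz.autToPow ℚ
  have sp (g : Gam) : z ^ (a g : ZMod q).val = g z := hz.autToPow_spec ℚ g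
  have inj {g h : Gam} (e : g z = h z) : a g = a h :=
    Units.ext (ZMod.val_injective q (hz.pow_inj (ZMod.val_lt _) (ZMod.val_lt _)
      (by rw [sp, sp, e])))
  have k0 : Kc 0 ⊤ fun g => (φ (a g)).toAdd := by
    obtain ⟨U, u1, u2, u3⟩ := B2.sm_apply (H := ⊤) z
    exact ⟨⟨U, u1, u2, fun g hg h hh k => by
      simp only [inj (u3 g hg h hh k)]⟩, fun g _ h _ => by simp⟩
  let K := Finset.univ.filter fun c => φ c = 1
  have hK : ¬ q - 1 ∣ K.card := by
    have l1 : 0 < K.card := Finset.card_pos.2 ⟨1, by simp [K]⟩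
    have l2 : K.card < q - 1 := by
      rw [← ZMod.card_units q]
      exact Finset.card_lt_univ_of_notMem (x := c₀) (by simpa [K] using hc₀)
    exact fun h => (Nat.le_of_dvd l1 h).not_gt l2
  obtain ⟨σ, s1, s2⟩ := H3.exists_ine_ne (w := pl q)
    (x := ∏ c ∈ K, (1 - z ^ (c : ZMod q).val)) (Nat.sub_ne_zero_of_lt hq.one_lt) hK (by
      rw [map_prod, Finset.prod_congr rfl fun c _ => e3u_eq (pl q) hq.ne_zero
        (hz.pow_of_coprime _ (ZMod.val_coe_unit_coprime c)) hz, Finset.prod_const, pow_right_comm,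
        e3u_pow _ hq hz, pl_p hq])
  have s3 : φ (a σ) ≠ 1 := fun e => s2 (by
    rw [map_prod]
    refine Finset.prod_bij' (fun c _ => a σ * c) (fun c _ => (a σ)⁻¹ * c) (fun c hc => ?_)
      (fun c hc => ?_) (fun c _ => by simp) (fun c _ => by simp) fun c _ => ?_
    · simpa [K, e] using hc
    · simpa [K, e] using hc
    · rw [map_sub, map_one, map_pow, ← sp, ← pow_mul, Units.val_mul, ZMod.val_mul,
        ← pow_eq_pow_mod _ hz.pow_eq_one])
  have s4 : (φ (a (sq q))).toAdd ≠ 0 := fun e => s3 (by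
    have := (k0.mono le_top).ine hq q3 s1
    simp only [e, mul_zero] at this
    exact this)
  refine ⟨_, k0.smul (φ (a (sq q))).toAdd, ?_, fun p hp p3 pq => ?_⟩
  · revert s4
    generalize (φ (a (sq q))).toAdd = t
    revert t
    decide
  · have := B2.b3a_frob (B2.isFrob_one.2 (sq_ine hp p3)) (N := q) (by
      rw [pl_p hp]; exact fun h => pq ((Nat.prime_dvd_prime_iff_eq hp hq).1 h)) hz.pow_eq_one
    have e : a (sq p) = a 1 := inj (by rw [this, pow_one, AlgEquiv.one_apply])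
    simp [e]

theorem kc_uq (q : ℕ) : Kc 0 ⊤ (uq q) := by
  rw [uq]
  split_ifs with h
  exacts [h.choose_spec.1, Kc.zero _ _]

theorem uq_self (hq : q.Prime) (h1 : q % 3 = 1) : uq q (sq q) = 1 := by
  rw [uq, dif_pos (exists_uq hq h1)]
  exact (exists_uq hq h1).choose_spec.2.1

theorem uq_ne (hp : p.Prime) (h3 : p ≠ 3) (h : p ≠ q) : uq q (sq p) = 0 := by
  rw [uq]
  split_ifs with k
  exacts [k.choose_spec.2.2 p hp h3 h, rfl]

theorem e3u_kk (hp : p.Prime) (hq : q.Prime) (h3 : q ≠ 3) (h : q ≠ p) : kk p (sq q) = 0 :=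
  kk_ine hq h3 (fun k => h ((Nat.prime_dvd_prime_iff_eq hq hp).1 k)) (sq_ine hq h3)

theorem uq_recip (hq : q.Prime) (h1 : q % 3 = 1) (hp : p.Prime) (h3 : p ≠ 3) (h : p ≠ q) :
    uq q (fq p) = kk p (fq q) - lp 3 (uq q) (kk p) := by
  have q3 : q ≠ 3 := by rintro rfl; omega
  have := recip_lp (kc_uq q) (kc_kk p ⊤) {3, p, q} (by simp [hp, hq, Nat.prime_three]) (by simp)
    fun r hr k => by
      simp only [Finset.mem_insert, Finset.mem_singleton, not_or] at k
      exact ⟨uq_ne hr k.1 k.2.2, e3u_kk hp hr k.1 k.2.1⟩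
  rw [Finset.sum_insert (by simp [h3.symm, q3.symm]), Finset.sum_pair h,
    lp_tame hp h3 ((kc_uq q).mono le_top) (kc_kk p _),
    lp_tame hq q3 ((kc_uq q).mono le_top) (kc_kk p _), kk_sq_self hp h3, uq_ne hp h3 h,
    uq_self hq h1, e3u_kk hp hq q3 h.symm] at this
  linear_combination this

/-- The invariant at three of the character `uq q` is read off at the prime `q`. -/
theorem lp_uq (hq : q.Prime) (h1 : q % 3 = 1) : lp 3 (uq q) (kk 3) = kk 3 (fq q) := by
  have q3 : q ≠ 3 := by rintro rfl; omega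
  have := recip_lp (kc_uq q) (kc_kk 3 ⊤) {3, q} (by simp [hq, Nat.prime_three]) (by simp)
    fun r hr k => by
      simp only [Finset.mem_insert, Finset.mem_singleton, not_or] at k
      exact ⟨uq_ne hr k.1 k.2, e3u_kk Nat.prime_three hr k.1 k.1⟩
  rw [Finset.sum_pair q3.symm, lp_tame hq q3 ((kc_uq q).mono le_top) (kc_kk 3 _),
    uq_self hq h1, e3u_kk Nat.prime_three hq q3 q3] at this
  linear_combination this

end Pool.Agent.Lib.MP_696deb_nt.CU
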