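import Pool.Agent.Lib.MP_696deb_nt.CU.E7b
import Pool.Agent.Lib.MP_696deb_nt.CU.E7a
import Pool.Agent.Lib.MP_696deb_nt.CU.E3u
import Pool.Agent.Lib.MP_696deb_nt.CU.E5

/-! Existence of lifts. -/

set_option autoImplicit false

open scoped Classical

namespace Pool.Agent.Lib.MP_696deb_nt.CU

variable {n e l : ℕ} {c : Gam → A}

theorem e7_gen (hc : c ∈ Zs n e l) (v : ℕ → Gam → F3) (h1 : ∀ q, Kc (e + 1) ⊤ (v q))
    (h2 : ∀ p q : ℕ, p.Prime → q.Prime → p ≠ 3 → p ≠ q → v q (sq p) = 0)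
    (h3 : ∀ c₁ : Gam → A, Coc ⊤ (act n (e + 1)) c₁ → (∀ g, th • c₁ g = c g) → ∀ q : ℕ, q.Prime →
      ¬ q ∣ 3 * n → c₁ (sq q) ≠ 0 → v q (sq q) = 1) :
    ∃ c', Coc ⊤ (act n (e + 1)) c' ∧ (∀ g, th • c' g = c g) ∧
      ∀ q : ℕ, q.Prime → ¬ q ∣ 3 * n → c' (sq q) = 0 := by
  have hz := mem_Zs.1 hc
  obtain ⟨c₀, k1, k2⟩ := ext_K hc
  obtain ⟨c₁, k3, k4⟩ := ext_Q hz.coc k1 k2
  have ha : ∀ q : ℕ, ∃ b, q.Prime → ¬ q ∣ 3 * n → c₁ (sq q) = kT b := fun q => by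
    by_cases h : q.Prime ∧ ¬ q ∣ 3 * n
    · obtain ⟨b, hb⟩ := exists_kT (P := c₁ (sq q)) (by rw [k4, hz.unr q h.1 h.2])
      exact ⟨b, fun _ _ => hb⟩
    · exact ⟨0, fun a b => absurd ⟨a, b⟩ h⟩
  choose a ha using ha
  have hne : ∀ q : ℕ, ¬ q ∣ 3 * n → q ≠ 3 := fun q h e => h (e ▸ dvd_mul_right 3 n)
  set S := (finite_sq k3.1).toFinset.filter fun q => ¬ q ∣ 3 * n with hS
  have hm : ∀ q, q ∈ S ↔ q.Prime ∧ ¬ q ∣ 3 * n ∧ c₁ (sq q) ≠ 0 := fun q => by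
    simp only [hS, Finset.mem_filter, Set.Finite.mem_toFinset, Set.mem_ofPred_eq, coc_one k3]
    exact ⟨fun h => ⟨h.1.1, h.2, h.1.2.2⟩, fun h => ⟨⟨h.1, hne q h.2.1, h.2.2⟩, h.2.1⟩⟩
  have hu : Kc (e + 1) ⊤ fun g => ∑ q ∈ S, a q * v q g := Kc.sum S fun q _ => (h1 q).smul (a q)
  refine ⟨c₁ + -kC fun g => ∑ q ∈ S, a q * v q g, k3.add (coc_kC.2 hu).neg, fun g => ?_,
    fun q hq hn => ?_⟩
  · rw [Pi.add_apply, Pi.neg_apply, smul_add, smul_neg, th_kT, neg_zero, add_zero, k4]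
  · have h4 : ∑ p ∈ S, a p * v p (sq q) = if q ∈ S then a q * v q (sq q) else 0 := by
      rw [← Finset.sum_ite_eq S q fun p => a p * v p (sq q)]
      refine Finset.sum_congr rfl fun p hp => ?_
      split_ifs with h
      · rfl
      · rw [h2 q p hq ((hm p).1 hp).1 (hne q hn) h, mul_zero]
    change c₁ (sq q) + -kT (∑ p ∈ S, a p * v p (sq q)) = 0
    rw [h4]
    split_ifs with h
    · rw [h3 c₁ k3 k4 q hq hn ((hm q).1 h).2.2, mul_one, ha q hq hn, add_neg_cancel]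
    · rw [map_zero, neg_zero, add_zero]
      by_contra h5
      exact h ((hm q).2 ⟨hq, hn, h5⟩)

theorem ext (hc : c ∈ Zs n 1 l) : ∃ c', IsLift n c c' := by
  have hz := mem_Zs.1 hc
  obtain ⟨c', h1, h2, h3⟩ := e7_gen hc uq (fun q => kc_mod.1 (kc_uq q))
    (fun _ _ hp _ h3 h => uq_ne hp h3 h) fun c₁ k1 k2 q hq hn h => by
      have h3 : ¬ 3 ∣ q := fun e =>
        hn (((Nat.prime_dvd_prime_iff_eq Nat.prime_three hq).1 e) ▸ dvd_mul_right 3 n)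
      refine uq_self hq ?_
      by_contra h4
      rw [act_add_two n 0] at k1
      refine h (ev (l := l + 1) hq (by omega) (fun e => hn (e.mul_left 3))
        ⟨k1.1.mono le_top, fun g _ k _ => k1.2 g trivial k trivial⟩ (fun g _ => ?_) ?_)
      · rw [pow_succ, mul_smul, k2, hz.kil]
      · rw [k2, hz.unr q hq hn]
  rw [act_add_two n 0] at h1
  exact ⟨c', h1, h2, h3⟩

theorem ext_one (hc : c ∈ Zs n 0 l) : ∃ c', Coc ⊤ (act n 1) c' ∧ (∀ g, th • c' g = c g) ∧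
    ∀ q : ℕ, q.Prime → ¬ q ∣ 3 * n → c' (sq q) = 0 :=
  e7_gen hc kk (fun q => kc_kk q ⊤)
    (fun _ _ hp hq h3 h => kk_ine hp h3
      (fun e => h ((Nat.prime_dvd_prime_iff_eq hp hq).1 e)) (sq_ine hp h3))
    fun _ _ _ _ hq hn _ => kk_sq_self hq fun e => hn (e ▸ dvd_mul_right 3 n)

end Pool.Agent.Lib.MP_696deb_nt.CU
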