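import Pool.Agent.Lib.MP_696deb_nt.CU.E3a
import Pool.Agent.Lib.MP_696deb_nt.CU.E2
import Pool.Agent.Lib.MP_23455a_nt.H3.CH

/-! Reciprocity, Kummer theory, unramified cocycles, cubic characters. -/

set_option autoImplicit false

open scoped Classical

namespace Pool.Agent.Lib.MP_696deb_nt.CU

variable {n e l p q : ℕ} {g : Gam} {c : Gam → A} {u k : Gam → F3}

theorem e3_add (a b : F3) : zeta 1 ^ (a + b).val = zeta 1 ^ a.val * zeta 1 ^ b.val :=
  H3.zeta_val_add 1 a b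

theorem e3_inj {a b : F3} (h : zeta 1 ^ a.val = zeta 1 ^ b.val) : a = b :=
  H3.zeta_val_inj (m := 1) h

theorem e3_smul (g : Gam) (a : F3) : g (zeta 1 ^ a.val) = zeta 1 ^ (chi g * a).val :=
  H3.smul_zeta_val 1 g a

theorem e3_exists {x : Qbar} (h : x ^ 3 = 1) : ∃ a : F3, x = zeta 1 ^ a.val :=
  H3.exists_zeta_val (m := 1) h

theorem e3_km (g : Gam) : kk 3 g = H3.km 1 g := by
  have e : H3.rt3 1 = rho 3 := rho_eq (H3.rt3_cube 0) (H3.cc_rt3 1)
  exact kk_eq three_ne_zero (e ▸ H3.km_spec 1 g)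

theorem kummer (hk : Kc 1 ⊤ k) : ∃ (d : ℕ) (j : F3), d ≠ 0 ∧ ∀ g, k g = kk d g + j * (chi g - 1) :=
  by
  obtain ⟨-, r, r0, -, h⟩ := H3.kum_surj (H := ⊤) (m := 1) (κ := k) isClosed_univ hk.1
    fun g hg h hh => (hk.2 g hg h hh).trans (by rw [pow_one]; rfl)
  have h' : ∀ g : Gam, g r = r * zeta 1 ^ (k g).val := fun g => h g trivial
  obtain ⟨x, hx⟩ := (InfiniteGalois.mem_range_algebraMap_iff_fixed (k := ℚ) (r ^ 3)).2 fun g => by
    rw [map_pow, h' g, mul_pow, pow_right_comm, H3.TA.zeta_cube, one_pow, mul_one]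
  rw [eq_ratCast] at hx
  have x0 : x ≠ 0 := fun e => pow_ne_zero 3 r0 (by rw [← hx, e, Rat.cast_zero])
  have d0 : x.num.natAbs * x.den ^ 2 ≠ 0 :=
    mul_ne_zero (Int.natAbs_ne_zero.2 (Rat.num_ne_zero.2 x0)) (pow_ne_zero _ x.den_nz)
  obtain ⟨s, s1, s2⟩ : ∃ s : ℤ, s ^ 2 = 1 ∧ s * x.num = x.num.natAbs := by
    rcases Int.natAbs_eq x.num with e | e
    · exact ⟨1, rfl, by omega⟩
    · exact ⟨-1, rfl, by omega⟩
  have ht : ((s * x.den : ℤ) * r) ^ 3 = (x.num.natAbs * x.den ^ 2 : ℕ) := by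
    have e1 : (x : Qbar) * x.den = x.num := by exact_mod_cast x.mul_den_eq_num
    have e2 : (s : Qbar) ^ 2 = 1 := by exact_mod_cast s1
    have e3 : (s : Qbar) * x.num = x.num.natAbs := by
      rw [← Int.cast_mul, s2, Int.cast_natCast]
    rw [mul_pow, ← hx]
    push_cast
    rw [← e3, ← e1]
    linear_combination (s * x.den ^ 3 * x : Qbar) * e2
  generalize x.num.natAbs * x.den ^ 2 = d at d0 ht
  have r1 := rho_ne d0
  obtain ⟨j, hj⟩ := e3_exists (x := (s * x.den : ℤ) * r / rho d) (by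
    rw [div_pow, ht, rho_cube, div_self (Nat.cast_ne_zero.2 d0)])
  rw [div_eq_iff r1] at hj
  refine ⟨d, j, d0, fun g => ?_⟩
  have e := congrArg g hj
  rw [map_mul, map_intCast, h' g, ← mul_assoc, hj, map_mul, e3_smul, kk_spec, mul_right_comm,
    ← e3_add, mul_comm (rho d), ← mul_assoc, ← e3_add] at e
  linear_combination e3_inj (mul_right_cancel₀ r1 e)

theorem kummer_S (hk : Kc 1 ⊤ k) (S : Finset ℕ) (hS : ∀ q ∈ S, q.Prime) (h3 : 3 ∈ S)
    (h : ∀ q : ℕ, q.Prime → q ∉ S → k (sq q) = 0) :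
    ∃ (a : ℕ → F3) (j : F3), ∀ g, k g = ∑ q ∈ S, a q * kk q g + j * (chi g - 1) := by
  obtain ⟨d, j, d0, hd⟩ := kummer hk
  refine ⟨fun q => d.factorization q, j, fun g => ?_⟩
  rw [hd, kk_fac d0, ← Finset.sum_subset (Finset.inter_subset_left (s₂ := S)),
    Finset.sum_subset Finset.inter_subset_right]
  · intro q hq hn
    rw [Finsupp.notMem_support_iff.1 fun e => hn (Finset.mem_inter.2 ⟨e, hq⟩), Nat.cast_zero,
      zero_mul]
  · intro q hq hn
    have hp := Nat.prime_of_mem_primeFactors hq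
    have hq' : q ∉ S := fun e => hn (Finset.mem_inter.2 ⟨hq, e⟩)
    have q3 : q ≠ 3 := fun e => hq' (e ▸ h3)
    have := h q hp hq'
    rw [hd, kk_sq hp q3 d0, chi_ine hp q3 (sq_ine hp q3), sub_self, mul_zero, add_zero] at this
    rw [this, zero_mul]

/-- The cocycles `kk 3` and `chi - 1` are independent on the decomposition group at three. -/
theorem indep_three {a j : F3} (h : ∀ g ∈ Gq 3, a * kk 3 g + j * (chi g - 1) = 0) :
    a = 0 ∧ j = 0 := by
  obtain ⟨σ, h1, h2⟩ := H3.exists_z1 (pl_p Nat.prime_three)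
  obtain ⟨τ, h4, h5, h6⟩ := H3.exists_z2 (pl_p Nat.prime_three)
  have e1 := h τ (B2.Ine_le _ h4)
  rw [show chi τ = 1 from h5, sub_self, mul_zero, add_zero] at e1
  have a0 : a = 0 := (mul_eq_zero.1 e1).resolve_right (e3_km τ ▸ h6)
  have e2 := h σ (B2.Ine_le _ h1)
  rw [show chi σ = -1 from h2, a0, zero_mul, zero_add] at e2
  exact ⟨a0, (mul_eq_zero.1 e2).resolve_right (by decide)⟩

theorem kk_indep (S : Finset ℕ) (hS : ∀ q ∈ S, q.Prime) {a : ℕ → F3} {j : F3}
    (h : ∀ g, ∑ q ∈ S, a q * kk q g + j * (chi g - 1) = 0) : (∀ q ∈ S, a q = 0) ∧ j = 0 := by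
  have h1 : ∀ q ∈ S, q ≠ 3 → a q = 0 := fun q hq q3 => by
    have hp := hS q hq
    have := h (sq q)
    rwa [chi_ine hp q3 (sq_ine hp q3), sub_self, mul_zero, add_zero,
      Finset.sum_eq_single_of_mem q hq fun p hp' ne => by
        rw [kk_ine hp q3 (fun e => ne ((Nat.prime_dvd_prime_iff_eq hp (hS p hp')).1 e).symm)
          (sq_ine hp q3), mul_zero], kk_sq_self hp q3, mul_one] at this
  have h2 := indep_three (a := if 3 ∈ S then a 3 else 0) (j := j) fun g _ => by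
    refine Eq.trans ?_ (h g)
    congr 1
    split_ifs with e
    · rw [Finset.sum_eq_single_of_mem 3 e fun p hp ne => by rw [h1 p hp ne, zero_mul]]
    · rw [zero_mul, Finset.sum_eq_zero fun p hp => by
        rw [h1 p hp fun e' => e (e' ▸ hp), zero_mul]]
  refine ⟨fun q hq => ?_, h2.2⟩
  rcases eq_or_ne q 3 with rfl | q3
  · exact (if_pos hq).symm.trans h2.1
  · exact h1 q hq q3

theorem unr (hu : Kc e ⊤ u) (h3 : ∀ g ∈ Gq 3, u g = 0)
    (hs : ∀ q : ℕ, q.Prime → q ≠ 3 → u (sq q) = 0) (g : Gam) : u g = 0 := by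
  rw [← kc_mod] at hu
  rcases Nat.mod_two_eq_zero_or_one e with he | he <;> rw [he] at hu
  · refine hom_eq_zero hu {3} (fun p hp hn => ?_) g
    have p3 : p ≠ 3 := fun e => hn (Finset.mem_singleton.2 e)
    have := recip_lp hu (kc_kk p ⊤) {3, p} (by simp [hp, Nat.prime_three]) (by simp)
      fun q hq hn => by
        rw [Finset.mem_insert, Finset.mem_singleton, not_or] at hn
        exact ⟨hs q hq hn.1, kk_ine hq hn.1
          (fun e => hn.2 ((Nat.prime_dvd_prime_iff_eq hq hp).1 e)) (sq_ine hq hn.1)⟩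
    rwa [Finset.sum_pair p3.symm, lp_zero_left h3, zero_add,
      lp_unr hp p3 (hu.mono le_top) (kc_kk p _) (hs p hp p3), kk_sq_self hp p3, mul_one] at this
  · obtain ⟨a, j, h⟩ := kummer_S hu {3} (by simp [Nat.prime_three]) (by simp)
      fun q hq hn => hs q hq fun e => hn (Finset.mem_singleton.2 e)
    simp only [Finset.sum_singleton] at h
    obtain ⟨a0, j0⟩ := indep_three fun g hg => (h g).symm.trans (h3 g hg)
    rw [h, a0, j0, zero_mul, zero_mul, add_zero]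

theorem unr_l (hc : Coc ⊤ (act n e) c) (hl : ∀ g, th ^ l • c g = 0) (h3 : ∀ g ∈ Gq 3, c g = 0)
    (hs : ∀ q : ℕ, q.Prime → q ≠ 3 → c (sq q) = 0) (g : Gam) : c g = 0 := by
  induction l generalizing e c g with
  | zero => simpa using hl g
  | succ l ih =>
    have h1 : ∀ g, th • c g = 0 := ih (coc_th hc)
      (fun g => by rw [smul_smul, ← pow_succ, hl])
      (fun g hg => by rw [h3 g hg, smul_zero])
      fun q hq q3 => by rw [hs q hq q3, smul_zero]
    obtain ⟨u, hu, h2⟩ := exists_kC hc fun g _ => h1 g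
    have h4 : ∀ g, c g = 0 → u g = 0 := fun g z =>
      kT_inj ((h2 g trivial).symm.trans (z.trans (map_zero kT).symm))
    rw [h2 g trivial, unr hu (fun g hg => h4 g (h3 g hg)) (fun q hq q3 => h4 _ (hs q hq q3)) g,
      map_zero]

end Pool.Agent.Lib.MP_696deb_nt.CU
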