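import Pool.Agent.Lib.MP_696deb_nt.CU.D0

/-! Governing families and the statements of the two bilinear bounds. -/

set_option autoImplicit false

open scoped Classical
open Finset

namespace Pool.Agent.Lib.MP_696deb_nt.CU

/-- The additive character of the field with three elements. -/
noncomputable def ee : AddChar F3 ℂ := ZMod.stdAddChar

/-- Governing families for the directions `d` and the bottom cocycle `k`. -/
structure Gov {ι : Type} (U : Finset ι) (d : ι → Gam → F3) (k : Gam → F3)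
    (Φ : Finset ι → Gam → F3) : Prop where
  zero : Φ ∅ = k
  sm : ∀ T ⊆ U, Sm ⊤ (Φ T)
  mul : ∀ T ⊆ U, ∀ g h, Φ T (g * h) = Φ T g +
    ∑ R ∈ T.powerset, (∏ i ∈ R, d i g) * chi g ^ ((T \ R).card + 1) * Φ (T \ R) h
  three : ∀ T ⊆ U, T ≠ ∅ → ∀ g ∈ Gq 3, Φ T g = 0
  unr : ∀ T ⊆ U, T ≠ ∅ → ∀ q : ℕ, q.Prime → q ≠ 3 → Φ T (sq q) = 0

/-- The top function of the governing family, if there is one. -/
noncomputable def gov {ι : Type} (U : Finset ι) (d : ι → Gam → F3) (k : Gam → F3) : Gam → F3 :=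
  if h : ∃ Φ, Gov U d k Φ then h.choose U else 0

/-- A large set of primes in a dyadic range that is far above `tu`. -/
structure Rng (Z : ℝ) (c tu t : ℕ) (P : Finset ℕ) : Prop where
  mem : ∀ p ∈ P, p.Prime ∧ t < p ∧ p ≤ 2 * t
  big : t / Z ≤ P.card
  lg : Real.log (2 * t) ≤ Z
  hc : Z ^ c ≤ t
  gap : tu ^ c ≤ t

/-- The bilinear bound for governing symbols. -/
def AnaStmt : Prop := ∀ n E : ℕ, Odd n → ∃ c : ℕ, ∀ (ι : Type) (U : Finset ι) (Z : ℝ)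
  (tu tp tr : ℕ) (P R : Finset ℕ) (u u' : ι → ℕ) (p1 : ℕ) (a t : F3) (α β : ℕ → ℂ),
  U.card = n → 2 ≤ Z → Rng Z c tu tp P → Rng Z c tu tr R → Disjoint P R →
  (∀ i ∈ U, (u i).Prime ∧ (u' i).Prime ∧ u i ≠ 3 ∧ u' i ≠ 3 ∧ u i ≤ 2 * tu ∧ u' i ≤ 2 * tu) →
  (∀ i ∈ U, ∀ j ∈ U, u i ≠ u' j ∧ (u i = u j → i = j) ∧ (u' i = u' j → i = j)) →
  a ≠ 0 → t ≠ 0 → (∀ p, ‖α p‖ ≤ 1) → (∀ r, ‖β r‖ ≤ 1) →
  (∀ p ∈ P, α p ≠ 0 → (∃ Φ, Gov U (fun i => kk (u' i) - kk (u i)) (a • (kk p - kk p1)) Φ) ∧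
    ∀ i ∈ U, kk (u' i) (fq p) = kk (u i) (fq p)) →
  (∀ r ∈ R, β r ≠ 0 → ∀ i ∈ U, kk (u' i) (fq r) = kk (u i) (fq r)) →
  ‖∑ p ∈ P, ∑ r ∈ R, α p * β r *
      ee (t * gov U (fun i => kk (u' i) - kk (u i)) (a • (kk p - kk p1)) (fq r))‖ ≤
    P.card * R.card / Z ^ E

/-- The bilinear bound for cubic residue symbols. -/
def LinStmt : Prop := ∀ E : ℕ, ∃ c : ℕ, ∀ (Z : ℝ) (tp tr : ℕ) (P R : Finset ℕ) (t : F3)
  (α β : ℕ → ℂ), 2 ≤ Z → Rng Z c 1 tp P → Rng Z c 1 tr R → Disjoint P R → (∀ r ∈ R, r % 3 = 1) →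
  t ≠ 0 → (∀ p, ‖α p‖ ≤ 1) → (∀ r, ‖β r‖ ≤ 1) →
  ‖∑ p ∈ P, ∑ r ∈ R, α p * β r * ee (t * kk p (fq r))‖ ≤ P.card * R.card / Z ^ E

end Pool.Agent.Lib.MP_696deb_nt.CU
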