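import Pool.Agent.Lib.MP_696deb_nt.CU.KtN
import Pool.Agent.Lib.MP_696deb_nt.CU.Gov0
import Pool.Agent.Lib.MP_696deb_nt.CU.E3
import Pool.Agent.Lib.MP_696deb_nt.CU.E4

/-! The two bilinear bounds. -/

set_option autoImplicit false

open Finset
open scoped Classical

namespace Pool.Agent.Lib.MP_696deb_nt.CU

open Kt

theorem ktz_rho (n : ℕ) (g : Gam) : g (rho n) = zt (kk n g) * rho n :=
  (kk_spec n g).trans (mul_comm _ _)

theorem ktz_gn {q : ℕ} (hq : q.Prime) (h3 : q ≠ 3) : Gn (pl q) (sq q) := by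
  refine ⟨sq_ine hq h3, fun r hr => ?_⟩
  have e := ex_spec (x := r) (y := rho q) (by rw [hr, rho_cube, pl_p hq])
  have c : ch (sq q) = 1 := chi_ine hq h3 (sq_ine hq h3)
  rw [e, map_mul, smul_zt, ktz_rho, kk_sq_self hq h3, c, one_mul, mul_left_comm]

theorem ktz_sys : ∃ tst, Kt.Sys pl sq tst := by
  refine ⟨((finite_Z3 0).union (finite_Z3 1)).toFinset.image fun u =>
    if h : ∃ g, u g ≠ 0 then h.choose else 1, fun _ => pl_p, fun _ => ktz_gn,
    fun e u h1 h2 h3 h4 => ?_⟩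
  have hu : Kc e ⊤ u := ⟨h1, fun g _ h _ => h2 g h⟩
  refine funext (unr hu (fun g hg => by_contra fun k => ?_) h4)
  have x : ∃ g, (if g ∈ Gq 3 then u g else 0) ≠ 0 := ⟨g, by rwa [if_pos hg]⟩
  have y : (fun g => if g ∈ Gq 3 then u g else 0) ∈ Z3 (e % 2) :=
    ⟨((kc_mod.2 hu).mono le_top).congr fun g hg => (if_pos hg).symm, fun g hg => if_neg hg⟩
  have z := h3 x.choose (mem_image.2 ⟨_, (Set.Finite.mem_toFinset _).2 (by
    rcases Nat.mod_two_eq_zero_or_one e with k | k <;> rw [k] at y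
    exacts [Or.inl y, Or.inr y]), dif_pos x⟩)
  exact x.choose_spec (by rw [z, ite_self])

theorem Rng.pow_le {Z : ℝ} {K tu t : ℕ} {P : Finset ℕ} (hZ : 2 ≤ Z) (h : Rng Z (2 * K) tu t P) :
    max ⌈Z⌉₊ tu ^ K ≤ t := by
  rcases le_total ⌈Z⌉₊ tu with k | k
  · rw [max_eq_right k]
    exact (Nat.pow_le_pow_right ((Nat.ceil_pos.2 (by linarith)).trans_le k) (by omega)).trans h.gap
  · rw [max_eq_left k]
    have a : (⌈Z⌉₊ : ℝ) ≤ Z ^ 2 := (Nat.ceil_lt_add_one (by linarith)).le.trans (by nlinarith)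
    have b := (pow_le_pow_left₀ (Nat.cast_nonneg _) a K).trans ((pow_mul Z 2 K).symm.trans_le h.hc)
    exact_mod_cast b

theorem ktz_core (n E : ℕ) : ∃ c : ℕ, ∀ (U : Type) [Fintype U] (m : U → ℕ) (β : U → Qbar)
    (d : U → Gam → F3) (Z : ℝ) (tu tp tr : ℕ) (P R : Finset ℕ) (Ψ : ℕ → Finset U → Gam → F3)
    (z : Finset U → ℕ → F3) (e t : F3) (a b : ℕ → ℂ), Fintype.card U = n → Rad m β d →
    (∀ γ : U → F3, ∃ g, ch g = 1 ∧ ∀ j, d j g = γ j) → 2 ≤ Z → Rng Z c tu tp P →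
    Rng Z c tu tr R → Disjoint P R → (∀ j, m j ≤ (2 * tu) ^ 3) →
    (∀ p ∈ P, a p ≠ 0 → (∀ j, d j (fq p) = 0) ∧ Kt.Fam d (Ψ p) ∧
      ∀ T, ∀ q : ℕ, q.Prime → q ≠ 3 → Ψ p T (sq q) = z T q + if q = p ∧ T = ∅ then e else 0) →
    (∀ r ∈ R, b r ≠ 0 → (∀ j, d j (fq r) = 0) ∧ ch (fq r) ^ (n + 1) = 1) →
    e ≠ 0 → t ≠ 0 → (∀ p, ‖a p‖ ≤ 1) → (∀ r, ‖b r‖ ≤ 1) →
    ‖∑ p ∈ P, ∑ r ∈ R, a p * b r * ee (t * Ψ p univ (fq r))‖ ≤ P.card * R.card / Z ^ E := by
  obtain ⟨tst, hy⟩ := ktz_sys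
  obtain ⟨K, hK⟩ := core n tst.card (E + 2)
  refine ⟨2 * K, fun U _ m β d Z tu tp tr P R Ψ z e t a b hn h hs hZ hP hR hd hm h1 h2 he ht ha
    hb => ?_⟩
  have Z0 : 0 < Z := by linarith
  have w1 : Z ≤ (max ⌈Z⌉₊ tu : ℕ) := (Nat.le_ceil Z).trans (Nat.cast_le.2 (le_max_left _ _))
  have w2 : tu ≤ max ⌈Z⌉₊ tu := le_max_right _ _
  have k1 := hP.pow_le hZ
  have k2 := hR.pow_le hZ
  generalize max ⌈Z⌉₊ tu = W at w1 w2 k1 k2
  have w3 : 2 ≤ W := by exact_mod_cast hZ.trans w1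
  have w4 : 2 * tr ≤ 4 ^ W := by
    have a1 : (2 * tr : ℝ) ≤ Real.exp 1 ^ W := by
      rw [Real.exp_one_pow]
      exact (Real.le_exp_log _).trans (Real.exp_le_exp.2 (hR.lg.trans w1))
    have a2 := a1.trans (pow_le_pow_left₀ (Real.exp_pos 1).le
      (Real.exp_one_lt_d9.le.trans (by norm_num : _ ≤ (4 : ℝ))) W)
    exact_mod_cast a2
  have key := hK U m β d pl sq fq tst W tp tr {p ∈ P | a p ≠ 0} {r ∈ R | b r ≠ 0} Ψ z e t a b hn
    rfl h hs hy (fun _ => fq_frob) w3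
    (fun j => (hm j).trans (by
      rw [show W ^ 6 = (W * W) ^ 3 by ring]
      gcongr)) w4 k1 k2
    (fun p hp => by
      obtain ⟨p1, p2⟩ := mem_filter.1 hp
      exact ⟨(hP.mem p p1).1, (hP.mem p p1).2.1, (hP.mem p p1).2.2, h1 p p1 p2⟩)
    (fun r hr => by
      obtain ⟨r1, r2⟩ := mem_filter.1 hr
      exact ⟨(hR.mem r r1).1, (hR.mem r r1).2.1, (hR.mem r r1).2.2, (h2 r r1 r2).1, (h2 r r1 r2).2,
        fun k => disjoint_left.1 hd (mem_filter.1 k).1 r1⟩) he ht ha hb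
  rw [sum_filter_of_ne (p := fun p => a p ≠ 0) fun p _ k e => k (by simp [e]),
    sum_congr rfl fun p _ => sum_filter_of_ne (p := fun r => b r ≠ 0) fun r _ k e =>
      k (by simp [e])] at key
  have b1 := (div_le_iff₀ Z0).1 hP.big
  have b2 := (div_le_iff₀ Z0).1 hR.big
  rw [le_div_iff₀ (by positivity)]
  refine le_of_mul_le_mul_right ?_ (pow_pos Z0 2)
  calc _ = _ * Z ^ (E + 2) := by rw [mul_assoc, ← pow_add]; rfl
    _ ≤ _ * (W : ℝ) ^ (E + 2) :=
      mul_le_mul_of_nonneg_left (pow_le_pow_left₀ Z0.le w1 _) (norm_nonneg _)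
    _ ≤ (tp : ℝ) * tr := key
    _ ≤ (P.card * Z) * (R.card * Z) := by gcongr
    _ = _ := by ring

theorem Gov.fam {ι V : Type} {U : Finset ι} {d : ι → Gam → F3} {k : Gam → F3}
    {Φ : Finset ι → Gam → F3} (h : Gov U d k Φ) (e : V ↪ ι) (he : ∀ T : Finset V, T.map e ⊆ U) :
    Kt.Fam (fun j => d (e j)) fun T => Φ (T.map e) := by
  refine ⟨fun T => h.sm _ (he T), fun T g g' => (h.mul _ (he T) g g').trans (congrArg _ ?_)⟩
  refine (sum_nbij (fun R => R.map e) (fun R hR => ?_) (map_injective e).injOn (fun R hR => ?_)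
    fun R _ => ?_).symm
  · exact mem_powerset.2 (map_subset_map.2 (mem_powerset.1 hR))
  · obtain ⟨S, a, rfl⟩ := subset_map_iff.1 (mem_powerset.1 hR)
    exact ⟨S, mem_powerset.2 a, rfl⟩
  · rw [prod_map, ← Finset.map_sdiff, card_map]
    rfl

theorem ktz_sq {p q : ℕ} (hp : p.Prime) (hq : q.Prime) (h3 : q ≠ 3) :
    kk p (sq q) = if q = p then 1 else 0 := by
  split_ifs with h
  · rw [← h, kk_sq_self hq h3]
  · exact kk_ine hq h3 (fun k => h ((Nat.prime_dvd_prime_iff_eq hq hp).1 k)) (sq_ine hq h3)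

theorem ana : AnaStmt := by
  intro n E hn
  obtain ⟨c, hc⟩ := ktz_core n E
  refine ⟨c, fun ι U Z tu tp tr P R u u' p1 a t α β hU hZ hP hR hd hu hv ha ht hα hβ h1 h2 => ?_⟩
  have sub : ∀ T : Finset U, T.map (Function.Embedding.subtype _) ⊆ U := fun T i hi => by
    obtain ⟨j, -, rfl⟩ := mem_map.1 hi
    exact j.2
  have rad : Rad (fun j : U => u' j * u j ^ 2) (fun j => rho (u' j) * rho (u j) ^ 2)
      fun j => kk (u' j) - kk (u j) := by
    refine ⟨fun j => mul_ne_zero (hu j j.2).2.1.ne_zero (pow_ne_zero _ (hu j j.2).1.ne_zero),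
      fun j => ?_, fun j g => ?_⟩
    · rw [mul_pow, pow_right_comm, rho_cube, rho_cube, Nat.cast_mul, Nat.cast_pow]
    · have e : ∀ x y : F3, x - y = x + (y + y) := by decide
      rw [map_mul, map_pow, ktz_rho, ktz_rho, Pi.sub_apply, e, zt_add, zt_add]
      ring
  have nd : ∀ i j : U, ¬ u' j ∣ u i ^ 2 := fun i j k => (hv i i.2 j j.2).1
    ((Nat.prime_dvd_prime_iff_eq (hu j j.2).2.1 (hu i i.2).1).1
      ((hu j j.2).2.1.dvd_of_dvd_pow k)).symm
  have key := hc U _ _ _ Z tu tp tr P R (fun p T => (if h : ∃ Φ, Gov U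
      (fun i => kk (u' i) - kk (u i)) (a • (kk p - kk p1)) Φ then h.choose else 0)
        (T.map (Function.Embedding.subtype _)))
    (fun T q => if T = ∅ then -(a * kk p1 (sq q)) else 0) a t α β
    ((Fintype.card_coe U).trans hU) rad
    (d_surj rad (fun j => pl (u' j)) (fun j => sq (u' j))
      (fun j => by rw [pl_p (hu j j.2).2.1]; exact (hu j j.2).2.2.2.1)
      (fun j => ktz_gn (hu j j.2).2.1 (hu j j.2).2.2.2.1)
      (fun j => by rw [pl_p (hu j j.2).2.1]; exact dvd_mul_right _ _)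
      (fun j k => by
        rw [pl_p (hu j j.2).2.1, pow_two] at k
        exact nd j j (Nat.dvd_of_mul_dvd_mul_left (hu j j.2).2.1.pos k))
      fun i j hij k => by
        rw [pl_p (hu j j.2).2.1] at k
        exact ((Nat.Prime.dvd_mul (hu j j.2).2.1).1 k).elim (fun k => hij (Subtype.ext
          ((hv i i.2 j j.2).2.2 ((Nat.prime_dvd_prime_iff_eq (hu j j.2).2.1
            (hu i i.2).2.1).1 k).symm))) (nd i j))
    hZ hP hR hd
    (fun j => by
      rw [pow_succ' (2 * tu) 2]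
      exact Nat.mul_le_mul (hu j j.2).2.2.2.2.2 (Nat.pow_le_pow_left (hu j j.2).2.2.2.2.1 2))
    (fun p hp k => by
      obtain ⟨x, y⟩ := h1 p hp k
      rw [dif_pos x]
      refine ⟨fun j => sub_eq_zero.2 (y j j.2),
        x.choose_spec.fam (Function.Embedding.subtype _) sub, fun T q a1 a2 => ?_⟩
      by_cases e : T = ∅
      · rw [e, map_empty, x.choose_spec.zero, Pi.smul_apply, Pi.sub_apply,
          ktz_sq (hP.mem p hp).1 a1 a2]
        by_cases e : q = p <;> simp [e, mul_add, sub_eq_neg_add]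
      · rw [x.choose_spec.unr _ (sub T) (fun k => e (map_eq_empty.1 k)) q a1 a2]
        simp [e])
    (fun r hr k => ⟨fun j => sub_eq_zero.2 (h2 r hr k j j.2), by
      obtain ⟨l, rfl⟩ := hn
      rw [show 2 * l + 1 + 1 = 2 * (l + 1) by ring, pow_mul, pow_two, ch_sq, one_pow]⟩)
    ha ht hα hβ
  refine le_of_eq_of_le (congrArg norm (sum_congr rfl fun p _ => sum_congr rfl fun r _ => ?_)) key
  rw [univ_eq_attach, attach_map_val, gov]
  split_ifs <;> rfl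

theorem lin : LinStmt := by
  intro E
  obtain ⟨c, hc⟩ := ktz_core 0 E
  refine ⟨c, fun Z tp tr P R t α β hZ hP hR hd h3 ht hα hβ => ?_⟩
  refine hc Empty (fun _ => 1) (fun _ => 1) (fun _ => 0) Z 1 tp tr P R (fun p _ => kk p)
    (fun _ _ => 0) 1 t α β rfl ⟨fun j => j.elim, fun j => j.elim, fun j => j.elim⟩
    (fun _ => ⟨1, ch_one, fun j => j.elim⟩) hZ hP hR hd (fun j => j.elim)
    (fun p hp _ => ⟨fun j => j.elim, ⟨fun _ => (kc_kk p ⊤).1, fun T g h => ?_⟩,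
      fun T q a1 a2 => ?_⟩)
    (fun r hr _ => ⟨fun j => j.elim, ?_⟩) one_ne_zero ht hα hβ
  · rw [Subsingleton.elim T ∅]
    simpa [chi, ch] using (kc_kk p ⊤).2 g trivial h trivial
  · rw [Subsingleton.elim T ∅, ktz_sq (hP.mem p hp).1 a1 a2]
    simp
  · have a := h3 r hr
    have b : ch (fq r) = r := chi_fq (hR.mem r hr).1 (by omega)
    rw [b, zero_add, pow_one, ← ZMod.natCast_mod r 3, a, Nat.cast_one]

end Pool.Agent.Lib.MP_696deb_nt.CU
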