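import Pool.Agent.Lib.MP_696deb_nt.CU.Main
import Pool.Agent.Lib.MP_696deb_nt.CU.An
import Pool.Agent.Lib.MP_696deb_nt.CU.KtZ

/-! The core statement: growth of the Selmer cocycles is rare. -/

set_option autoImplicit false

namespace Pool.Agent.Lib.MP_696deb_nt.CU

theorem core : CoreStmt := core_of an_main ana lin

end Pool.Agent.Lib.MP_696deb_nt.CU
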