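import Pool.Agent.Lib.MP_23455a_nt.H3.TAe
import Pool.Agent.Lib.MP_23455a_nt.H3.SL0
import Pool.Agent.Lib.MP_23455a_nt.H3.CF
import Pool.Agent.Lib.MP_696deb_nt.Sm.Loc

/-! The points of the Fermat cubic as a module over the Eisenstein integers, the twisted Galois
actions, local conditions, Selmer cocycles and the pairing. -/

set_option autoImplicit false

open scoped Classical

namespace Pool.Agent.Lib.MP_696deb_nt.CU

export Pool.Agent.Lib.MP_696deb_nt.B2 (Qbar Gam Plc Dec Ine IsFrob Op Sm Sm2 IsHom Fx GK cc)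
export Pool.Agent.Lib.MP_696deb_nt.Sm (pl pl_p)
export Pool.Agent.H3 (Coc cob PW T3 K1 zeta cy C2 Spl cup Kum Gen CFT)

/-- The field with three elements. -/
abbrev F3 := ZMod 3

/-- The Eisenstein integers. -/
abbrev O := QuadraticAlgebra ℤ (-1) (-1)

/-- The algebraic points of the curve. -/
abbrev A := PW

theorem zsq_cube : (zeta 1 ^ 2) ^ 3 = 1 := by
  rw [pow_right_comm, H3.TA.zeta_cube, one_pow]

/-- The automorphism of order three. -/
noncomputable def JJ : A →+ A := AddMonoidHom.mk' (H3.TA.taeOm zsq_cube) (H3.TA.tae_add zsq_cube)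

theorem JJ_JJ (P : A) : JJ (JJ P) = -JJ P - P := by
  have h : zeta 1 ^ 2 ≠ 1 := fun e => H3.zeta_one_ne (by
    have := H3.TA.zeta_cube
    rwa [pow_succ, e, one_mul] at this)
  have := H3.TA.tae_sq zsq_cube h P
  rw [← eq_sub_iff_add_eq] at this
  exact this.trans (by abel_nf; rfl)

noncomputable instance : SMul O A := ⟨fun z P => z.re • P + z.im • JJ P⟩

theorem smul_def (z : O) (P : A) : z • P = z.re • P + z.im • JJ P := rfl

noncomputable instance : Module O A where
  one_smul P := by simp [smul_def, QuadraticAlgebra.re_one, QuadraticAlgebra.im_one]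
  mul_smul z z' P := by
    simp only [smul_def, QuadraticAlgebra.re_mul, QuadraticAlgebra.im_mul, map_add, map_zsmul,
      JJ_JJ]
    module
  smul_zero z := by simp [smul_def]
  smul_add z P Q := by
    simp only [smul_def, map_add]
    module
  add_smul z z' P := by
    simp only [smul_def, QuadraticAlgebra.re_add, QuadraticAlgebra.im_add]
    module
  zero_smul P := by simp [smul_def]

/-- The cube root of unity. -/
def om : O := ⟨0, 1⟩

/-- The prime above three. -/
def th : O := ⟨1, 2⟩

/-- The unit attached to a residue. -/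
def un (h : F3) : O := om ^ h.val

/-- The quotient `(un h - 1) / th`. -/
def nu (h : F3) : O := if h = 0 then 0 else if h = 1 then ⟨1, 1⟩ else ⟨0, 1⟩

/-- Reduction modulo `th`. -/
def red : O →+* F3 where
  toFun z := (z.re : F3) + (z.im : F3)
  map_one' := by decide
  map_zero' := by decide
  map_add' z z' := by
    simp only [QuadraticAlgebra.re_add, QuadraticAlgebra.im_add]
    push_cast
    ring
  map_mul' z z' := by
    simp only [QuadraticAlgebra.re_mul, QuadraticAlgebra.im_mul]
    push_cast
    generalize (z.re : F3) = a, (z.im : F3) = b, (z'.re : F3) = c, (z'.im : F3) = d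
    revert a b c d
    decide

/-- The generator of the kernel of `th`. -/
noncomputable def T : A := th • T3

theorem three_T : 3 • T = 0 := by
  rw [T, smul_comm, H3.TA.three_T3, smul_zero]

/-- The line through `T`. -/
noncomputable def kT : F3 →+ A :=
  AddMonoidHom.mk' (fun t => t.val • T) fun a b => by
    rw [← add_nsmul, ZMod.val_add, ← nsmul_eq_mod_nsmul _ three_T]

/-- The cyclotomic character modulo three. -/
noncomputable def chi (g : Gam) : F3 := cy 1 g

/-- The same character as a sign. -/
noncomputable def ep (g : Gam) : ℤ := if chi g = 1 then 1 else -1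

/-- The real cube root. -/
noncomputable def rho (n : ℕ) : Qbar := (H3.exists_real_cbrt ⟨n, map_natCast cc n⟩).choose.1

/-- The Kummer cocycle of the real cube root. -/
noncomputable def kk (n : ℕ) (g : Gam) : F3 :=
  if g (rho n) = rho n then 0 else if g (rho n) = rho n * zeta 1 then 1 else 2

/-- The twisted actions. The side `e = 1` is the curve `x ^ 3 + y ^ 3 = n`, the side `e = 0` is the
isogenous curve. -/
noncomputable def act (n e : ℕ) (g : Gam) : A →+ A :=
  AddMonoidHom.mk' (fun P => ep g ^ (e + 1) • un (kk n g) • g • P) fun P Q => by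
    simp only [smul_add]

/-- Smooth cocycles on `D` with values in the `e`-th power of the cyclotomic character. -/
def Kc (e : ℕ) (D : Subgroup Gam) (u : Gam → F3) : Prop :=
  Sm D u ∧ ∀ g ∈ D, ∀ h ∈ D, u (g * h) = u g + chi g ^ e * u h

/-- The decomposition group. -/
noncomputable abbrev Gq (q : ℕ) : Subgroup Gam := Dec (pl q)

/-- The inertia group. -/
noncomputable abbrev Iq (q : ℕ) : Subgroup Gam := Ine (pl q)

/-- The generator of tame inertia. -/
noncomputable def sq (q : ℕ) : Gam := if h : ∃ s ∈ Iq q, kk q s = 1 then h.choose else 1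

/-- A Frobenius element. -/
noncomputable def fq (q : ℕ) : Gam := H3.fr (pl q)

/-- The local condition. -/
def Loc (n e q : ℕ) (c : Gam → A) : Prop := ∃ P : A, ∀ g ∈ Gq q, c g = cob (act n e) P g

/-- A fixed system of local invariants. -/
noncomputable def FF : CFT := H3.exists_cft.some

/-- The local invariant of level one. -/
noncomputable def inv (q : ℕ) (c : Gam → Gam → F3) : F3 := FF.inv 1 ⊤ (pl q) c

/-- The local pairing of a character and a Kummer cocycle. -/
noncomputable def lp (q : ℕ) (u k : Gam → F3) : F3 := inv q fun g h => u g * chi g * k h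

/-- A cubic character that is ramified at `q` and unramified outside of `3 q`. -/
noncomputable def uq (q : ℕ) : Gam → F3 :=
  if h : ∃ u, Kc 0 ⊤ u ∧ u (sq q) = 1 ∧ ∀ p : ℕ, p.Prime → p ≠ 3 → p ≠ q → u (sq p) = 0
  then h.choose else 0

theorem cob_add (a : Gam → A →+ A) (P Q : A) (g : Gam) :
    cob a (P + Q) g = cob a P g + cob a Q g := by
  simp only [cob, map_add]
  abel

theorem cob_neg (a : Gam → A →+ A) (P : A) (g : Gam) : cob a (-P) g = -cob a P g := by
  simp only [cob, map_neg]
  abel

theorem cob_zero (a : Gam → A →+ A) (g : Gam) : cob a 0 g = 0 := by simp [cob]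

theorem Loc.zero (n e q : ℕ) : Loc n e q 0 := ⟨0, fun g _ => (cob_zero _ g).symm⟩

theorem Loc.add {n e q : ℕ} {c c' : Gam → A} (h : Loc n e q c) (h' : Loc n e q c') :
    Loc n e q (c + c') := by
  obtain ⟨P, hP⟩ := h
  obtain ⟨Q, hQ⟩ := h'
  exact ⟨P + Q, fun g hg => by rw [Pi.add_apply, hP g hg, hQ g hg, cob_add]⟩

theorem Loc.neg {n e q : ℕ} {c : Gam → A} (h : Loc n e q c) : Loc n e q (-c) := by
  obtain ⟨P, hP⟩ := h
  exact ⟨-P, fun g hg => by rw [Pi.neg_apply, hP g hg, cob_neg]⟩

/-- The Selmer cocycles of level `l` on the side `e`. -/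
structure IsZ (n e l : ℕ) (c : Gam → A) : Prop where
  coc : Coc ⊤ (act n e) c
  kil : ∀ g, th ^ l • c g = 0
  loc : ∀ q : ℕ, q.Prime → q ∣ 3 * n → Loc n e q c
  unr : ∀ q : ℕ, q.Prime → ¬ q ∣ 3 * n → c (sq q) = 0

/-- The group of these cocycles. -/
noncomputable def Zs (n e l : ℕ) : AddSubgroup (Gam → A) where
  carrier := {c | IsZ n e l c}
  zero_mem' := ⟨H3.Coc.zero _ _, fun _ => smul_zero _, fun q _ _ => Loc.zero n e q,
    fun _ _ _ => rfl⟩
  add_mem' := fun h h' => ⟨h.coc.add h'.coc, fun g => by
    rw [Pi.add_apply, smul_add, h.kil, h'.kil, add_zero],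
    fun q hq k => (h.loc q hq k).add (h'.loc q hq k), fun q hq k => by
    rw [Pi.add_apply, h.unr q hq k, h'.unr q hq k, add_zero]⟩
  neg_mem' := fun h => ⟨h.coc.neg, fun g => by rw [Pi.neg_apply, smul_neg, h.kil, neg_zero],
    fun q hq k => (h.loc q hq k).neg, fun q hq k => by rw [Pi.neg_apply, h.unr q hq k, neg_zero]⟩

theorem mem_Zs {n e l : ℕ} {c : Gam → A} : c ∈ Zs n e l ↔ IsZ n e l c := Iff.rfl

/-- On the decomposition group `c` is a coboundary up to the character `u`. -/
def Dc (n q : ℕ) (c : Gam → A) (u : Gam → F3) : Prop :=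
  ∃ P : A, ∀ g ∈ Gq q, c g = cob (act n 0) P g + kT (u g)

/-- A choice of the character. -/
noncomputable def lu (n q : ℕ) (c : Gam → A) : Gam → F3 :=
  if h : ∃ u, Dc n q c u then h.choose else 0

/-- The local term of the pairing. -/
noncomputable def Dq (n q : ℕ) (c : Gam → A) (k : Gam → F3) : F3 := lp q (lu n q c) k

/-- The pairing, computed with a lift. -/
noncomputable def Dl (n : ℕ) (c : Gam → A) (k : Gam → F3) : F3 :=
  ∑ q ∈ (3 * n).primeFactors, Dq n q c k

/-- `c'` is a lift of `c` that is unramified outside of `3 n`. -/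
structure IsLift (n : ℕ) (c c' : Gam → A) : Prop where
  coc : Coc ⊤ (act n 0) c'
  th_smul : ∀ g, th • c' g = c g
  unr : ∀ q : ℕ, q.Prime → ¬ q ∣ 3 * n → c' (sq q) = 0

/-- The pairing of a Selmer cocycle on the side one with a Selmer cocycle of level one. -/
noncomputable def DD (n : ℕ) (c : Gam → A) (k : Gam → F3) : F3 :=
  if h : ∃ c', IsLift n c c' then Dl n h.choose k else 0

/-- The cocycle with values in the kernel of `th`. -/
noncomputable abbrev kC (k : Gam → F3) : Gam → A := fun g => kT (k g)

end Pool.Agent.Lib.MP_696deb_nt.CU
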