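import Pool.Agent.Lib.MP_696deb_nt.CU.E1

/-! Cocycles on tame decomposition groups. -/

set_option autoImplicit false

open scoped Classical

namespace Pool.Agent.Lib.MP_696deb_nt.CU

variable {n e l q : ℕ} {g : Gam} {P : A} {c c' : Gam → A} {u u' k k' : Gam → F3}

theorem e2a_ne (hq : q.Prime) (h3 : q ≠ 3) : (pl q).p ≠ 3 := by rwa [pl_p hq]

theorem e2a_chi (hq : q.Prime) (h3 : q ≠ 3) (hg : g ∈ Iq q) : chi g = 1 :=
  H3.cy_ine (m := 1) (e2a_ne hq h3) hg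

theorem e2a_exists (hq : q.Prime) (h3 : q ≠ 3) : ∃ s ∈ Iq q, kk q s = 1 := by
  obtain ⟨h1, h2⟩ := H3.gn_spec (e2a_ne hq h3)
  have h4 := h2 (rho q) (by rw [rho_cube, pl_p hq])
  rcases F3_cases (kk q (H3.gn (pl q))) with k | k | k
  · exact absurd (by rw [kk_spec, k, ZMod.val_zero, pow_zero, mul_one]) h4
  · exact ⟨_, h1, k⟩
  · refine ⟨_, mul_mem h1 h1, ?_⟩
    rw [(kc_kk q ⊤).2 _ trivial _ trivial, k, e2a_chi hq h3 h1]
    decide

theorem e2a_sq (hq : q.Prime) (h3 : q ≠ 3) : sq q ∈ Iq q ∧ kk q (sq q) = 1 := by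
  rw [sq, dif_pos (e2a_exists hq h3)]
  exact (e2a_exists hq h3).choose_spec

theorem sq_ine (hq : q.Prime) (h3 : q ≠ 3) : sq q ∈ Iq q := (e2a_sq hq h3).1

theorem sq_mem (hq : q.Prime) (h3 : q ≠ 3) : sq q ∈ Gq q := B2.Ine_le _ (sq_ine hq h3)

theorem kk_sq_self (hq : q.Prime) (h3 : q ≠ 3) : kk q (sq q) = 1 := (e2a_sq hq h3).2

theorem gen_sq (hq : q.Prime) (h3 : q ≠ 3) : Gen (pl q) (sq q) := by
  refine ⟨sq_ine hq h3, fun r hr k => H3.zeta_one_ne ?_⟩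
  rw [pl_p hq] at hr
  have q0 : (q : Qbar) ≠ 0 := Nat.cast_ne_zero.2 hq.ne_zero
  have h0 := rho_ne hq.ne_zero
  have r0 : r ≠ 0 := by
    rintro rfl
    exact q0 (by rw [← hr]; norm_num)
  have h1 : (rho q / r) ^ 3 ^ 1 = 1 := by rw [pow_one, div_pow, rho_cube, hr, div_self q0]
  have h2 := H3.b4a_fix_root (e2a_ne hq h3) (sq_ine hq h3) h1
  have h4 : (1 : F3).val = 1 := rfl
  rw [map_div₀, k, kk_spec, kk_sq_self hq h3, h4, pow_one, div_left_inj' r0] at h2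
  exact (mul_eq_left₀ h0).1 h2

theorem fq_frob (hq : q.Prime) : IsFrob (pl q) q (fq q) := by
  have h := H3.fr_spec (pl q)
  rwa [pl_p hq] at h

theorem fq_mem (hq : q.Prime) : fq q ∈ Gq q := (fq_frob hq).1

theorem e2a_tm (hq : q.Prime) (h3 : q ≠ 3) : H3.Tm ⊤ (pl q) q (fq q) (sq q) := by
  have h := H3.tm_split (H := ⊤) isOpen_univ (e2a_ne hq h3) le_top (H3.fr_spec (pl q))
    (gen_sq hq h3)
  rwa [pl_p hq] at h

theorem chi_ine (hq : q.Prime) (h3 : q ≠ 3) (hg : g ∈ Iq q) : chi g = 1 := e2a_chi hq h3 hg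

theorem chi_fq (hq : q.Prime) (h3 : q ≠ 3) : chi (fq q) = q := by
  have h : H3.cy 1 (fq q) = (q : ZMod (3 ^ 1)) := by
    rw [H3.cy, H3.cyc_frob (e2a_ne hq h3) (fq_frob hq), map_natCast]
  exact h

theorem chi_Gq (hq : q.Prime) (h1 : q % 3 = 1) (hg : g ∈ Gq q) : chi g = 1 := by
  have h : (q : F3) = 1 := by rw [← ZMod.natCast_mod, h1, Nat.cast_one]
  exact (e2a_tm hq (by omega)).cy_one (m := 1) h ⟨trivial, hg⟩

theorem e2a_V (hq : q.Prime) (hn : ¬ q ∣ n) : (pl q).V n = 1 := by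
  have h := (pl q).V_int_eq_one (a := n)
  rw [pl_p hq, Int.cast_natCast, Int.natCast_dvd_natCast] at h
  exact h.2 hn

theorem kk_ine (hq : q.Prime) (h3 : q ≠ 3) (hn : ¬ q ∣ n) (hg : g ∈ Iq q) : kk n g = 0 :=
  (kum_kk (n := n) (fun k => hn (k ▸ dvd_zero q)) ⊤).unr (e2a_ne hq h3) (e2a_V hq hn) g ⟨trivial, hg⟩

theorem kk_sq (hq : q.Prime) (h3 : q ≠ 3) (hn : n ≠ 0) : kk n (sq q) = n.factorization q := by
  rw [kk_fac hn, Finset.sum_eq_single q, kk_sq_self hq h3, mul_one]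
  · intro p hp k
    rw [kk_ine hq h3 (fun d => k ((Nat.prime_dvd_prime_iff_eq hq
      (Nat.prime_of_mem_primeFactors hp)).1 d).symm) (sq_ine hq h3), mul_zero]
  · intro k
    rw [← Nat.support_factorization, Finsupp.notMem_support_iff] at k
    rw [k, Nat.cast_zero, zero_mul]

/-- The cubic residue symbol. -/
theorem kk_fq (hq : q.Prime) (h3 : q ≠ 3) (hn : ¬ q ∣ n) (h1 : q % 3 = 1) :
    (pl q).V ((n : Qbar) ^ (q / 3) - zeta 1 ^ (kk n (fq q)).val) < 1 := by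
  have h0 : (pl q).V (rho n) = 1 := by
    have h := e2a_V hq hn
    rw [← rho_cube, map_pow] at h
    exact (pow_eq_one_iff_of_nonneg zero_le three_ne_zero).1 h
  have h2 := (fq_frob hq).2 _ h0.le
  have h4 : rho n ^ q = rho n * (n : Qbar) ^ (q / 3) := by
    rw [← rho_cube, ← pow_mul, ← pow_succ']
    congr 1
    omega
  rwa [kk_spec, h4, ← mul_sub, map_mul, h0, one_mul, Valuation.map_sub_swap] at h2

theorem e2a_euler (hq : q.Prime) (h1 : q % 3 = 1) {a : ZMod q} (ha : a ≠ 0) :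
    a ^ (q / 3) = 1 ↔ ∃ t : ZMod q, t ^ 3 = a := by
  have := Fact.mk hq
  have h2 : q - 1 = 3 * (q / 3) := by omega
  constructor
  · intro h
    obtain ⟨z, hz⟩ := IsCyclic.exists_monoid_generator (α := (ZMod q)ˣ)
    obtain ⟨j, hj⟩ := hz (Units.mk0 a ha)
    have h4 : orderOf z = 3 * (q / 3) := by
      rw [orderOf_eq_card_of_forall_mem_powers hz, Nat.card_eq_fintype_card, ZMod.card_units, h2]
    have h5 : z ^ (j * (q / 3)) = 1 := by
      rw [pow_mul, show z ^ j = _ from hj]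
      exact Units.ext (by simpa using h)
    have h6 := orderOf_dvd_of_pow_eq_one h5
    rw [h4] at h6
    obtain ⟨i, rfl⟩ := Nat.dvd_of_mul_dvd_mul_right (by have := hq.two_le; omega) h6
    refine ⟨(z ^ i : (ZMod q)ˣ), ?_⟩
    rw [← Units.val_pow_eq_pow_val, ← pow_mul', show z ^ (3 * i) = _ from hj, Units.val_mk0]
  · rintro ⟨t, rfl⟩
    rw [← pow_mul, ← h2]
    exact ZMod.pow_card_sub_one_eq_one fun k => ha (by rw [k]; norm_num)

theorem kk_fq_eq_zero (hq : q.Prime) (hn : ¬ q ∣ n) (h1 : q % 3 = 1) :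
    kk n (fq q) = 0 ↔ ∃ t : ZMod q, t ^ 3 = n := by
  have h3 : q ≠ 3 := by omega
  have h2 := kk_fq hq h3 hn h1
  have h4 : (pl q).V ((n : Qbar) ^ (q / 3) - 1) < 1 ↔ (n : ZMod q) ^ (q / 3) = 1 := by
    have h := B2.b2c_lt (w := pl q) (a := (n : ℤ) ^ (q / 3) - 1)
    rw [pl_p hq, ← ZMod.intCast_zmod_eq_zero_iff_dvd] at h
    push_cast at h
    rw [h, sub_eq_zero]
  rw [← e2a_euler hq h1 (mt (ZMod.natCast_eq_zero_iff n q).1 hn), ← h4]
  constructor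
  · intro h
    rwa [h, ZMod.val_zero, pow_zero] at h2
  · intro h
    refine H3.d0b_ine_zero (m := 1) (e2a_ne hq h3) (one_mem _) (map_one _) ?_
    rw [one_mul, map_one]
    refine ((pl q).eq_one_of_root (H3.d0b_ndvd (e2a_ne hq h3) 1)
      (H3.zeta_val_pow 1 (kk n (fq q))) ?_).symm
    have h5 := (pl q).V.map_sub_lt h h2
    rwa [sub_sub_sub_cancel_left] at h5

/-- The action on the field with three elements. -/
noncomputable def e2aAct (e : ℕ) (g : Gam) : F3 →+ F3 := AddMonoidHom.mulLeft (chi g ^ e)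

theorem e2a_apply (e : ℕ) (g : Gam) (x : F3) : e2aAct e g x = chi g ^ e * x := rfl

theorem e2a_act (e : ℕ) (D : Subgroup Gam) : H3.Act D (e2aAct e) where
  sm := (sm_chi D).comp fun x => AddMonoidHom.mulLeft (x ^ e)
  one x := by rw [e2a_apply, chi_one, one_pow, one_mul]
  mul g _ h _ x := by simp only [e2a_apply, chi_mul, mul_pow, mul_assoc]
  three g _ h := ⟨0, fun x => by rw [e2a_apply, pow_zero, pow_one, mem_GK.1 h, one_pow, one_mul]⟩

theorem e2a_three (x : F3) : 3 ^ 1 • x = 0 := by revert x; decide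

theorem e2a_ine (h : Kc e (Iq q) u) (hq : q.Prime) (h3 : q ≠ 3) (hs : u (sq q) = 0)
    (hg : g ∈ Iq q) : u g = 0 := by
  obtain ⟨j, hj, -⟩ := (gen_sq hq h3).lo_pow e2a_three (e2a_ne hq h3) (e2a_act e _) h hg
  rw [hj, H3.Coc.lo_pow_fix (e2a_act e _) h (sq_ine hq h3) (by rw [hs, map_zero]), hs, smul_zero]

theorem Kc.ine (h : Kc e (Iq q) u) (hq : q.Prime) (h3 : q ≠ 3) (hg : g ∈ Iq q) :
    u g = kk q g * u (sq q) := by
  have h1 : Kc e (Iq q) fun g => u g - kk q g * u (sq q) :=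
    ⟨h.1.comp₂ (kc_kk q _).1 fun x y => x - y * u (sq q), fun a ha b hb => by
      simp only [h.2 a ha b hb, (kc_kk q _).2 a ha b hb, chi_ine hq h3 ha, one_pow]
      ring⟩
  exact sub_eq_zero.1 (e2a_ine h1 hq h3 (by rw [kk_sq_self hq h3, one_mul, sub_self]) hg)

theorem Kc.det (h : Kc e (Gq q) u) (hq : q.Prime) (h3 : q ≠ 3) (hs : u (sq q) = 0)
    (hf : u (fq q) = 0) (hg : g ∈ Gq q) : u g = 0 :=
  (e2a_tm hq h3).eq_zero e2a_three (e2a_act e _) (h.mono inf_le_right) hs hf ⟨trivial, hg⟩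

theorem e2a_conj (h : Kc e (Iq q) u) (hq : q.Prime) (h2 : q % 3 = 2)
    (k : u (fq q * sq q * (fq q)⁻¹) = u (sq q)) : u (sq q) = 0 := by
  have h3 : q ≠ 3 := by omega
  have h1 := H3.tame_frob (H := ⊤) (π := fun g => Multiplicative.ofAdd (u g)) (e2a_ne hq h3)
    ((h.1.mono inf_le_right).comp _)
    (fun a ha b hb => by
      beta_reduce
      rw [h.2 a ha.2 b hb.2, chi_ine hq h3 ha.2, one_pow, one_mul, ofAdd_add])
    (fun a _ => ⟨1, by rw [← ofAdd_nsmul, e2a_three, ofAdd_zero]⟩) isOpen_univ (fq_frob hq)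
    ⟨trivial, sq_ine hq h3⟩ trivial
  have h4 : (q : F3) = 2 := by rw [← ZMod.natCast_mod, h2, Nat.cast_ofNat]
  rw [k, ← ofAdd_nsmul, nsmul_eq_mul, h4] at h1
  linear_combination -Multiplicative.ofAdd.injective h1

theorem Kc.ev (h : Kc 0 (Gq q) u) (hq : q.Prime) (h2 : q % 3 = 2) : u (sq q) = 0 := by
  have h3 : q ≠ 3 := by omega
  refine e2a_conj (h.mono (B2.Ine_le _)) hq h2 ?_
  have h1 := h.2 _ (B2.Ine_le _ (B2.conj_mem_Ine (fq_mem hq) (sq_ine hq h3))) _ (fq_mem hq)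
  rw [inv_mul_cancel_right, h.2 _ (fq_mem hq) _ (sq_mem hq h3)] at h1
  linear_combination -h1

theorem e2a_ind {D : Subgroup Gam} {S : Gam → Prop}
    (H : ∀ e u, Kc e D u → (∀ s ∈ D, S s → u s = 0) → ∀ g ∈ D, u g = 0)
    (h : Coc D (act n e) c) (hl : ∀ g ∈ D, th ^ l • c g = 0) (hs : ∀ s, S s → c s = 0)
    (hg : g ∈ D) : c g = 0 := by
  induction l generalizing e c g with
  | zero => simpa using hl g hg
  | succ l ih =>
    obtain ⟨v, h1, h2⟩ := exists_kC h fun a ha => ih (coc_th h)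
      (fun b hb => by rw [Pi.smul_apply, smul_smul, ← pow_succ, hl b hb])
      (fun s k => by rw [Pi.smul_apply, hs s k, smul_zero]) ha
    rw [h2 g hg, H e v h1 (fun s k k' => kT_inj (by rw [← h2 s k, hs s k', map_zero])) g hg,
      map_zero]

theorem det_ine (hq : q.Prime) (h3 : q ≠ 3) (h : Coc (Iq q) (act n e) c)
    (hl : ∀ g ∈ Iq q, th ^ l • c g = 0) (hs : c (sq q) = 0) (hg : g ∈ Iq q) : c g = 0 :=
  e2a_ind (S := fun s => s = sq q)
    (fun _ _ k k' _ => e2a_ine k hq h3 (k' _ (sq_ine hq h3) rfl)) h hl (fun _ k => k ▸ hs) hg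

theorem det (hq : q.Prime) (h3 : q ≠ 3) (h : Coc (Gq q) (act n e) c)
    (hl : ∀ g ∈ Gq q, th ^ l • c g = 0) (hs : c (sq q) = 0) (hf : c (fq q) = 0) (hg : g ∈ Gq q) :
    c g = 0 :=
  e2a_ind (S := fun s => s = sq q ∨ s = fq q)
    (fun _ _ k k' _ => k.det hq h3 (k' _ (sq_mem hq h3) (.inl rfl)) (k' _ (fq_mem hq) (.inr rfl)))
    h hl (fun _ k => k.elim (· ▸ hs) (· ▸ hf)) hg

/-- Inertia at a good prime acts trivially on torsion points. -/
theorem act_ine (hq : q.Prime) (h3 : q ≠ 3) (hg : g ∈ Iq q) (hl : th ^ l • P = 0) :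
    act n e g P = un (kk n g) • P := by
  have h1 : g • P = P := sub_eq_zero.1 (H3.K1_tors (m := l) (e2a_ne hq h3)
    (H3.K1_ine (e2a_ne hq h3) hg P)
    (by rw [smul_sub, smul_comm, three_pow_smul hl, smul_zero, sub_zero]))
  rw [act_apply, h1, ep, if_pos (chi_ine hq h3 hg), one_pow, one_smul]

theorem ev (hq : q.Prime) (h2 : q % 3 = 2) (hn : ¬ q ∣ n) (h : Coc (Gq q) (act n 0) c)
    (hl : ∀ g ∈ Gq q, th ^ l • c g = 0) (hs : th • c (sq q) = 0) : c (sq q) = 0 := by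
  have h3 : q ≠ 3 := by omega
  have h0 := h.lo_mono (B2.Ine_le (pl q))
  obtain ⟨v, h4, h5⟩ := exists_kC h0 fun a ha => det_ine (l := l) hq h3 (coc_th h0)
    (fun b hb => by rw [Pi.smul_apply, smul_comm, hl b (B2.Ine_le _ hb), smul_zero]) hs ha
  have h6 := B2.conj_mem_Ine (fq_mem hq) (sq_ine hq h3)
  have h1 := h.2 _ (B2.Ine_le _ h6) _ (fq_mem hq)
  rw [inv_mul_cancel_right, h.2 _ (fq_mem hq) _ (sq_mem hq h3),
    act_ine hq h3 h6 (hl _ (fq_mem hq)), kk_ine hq h3 hn h6, un_zero, one_smul, add_comm,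
    add_left_inj, h5 _ h6, h5 _ (sq_ine hq h3), act_kT, pow_zero, one_mul] at h1
  rw [h5 _ (sq_ine hq h3), e2a_conj h4 hq h2 (kT_inj h1).symm, map_zero]

end Pool.Agent.Lib.MP_696deb_nt.CU
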