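import Pool.Agent.Lib.MP_696deb_nt.CU.E2
import Pool.Agent.Lib.MP_23455a_nt.H3.CH
import Pool.Agent.Lib.MP_23455a_nt.H3.GWd

/-! Reciprocity. -/

set_option autoImplicit false

open scoped Classical

namespace Pool.Agent.Lib.MP_696deb_nt.CU

variable {n e l p q : ℕ} {g : Gam} {c : Gam → A} {u k : Gam → F3}

/-- The invariant of a global cocycle depends only on the prime. -/
theorem inv_plc {x : Gam → Gam → F3} (hx : C2 1 ⊤ x) (w : Plc) : FF.inv 1 ⊤ w x = inv w.p x := by
  obtain ⟨g, hg⟩ := B2.plc_conj (w := pl w.p) (v := w) (pl_p w.prime)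
  have h := H3.CFT.inv_smul FF (m := 1) (H := ⊤) isOpen_univ hx (Subgroup.mem_top g) (pl w.p)
  rw [hg] at h
  exact h

theorem recip {x : Gam → Gam → F3} (hx : C2 1 ⊤ x) (S : Finset ℕ) (hS : ∀ q ∈ S, q.Prime)
    (h : ∀ q : ℕ, q.Prime → q ∉ S → inv q x = 0) : ∑ q ∈ S, inv q x = 0 := by
  have e := FF.recip (m := 1) (H := ⊤) (c := x) (S.image pl) isOpen_univ hx
    (fun v hv v' hv' g _ e => by
      obtain ⟨a, ha, rfl⟩ := Finset.mem_image.1 hv
      obtain ⟨b, hb, rfl⟩ := Finset.mem_image.1 hv'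
      have e' := congrArg (·.p) e
      beta_reduce at e'
      rw [B2.smul_p, pl_p (hS a ha), pl_p (hS b hb)] at e'
      rw [e'])
    fun w hw => (inv_plc hx w).trans (h _ w.prime fun m => by
      obtain ⟨g, hg⟩ := B2.plc_conj (w := pl w.p) (v := w) (pl_p w.prime)
      exact hw _ (Finset.mem_image_of_mem _ m) g trivial hg)
  rw [Finset.sum_image fun a ha b hb e => by rw [← pl_p (hS a ha), e, pl_p (hS b hb)]] at e
  exact e

theorem recip_lp (hu : Kc 0 ⊤ u) (hk : Kc 1 ⊤ k) (S : Finset ℕ) (hS : ∀ q ∈ S, q.Prime)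
    (h3 : 3 ∈ S) (h : ∀ q : ℕ, q.Prime → q ∉ S → u (sq q) = 0 ∧ k (sq q) = 0) :
    ∑ q ∈ S, lp q u k = 0 :=
  recip (c2_lp hu hk) S hS fun q hq m => (lp_unr hq (fun e => m (e ▸ h3)) (hu.mono le_top)
    (hk.mono le_top) (h q hq m).1).trans (by rw [(h q hq m).2, mul_zero])

/-- A smooth function that vanishes at the identity vanishes at almost all inertia groups. -/
theorem finite_sq {α : Type} {f : Gam → α} (hf : Sm ⊤ f) :
    {q : ℕ | q.Prime ∧ q ≠ 3 ∧ f (sq q) ≠ f 1}.Finite := by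
  obtain ⟨U, h1, -, h3⟩ := hf
  obtain ⟨s, hs⟩ := B2.finite_ram h1
  refine s.finite_toSet.subset fun q hq => by_contra fun m => hq.2.2 ?_
  refine (h3 1 trivial _ trivial ?_).symm
  rw [inv_one, one_mul]
  exact hs (pl q) (by rwa [pl_p hq.1]) (sq_ine hq.1 hq.2.1)

/-- A character that vanishes at almost all Frobenius elements is trivial. -/
theorem hom_eq_zero (hu : Kc 0 ⊤ u) (B : Finset ℕ)
    (h : ∀ q : ℕ, q.Prime → q ∉ B → u (fq q) = 0) (g : Gam) : u g = 0 := by
  have hm : ∀ a b, u (a * b) = u a + u b := fun a b => by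
    simpa using hu.2 a trivial b trivial
  let f : Gam →* Multiplicative F3 := MonoidHom.mk' (fun a => .ofAdd (u a)) fun a b =>
    congrArg Multiplicative.ofAdd (hm a b)
  have hk : ∀ a, a ∈ f.ker ↔ u a = 0 := fun _ => Iff.rfl
  have hp : ∀ (a : Gam) (m : ℕ), u (a ^ m) = m * u a := fun a m => by
    rw [← nsmul_eq_mul]
    exact congrArg Multiplicative.toAdd (map_pow f a m)
  have ho : Op f.ker := by
    obtain ⟨U, h1, -, h3⟩ := hu.1
    exact Subgroup.isOpen_mono (fun a ha => (hk a).2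
      ((h3 1 trivial a trivial (by rwa [inv_one, one_mul])).symm.trans hu.one)) h1
  obtain ⟨w, φ, a, h1, h2, h3, h4⟩ := H3.cheb f.ker g 1
    (insert 3 (B ∪ (finite_sq hu.1).toFinset)) ho inferInstance
    ((hk _).2 (by rw [hp]; generalize u g = t; revert t; decide))
  simp only [Finset.mem_insert, Finset.mem_union, Set.Finite.mem_toFinset, Set.mem_ofPred_eq,
    not_or, not_and, not_not] at h1
  obtain ⟨t, ht⟩ := B2.plc_conj (w := w) (v := pl w.p) (pl_p w.prime).symm
  have h5 := h2.smul t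
  rw [ht] at h5
  have h6 : (fq w.p)⁻¹ * (t * φ * t⁻¹) ∈ f.ker := (hk _).2 (by
    rw [(hu.mono le_top).ine w.prime h1.1 ((fq_frob w.prime).inv_mul_mem h5),
      h1.2.2 w.prime h1.1, hu.one, mul_zero])
  have h7 : φ ∈ f.ker := by
    have := mul_mem ((hk _).2 (h _ w.prime h1.2.1)) h6
    rw [mul_inv_cancel_left] at this
    simpa [mul_assoc] using (MonoidHom.normal_ker f).conj_mem _ this t⁻¹
  have h8 := mul_mem h7 h4
  rw [mul_inv_cancel_left, hk, hp] at h8
  refine (mul_eq_zero.1 h8).resolve_left fun e => ?_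
  exact absurd (h3.coprime_dvd_right (by norm_num : 3 ∣ 6)).symm
    (by rw [Nat.prime_three.coprime_iff_not_dvd, not_not]; exact (ZMod.natCast_eq_zero_iff a 3).1 e)

end Pool.Agent.Lib.MP_696deb_nt.CU
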