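import Pool.Agent.Lib.MP_696deb_nt.CU.E1

/-! A local point of infinite order. -/

set_option autoImplicit false

open scoped Classical NNReal

namespace Pool.Agent.Lib.MP_696deb_nt.CU

variable {n q : ℕ} {P Q : A} {u k : Gam → F3}

theorem e6n_om (i : ℕ) (h : P ≠ 0) :
    om ^ i • P ≠ 0 ∧ xco (om ^ i • P) = (zeta 1 ^ 2) ^ i * xco P ∧ yco (om ^ i • P) = yco P := by
  induction i with
  | zero => simpa using h
  | succ i ih =>
    obtain ⟨a, b, c⟩ := ih
    rw [pow_succ', mul_smul, om_smul, pow_succ' (zeta 1 ^ 2), mul_assoc, ← b, ← c]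
    generalize om ^ i • P = R at a
    rcases R with _ | ⟨x, y, hR⟩
    · exact absurd rfl a
    · exact ⟨fun e => (by cases e), rfl, rfl⟩

theorem e6n_r (g : Gam) : g (1 + 2 * zeta 1) = ep g * (1 + 2 * zeta 1) := by
  have h := H3.b1b_spec 1 g
  rw [map_add, map_mul, map_one, map_ofNat, h, ep]
  rcases chi_cases g with e | e
  · have e' : cy 1 g = 1 := e
    have h4 : ((1 : ZMod (3 ^ 1))).val = 1 := by decide
    rw [if_pos e, e', h4]
    simp
  · have e' : cy 1 g = -1 := e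
    have h4 : ((-1 : ZMod (3 ^ 1))).val = 2 := by decide
    rw [if_neg (by rw [e]; decide), e', h4]
    push_cast
    linear_combination 2 * H3.zeta_one

theorem e6n_fix {g : Gam} (h : P ≠ 0) (hx : (zeta 1 ^ 2) ^ (kk n g).val * g (xco P) = xco P)
    (hy : g (2 * yco P + 1) = ep g * (2 * yco P + 1)) : act n 0 g P = P := by
  have h1 : g • P ≠ 0 := fun e => h (by simpa using congrArg (g⁻¹ • ·) e)
  obtain ⟨a, b, c⟩ := e6n_om (kk n g).val h1
  rw [H3.xco_smul, hx] at b
  rw [H3.yco_smul] at c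
  rw [map_add, map_mul, map_one, map_ofNat, ← c] at hy
  rw [act_apply, un, zero_add, pow_one]
  generalize om ^ (kk n g).val • g • P = R at a b hy
  unfold ep at hy ⊢
  split_ifs at hy ⊢
  · rw [one_smul]
    push_cast at hy
    exact H3.rd_ext a h b (by linear_combination hy / 2)
  · rw [neg_one_zsmul]
    push_cast at hy
    exact H3.rd_ext (neg_ne_zero.2 a) h (by rw [xco_neg, b])
      (by rw [H3.rd_neg a]; linear_combination -hy / 2)

theorem e6n_root (w : Plc) {c : Qbar} (hc : w.V c < 1) :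
    ∃ t : Qbar, t ^ 2 + t = c ∧ ∀ g ∈ Dec w, g c = c → g t = t := by
  obtain ⟨s, hs⟩ := IsAlgClosed.exists_pow_nat_eq (1 + 4 * c) two_pos
  obtain ⟨t, ht, hv⟩ : ∃ t : Qbar, t ^ 2 + t = c ∧ w.V t < 1 := by
    have e : (s - 1) / 2 * -((-s - 1) / 2) = c := by linear_combination hs / 4
    rcases H3.rd_or (w := w) (e ▸ hc) with k | k
    · exact ⟨(s - 1) / 2, by linear_combination hs / 4, k⟩
    · exact ⟨(-s - 1) / 2, by linear_combination hs / 4, by rwa [Valuation.map_neg] at k⟩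
  refine ⟨t, ht, fun g hg e => ?_⟩
  have h1 : (g t - t) * (1 + (g t + t)) = 0 := by
    have := congrArg g ht
    rw [map_add, map_pow, e] at this
    linear_combination this - ht
  refine sub_eq_zero.1 ((mul_eq_zero.1 h1).resolve_right fun k => ?_)
  have h2 : w.V (1 + (g t + t)) = 1 := w.V.map_one_add_of_lt
    (w.V.map_add_lt (by rwa [B2.mem_Dec.1 hg]) hv)
  rw [k, map_zero] at h2
  exact zero_ne_one h2

theorem e6n_odd {w : Plc} (hw : w.p = 2) : w.V 2 = 2⁻¹ ∧ w.V 3 = 1 := by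
  refine ⟨?_, H3.rd_three (by rw [hw]; decide)⟩
  have := w.hV
  rw [hw] at this
  exact_mod_cast this

theorem e6n_dbl {w : Plc} (hw : w.p = 2) (h : P ≠ 0) (hx : 2 ≤ w.V (xco P)) :
    P + P ≠ 0 ∧ w.V (xco (P + P)) = 4 * w.V (xco P) := by
  obtain ⟨v2, v3⟩ := e6n_odd hw
  have e := H3.rd_eqn h
  have v27 : w.V 27 = 1 := by rw [show (27 : Qbar) = 3 ^ 3 by norm_num, map_pow, v3, one_pow]
  have v4 : w.V (4 * xco P ^ 3) = w.V (xco P) ^ 3 / 4 := by
    rw [show (4 : Qbar) = 2 ^ 2 by norm_num, map_mul, map_pow, map_pow, v2]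
    field_simp
    norm_num
  have p3 : (2 : ℝ≥0) ^ 3 ≤ w.V (xco P) ^ 3 := pow_le_pow_left₀ (by positivity) hx 3
  have l1 : w.V 27 < w.V (4 * xco P ^ 3) := by
    rw [v27, v4, lt_div_iff₀ (by norm_num)]
    exact lt_of_lt_of_le (by norm_num) p3
  have v5 := w.V.map_sub_eq_of_lt_left l1
  have x0 : w.V (xco P) ≠ 0 := (lt_of_lt_of_le two_pos hx).ne'
  have h2 : P + P ≠ 0 := fun k => by
    have k1 : yco P = -yco P - 1 := by rw [← H3.rd_neg h, ← eq_neg_of_add_eq_zero_left k]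
    have k2 : 4 * xco P ^ 3 - 27 = 0 := by
      linear_combination -4 * e + (2 * yco P + 1) * k1
    rw [k2, map_zero] at v5
    exact (zero_le.trans_lt l1).ne v5
  obtain ⟨l, ν, a, -, -, b, c⟩ := H3.rd_line h h h2
  have d : l * (2 * yco P + 1) = 3 * xco P ^ 2 := by
    linear_combination c - 2 * xco P * b + 2 * l * a
  have f : xco (P + P) * (4 * xco P ^ 3 - 27) = xco P * (xco P ^ 3 + 2 * 27) := by
    linear_combination (4 * xco P ^ 3 - 27) * b - 4 * l ^ 2 * e +
      (l * (2 * yco P + 1) + 3 * xco P ^ 2) * d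
  have l2 : w.V (2 * 27) < w.V (xco P ^ 3) := by
    rw [map_mul, v27, v2, map_pow]
    exact lt_of_lt_of_le (by norm_num [← NNReal.coe_lt_coe]) p3
  have f' := congrArg w.V f
  rw [map_mul, map_mul, v5, v4, w.V.map_add_eq_of_lt_left l2, map_pow] at f'
  refine ⟨h2, ?_⟩
  field_simp at f'
  rw [f', mul_comm]

theorem e6n_inf {w : Plc} (hw : w.p = 2) (h : P ≠ 0) (hx : 2 ≤ w.V (xco P)) (j : ℤ)
    (hj : j • P = 0) : j = 0 := by
  by_contra j0
  have key : ∀ i : ℕ, 2 ^ i • P ≠ 0 ∧ w.V (xco (2 ^ i • P)) = 4 ^ i * w.V (xco P) := fun i => by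
    induction i with
    | zero => simpa using h
    | succ i ih =>
      obtain ⟨a, b⟩ := e6n_dbl hw ih.1 (by
        rw [ih.2]
        exact hx.trans (le_mul_of_one_le_left zero_le (one_le_pow₀ (by norm_num))))
      rw [pow_succ', mul_smul, two_smul, b, ih.2, pow_succ', mul_assoc]
      exact ⟨a, rfl⟩
  have fin := (isOfFinAddOrder_iff_zsmul_eq_zero.2 ⟨j, j0, hj⟩).finite_multiples
  refine Set.infinite_of_injective_forall_mem (f := fun i : ℕ => 2 ^ i • P) (fun i i' e => ?_)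
    (fun i => (AddSubmonoid.mem_multiples_iff _ _).2 ⟨2 ^ i, rfl⟩) fin
  have e1 := (key i).2
  rw [show 2 ^ i • P = 2 ^ i' • P from e, (key i').2,
    mul_left_inj' (lt_of_lt_of_le two_pos hx).ne'] at e1
  exact (pow_right_injective₀ (by norm_num) (by norm_num) e1).symm

/-- A local point of infinite order. -/
theorem exists_nt (hn : n ≠ 0) (hq : q.Prime) :
    ∃ R : A, (∀ g ∈ Gq q, act n 0 g R = R) ∧ ∀ j : ℤ, j • R = 0 → j = 0 := by
  have n0 : (n : Qbar) ≠ 0 := Nat.cast_ne_zero.2 hn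
  have q0 : (q : Qbar) ≠ 0 := Nat.cast_ne_zero.2 hq.ne_zero
  have hc : (pl q).V (q * ((4 * n ^ 2 * q ^ 5 : ℤ) : Qbar)) < 1 := by
    have h1 := (pl q).hV
    rw [pl_p hq] at h1
    rw [map_mul, h1]
    exact mul_lt_one_of_nonneg_of_lt_one_left zero_le
      (inv_lt_one_of_one_lt₀ (by exact_mod_cast hq.one_lt)) ((pl q).V_int_le _)
  obtain ⟨t, ht, hg⟩ := e6n_root _ hc
  have z := H3.zeta_one
  have r3 := rho_cube n
  have eqn : (((1 + 2 * zeta 1) * (3 * (1 + 2 * t) / (4 * n * q ^ 3)) - 1) / 2) ^ 2 +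
      ((1 + 2 * zeta 1) * (3 * (1 + 2 * t) / (4 * n * q ^ 3)) - 1) / 2 =
      (-3 / (4 * n * q ^ 2) * rho n) ^ 3 - 7 := by
    push_cast at ht
    rw [mul_pow, r3]
    field_simp
    linear_combination 144 * (1 + 2 * t) ^ 2 * z - 432 * ht
  refine ⟨MP_23455a_nt.mkP _ _ eqn, fun g k => e6n_fix (fun e => by cases e) ?_ ?_,
    e6n_inf (pl_p Nat.prime_two) (fun e => by cases e) ?_⟩
  · rw [xco_some]
    simp only [map_mul, map_div₀, map_neg, map_ofNat, map_natCast, map_pow, kk_spec]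
    rw [mul_left_comm, mul_left_comm (_ ^ _), ← mul_pow, ← pow_succ, H3.TA.zeta_cube, one_pow,
      mul_one]
  · have h1 := hg g k (by rw [map_mul, map_natCast, map_intCast])
    rw [yco_some, mul_div_cancel₀ _ two_ne_zero, sub_add_cancel, map_mul, e6n_r, mul_assoc]
    simp only [map_mul, map_div₀, map_add, map_one, map_ofNat, map_natCast, map_pow, h1]
  · rw [xco_some]
    obtain ⟨v2, v3⟩ := e6n_odd (pl_p Nat.prime_two)
    generalize pl 2 = w at v2 v3
    have r0 := rho_ne hn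
    have e : -3 / (4 * n * q ^ 2) * rho n * (2 * (rho n * q)) ^ 2 = -3 := by
      rw [← r3]
      field_simp
      norm_num
    have h1 : w.V (rho n) ≤ 1 := (pow_le_one_iff (n := 3) three_ne_zero).1 (by
      rw [← map_pow, r3]
      simpa using w.V_int_le n)
    have h2 : w.V (rho n * q) ≤ 1 := by
      rw [map_mul]
      exact mul_le_one' h1 (by simpa using w.V_int_le q)
    have e' := congrArg w.V e
    rw [map_mul, map_pow, map_mul w.V 2, v2, Valuation.map_neg, v3] at e'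
    generalize w.V (-3 / (4 * n * q ^ 2) * rho n) = a, w.V (rho n * q) = b at e' h2
    rw [← NNReal.coe_le_coe] at h2 ⊢
    have e2 := congrArg NNReal.toReal e'
    push_cast at e2 h2 ⊢
    have := a.2
    have := b.2
    nlinarith [mul_nonneg a.2 (sub_nonneg.2 (pow_le_one₀ b.2 h2 (n := 2)))]

end Pool.Agent.Lib.MP_696deb_nt.CU
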