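import Pool.Agent.Lib.MP_696deb_nt.CU.E1

/-! Extension of lifts to the whole group. -/

set_option autoImplicit false

open scoped Classical

namespace Pool.Agent.Lib.MP_696deb_nt.CU

variable {n e l : ℕ} {c : Gam → A}

/-- A cochain on the whole group that lifts `c` and is a cocycle in the direction of the
subgroup. -/
theorem e7b_cochain (hc : Coc ⊤ (act n e) c) {c' : Gam → A} (h : Coc (GK 3) (act n (e + 1)) c')
    (k : ∀ g ∈ GK 3, th • c' g = c g) {t : Gam} (t3 : t ∉ GK 3) :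
    ∃ f : Gam → A, (∀ x ∈ GK 3, f x = c' x) ∧ (∀ g, th • f g = c g) ∧
      ∀ x, ∀ u ∈ GK 3, f (x * u) = f x + act n (e + 1) x (f u) := by
  obtain ⟨y, hy⟩ := exists_root 1 (c t)
  rw [pow_one] at hy
  obtain ⟨f, f1, f2⟩ : ∃ f : Gam → A, (∀ x ∈ GK 3, f x = c' x) ∧
      ∀ x ∉ GK 3, f x = y + act n (e + 1) t (c' (t⁻¹ * x)) :=
    ⟨fun x => if x ∈ GK 3 then c' x else y + act n (e + 1) t (c' (t⁻¹ * x)),
      fun _ q => if_pos q, fun _ q => if_neg q⟩
  have m1 : ∀ x ∉ GK 3, t⁻¹ * x ∈ GK 3 := fun x q => B2.mul_mem_GK (mt inv_mem_iff.1 t3) q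
  refine ⟨f, f1, fun g => ?_, fun x u hu => ?_⟩
  · by_cases q : g ∈ GK 3
    · rw [f1 g q, k g q]
    · rw [f2 g q, smul_add, hy, ← act_th', k _ (m1 g q), ← hc.2 t trivial _ trivial,
        mul_inv_cancel_left]
  · by_cases q : x ∈ GK 3
    · rw [f1 _ (mul_mem q hu), f1 x q, f1 u hu, h.2 x q u hu]
    · rw [f2 _ fun r => q ((mul_mem_cancel_right hu).1 r), f2 x q, f1 u hu, ← mul_assoc,
        h.2 _ (m1 x q) u hu, map_add, ← act_mul, mul_inv_cancel_left, add_assoc]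

theorem ext_Q (hc : Coc ⊤ (act n e) c) {c' : Gam → A} (h : Coc (GK 3) (act n (e + 1)) c')
    (k : ∀ g ∈ GK 3, th • c' g = c g) :
    ∃ c'', Coc ⊤ (act n (e + 1)) c'' ∧ ∀ g, th • c'' g = c g := by
  obtain ⟨t, t3⟩ : ∃ t, t ∉ GK 3 := ⟨cc, B2.cc_notMem three_pos⟩
  obtain ⟨f, f1, f0, f3⟩ := e7b_cochain hc h k t3
  have cj : ∀ u ∈ GK 3, t⁻¹ * u * t ∈ GK 3 := fun u hu => (B2.normal_GK 3).conj_mem' u hu t
  have d3 : ∀ g, 3 • (f (g * t) - f g - act n (e + 1) g (f t)) = 0 := fun g => by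
    have := three_pow_smul (k := 1) (P := f (g * t) - f g - act n (e + 1) g (f t)) (by
      rw [pow_one, smul_sub, smul_sub, ← act_th', f0, f0, f0, hc.2 g trivial t trivial,
        add_sub_cancel_left, sub_self])
    rwa [pow_one] at this
  have co : ∀ g x, 2 • f (g * x) - f (g * x * t) + act n (e + 1) (g * x) (f t) =
      2 • f g - f (g * t) + act n (e + 1) g (f t) +
        act n (e + 1) g (2 • f x - f (x * t) + act n (e + 1) x (f t)) := fun g x => by
    by_cases q : x ∈ GK 3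
    · have e1 := f3 (g * t) _ (cj x q)
      have e2 := f3 t _ (cj x q)
      rw [show g * t * (t⁻¹ * x * t) = g * x * t by group] at e1
      rw [show t * (t⁻¹ * x * t) = x * t by group] at e2
      rw [e1, e2, f3 g x q]
      simp only [act_mul, map_add, map_sub, map_nsmul]
      abel
    · have m1 : t⁻¹ * x ∈ GK 3 := B2.mul_mem_GK (mt inv_mem_iff.1 t3) q
      have e1 := f3 (g * t) _ m1
      have e2 := f3 t _ m1
      have e3 := f3 g _ (B2.mul_mem_GK q t3)
      rw [show g * t * (t⁻¹ * x) = g * x by group] at e1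
      rw [mul_inv_cancel_left] at e2
      rw [← mul_assoc] at e3
      rw [e3, e1, e2]
      simp only [act_mul, map_add, map_sub, map_nsmul]
      linear_combination (norm := abel1) d3 g
  obtain ⟨U, u1, u2, u3⟩ := h.1
  obtain ⟨V, v1, -, v3⟩ := sm_act n (e + 1) ⊤ (f t)
  have u4 : ∀ u ∈ GK 3, u ∈ U → f u = 0 := fun u hu q => by
    rw [f1 u hu, ← u3 1 (one_mem _) u hu (by simpa using q), coc_one h]
  refine ⟨fun g => 2 • f g - f (g * t) + act n (e + 1) g (f t),
    ⟨B2.Sm.of_open (U ⊓ V ⊓ GK 3) ((u1.inf v1).inf (B2.op_GK 3)) fun g _ u hu => ?_,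
      fun g _ x _ => co g x⟩, fun g => ?_⟩
  · have e2 := f3 t _ (cj u hu.2.2)
    have e3 := v3 1 trivial u trivial (by simpa using hu.2.1.2)
    rw [show t * (t⁻¹ * u * t) = u * t by group,
      u4 _ (cj u hu.2.2) (u2.conj_mem' u hu.2.1.1 t), map_zero, add_zero] at e2
    beta_reduce at e3 ⊢
    rw [co, u4 u hu.2.2 hu.2.1.1, e2, ← e3, act_one, nsmul_zero, zero_sub, neg_add_cancel, map_zero,
      add_zero]
  · beta_reduce
    rw [smul_add, smul_sub, smul_comm, ← act_th', f0, f0, f0, hc.2 g trivial t trivial]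
    abel

end Pool.Agent.Lib.MP_696deb_nt.CU
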