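import Pool.Agent.Lib.MP_696deb_nt.CU.E8
import Pool.Agent.Lib.MP_696deb_nt.CU.E4

/-! The pairing is skew symmetric. -/

set_option autoImplicit false

open scoped Classical

namespace Pool.Agent.Lib.MP_696deb_nt.CU

variable {n : ℕ} {k k' : Gam → F3}

section

variable {we : A → A → F3} {q : ℕ} {a b : Gam → A} {u : Gam → F3} {D : Subgroup Gam} {x y y' : A}

theorem e9_act (e : ℕ) (g : Gam) (h : 3 • x = 0) : 3 • act n e g x = 0 := by
  rw [← map_nsmul, h, map_zero]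

theorem e9_kT (t : F3) : 3 • kT t = 0 := by
  simpa using three_pow_smul (k := 1) (P := kT t) (by rw [pow_one, th_kT])

theorem e9_add (h : 3 • x = 0) (h' : 3 • y = 0) : 3 • (x + y) = 0 := by
  rw [smul_add, h, h', add_zero]

theorem e9_right (W : IsWe we) (hx : 3 • x = 0) (hy : 3 • y = 0) (hy' : 3 • y' = 0) :
    we x (y + y') = we x y + we x y' := by
  rw [W.skew _ _ (e9_add hy hy') hx, W.add_left _ _ _ hy hy' hx, W.skew _ _ hy hx,
    W.skew _ _ hy' hx, neg_add]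

theorem e9_sm (hb : Sm ⊤ b) : Sm2 ⊤ fun g h => act n 0 g (b h) := by
  have := hb.finite_range.to_subtype
  have h1 := (B2.Sm.pi fun s : b '' ((⊤ : Subgroup Gam) : Set Gam) => sm_act n 0 ⊤ s.1).left.comp₂
    hb.right fun f y => if hy : y ∈ b '' ((⊤ : Subgroup Gam) : Set Gam) then f ⟨y, hy⟩ else 0
  have e : ∀ h, b h ∈ b '' ((⊤ : Subgroup Gam) : Set Gam) := fun h => ⟨h, trivial, rfl⟩
  simpa only [dif_pos (e _)] using h1

theorem e9_c2 (W : IsWe we) (ha : Coc ⊤ (act n 0) a) (hb : Coc ⊤ (act n 0) b)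
    (ka : ∀ g, 3 • a g = 0) (kb : ∀ g, 3 • b g = 0) :
    C2 1 ⊤ fun g h => we (a g) (act n 0 g (b h)) := by
  refine ⟨ha.1.left.comp₂ (e9_sm hb.1) we, fun g hg h hh l hl => ?_⟩
  have e : chi g * we (a h) (act n 0 h (b l)) + we (a g) (act n 0 g (b (h * l))) =
      we (a (g * h)) (act n 0 (g * h) (b l)) + we (a g) (act n 0 g (b h)) := by
    rw [ha.2 g hg h hh, hb.2 h hh l hl, map_add, act_mul,
      e9_right W (ka g) (e9_act _ _ (kb h)) (e9_act _ _ (e9_act _ _ (kb l))),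
      W.add_left _ _ _ (ka g) (e9_act _ _ (ka h)) (e9_act _ _ (e9_act _ _ (kb l))),
      W.act n g _ _ (ka h) (e9_act _ _ (kb l))]
    ring
  exact e

theorem e9_flip (hu : Kc 0 D u) (hk : Kc 1 D k) : C2 1 D fun g h => (k g * u h : F3) := by
  refine ⟨hk.1.left.comp₂ hu.1.right (· * ·), fun g hg h hh l hl => ?_⟩
  have e : chi g * (k h * u l) + k g * u (h * l) = k (g * h) * u l + k g * u h := by
    rw [hk.2 g hg h hh, hu.2 h hh l hl]
    ring
  exact e

theorem e9_three (h : IsLift n (kC k) a) (hk : kC k ∈ Zs n 1 1) (g : Gam) : 3 • a g = 0 := by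
  simpa using (three_pow_iff 1 (a g)).2 (h.kil hk g)

theorem e9_ine (h : IsLift n (kC k) a) (hk : kC k ∈ Zs n 1 1) (hq : q.Prime) (hn : ¬ q ∣ 3 * n)
    (g : Gam) {s : Gam} (hs : s ∈ Iq q) : a (g * s) = a g := by
  rw [h.coc.2 g trivial s trivial, det_ine hq (fun e => hn (e ▸ dvd_mul_right 3 n))
    (h.coc.lo_mono le_top) (fun g _ => h.kil hk g) (h.unr q hq hn) hs, map_zero, add_zero]

theorem e9_loc (W : IsWe we) (hn : n ≠ 0) (hq : q.Prime) (hd : q ∣ 3 * n)
    (hk : kC k ∈ Zs n 1 1) (hk' : kC k' ∈ Zs n 1 1) (ha : IsLift n (kC k) a)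
    (hb : IsLift n (kC k') b) :
    inv q (fun g h => we (a g) (act n 0 g (b h))) = Dq n q a k' + Dq n q b k := by
  have l := hk.loc q hq hd
  have l' := hk'.loc q hq hd
  obtain ⟨u, hu⟩ := exists_dc (c' := a) ((funext ha.th_smul : th • a = kC k).symm ▸ l)
  obtain ⟨u', hu'⟩ := exists_dc (c' := b) ((funext hb.th_smul : th • b = kC k').symm ▸ l')
  have ca := ha.coc.lo_mono (le_top : Gq q ≤ ⊤)
  have cb := hb.coc.lo_mono (le_top : Gq q ≤ ⊤)
  have ku := hu.kc ca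
  have ku' := hu'.kc cb
  have kk1 := (coc_kC.1 hk.coc).mono (le_top : Gq q ≤ ⊤)
  have kk2 := (coc_kC.1 hk'.coc).mono (le_top : Gq q ≤ ⊤)
  rw [dq_eq hn hq ca hu l', dq_eq hn hq cb hu' l]
  obtain ⟨P, hP⟩ := hu
  obtain ⟨Q, hQ⟩ := hu'
  have t : ∀ {c : Gam → A} {v : Gam → F3} {R : A}, (∀ g, 3 • c g = 0) →
      (∀ g ∈ Gq q, c g = cob (act n 0) R g + kT (v g)) → ∀ g ∈ Gq q, 3 • cob (act n 0) R g = 0 :=
    fun h1 h2 g hg => by
      have := h1 g
      rwa [h2 g hg, smul_add, e9_kT, add_zero] at this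
  have tP := t (e9_three ha hk) hP
  have tQ := t (e9_three hb hk') hQ
  have s := W.iso n q P Q hn hq tP tQ
  have f := e9_flip ku' kk1
  rw [inv_congr (y := ((fun g h => we (cob (act n 0) P g) (act n 0 g (cob (act n 0) Q h))) +
      fun g h => u g * chi g * k' h) + fun g h => -1 * (k g * u' h)) fun g hg h hh => ?_,
    inv_add (s.c2.add (c2_lp ku kk2)) (f.smul (-1)), inv_add s.c2 (c2_lp ku kk2),
    (inv_eq_zero s.c2).2 s, inv_smul f, inv_flip ku' kk1, zero_add, neg_one_mul, neg_neg]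
  · rfl
  have e1 : th • act n 0 g (b h) = kT (chi g * k' h) := by
    rw [← act_th, hb.th_smul, act_kT, zero_add, pow_one]
  have e2 : th • cob (act n 0) P g = kT (k g) := by
    have := ha.th_smul g
    rwa [hP g hg, smul_add, th_kT, add_zero] at this
  rw [Pi.add_apply, Pi.add_apply, Pi.add_apply, Pi.add_apply, hP g hg,
    W.add_left _ _ _ (tP g hg) (e9_kT _) (e9_act _ _ (e9_three hb hk' h)), W.kT _ _ _ e1, hQ h hh,
    map_add, act_kT, pow_zero, one_mul, e9_right W (tP g hg) (e9_act _ _ (tQ h hh)) (e9_kT _),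
    W.skew _ _ (e9_kT _) (tP g hg), W.kT _ _ _ e2]
  ring

end

theorem dd_alt (hn : n ≠ 0) (hk : kC k ∈ Zs n 1 1) (hk' : kC k' ∈ Zs n 1 1) :
    DD n (kC k) k' = -DD n (kC k') k := by
  obtain ⟨we, W⟩ := exists_we
  obtain ⟨a, ha⟩ := ext hk
  obtain ⟨b, hb⟩ := ext hk'
  have c := e9_c2 W ha.coc hb.coc (e9_three ha hk) (e9_three hb hk')
  have r := recip c (3 * n).primeFactors (fun q hq => Nat.prime_of_mem_primeFactors hq)
    fun q hq k => by
      have hd : ¬ q ∣ 3 * n := fun e => k (Nat.mem_primeFactors.2 ⟨hq, e, by omega⟩)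
      have h3 : q ≠ 3 := fun e => hd (e ▸ dvd_mul_right 3 n)
      refine inv_unr (c.mono le_top) fun g _ h _ s hs t ht => ?_
      rw [e9_ine ha hk hq hd g hs, e9_ine hb hk' hq hd h ht, act_mul,
        act_ine hq h3 hs (hb.kil hk' h), kk_ine hq h3 (fun e => hd (e.mul_left 3)) hs, un_zero,
        one_smul]
  rw [Finset.sum_congr rfl fun q hq => e9_loc W hn (Nat.prime_of_mem_primeFactors hq)
    (Nat.dvd_of_mem_primeFactors hq) hk hk' ha hb, Finset.sum_add_distrib] at r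
  rw [dd_eq hn hk ha hk', dd_eq hn hk' hb hk]
  exact eq_neg_of_add_eq_zero_left r

end Pool.Agent.Lib.MP_696deb_nt.CU
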