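import Pool.Agent.Lib.MP_696deb_nt.CU.SCb
import Pool.Agent.Lib.MP_696deb_nt.CU.SE

/-! Properties that only depend on the level one data, and the numbers of fibres and colours. -/

set_option autoImplicit false

open scoped Classical
open Finset

namespace Pool.Agent.Lib.MP_696deb_nt.CU

namespace Bx

variable {B : Bx} {x x' z : B.Pt} {a b : B.Pat} {S : Finset (Fin B.r)} {q : ℕ} {g : Gam}

theorem lv_small (e : B.lv x = B.lv z) (hq : q ∈ B.S0) (hg : g ∈ Gq q) (j : Fin B.r) :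
    kk (x j) g = kk (z j) g := by
  have k : H3.rs (Gq q) (kk (x j)) g = H3.rs (Gq q) (kk (z j)) g :=
    congrFun (congrFun (congrFun (congrArg Prod.fst e) j) ⟨q, hq⟩) g
  rwa [H3.rs_of_mem hg, H3.rs_of_mem hg] at k

theorem lv_fq (e : B.lv x = B.lv z) (i j : Fin B.r) :
    kk (x i) (fq (x j)) = kk (z i) (fq (z j)) := by
  exact congrArg (fun t : B.Lv => (t.2.2 i j).1) e

theorem fib_sf (e : B.lv x = B.lv z) (j : Fin B.r) (p : B.S0) :
    kk p (fq (x j)) = kk p (fq (z j)) := congrArg (fun t : B.Lv => t.2.1 j p) e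

theorem fib_uq (e : B.lv x = B.lv z) (i j : Fin B.r) :
    uq (x i) (fq (x j)) = uq (z i) (fq (z j)) := congrArg (fun t : B.Lv => (t.2.2 i j).2) e

theorem lv_kA_small (e : B.lv x = B.lv z) (hq : q ∈ B.S0) (hg : g ∈ Gq q) (a : B.Pat) :
    B.kA x a g = B.kA z a g := by
  rw [kA_apply, kA_apply]
  exact congrArg _ (sum_congr rfl fun j _ => by rw [lv_small e hq hg j])

theorem lv_kA_fq (e : B.lv x = B.lv z) (j : Fin B.r) (a : B.Pat) :
    B.kA x a (fq (x j)) = B.kA z a (fq (z j)) := by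
  rw [kA_apply, kA_apply]
  exact congrArg₂ _ (sum_congr rfl fun p _ => by rw [fib_sf e j p])
    (sum_congr rfl fun i _ => by rw [lv_fq e i j])

/-- At a common prime the Kummer cocycles of a pattern agree on the decomposition group. -/
theorem lv_kA (h : B.Wf) (hx : x ∈ B.pts) (hz : z ∈ B.pts) (e : B.lv x = B.lv z) (hq : q.Prime)
    (k : q ∣ 3 * B.nn x) (k' : q ∣ 3 * B.nn z) (hg : g ∈ Gq q) (a : B.Pat) :
    B.kA x a g = B.kA z a g := by
  by_cases h0 : q ∈ B.S0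
  · exact lv_kA_small e h0 hg a
  obtain ⟨i, hi⟩ := ((h.dvd_iff hx hq).1 k).resolve_left h0
  obtain ⟨j, hj⟩ := ((h.dvd_iff hz hq).1 k').resolve_left h0
  obtain rfl : i = j := h.disj i j q (hi ▸ mem_pts.1 hx i) (hj ▸ mem_pts.1 hz j)
  refine sub_eq_zero.1 ((((kc_kA h hx a).sub (kc_kA h hz a)).mono le_top).det hq
    (hi ▸ h.ne_three hx i) ?_ ?_ hg)
  · have h1 := kA_sq h hx a i
    have h2 := kA_sq h hz a i
    rw [hi] at h1
    rw [hj] at h2
    rw [Pi.sub_apply, h1, h2, sub_self]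
  · have h1 := lv_kA_fq e i a
    rw [hi, hj] at h1
    rw [Pi.sub_apply, h1, sub_self]

theorem lv_kk (h : B.Wf) (hx : x ∈ B.pts) (hz : z ∈ B.pts) (e : B.lv x = B.lv z) (hq : q.Prime)
    (k : q ∣ 3 * B.nn x) (k' : q ∣ 3 * B.nn z) (hg : g ∈ Gq q) :
    kk (B.nn x) g = kk (B.nn z) g := by
  have h1 := lv_kA h hx hz e hq k k' hg B.tau
  rwa [kA_tau h hx, kA_tau h hz] at h1

theorem fib_nn_fq (h : B.Wf) (hx : x ∈ B.pts) (hz : z ∈ B.pts) (e : B.lv x = B.lv z)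
    (j : Fin B.r) : kk (B.nn x) (fq (x j)) = kk (B.nn z) (fq (z j)) := by
  have h1 := lv_kA_fq e j B.tau
  rwa [kA_tau h hx, kA_tau h hz] at h1

theorem fib_V_le (h : B.Wf) (hx : x ∈ B.pts) (hz : z ∈ B.pts) (e : B.lv x = B.lv z) :
    B.V x ≤ B.V z := by
  intro a ha
  obtain ⟨h1, h2⟩ := (mem_V_iff h hx).1 ha
  refine (mem_V_iff h hz).2 ⟨fun q hq => (h1 q hq).congr (fun g hg => ?_) fun g hg => ?_,
    fun j hj => ?_⟩
  · have h3 := lv_kA_small e hq hg B.tau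
    rwa [kA_tau h hx, kA_tau h hz] at h3
  · exact congrArg kT (lv_kA_small e hq hg a)
  · rw [← lv_kA_fq e j a, ← fib_nn_fq h hx hz e j, h2 j hj]

theorem fib_ww (h : B.Wf) (hx : x ∈ B.pts) (hz : z ∈ B.pts) (e : B.lv x = B.lv z)
    {w : Gam → F3} (hw : w ∈ WW B.N0) (j : Fin B.r) : w (fq (x j)) = w (fq (z j)) := by
  rw [ww_frob h.n0 hw (h.prime j _ (mem_pts.1 hx j)) (h.cop j _ (mem_pts.1 hx j)),
    ww_frob h.n0 hw (h.prime j _ (mem_pts.1 hz j)) (h.cop j _ (mem_pts.1 hz j))]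
  exact congrArg _ (sum_congr rfl fun q hq =>
    lp_congr (fun _ _ => rfl) fun g hg => lv_small e hq hg j)

theorem lv_V (h : B.Wf) (hx : x ∈ B.pts) (hz : z ∈ B.pts) (e : B.lv x = B.lv z) :
    B.V x = B.V z := by
  exact le_antisymm (fib_V_le h hx hz e) (fib_V_le h hz hx e.symm)

theorem lv_VF (h : B.Wf) (hx : x ∈ B.pts) (hz : z ∈ B.pts) (e : B.lv x = B.lv z) :
    B.VF x = B.VF z := by
  ext a
  rw [mem_VF, mem_VF, lv_V h hx hz e]

theorem lv_G0 (h : B.Wf) (hx : x ∈ B.pts) (hz : z ∈ B.pts) (e : B.lv x = B.lv z) (k : B.G0 z) :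
    B.G0 x := by
  intro a ha
  exact k a (lv_V h hx hz e ▸ ha)

theorem lv_G1 (h : B.Wf) (hx : x ∈ B.pts) (hz : z ∈ B.pts) (e : B.lv x = B.lv z) (k : B.G1 z) :
    B.G1 x := by
  intro v hv w hw hn
  refine k v hv w hw fun j => ?_
  rw [← fib_nn_fq h hx hz e j, ← hn j, fib_ww h hx hz e hw j]
  exact congrArg (· + w (fq (z j))) (sum_congr rfl fun i _ => by rw [fib_uq e i j])

theorem key_lv (e : B.key x = B.key z) : B.lv x = B.lv z := congrArg Prod.fst e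

theorem key_iff (h : B.Wf) (hx : x ∈ B.pts) (hz : z ∈ B.pts) : B.key x = B.key z ↔
    B.lv x = B.lv z ∧ ∀ a ∈ B.V z, ∀ b ∈ B.V z, B.CT x a b = B.CT z a b := by
  refine ⟨fun e => ⟨key_lv e, fun a ha b hb => ?_⟩, fun ⟨e, k⟩ => Prod.ext e ?_⟩
  · have h1 : (if a ∈ B.V x ∧ b ∈ B.V x then B.CT x a b else 0) =
        if a ∈ B.V z ∧ b ∈ B.V z then B.CT z a b else 0 :=
      congrFun (congrFun (congrArg Prod.snd e) a) b
    rwa [lv_V h hx hz (key_lv e), if_pos ⟨ha, hb⟩, if_pos ⟨ha, hb⟩] at h1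
  · funext a b
    show (if a ∈ B.V x ∧ b ∈ B.V x then B.CT x a b else 0) =
      if a ∈ B.V z ∧ b ∈ B.V z then B.CT z a b else 0
    rw [lv_V h hx hz e]
    split_ifs with h1
    exacts [k a h1.1 b h1.2, rfl]

theorem key_Rad (h : B.Wf) (hx : x ∈ B.pts) (hz : z ∈ B.pts) (e : B.key x = B.key z) :
    B.Rad x = B.Rad z := by
  obtain ⟨e1, k⟩ := (key_iff h hx hz).1 e
  ext a
  show (a ∈ B.V x ∧ ∀ b ∈ B.V x, B.CT x a b = 0) ↔ a ∈ B.V z ∧ ∀ b ∈ B.V z, B.CT z a b = 0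
  rw [lv_V h hx hz e1]
  exact and_congr_right fun ha => forall₂_congr fun b hb => by rw [k a ha b hb]

theorem key_Good (h : B.Wf) (hx : x ∈ B.pts) (hz : z ∈ B.pts) (e : B.key x = B.key z)
    (k : B.Good z) : B.Good x := by
  refine ⟨lv_G0 h hx hz (key_lv e) k.g0, lv_G1 h hx hz (key_lv e) k.g1, fun a ha => ?_⟩
  exact k.bal a (key_Rad h hx hz e ▸ ha)

end Bx

end Pool.Agent.Lib.MP_696deb_nt.CU
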