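import Pool.Agent.Lib.MP_696deb_nt.CU.Fib

/-! The numbers of fibres and colours. -/

set_option autoImplicit false

open scoped Classical
open Finset

namespace Pool.Agent.Lib.MP_696deb_nt.CU

theorem fibB_card {α β γ : Type} [DecidableEq β] [DecidableEq γ] (s : Finset α) (f : α → β)
    (k : α → γ) (h : ∀ x ∈ s, ∀ y ∈ s, k x = k y → f x = f y) :
    (s.image f).card ≤ (s.image k).card := by
  rcases s.eq_empty_or_nonempty with rfl | ⟨x0, -⟩
  · simp
  have : Nonempty α := ⟨x0⟩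
  refine le_trans (card_le_card fun t ht => ?_)
    (card_image_le (f := fun t => f (Function.invFunOn k s t)))
  obtain ⟨x, hx, rfl⟩ := mem_image.1 ht
  have e : ∃ y ∈ (s : Set α), k y = k x := ⟨x, hx, rfl⟩
  exact mem_image.2 ⟨k x, mem_image_of_mem k hx,
    h _ (Function.invFunOn_mem e) x hx (Function.invFunOn_eq e)⟩

/-- The local Kummer cocycles at a prime. -/
def fibBR (q : ℕ) : Set (Gam → F3) := {u | Kc 1 (Gq q) u ∧ ∀ g ∉ Gq q, u g = 0}

theorem fibB_fin {q : ℕ} (hq : q.Prime) : (fibBR q).Finite ∧ (fibBR q).ncard ≤ K3 + 9 := by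
  by_cases h3 : q = 3
  · subst h3
    exact ⟨finite_Z3 1, (card_Z3 1).trans (Nat.le_add_right _ _)⟩
  have hi : Set.InjOn (fun u : Gam → F3 => (u (sq q), u (fq q))) (fibBR q) := fun u hu v hv e => by
    obtain ⟨e1, e2⟩ := Prod.mk.inj e
    funext g
    by_cases hg : g ∈ Gq q
    · exact sub_eq_zero.1 ((hu.1.sub hv.1).det hq h3 (sub_eq_zero.2 e1) (sub_eq_zero.2 e2) hg)
    · rw [hu.2 g hg, hv.2 g hg]
  refine ⟨Set.Finite.of_injOn (Set.mapsTo_univ _ _) hi Set.finite_univ,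
    (Set.ncard_le_ncard_of_injOn _ (fun _ _ => Set.mem_univ _) hi Set.finite_univ).trans ?_⟩
  rw [Set.ncard_univ, Nat.card_prod, Nat.card_zmod]
  omega

theorem fibB_mem (q n : ℕ) : H3.rs (Gq q) (kk n) ∈ fibBR q :=
  ⟨(kc_kk n _).congr fun _ hg => (H3.rs_of_mem hg _).symm, fun _ hg => H3.rs_of_notMem hg _⟩

namespace Bx

variable {B : Bx} {x x' z : B.Pt} {a b : B.Pat} {S : Finset (Fin B.r)} {q : ℕ} {g : Gam}

/-- A small generating family of the Selmer patterns. -/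
theorem exists_gen (B : Bx) (z : B.Pt) : ∃ v : Fin (B.k0 + B.r) → B.Pat, (∀ i, v i ∈ B.V z) ∧
    ∀ a ∈ B.V z, ∃ s : Fin (B.k0 + B.r) → F3, a = ∑ i, s i • v i := by
  have : Fact (Nat.Prime 3) := ⟨Nat.prime_three⟩
  let W : Submodule (ZMod 3) B.Pat := AddSubgroup.toZModSubmodule 3 (B.V z)
  obtain ⟨π, hπ⟩ := W.subtype.exists_leftInverse_of_injective W.ker_subtype
  have hd : Module.finrank (ZMod 3) B.Pat = B.k0 + B.r := by
    rw [Module.finrank_prod, Module.finrank_fintype_fun_eq_card, Module.finrank_fintype_fun_eq_card,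
      Fintype.card_coe, Fintype.card_fin, k0]
  let e := Module.finBasisOfFinrankEq (ZMod 3) B.Pat hd
  refine ⟨fun i => π (e i), fun i => (π (e i)).2, fun a ha => ⟨e.repr a, ?_⟩⟩
  have h1 : π a = ⟨a, ha⟩ := LinearMap.congr_fun hπ ⟨a, ha⟩
  have h2 := congrArg (W.subtype ∘ₗ π) (e.sum_repr a)
  rw [map_sum] at h2
  simp only [map_smul, LinearMap.comp_apply, h1, Submodule.subtype_apply] at h2
  exact h2.symm

theorem fibB_lv (B : Bx) : (B.pts.image B.lv).card ≤ (K3 + 9) ^ ((B.r + B.k0 + 1) ^ 2) := by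
  have hp : ∀ q : B.S0, (q : ℕ).Prime := fun q => Nat.prime_of_mem_primeFactors q.2
  have h1 : B.pts.image B.lv ⊆ (Fintype.piFinset fun _ => Fintype.piFinset fun q : B.S0 =>
      (fibB_fin (hp q)).1.toFinset) ×ˢ univ := fun t ht => by
    obtain ⟨x, -, rfl⟩ := mem_image.1 ht
    exact mem_product.2 ⟨Fintype.mem_piFinset.2 fun j => Fintype.mem_piFinset.2 fun q =>
      (Set.Finite.mem_toFinset _).2 (fibB_mem q (x j)), mem_univ _⟩
  have h2 : ∏ q : B.S0, (fibB_fin (hp q)).1.toFinset.card ≤ (K3 + 9) ^ B.k0 := by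
    refine (prod_le_pow_card _ _ (K3 + 9) fun q _ => ?_).trans_eq (by rw [card_univ, Fintype.card_coe, k0])
    rw [← Set.ncard_eq_toFinset_card _ _]
    exact (fibB_fin (hp q)).2
  refine (card_le_card h1).trans ?_
  simp only [card_product, Fintype.card_piFinset, prod_const, card_univ, Fintype.card_prod,
    Fintype.card_fun, Fintype.card_fin, ZMod.card, Fintype.card_coe]
  calc _ ≤ ((K3 + 9) ^ B.k0) ^ B.r * (((K3 + 9) ^ B.k0) ^ B.r * ((K3 + 9) ^ B.r) ^ B.r) :=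
        Nat.mul_le_mul (Nat.pow_le_pow_left h2 _) (Nat.mul_le_mul
          (Nat.pow_le_pow_left (Nat.pow_le_pow_left (by omega) _) _)
          (Nat.pow_le_pow_left (Nat.pow_le_pow_left (by omega) _) _))
    _ ≤ _ := by
      rw [← pow_mul, ← pow_mul, ← pow_add, ← pow_add]
      exact Nat.pow_le_pow_right (by omega) (by nlinarith)

theorem card_lv : ∃ E : ℕ, ∀ B : Bx, B.Hyp 0 → ((B.pts.image B.lv).card : ℝ) ≤ B.Z ^ E := by
  obtain ⟨E, hE⟩ := pow_le_Z (K3 + 9)
  exact ⟨E, fun B h => le_trans (by exact_mod_cast fibB_lv B) (hE B h.pos h.le1)⟩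

theorem fibB_left (h : B.Wf) (hx : x ∈ B.pts) {ι : Type} {v : ι → B.Pat} (hv : ∀ i, v i ∈ B.V x)
    (hb : b ∈ B.V x) (s : ι → F3) (T : Finset ι) :
    B.CT x (∑ i ∈ T, s i • v i) b = ∑ i ∈ T, s i * B.CT x (v i) b := by
  induction T using Finset.induction_on with
  | empty => simpa using ct_smul_left h hx hb hb 0
  | insert i T hi ih =>
    rw [sum_insert hi, sum_insert hi, ct_add_left h hx (smul_mem_V (hv i) _)
      (sum_mem fun j _ => smul_mem_V (hv j) _) hb, ct_smul_left h hx (hv i) hb, ih]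

theorem fibB_right (h : B.Wf) (hx : x ∈ B.pts) {ι : Type} {v : ι → B.Pat} (hv : ∀ i, v i ∈ B.V x)
    (ha : a ∈ B.V x) (s : ι → F3) (T : Finset ι) :
    B.CT x a (∑ i ∈ T, s i • v i) = ∑ i ∈ T, s i * B.CT x a (v i) := by
  induction T using Finset.induction_on with
  | empty => simpa using ct_smul_right h hx ha ha 0
  | insert i T hi ih =>
    rw [sum_insert hi, sum_insert hi, ct_add_right h hx ha (smul_mem_V (hv i) _)
      (sum_mem fun j _ => smul_mem_V (hv j) _), ct_smul_right h hx ha (hv i), ih]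

theorem fibB_key (h : B.Wf) : (B.pts.image B.key).card ≤
    (B.pts.image B.lv).card * 3 ^ ((B.r + B.k0 + 1) ^ 2) := by
  choose v hv hs using B.exists_gen
  let ρ : B.Lv → B.Pt := Function.invFunOn B.lv B.pts
  have hρ : ∀ x ∈ B.pts, B.V x = B.V (ρ (B.lv x)) := fun x hx => by
    have e : ∃ y ∈ (B.pts : Set B.Pt), B.lv y = B.lv x := ⟨x, hx, rfl⟩
    exact lv_V h hx (Function.invFunOn_mem e) (Function.invFunOn_eq e).symm
  refine (fibB_card B.pts B.key (fun x => (B.lv x,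
    fun i j => B.CT x (v (ρ (B.lv x)) i) (v (ρ (B.lv x)) j))) fun x hx y hy e => ?_).trans ?_
  · obtain ⟨e1, e2⟩ := Prod.mk.inj e
    refine (key_iff h hx hy).2 ⟨e1, fun a ha b hb => ?_⟩
    have m1 : ∀ i, v (ρ (B.lv y)) i ∈ B.V x := fun i => by rw [hρ x hx, e1]; exact hv _ i
    have m2 : ∀ i, v (ρ (B.lv y)) i ∈ B.V y := fun i => by rw [hρ y hy]; exact hv _ i
    have hb' : b ∈ B.V x := by rwa [lv_V h hx hy e1]
    obtain ⟨s, rfl⟩ := hs (ρ (B.lv y)) a (hρ y hy ▸ ha)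
    rw [fibB_left h hx m1 hb', fibB_left h hy m2 hb]
    obtain ⟨t, rfl⟩ := hs (ρ (B.lv y)) b (hρ y hy ▸ hb)
    refine sum_congr rfl fun i _ => ?_
    rw [fibB_right h hx m1 (m1 i), fibB_right h hy m2 (m2 i)]
    refine congrArg _ (sum_congr rfl fun j _ => congrArg _ ?_)
    have e3 := congrFun (congrFun e2 i) j
    rwa [e1] at e3
  · refine (card_le_card (t := B.pts.image B.lv ×ˢ univ) fun t ht => ?_).trans ?_
    · obtain ⟨x, hx, rfl⟩ := mem_image.1 ht
      exact mem_product.2 ⟨mem_image_of_mem _ hx, mem_univ _⟩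
    · rw [card_product, card_univ, Fintype.card_fun, Fintype.card_fun, ZMod.card, Fintype.card_fin,
        ← pow_mul]
      exact Nat.mul_le_mul_left _ (Nat.pow_le_pow_right (by omega) (by nlinarith))

theorem card_key : ∃ E : ℕ, ∀ B : Bx, B.Hyp 0 → ((B.pts.image B.key).card : ℝ) ≤ B.Z ^ E := by
  obtain ⟨E, hE⟩ := card_lv
  obtain ⟨E', hE'⟩ := pow_le_Z 3
  refine ⟨E + E', fun B h => ?_⟩
  have h1 : ((B.pts.image B.key).card : ℝ) ≤
      (B.pts.image B.lv).card * ((3 : ℕ) : ℝ) ^ ((B.r + B.k0 + 1) ^ 2) := by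
    exact_mod_cast fibB_key h.wf
  rw [pow_add]
  exact h1.trans (mul_le_mul (hE B h) (hE' B h.pos h.le1) (by positivity)
    (pow_nonneg (zero_le_two.trans h.two_le) _))

/-- The number of colours on a fibre. -/
theorem card_col (l : ℕ) : ∃ K : ℕ, ∀ B : Bx, B.Wf → ∀ F : B.Lv, ∃ Γ : Finset B.Col,
    Γ.card ≤ K ^ (B.r + B.k0 + 1) ∧
      ∀ x ∈ B.pts, B.lv x = F → ∀ c, Pre (B.nn x) l c → B.col x c ∈ Γ := by
  refine ⟨3 ^ l + K3 ^ l, fun B h F => ⟨(Fintype.piFinset fun _ => (finite_tors l).toFinset) ×ˢ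
    (Fintype.piFinset fun _ => (finite_tors l).toFinset) ×ˢ
      (finite_Z3l (B.nn (Function.invFunOn B.lv B.pts F)) 0 l).toFinset, ?_,
    fun x hx e c hc => ?_⟩⟩
  · simp only [card_product, Fintype.card_piFinset, prod_const, card_univ, Fintype.card_fin,
      Fintype.card_coe, ← Set.ncard_eq_toFinset_card, card_tors]
    calc _ ≤ (3 ^ l + K3 ^ l) ^ B.k0 * ((3 ^ l + K3 ^ l) ^ B.r * (3 ^ l + K3 ^ l)) :=
          Nat.mul_le_mul (Nat.pow_le_pow_left (Nat.le_add_right _ _) _) (Nat.mul_le_mul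
            (Nat.pow_le_pow_left (Nat.le_add_right _ _) _)
            ((card_Z3l _ 0 l).trans (Nat.le_add_left _ _)))
      _ = _ := by ring
  · have e1 : ∃ y ∈ (B.pts : Set B.Pt), B.lv y = F := ⟨x, hx, e⟩
    refine mem_product.2 ⟨Fintype.mem_piFinset.2 fun _ => (Set.Finite.mem_toFinset _).2 (hc.kil _),
      mem_product.2 ⟨Fintype.mem_piFinset.2 fun _ => (Set.Finite.mem_toFinset _).2 (hc.kil _),
        (Set.Finite.mem_toFinset _).2 ⟨coc_congr_act (n := B.nn x)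
          ((hc.coc.lo_mono le_top).lo_congr fun _ hg => H3.rs_of_mem hg c) fun g hg => ?_,
          fun g => ?_, fun _ hg => H3.rs_of_notMem hg c⟩⟩⟩
    · exact lv_kk h hx (Function.invFunOn_mem e1) (e.trans (Function.invFunOn_eq e1).symm)
        Nat.prime_three (dvd_mul_right 3 _) (dvd_mul_right 3 _) hg
    · change th ^ l • H3.rs (Gq 3) c g = 0
      by_cases hg : g ∈ Gq 3
      · rw [H3.rs_of_mem hg, hc.kil]
      · rw [H3.rs_of_notMem hg, smul_zero]

end Bx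

end Pool.Agent.Lib.MP_696deb_nt.CU
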