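import Pool.Agent.Lib.MP_696deb_nt.CU.GCSb

/-! Fourier analysis over the field with three elements and first moments for systems of linear
conditions in symbols of pairs. -/

set_option autoImplicit false

open Finset Function
open scoped BigOperators Classical

namespace Pool.Agent.Lib.MP_696deb_nt.CU

variable {ι α : Type} [Fintype ι] [DecidableEq ι] {e : AddChar (ZMod 3) ℂ}

theorem four_one (he : e.IsPrimitive) (t : ZMod 3) :
    ∑ k : ZMod 3, e (k * t) = if t = 0 then 3 else 0 := by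
  rw [AddChar.sum_mulShift t he, ZMod.card]
  split_ifs <;> simp

theorem four_rows (he : e.IsPrimitive) (R : ι → ZMod 3) :
    ∑ κ : ι → ZMod 3, e (∑ j, κ j * R j) = if ∀ j, R j = 0 then 3 ^ Fintype.card ι else 0 := by
  simp only [← char_sum]
  rw [← Fintype.piFinset_univ, ← prod_univ_sum (fun _ => univ) fun j k => e (k * R j)]
  simp only [four_one he]
  split_ifs with h
  · simp [h]
  · obtain ⟨j, hj⟩ := not_forall.1 h
    exact prod_eq_zero (mem_univ j) (if_neg hj)

theorem four_hom (he : e.IsPrimitive) {V : Type} [AddCommGroup V] [Fintype V]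
    (φ : V →+ ZMod 3) : ∑ b, e (φ b) = if φ = 0 then (Fintype.card V : ℂ) else 0 := by
  split_ifs with h
  · simp [h]
  · obtain ⟨b, hb⟩ := DFunLike.ne_iff.1 h
    refine AddChar.sum_eq_zero_of_ne_one (ψ := e.compAddMonoidHom φ) fun k => hb ?_
    exact (he.zmod_char_eq_one_iff 3 _).1 (DFunLike.congr_fun k b)

/-- The first moment of a system of conditions, with a set `N` of exceptional characters. -/
theorem four_count (he : e.IsPrimitive) {β : Type} (Ω : Finset β) (R : β → ι → ZMod 3)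
    (N : Finset (ι → ZMod 3)) {δ : ℝ} (hδ : 0 ≤ δ)
    (h : ∀ κ ∉ N, ‖𝔼 x ∈ Ω, e (∑ j, κ j * R x j)‖ ≤ δ) :
    ((Ω.filter fun x => ∀ j, R x j = 0).card : ℝ) ≤
      (N.card / 3 ^ Fintype.card ι + δ) * Ω.card := by
  have h3 : (0 : ℝ) < 3 ^ Fintype.card ι := by positivity
  have h1 : (((Ω.filter fun x => ∀ j, R x j = 0).card : ℝ) * 3 ^ Fintype.card ι : ℝ) =
      ‖∑ κ : ι → ZMod 3, ∑ x ∈ Ω, e (∑ j, κ j * R x j)‖ := by
    rw [sum_comm]
    simp only [four_rows he]
    rw [← sum_filter, sum_const, nsmul_eq_mul, norm_mul, norm_pow]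
    simp
  have h2 : ∀ κ : ι → ZMod 3, ‖∑ x ∈ Ω, e (∑ j, κ j * R x j)‖ ≤
      ((if κ ∈ N then 1 else 0) + δ) * Ω.card := fun κ => by
    split_ifs with hκ
    · refine (norm_sum_le _ _).trans ?_
      simp only [AddChar.norm_apply, sum_const, nsmul_eq_mul, mul_one]
      nlinarith [Nat.cast_nonneg (α := ℝ) Ω.card]
    · rw [← card_mul_expect, norm_mul, Complex.norm_natCast, zero_add, mul_comm]
      exact mul_le_mul_of_nonneg_right (h κ hκ) (Nat.cast_nonneg _)
  have h4 := h1.le.trans ((norm_sum_le _ _).trans (sum_le_sum fun κ _ => h2 κ))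
  rw [← sum_mul, sum_add_distrib, sum_boole, sum_const, card_univ, Fintype.card_fun, ZMod.card,
    filter_mem_eq_inter, univ_inter, nsmul_eq_mul] at h4
  refine le_of_mul_le_mul_right (h4.trans_eq ?_) h3
  push_cast
  field_simp

/-- A bound for bilinear forms with the kernel `e (G p q)`. -/
def Bil (e : AddChar (ZMod 3) ℂ) (P Q : Finset α) (G : α → α → ZMod 3) (δ : ℝ) : Prop :=
  ∀ a b : α → ℂ, (∀ p, ‖a p‖ ≤ 1) → (∀ q, ‖b q‖ ≤ 1) →
    ‖𝔼 p ∈ P, 𝔼 q ∈ Q, a p * b q * e (G p q)‖ ≤ δ

theorem Bil.congr {P Q : Finset α} {G G' : α → α → ZMod 3} {δ : ℝ} (h : Bil e P Q G δ)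
    (k : ∀ p ∈ P, ∀ q ∈ Q, G' p q = G p q) : Bil e P Q G' δ := fun a b ha hb => by
  rw [expect_congr rfl fun p hp => expect_congr rfl fun q hq => by rw [k p hp q hq]]
  exact h a b ha hb

/-- A term that depends on the first variable only through a class costs the number of classes. -/
theorem Bil.add_class {P Q : Finset α} {G : α → α → ZMod 3} {δ : ℝ} (h : Bil e P Q G δ)
    {Λ : Type} (cl : α → Λ) (w : Λ → α → ZMod 3) :
    Bil e P Q (fun p q => G p q + w (cl p) q) ((P.image cl).card * δ) := fun a b ha hb => by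
  have h1 : 𝔼 p ∈ P, 𝔼 q ∈ Q, a p * b q * e (G p q + w (cl p) q) = ∑ γ ∈ P.image cl,
      𝔼 p ∈ P, 𝔼 q ∈ Q, (ind (cl p = γ) * a p) * (e (w γ q) * b q) * e (G p q) := by
    rw [← expect_sum_comm]
    refine expect_congr rfl fun p hp => ?_
    rw [← expect_sum_comm]
    refine expect_congr rfl fun q _ => ?_
    rw [sum_eq_single_of_mem (cl p) (mem_image_of_mem _ hp) fun γ _ hγ => by
      simp [ind, hγ.symm], AddChar.map_add_eq_mul]
    simp only [ind, if_true]
    ring
  rw [h1, ← nsmul_eq_mul]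
  refine (norm_sum_le _ _).trans (sum_le_card_nsmul _ _ _ fun γ _ => h _ _ (fun p => ?_) fun q => ?_)
  · rw [norm_mul]
    exact mul_le_one₀ (norm_ind _) (norm_nonneg _) (ha p)
  · rw [norm_mul, AddChar.norm_apply, one_mul]
    exact hb q

theorem pair_bound (X : ι → Finset α) (hX : ∀ i, (X i).Nonempty) {i j : ι} (hij : i ≠ j)
    {G : α → α → ZMod 3} {δ : ℝ} (h : Bil e (X i) (X j) G δ) (f g : (ι → α) → ℂ)
    (hf : ∀ x, ‖f x‖ ≤ 1) (hg : ∀ x, ‖g x‖ ≤ 1) (fi : ∀ x p, f (update x i p) = f x)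
    (gj : ∀ x q, g (update x j q) = g x) :
    ‖𝔼 x ∈ Fintype.piFinset X, f x * g x * e (G (x i) (x j))‖ ≤ δ := by
  rw [expect_update X j (hX j), expect_update X i (hX i)]
  refine norm_expect_le_const (Fintype.piFinset_nonempty.2 hX) fun x _ => ?_
  refine le_of_eq_of_le (congrArg _ (expect_congr rfl fun p _ => expect_congr rfl fun q _ => ?_))
    (h (fun p => g (update x i p)) (fun q => f (update x j q)) (fun _ => hg _) fun _ => hf _)
  rw [gj, update_self, update_of_ne hij, update_self, update_comm hij, fi, mul_comm (f _)]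

/-- A phase that is a sum of terms in two variables. -/
theorem pair_phase (X : ι → Finset α) (hX : ∀ i, (X i).Nonempty) {i j : ι} (hij : i ≠ j)
    (F : ι → ι → α → α → ZMod 3) {δ : ℝ}
    (h : Bil e (X i) (X j) (fun p q => F i j p q + F j i q p) δ) :
    ‖𝔼 x ∈ Fintype.piFinset X, e (∑ a, ∑ b, F a b (x a) (x b))‖ ≤ δ := by
  refine le_of_eq_of_le (congrArg _ (expect_congr rfl fun x _ => ?_)) (pair_bound X hX hij h
    (fun x => e (∑ a, ∑ b, if a ≠ i ∧ b ≠ i then F a b (x a) (x b) else 0))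
    (fun x => e (∑ a, ∑ b, if (a = i ∨ b = i) ∧ a ≠ j ∧ b ≠ j then F a b (x a) (x b) else 0))
    (fun _ => (AddChar.norm_apply _ _).le) (fun _ => (AddChar.norm_apply _ _).le)
    (fun x p => ?_) fun x q => ?_)
  · rw [← AddChar.map_add_eq_mul, ← AddChar.map_add_eq_mul]
    congr 1
    have h1 : ∀ a b, F a b (x a) (x b) = (if a ≠ i ∧ b ≠ i then F a b (x a) (x b) else 0) +
        (if (a = i ∨ b = i) ∧ a ≠ j ∧ b ≠ j then F a b (x a) (x b) else 0) +
        ((if b = j then (if a = i then F a b (x a) (x b) else 0) else 0) +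
          if b = i then (if a = j then F a b (x a) (x b) else 0) else 0) := fun a b => by
      by_cases h1 : a = i <;> by_cases h2 : b = i <;> by_cases h3 : a = j <;>
        by_cases h4 : b = j <;> simp_all
    rw [sum_congr rfl fun a _ => sum_congr rfl fun b _ => h1 a b]
    simp only [sum_add_distrib, sum_ite_eq', mem_univ, if_true]
  · refine congrArg _ (sum_congr rfl fun a _ => sum_congr rfl fun b _ => ?_)
    split_ifs with k
    · rw [update_of_ne k.1, update_of_ne k.2]
    · rfl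
  · refine congrArg _ (sum_congr rfl fun a _ => sum_congr rfl fun b _ => ?_)
    split_ifs with k
    · rw [update_of_ne k.2.1, update_of_ne k.2.2]
    · rfl

omit [Fintype ι] [DecidableEq ι] in
theorem exists_pair {κ v : ι → ZMod 3} (h0 : ∃ i, κ i = 0) (h1 : ∃ j, κ j ≠ 0)
    (hv : ∃ a b, v a ≠ v b) : ∃ i j, κ i = 0 ∧ κ j ≠ 0 ∧ v i ≠ v j := by
  by_contra hn
  push Not at hn
  obtain ⟨i, hi⟩ := h0
  obtain ⟨j, hj⟩ := h1
  obtain ⟨a, b, hab⟩ := hv
  have k : ∀ a, v a = v j := fun a => by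
    by_cases h : κ a = 0
    · exact hn a j h hj
    · exact (hn i a hi h).symm.trans (hn i j hi hj)
  exact hab ((k a).trans (k b).symm)

/-- The bilinear bound for the symbols of all pairs with second index in `J`. -/
def Lin (e : AddChar (ZMod 3) ℂ) (X : ι → Finset α) (J : Finset ι) (s : α → α → ZMod 3) (δ : ℝ) :
    Prop := ∀ i, ∀ j ∈ J, i ≠ j → ∀ c : ZMod 3, c ≠ 0 → Bil e (X i) (X j) (fun p q => c * s p q) δ

/-- A pattern that is not constant rarely satisfies the conditions at the indices in `J`. -/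
theorem gen_two (he : e.IsPrimitive) {X : ι → Finset α} (hX : ∀ i, (X i).Nonempty) {J : Finset ι}
    {s : α → α → ZMod 3} {δ : ℝ} (hδ : 0 ≤ δ) (hL : Lin e X J s δ) (hJ : ∃ i, i ∉ J)
    {v : ι → ZMod 3} (hv : ∃ a b, v a ≠ v b) (h : ι → α → ZMod 3) :
    (((Fintype.piFinset X).filter fun x =>
        ∀ j ∈ J, ∑ i, (v i - v j) * s (x i) (x j) + h j (x j) = 0).card : ℝ) ≤
      (1 / 3 ^ J.card + δ) * (Fintype.piFinset X).card := by
  have h1 := four_count he (Fintype.piFinset X)
    (fun x j => if j ∈ J then ∑ i, (v i - v j) * s (x i) (x j) + h j (x j) else 0)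
    (Fintype.piFinset fun j => if j ∈ J then {0} else univ) hδ fun κ hκ => by
      obtain ⟨i0, hi0⟩ := hJ
      obtain ⟨j0, hj0⟩ := not_forall.1 (mt Fintype.mem_piFinset.2 hκ)
      obtain ⟨i, j, hi, hj, hij⟩ := exists_pair (κ := fun j => if j ∈ J then κ j else 0)
        ⟨i0, if_neg hi0⟩ ⟨j0, by by_cases k : j0 ∈ J <;> simp_all⟩ hv
      have hjJ : j ∈ J := by_contra fun k => hj (if_neg k)
      have hne : i ≠ j := fun k => hij (k ▸ rfl)
      refine le_of_eq_of_le (congrArg _ (expect_congr rfl fun x _ => congrArg _ ?_))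
        (pair_phase X hX hne (fun a b p q => (if b ∈ J then κ b else 0) * (v a - v b) * s p q +
          if a = b then (if b ∈ J then κ b else 0) * h b q else 0)
          ((hL i j hjJ hne _ (mul_ne_zero hj (sub_ne_zero.2 hij))).congr fun p _ q _ => ?_))
      · rw [sum_comm]
        refine sum_congr rfl fun b _ => ?_
        rw [sum_add_distrib, sum_ite_eq', if_pos (mem_univ _)]
        split_ifs
        · simp only [mul_add, mul_sum, mul_assoc]
        · simp
      · simp only [hi, if_neg hne, if_neg hne.symm, zero_mul, add_zero]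
  refine le_of_eq_of_le (congrArg _ (congrArg _ (filter_congr fun x _ => ?_))) (h1.trans_eq ?_)
  · simp
  · rw [Fintype.card_piFinset, ← card_add_card_compl J, pow_add]
    simp only [apply_ite card, card_singleton, card_univ, ZMod.card]
    rw [prod_ite, prod_const_one, one_mul, prod_const]
    have k : (univ.filter fun j => ¬ j ∈ J) = Jᶜ := by
      ext j
      simp
    rw [k]
    push_cast
    field_simp

/-- A nonzero vector of exponents rarely satisfies the dual conditions at all indices. -/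
theorem gen_one (he : e.IsPrimitive) {X : ι → Finset α} (hX : ∀ i, (X i).Nonempty) {J : Finset ι}
    {s u : α → α → ZMod 3} {δ : ℝ} (hδ : 0 ≤ δ) (hL : Lin e X J s δ) (hJ : ∃ i, i ∉ J)
    {Λ : Type} (cl : α → Λ) (w : Λ → α → ZMod 3) {K : ℕ} (hK : ∀ j, ((X j).image cl).card ≤ K)
    (hu : ∀ i ∈ J, ∀ j, j ≠ i → ∀ q ∈ X i, ∀ p ∈ X j, u q p = s p q - w (cl p) q)
    {v : ι → ZMod 3} (hv : v ≠ 0) (hvJ : ∀ i ∉ J, v i = 0) (h : ι → α → ZMod 3) :
    (((Fintype.piFinset X).filter fun x =>
        ∀ j, ∑ i, v i * u (x i) (x j) - v j * ∑ i, s (x i) (x j) + h j (x j) = 0).card : ℝ) ≤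
      (3 / 3 ^ Fintype.card ι + K * δ) * (Fintype.piFinset X).card := by
  have h1 := four_count he (Fintype.piFinset X)
    (fun x j => ∑ i, v i * u (x i) (x j) - v j * ∑ i, s (x i) (x j) + h j (x j))
    (univ.image fun t _ => t) (mul_nonneg (Nat.cast_nonneg K) hδ) fun κ hκ => by
      obtain ⟨i0, hi0⟩ := hJ
      have hc : ∃ a b, κ a ≠ κ b := by
        by_contra k
        push Not at k
        exact hκ (mem_image.2 ⟨κ i0, mem_univ _, funext fun a => k _ _⟩)
      obtain ⟨j, i, hj, hi, hij⟩ := exists_pair ⟨i0, hvJ i0 hi0⟩ (ne_iff.1 hv) hc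
      have hiJ : i ∈ J := by_contra fun k => hi (hvJ i k)
      have hne : j ≠ i := fun k => hij (k ▸ rfl)
      have k := ((hL j i hiJ hne _ (mul_ne_zero (sub_ne_zero.2 hij) hi)).add_class cl
        fun γ q => -(κ j * v i * w γ q))
      refine le_of_eq_of_le (congrArg _ (expect_congr rfl fun x _ => congrArg _ ?_))
        ((pair_phase X hX hne (fun a b p q => κ b * (v a * u p q - v b * s p q) +
          if a = b then κ b * h b q else 0) (k.congr fun p hp q hq => ?_)).trans
          (mul_le_mul_of_nonneg_right (Nat.cast_le.2 (hK j)) hδ))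
      · rw [sum_comm]
        refine sum_congr rfl fun b _ => ?_
        rw [sum_add_distrib, sum_ite_eq', if_pos (mem_univ _), ← mul_sum, sum_sub_distrib,
          ← mul_sum, mul_add]
      · simp only [hj, if_neg hne, if_neg hne.symm, hu i hiJ j hne q hq p hp]
        ring
  refine h1.trans (mul_le_mul_of_nonneg_right (add_le_add_left (div_le_div_of_nonneg_right ?_
    (by positivity)) _) (Nat.cast_nonneg _))
  exact_mod_cast card_image_le.trans (by rw [card_univ, ZMod.card])

end Pool.Agent.Lib.MP_696deb_nt.CU
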