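import Mathlib

/-! The box inequality of Gowers, Cauchy and Schwarz on a product of finite sets. -/

set_option autoImplicit false

open Finset Function
open scoped BigOperators ComplexConjugate

namespace Pool.Agent.Lib.MP_696deb_nt.CU

variable {ι α : Type*} [Fintype ι] [DecidableEq ι]

/-- Complex conjugation, applied `n` times. -/
def cj (n : ℕ) (z : ℂ) : ℂ := if Even n then z else conj z

theorem cj_zero (z : ℂ) : cj 0 z = z := if_pos Even.zero

theorem cj_succ (n : ℕ) (z : ℂ) : cj (n + 1) z = conj (cj n z) := by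
  unfold cj
  by_cases h : Even n <;> simp [h, Nat.even_add_one]

theorem cj_mul (n : ℕ) (z w : ℂ) : cj n (z * w) = cj n z * cj n w := by
  unfold cj
  split_ifs <;> simp

theorem norm_cj (n : ℕ) (z : ℂ) : ‖cj n z‖ = ‖z‖ := by
  unfold cj
  split_ifs <;> simp

theorem cj_conj (n : ℕ) (z : ℂ) : cj n (conj z) = conj (cj n z) := by
  unfold cj
  split_ifs <;> simp

/-- The product over the vertices of the cube spanned by `x` and `x'` in the directions of `S`. -/
noncomputable def cube (S : Finset ι) (H : (ι → α) → ℂ) (x x' : ι → α) : ℂ :=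
  ∏ w ∈ S.powerset, cj w.card (H (w.piecewise x' x))

theorem expect_update (X : ι → Finset α) (i : ι) (hX : (X i).Nonempty) (F : (ι → α) → ℂ) :
    𝔼 x ∈ Fintype.piFinset X, F x =
      𝔼 x ∈ Fintype.piFinset X, 𝔼 a ∈ X i, F (update x i a) := by
  have k : ∑ x ∈ Fintype.piFinset X, ∑ a ∈ X i, F (update x i a) =
      ∑ x ∈ Fintype.piFinset X, ∑ _a ∈ X i, F x := by
    rw [← sum_product', ← sum_product']
    have m : ∀ p ∈ Fintype.piFinset X ×ˢ X i,
        (update p.1 i p.2, p.1 i) ∈ Fintype.piFinset X ×ˢ X i := by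
      intro p hp
      rw [mem_product, Fintype.mem_piFinset] at hp ⊢
      refine ⟨fun j => ?_, hp.1 i⟩
      by_cases h : j = i
      · subst h
        simpa using hp.2
      · simpa [h] using hp.1 j
    exact sum_nbij' (fun p => (update p.1 i p.2, p.1 i)) (fun p => (update p.1 i p.2, p.1 i)) m m
      (fun p _ => by simp) (fun p _ => by simp) (fun p _ => rfl)
  have h0 : ((X i).card : ℂ) ≠ 0 := Nat.cast_ne_zero.2 hX.card_pos.ne'
  simp only [expect_eq_sum_div_card, ← sum_div, k, sum_const, nsmul_eq_mul, ← mul_sum]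
  rw [mul_div_cancel_left₀ _ h0]

theorem norm_expect_sq {β : Type*} (s : Finset β) (f g : β → ℂ) (hf : ∀ x ∈ s, ‖f x‖ ≤ 1) :
    ‖𝔼 x ∈ s, f x * g x‖ ^ 2 ≤ 𝔼 x ∈ s, ‖g x‖ ^ 2 := by
  rcases s.eq_empty_or_nonempty with rfl | hs
  · simp
  have h1 : ‖𝔼 x ∈ s, f x * g x‖ ≤ 𝔼 x ∈ s, 1 * ‖g x‖ :=
    (RCLike.norm_expect_le (K := ℂ)).trans (expect_le_expect fun x hx => by
      rw [norm_mul]
      exact mul_le_mul_of_nonneg_right (hf x hx) (norm_nonneg _))
  refine (pow_le_pow_left₀ (norm_nonneg _) h1 2).trans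
    ((expect_mul_sq_le_sq_mul_sq s _ _).trans_eq ?_)
  rw [expect_const hs, one_pow, one_mul]

/-- One step of the inequality of Cauchy and Schwarz. -/
theorem gcs_step (X : ι → Finset α) (i : ι) (hX : (X i).Nonempty) (f G : (ι → α) → ℂ)
    (hf : ∀ x, ‖f x‖ ≤ 1) (hi : ∀ x a, f (update x i a) = f x) :
    ‖𝔼 x ∈ Fintype.piFinset X, f x * G x‖ ^ 2 ≤
      (𝔼 a ∈ X i, 𝔼 x ∈ Fintype.piFinset X, G x * conj (G (update x i a))).re := by
  have e1 : 𝔼 x ∈ Fintype.piFinset X, f x * G x =
      𝔼 x ∈ Fintype.piFinset X, f x * 𝔼 a ∈ X i, G (update x i a) := by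
    rw [expect_update X i hX]
    simp only [hi, mul_expect]
  have e2 : (𝔼 a ∈ X i, 𝔼 x ∈ Fintype.piFinset X, G x * conj (G (update x i a))) =
      ((𝔼 x ∈ Fintype.piFinset X, ‖𝔼 a ∈ X i, G (update x i a)‖ ^ 2 : ℝ) : ℂ) := by
    rw [expect_comm, expect_update X i hX, Complex.ofReal_expect]
    refine expect_congr rfl fun x _ => ?_
    rw [Complex.ofReal_pow, ← Complex.mul_conj', map_expect, expect_mul_expect]
    simp only [update_idem]
  rw [e1, e2, Complex.ofReal_re]
  exact norm_expect_sq _ _ _ fun x _ => hf x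

omit [Fintype ι] in
theorem cube_insert {S : Finset ι} {i : ι} (hi : i ∉ S) (H : (ι → α) → ℂ) (x x' : ι → α) (a : α) :
    cube (insert i S) H x (update x' i a) =
      cube S (fun y => H y * conj (H (update y i a))) x x' := by
  unfold cube
  rw [prod_powerset_insert hi, ← prod_mul_distrib]
  refine prod_congr rfl fun w hw => ?_
  have hw' : i ∉ w := fun h => hi (mem_powerset.1 hw h)
  have e1 : w.piecewise (update x' i a) x = w.piecewise x' x := funext fun j => by
    by_cases h : j ∈ w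
    · rw [piecewise_eq_of_mem _ _ _ h, piecewise_eq_of_mem _ _ _ h,
        update_of_ne (ne_of_mem_of_not_mem h hw')]
    · rw [piecewise_eq_of_notMem _ _ _ h, piecewise_eq_of_notMem _ _ _ h]
  rw [piecewise_insert, update_self, e1, card_insert_of_notMem hw', cj_succ, cj_mul, cj_conj]

theorem expect_pow_two_pow {β : Type*} (s : Finset β) (hs : s.Nonempty) (B : β → ℝ)
    (hB : ∀ a, 0 ≤ B a) (n : ℕ) : (𝔼 a ∈ s, B a) ^ 2 ^ n ≤ 𝔼 a ∈ s, B a ^ 2 ^ n := by
  induction n with
  | zero => simp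
  | succ n ih =>
    have h := expect_mul_sq_le_sq_mul_sq s (fun _ => (1 : ℝ)) fun a => B a ^ 2 ^ n
    simp only [one_mul, one_pow, expect_const hs, ← pow_mul] at h
    rw [pow_succ, pow_mul]
    exact (pow_le_pow_left₀ (pow_nonneg (expect_nonneg fun a _ => hB a) _) ih 2).trans h

/-- The box inequality: weights that are bounded by one and miss a coordinate of `S` disappear. -/
theorem gcs_re (X : ι → Finset α) (hX : ∀ i, (X i).Nonempty) (S : Finset ι) (hS0 : S.Nonempty)
    (f : ι → (ι → α) → ℂ) (H : (ι → α) → ℂ) (hf : ∀ i ∈ S, ∀ x, ‖f i x‖ ≤ 1)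
    (hi : ∀ i ∈ S, ∀ x a, f i (update x i a) = f i x) :
    ‖𝔼 x ∈ Fintype.piFinset X, (∏ i ∈ S, f i x) * H x‖ ^ 2 ^ S.card ≤
      (𝔼 x' ∈ Fintype.piFinset X, 𝔼 x ∈ Fintype.piFinset X, cube S H x x').re := by
  induction S using Finset.induction_on generalizing f H with
  | empty => exact absurd hS0 not_nonempty_empty
  | insert i S hS ih =>
    have h1 := gcs_step X i (hX i) (f i) (fun x => (∏ j ∈ S, f j x) * H x)
      (hf i (mem_insert_self _ _)) (hi i (mem_insert_self _ _))
    rw [card_insert_of_notMem hS, pow_succ', pow_mul, expect_update X i (hX i)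
      (fun x' => 𝔼 x ∈ Fintype.piFinset X, cube (insert i S) H x x'), expect_comm]
    simp only [prod_insert hS, mul_assoc, cube_insert hS]
    rcases S.eq_empty_or_nonempty with rfl | hS1
    · simpa [cube, cj_zero, expect_const (Fintype.piFinset_nonempty.2 hX)] using h1
    have h2 : ∀ a, ‖𝔼 x ∈ Fintype.piFinset X, (∏ j ∈ S, f j x) * H x *
        conj ((∏ j ∈ S, f j (update x i a)) * H (update x i a))‖ ^ 2 ^ S.card ≤
        (𝔼 x' ∈ Fintype.piFinset X, 𝔼 x ∈ Fintype.piFinset X,
          cube S (fun y => H y * conj (H (update y i a))) x x').re := fun a => by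
      refine le_of_eq_of_le ?_ (ih hS1 (fun j x => f j x * conj (f j (update x i a))) _
        (fun j hj x => ?_) fun j hj x b => ?_)
      · congr 2
        refine expect_congr rfl fun x _ => ?_
        rw [prod_mul_distrib, map_mul, map_prod]
        ring
      · rw [norm_mul, Complex.norm_conj]
        exact mul_le_one₀ (hf j (mem_insert_of_mem hj) _) (norm_nonneg _)
          (hf j (mem_insert_of_mem hj) _)
      · rw [hi j (mem_insert_of_mem hj), update_comm (ne_of_mem_of_not_mem hj hS),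
          hi j (mem_insert_of_mem hj)]
    rw [Complex.re_expect]
    exact (pow_le_pow_left₀ (sq_nonneg _) (h1.trans ((Complex.re_le_norm _).trans
      (RCLike.norm_expect_le (K := ℂ)))) _).trans
      ((expect_pow_two_pow _ (hX i) _ (fun _ => norm_nonneg _) _).trans
        (expect_le_expect fun a _ => h2 a))

/-- The box inequality with absolute values. -/
theorem gcs (X : ι → Finset α) (hX : ∀ i, (X i).Nonempty) (S : Finset ι)
    (f : ι → (ι → α) → ℂ) (H : (ι → α) → ℂ) (hf : ∀ i ∈ S, ∀ x, ‖f i x‖ ≤ 1)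
    (hi : ∀ i ∈ S, ∀ x a, f i (update x i a) = f i x) :
    ‖𝔼 x ∈ Fintype.piFinset X, (∏ i ∈ S, f i x) * H x‖ ^ 2 ^ S.card ≤
      ‖𝔼 x' ∈ Fintype.piFinset X, 𝔼 x ∈ Fintype.piFinset X, cube S H x x'‖ := by
  rcases S.eq_empty_or_nonempty with rfl | hS
  · simp [cube, cj_zero, expect_const (Fintype.piFinset_nonempty.2 hX)]
  · exact (gcs_re X hX S hS f H hf hi).trans (Complex.re_le_norm _)

end Pool.Agent.Lib.MP_696deb_nt.CU
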