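import Pool.Agent.Lib.MP_696deb_nt.CU.Step
import Pool.Agent.Lib.MP_696deb_nt.CU.SD
import Pool.Agent.Lib.MP_696deb_nt.CU.Bal

/-! Directions, and the probability to lie in the radical. -/

set_option autoImplicit false

open scoped Classical
open Finset

namespace Pool.Agent.Lib.MP_696deb_nt.CU

namespace Bx

theorem exists_dir {B : Bx} {n : ℕ} (h : B.Hyp (15 * (n + 1))) {x : B.Pt} (hx : x ∈ B.pts)
    (g : B.Good x) {a b : B.Pat} (ha : a ∈ B.Rad x) (hb : b ∈ B.Rad x) (k : a ∉ B.L1)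
    (k' : b ∉ B.L2 a) : ∃ U ia ic, B.Dir n a b U ia ic := by
  have k1 : b ∉ B.L1 := fun e => by
    obtain ⟨s, e⟩ := mem_L1.1 e
    exact k' (mem_L2.2 ⟨0, s, by rw [zero_smul, zero_add, e]⟩)
  have k2 : a + b ∉ B.L1 := fun e => by
    obtain ⟨s, e⟩ := mem_L1.1 e
    exact k' (mem_L2.2 ⟨-1, s, by rw [← e, neg_smul, one_smul, neg_add_cancel_left]⟩)
  have k3 : a - b ∉ B.L1 := fun e => by
    obtain ⟨s, e⟩ := mem_L1.1 e
    exact k' (mem_L2.2 ⟨1, -s, by rw [neg_smul, ← e, one_smul, neg_sub, add_sub_cancel]⟩)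
  have P : ∀ (i : Fin 2) (α β : ZMod 3),
      n + 1 ≤ ((B.I i).filter fun j => a.2 j = α ∧ b.2 j = β).card := fun i α β => by
    have h1 := bal_point (I := B.I i) (a := a.2) (b := b.2) (g.bal a ha k i) (g.bal b hb k1 i)
      (g.bal _ (rad_add h.wf hx ha hb) k2 i) (g.bal _ (rad_sub h.wf hx ha hb) k3 i) α β
    have h2 := ((Nat.le_mul_of_pos_right _ B.k0.succ_pos).trans h.hH).trans (h.win i)
    omega
  obtain ⟨U, h1, h2⟩ := exists_subset_card_eq ((Nat.le_succ n).trans (P 0 0 0))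
  obtain ⟨ia, h3⟩ := card_pos.1 (n.succ_pos.trans_le (P 1 1 0))
  obtain ⟨ic, h4⟩ := card_pos.1 (n.succ_pos.trans_le (P 1 0 1))
  obtain ⟨h3, h5, h6⟩ := mem_filter.1 h3
  obtain ⟨h4, h7, h8⟩ := mem_filter.1 h4
  exact ⟨U, ia, ic, h2, h1.trans (filter_subset _ _), h.up h3, h.up h4,
    fun e => one_ne_zero (h5.symm.trans (e ▸ h7)), fun i hi => (mem_filter.1 (h1 hi)).2.1,
    fun i hi => (mem_filter.1 (h1 hi)).2.2, h5 ▸ one_ne_zero, h6, h8 ▸ one_ne_zero⟩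

theorem exists_dir_one {B : Bx} (h : B.Hyp 1) {z : B.Pt} (hz : z ∈ B.pts) (g : B.G0 z)
    {a b : B.Pat} (ha : a ∈ B.V z) (hb : b ∈ B.V z) (k : a ∉ B.L1) (k' : b ∉ B.L2 a) :
    ∃ a' ∈ B.V z, ∃ b' ∈ B.V z, (∃ U ia ic, B.Dir 1 a' b' U ia ic) ∧
      ∀ x ∈ B.pts, B.lv x = B.lv z → B.CT x a b = B.CT x a' b' := by
  have W := h.wf
  obtain ⟨j, hj⟩ := card_pos.1 (((Nat.mul_pos one_pos B.k0.succ_pos).trans_le h.hH).trans_le
    (h.win 0))
  have ht := tau_mem W hz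
  have G : ∀ v ∈ B.V z, v ≠ 0 → ∃ i ∈ B.Up, v.2 i ≠ 0 := fun v hv e => by
    by_contra! k
    exact e (g v hv k)
  obtain ⟨a', e1⟩ : ∃ a', a' = a + (-a.2 j) • B.tau := ⟨_, rfl⟩
  have h1 : a' ∈ B.V z := e1 ▸ add_mem ha (smul_mem_V ht _)
  have h2 : a'.2 j = 0 := by simp [e1, tau]
  obtain ⟨ia, h3, h4⟩ := G a' h1 fun e => k (mem_L1.2 ⟨a.2 j, by
    rw [e1, neg_smul, add_neg_eq_zero] at e
    exact e⟩)
  obtain ⟨s, hs⟩ : ∃ s : F3, b.2 ia - b.2 j + s * a'.2 ia = 0 :=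
    ⟨-((b.2 ia - b.2 j) / a'.2 ia), by rw [neg_mul, div_mul_cancel₀ _ h4, add_neg_cancel]⟩
  obtain ⟨b', e2⟩ : ∃ b', b' = b + (-b.2 j) • B.tau + s • a' := ⟨_, rfl⟩
  have h5 : b' ∈ B.V z := e2 ▸ add_mem (add_mem hb (smul_mem_V ht _)) (smul_mem_V h1 _)
  have h6 : b'.2 j = 0 := by simp [e2, tau, h2]
  have h7 : b'.2 ia = 0 := by simpa [e2, tau, sub_eq_add_neg] using hs
  obtain ⟨ic, h8, h9⟩ := G b' h5 fun e => k' (mem_L2.2 ⟨-s, b.2 j + s * a.2 j, by
    rw [← sub_eq_zero, ← e, e2, e1]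
    module⟩)
  refine ⟨a', h1, b', h5, ⟨{j}, ia, ic, card_singleton j, singleton_subset_iff.2 hj, h3, h8,
    fun e => h9 (e ▸ h7), fun i hi => mem_singleton.1 hi ▸ h2, fun i hi => mem_singleton.1 hi ▸ h6,
    h4, h7, h9⟩, fun x hx e => ?_⟩
  rw [← lv_V W hx hz e] at ha hb ht h1
  rw [e2, ct_add_right W hx h1 (add_mem hb (smul_mem_V ht _)) (smul_mem_V h1 _),
    ct_add_right W hx h1 hb (smul_mem_V ht _), ct_smul_right W hx h1 ht, ct_smul_right W hx h1 h1,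
    ct_self W hx h1, ct_alt W hx h1 ht, ct_tau W hx h1, e1,
    ct_add_left W hx ha (smul_mem_V ht _) hb, ct_smul_left W hx ht hb, ct_tau W hx hb]
  simp

theorem tri (ana : AnaStmt) (E : ℕ) : ∃ c : ℕ, ∀ B : Bx, B.Hyp c → ∀ z ∈ B.pts, B.G0 z →
    ∀ a ∈ B.V z, ∀ b ∈ B.V z, a ∉ B.L1 → b ∉ B.L2 a →
      ‖∑ x ∈ B.pts with B.lv x = B.lv z, ee (B.CT x a b)‖ ≤ B.pts.card / B.Z ^ E := by
  obtain ⟨c, hc⟩ := step ana 2 E le_rfl even_two
  refine ⟨c + 1, fun B hB z hz g a ha b hb k k' => ?_⟩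
  have W := hB.wf
  obtain ⟨a', h1, b', h2, ⟨U, ia, ic, hD⟩, h3⟩ :=
    exists_dir_one (hB.mono (Nat.le_add_left 1 c)) hz g ha hb k k'
  have hS : (insert ia (insert ic U)).card = 1 + 2 := by
    rw [card_insert_of_notMem (by simp [hD.ha' hB, hD.ne]), card_insert_of_notMem (hD.hc' hB),
      hD.card]
  refine le_trans ?_ (hc B (hB.mono c.le_succ) a' b' U ia ic (B.lv z) (fun x => B.lv x = B.lv z) hD
    (closed_lv hS.ge _) fun x hx e => ⟨e, lv_V W hx hz e ▸ h2⟩)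
  have e : ∑ x ∈ B.pts with B.lv x = B.lv z, ∑ c ∈ B.RF x 2 a', ee (B.Dx x c b') =
      B.wB * ∑ x ∈ B.pts with B.lv x = B.lv z, ee (B.CT x a b) := by
    rw [mul_sum]
    refine sum_congr rfl fun x hx => ?_
    obtain ⟨hx, e⟩ := mem_filter.1 hx
    have e' := lv_V W hx hz e
    rw [sum_congr rfl fun c hc => by rw [dx_two W hx hc (e' ▸ h2)], sum_const,
      card_RF_two W hx (e' ▸ h1), nsmul_eq_mul, h3 x hx e]
  refine le_of_le_of_eq ?_ (congrArg norm ((by convert e.symm) : B.wB *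
    ∑ x ∈ B.pts with B.lv x = B.lv z, ee (B.CT x a b) = _))
  rw [norm_mul, Complex.norm_natCast]
  exact le_mul_of_one_le_left (norm_nonneg _) (Nat.one_le_cast.2 (wB_pos W))

theorem tri_four {B : Bx} (h : B.Wf) {x : B.Pt} (hx : x ∈ B.pts) {a : B.Pat} (ha : a ∈ B.V x) :
    ∑ b ∈ B.VF x, ee (B.CT x a b) = if a ∈ B.Rad x then ((B.VF x).card : ℂ) else 0 := by
  obtain ⟨φ, hφ⟩ : ∃ φ : B.V x →+ F3, ∀ b, φ b = B.CT x a b :=
    ⟨AddMonoidHom.mk' (fun b => B.CT x a b) fun b b' => ct_add_right h hx ha b.2 b'.2,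
      fun _ => rfl⟩
  have h2 : φ = 0 ↔ a ∈ B.Rad x :=
    ⟨fun e => ⟨ha, fun b hb => (hφ ⟨b, hb⟩).symm.trans (by rw [e, AddMonoidHom.zero_apply])⟩,
      fun e => AddMonoidHom.ext fun b => (hφ b).trans (e.2 b b.2)⟩
  have : Fintype (B.V x) := .ofFinite _
  have h3 := four_hom ee_prim φ
  simp only [hφ] at h3
  rw [sum_subtype (B.VF x) (p := (· ∈ B.V x)) fun _ => mem_VF, h3,
    Fintype.card_of_subtype (B.VF x) fun _ => mem_VF]
  by_cases k : φ = 0
  · rw [if_pos k, if_pos (h2.1 k)]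
  · rw [if_neg k, if_neg fun e => k (h2.2 e)]

theorem rad_count (ana : AnaStmt) (E : ℕ) : ∃ c : ℕ, ∀ B : Bx, B.Hyp c → ∀ z ∈ B.pts, B.G0 z →
    ∀ a ∈ B.V z, a ∉ B.L1 →
      ((B.pts.filter fun x => B.lv x = B.lv z ∧ a ∈ B.Rad x).card : ℝ) ≤
        9 * (B.pts.filter fun x => B.lv x = B.lv z).card / (B.VF z).card +
          B.pts.card / B.Z ^ E := by
  obtain ⟨c, hc⟩ := tri ana E
  refine ⟨c, fun B hB z hz g a ha k => ?_⟩
  have W := hB.wf
  have h0 : 0 < B.Z := zero_lt_two.trans_le hB.two_le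
  have hV : (0 : ℝ) < (B.VF z).card := Nat.cast_pos.2 (card_pos.2 ⟨a, mem_VF.2 ha⟩)
  have e : (((B.pts.filter fun x => B.lv x = B.lv z ∧ a ∈ B.Rad x).card * (B.VF z).card : ℕ) : ℂ) =
      ∑ b ∈ B.VF z, ∑ x ∈ B.pts with B.lv x = B.lv z, ee (B.CT x a b) := by
    rw [sum_comm, ← filter_filter, Nat.cast_mul, card_filter, Nat.cast_sum, sum_mul]
    refine sum_congr rfl fun x hx => ?_
    obtain ⟨hx, e⟩ := mem_filter.1 hx
    rw [← lv_VF W hx hz e, tri_four W hx (lv_V W hx hz e ▸ ha)]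
    split_ifs <;> simp
  have e2 := congrArg norm e
  rw [Complex.norm_natCast, Nat.cast_mul] at e2
  rw [div_add' _ _ _ hV.ne', le_div_iff₀ hV, e2]
  refine (norm_sum_le _ _).trans ((sum_le_sum (g := fun b => (if b ∈ B.L2 a then
    ((B.pts.filter fun x => B.lv x = B.lv z).card : ℝ) else 0) + B.pts.card / B.Z ^ E)
    fun b hb => ?_).trans ?_)
  · split_ifs with k'
    · refine le_add_of_le_of_nonneg ((norm_sum_le _ _).trans ?_) (by positivity)
      simp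
    · rw [zero_add]
      exact hc B hB z hz g a ha b (mem_VF.1 hb) k k'
  · rw [sum_add_distrib, ← sum_filter, sum_const, sum_const, nsmul_eq_mul, nsmul_eq_mul,
      mul_comm ((B.VF z).card : ℝ)]
    refine add_le_add (mul_le_mul_of_nonneg_right ?_ (Nat.cast_nonneg _)) le_rfl
    exact_mod_cast (card_le_card (filter_subset_filter _ (subset_univ _))).trans (card_L2 a)

/-- The mean number of elements of the radical with a property of the pattern. -/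
theorem rad_sum (ana : AnaStmt) (E : ℕ) : ∃ c : ℕ, ∀ B : Bx, B.Hyp c → ∀ p : B.Pat → Prop,
    ∑ x ∈ B.pts with B.G0 x,
        (((B.VF x).filter fun a => a ∈ B.Rad x ∧ a ∉ B.L1 ∧ p a).card : ℝ) ≤
      ∑ x ∈ B.pts with B.G0 x,
        9 * (((B.VF x).filter fun a => a ∉ B.L1 ∧ p a).card : ℝ) / (B.VF x).card +
          B.pts.card / B.Z ^ E := by
  obtain ⟨E0, h0⟩ := card_lv
  obtain ⟨E1, h1⟩ := pow_le_Z 3
  obtain ⟨c, hc⟩ := rad_count ana (E0 + E1 + E)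
  refine ⟨c, fun B hB p => ?_⟩
  have W := hB.wf
  have hZ : 0 < B.Z := zero_lt_two.trans_le hB.two_le
  have hP : (Fintype.card B.Pat : ℝ) ≤ B.Z ^ E1 := by
    refine le_trans ?_ (h1 B hB.pos hB.le1)
    rw [card_Pat]
    exact_mod_cast Nat.pow_le_pow_right three_pos
      (le_trans (by omega) (Nat.le_self_pow two_ne_zero (B.r + B.k0 + 1)))
  have hm : ∀ x ∈ B.pts.filter B.G0, B.lv x ∈ (B.pts.filter B.G0).image B.lv := fun x hx =>
    mem_image_of_mem _ hx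
  rw [← sum_fiberwise_of_maps_to hm, ← sum_fiberwise_of_maps_to hm fun x =>
    9 * (((B.VF x).filter fun a => a ∉ B.L1 ∧ p a).card : ℝ) / (B.VF x).card]
  refine (sum_le_sum (g := fun y => ∑ x ∈ B.pts.filter B.G0 with B.lv x = y,
    9 * (((B.VF x).filter fun a => a ∉ B.L1 ∧ p a).card : ℝ) / (B.VF x).card +
      B.Z ^ E1 * (B.pts.card / B.Z ^ (E0 + E1 + E))) fun y hy => ?_).trans ?_
  · obtain ⟨z, hz, rfl⟩ := mem_image.1 hy
    obtain ⟨hz, g⟩ := mem_filter.1 hz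
    have e : (B.pts.filter B.G0).filter (fun x => B.lv x = B.lv z) =
        B.pts.filter fun x => B.lv x = B.lv z := by
      rw [filter_filter]
      exact filter_congr fun x hx => ⟨And.right, fun e => ⟨lv_G0 W hx hz e g, e⟩⟩
    have e1 : ∑ x ∈ B.pts with B.lv x = B.lv z,
        (((B.VF x).filter fun a => a ∈ B.Rad x ∧ a ∉ B.L1 ∧ p a).card : ℝ) =
        ∑ a ∈ B.VF z with a ∉ B.L1 ∧ p a,
          ((B.pts.filter fun x => B.lv x = B.lv z ∧ a ∈ B.Rad x).card : ℝ) := by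
      simp only [← filter_filter (fun x => B.lv x = B.lv z), card_filter (fun x => _ ∈ B.Rad x),
        Nat.cast_sum]
      rw [sum_comm]
      refine sum_congr rfl fun x hx => ?_
      obtain ⟨hx, e⟩ := mem_filter.1 hx
      rw [← Nat.cast_sum, ← card_filter, filter_filter, lv_VF W hx hz e]
      exact congrArg _ (congrArg _ (filter_congr fun a _ => and_comm))
    have e2 : ∑ x ∈ B.pts with B.lv x = B.lv z,
        9 * (((B.VF x).filter fun a => a ∉ B.L1 ∧ p a).card : ℝ) / (B.VF x).card =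
        ((B.VF z).filter fun a => a ∉ B.L1 ∧ p a).card *
          (9 * ((B.pts.filter fun x => B.lv x = B.lv z).card : ℝ) / (B.VF z).card) := by
      rw [sum_congr rfl fun x hx => by rw [lv_VF W (mem_filter.1 hx).1 hz (mem_filter.1 hx).2],
        sum_const, nsmul_eq_mul]
      ring
    rw [e, e1, e2]
    refine (sum_le_card_nsmul _ _ _ fun a ha => hc B hB z hz g a (mem_VF.1 (mem_filter.1 ha).1)
      (mem_filter.1 ha).2.1).trans ?_
    rw [nsmul_eq_mul, mul_add]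
    exact add_le_add le_rfl (mul_le_mul_of_nonneg_right
      ((Nat.cast_le.2 (card_le_univ _)).trans hP) (by positivity))
  · rw [sum_add_distrib, sum_const, nsmul_eq_mul]
    refine add_le_add le_rfl ((mul_le_mul_of_nonneg_right ((Nat.cast_le.2 (card_le_card
      (image_subset_image (filter_subset _ _)))).trans (h0 B (hB.mono c.zero_le)))
      (by positivity)).trans_eq ?_)
    rw [pow_add, pow_add]
    field_simp

end Bx

end Pool.Agent.Lib.MP_696deb_nt.CU
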