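import Pool.Agent.Lib.MP_696deb_nt.CU.Gov0
import Pool.Agent.Lib.MP_696deb_nt.CU.Alt
import Pool.Agent.Lib.MP_696deb_nt.CU.E3

/-! Governing families are unique and additive. -/

set_option autoImplicit false

open scoped Classical
open Finset

namespace Pool.Agent.Lib.MP_696deb_nt.CU

variable {ι : Type} {U V : Finset ι} {d d' : ι → Gam → F3} {k k' : Gam → F3}
  {Φ Φ' : Finset ι → Gam → F3}

theorem Gov.mono (h : Gov U d k Φ) (hV : V ⊆ U) : Gov V d k Φ :=
  ⟨h.zero, fun T hT => h.sm T (hT.trans hV), fun T hT => h.mul T (hT.trans hV),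
    fun T hT => h.three T (hT.trans hV), fun T hT => h.unr T (hT.trans hV)⟩

theorem Gov.congr (h : Gov U d k Φ) (hd : ∀ i ∈ U, d i = d' i) : Gov U d' k Φ :=
  ⟨h.zero, h.sm, fun T hT g g' => by
    rw [h.mul T hT]
    refine congrArg _ (sum_congr rfl fun R hR => ?_)
    rw [prod_congr rfl fun i hi => congrFun (hd i (hT (mem_powerset.1 hR hi))) g], h.three, h.unr⟩

theorem Gov.lin (a b : F3) (h : Gov U d k Φ) (h' : Gov U d k' Φ') :
    Gov U d (a • k + b • k') (a • Φ + b • Φ') := by
  refine ⟨by rw [← h.zero, ← h'.zero]; rfl, fun T hT => (h.sm T hT).comp₂ (h'.sm T hT)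
    fun x y => a * x + b * y, fun T hT g g' => ?_, fun T hT h0 g hg => ?_,
    fun T hT h0 q hq h3 => ?_⟩
  · simp only [Pi.add_apply, Pi.smul_apply, smul_eq_mul, h.mul T hT, h'.mul T hT, mul_add,
      mul_sum, sum_add_distrib]
    rw [add_add_add_comm]
    congr 2 <;> exact sum_congr rfl fun R _ => by ring
  · simp [h.three T hT h0 g hg, h'.three T hT h0 g hg]
  · simp [h.unr T hT h0 q hq h3, h'.unr T hT h0 q hq h3]

theorem Gov.add (h : Gov U d k Φ) (h' : Gov U d k' Φ') : Gov U d (k + k') (Φ + Φ') := by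
  simpa using h.lin 1 1 h'

theorem Gov.sub (h : Gov U d k Φ) (h' : Gov U d k' Φ') : Gov U d (k - k') (Φ - Φ') := by
  simpa [← sub_eq_add_neg] using h.lin 1 (-1) h'

theorem Gov.smul (a : F3) (h : Gov U d k Φ) : Gov U d (a • k) (a • Φ) := by
  simpa using h.lin a 0 h

theorem Gov.eq_zero (h : Gov U d 0 Φ) (T : Finset ι) (hT : T ⊆ U) : Φ T = 0 := by
  induction T using Finset.strongInduction with
  | H T ih =>
    by_cases h0 : T = ∅
    · rw [h0, h.zero]
    refine funext (CU.unr (e := T.card + 1) ⟨h.sm T hT, fun g _ g' _ => ?_⟩ (h.three T hT h0)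
      (h.unr T hT h0))
    rw [h.mul T hT, sum_eq_single ∅ (fun R hR hR0 => ?_) (by simp)]
    · simp
    · have k : T \ R ⊂ T := sdiff_ssubset (mem_powerset.1 hR) (nonempty_iff_ne_empty.2 hR0)
      rw [ih _ k (k.subset.trans hT), Pi.zero_apply, mul_zero]

theorem Gov.unique (h : Gov U d k Φ) (h' : Gov U d k Φ') (T : Finset ι) (hT : T ⊆ U) :
    Φ T = Φ' T := by
  have k := h.sub h'
  rw [sub_self] at k
  exact sub_eq_zero.1 (k.eq_zero T hT)

theorem Gov.gov_eq (h : Gov U d k Φ) : gov U d k = Φ U := by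
  have e : ∃ Φ, Gov U d k Φ := ⟨Φ, h⟩
  rw [gov, dif_pos e]
  exact e.choose_spec.unique h U Subset.rfl

theorem gov_congr (hd : ∀ i ∈ U, d i = d' i) : gov U d k = gov U d' k := by
  by_cases e : ∃ Φ, Gov U d k Φ
  · obtain ⟨Φ, h⟩ := e
    rw [h.gov_eq, (h.congr hd).gov_eq]
  · rw [gov, gov, dif_neg e, dif_neg fun ⟨Φ, h⟩ => e ⟨Φ, h.congr fun i hi => (hd i hi).symm⟩]

/-- Additivity in one direction. -/
theorem Gov.dir_sub (h : Gov U d k Φ) (h' : Gov U d' k Φ') (j : ι)
    (hd : ∀ i ∈ U, i ≠ j → d i = d' i) :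
    Gov U (Function.update d j (d j - d' j)) k fun T => if j ∈ T then Φ T - Φ' T else Φ T := by
  have e : ∀ T ⊆ U, j ∉ T → Φ T = Φ' T := fun T hT hj =>
    ((h.mono hT).congr fun i hi => hd i (hT hi) (ne_of_mem_of_not_mem hi hj)).unique
      (h'.mono hT) T Subset.rfl
  have p : ∀ R : Finset ι, j ∉ R → ∀ (x : Gam → F3) g,
      ∏ i ∈ R, Function.update d j x i g = ∏ i ∈ R, d i g := fun R hR x g =>
    prod_congr rfl fun i hi => by rw [Function.update_of_ne (ne_of_mem_of_not_mem hi hR)]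
  have p' : ∀ R ⊆ U, j ∉ R → ∀ g, ∏ i ∈ R, d' i g = ∏ i ∈ R, d i g := fun R hU hR g =>
    prod_congr rfl fun i hi => by rw [hd i (hU hi) (ne_of_mem_of_not_mem hi hR)]
  refine ⟨by simp [h.zero], fun T hT => ?_, fun T hT g g' => ?_, fun T hT h0 g hg => ?_,
    fun T hT h0 q hq h3 => ?_⟩
  · split_ifs
    · exact (h.sm T hT).comp₂ (h'.sm T hT) fun x y => x - y
    · exact h.sm T hT
  · by_cases hj : j ∈ T
    · simp only [if_pos hj, Pi.sub_apply, h.mul T hT, h'.mul T hT]
      rw [add_sub_add_comm, ← sum_sub_distrib]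
      refine congrArg _ (sum_congr rfl fun R hR => ?_)
      have hR' := (mem_powerset.1 hR).trans hT
      by_cases hjR : j ∈ R
      · have n : j ∉ T \ R := fun k => (mem_sdiff.1 k).2 hjR
        rw [if_neg n, ← e _ (sdiff_subset.trans hT) n, ← mul_prod_erase R _ hjR,
          ← mul_prod_erase R _ hjR, ← mul_prod_erase R _ hjR, p _ (notMem_erase j R),
          p' _ ((erase_subset _ _).trans hR') (notMem_erase j R), Function.update_self,
          Pi.sub_apply]
        ring
      · rw [if_pos (mem_sdiff.2 ⟨hj, hjR⟩), p R hjR, p' R hR' hjR, Pi.sub_apply]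
        ring
    · simp only [if_neg hj, h.mul T hT]
      refine congrArg _ (sum_congr rfl fun R hR => ?_)
      rw [if_neg fun k => hj (mem_sdiff.1 k).1, p R fun k => hj (mem_powerset.1 hR k)]
  · split_ifs <;> simp [h.three T hT h0 g hg, h'.three T hT h0 g hg]
  · split_ifs <;> simp [h.unr T hT h0 q hq h3, h'.unr T hT h0 q hq h3]

theorem gov_alt_aux (b : ι → Gam → F3) (V : Finset ι) (hV : V ⊆ U) (a : ι → Gam → F3)
    (h : ∀ v ⊆ V, ∃ Φ, Gov U (v.piecewise b a) k Φ) :
    ∃ Φ, Gov U (V.piecewise (a - b) a) k Φ ∧ alt V (fun v => gov U (v.piecewise b a) k) = Φ U := by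
  induction V using Finset.induction_on generalizing a with
  | empty =>
    obtain ⟨Φ, h⟩ := h ∅ Subset.rfl
    exact ⟨Φ, by simpa using h, by rw [alt_empty, h.gov_eq]⟩
  | insert j V hj ih =>
    have e : ∀ v ⊆ V, (insert j v).piecewise b a = v.piecewise b (Function.update a j (b j)) :=
      fun v hv => funext fun i => by
        by_cases hi : i = j
        · subst hi
          rw [piecewise_insert_self, piecewise_eq_of_notMem _ _ _ fun k => hj (hv k),
            Function.update_self]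
        · rw [piecewise_insert_of_ne _ _ _ hi]
          by_cases hi' : i ∈ v
          · rw [piecewise_eq_of_mem _ _ _ hi', piecewise_eq_of_mem _ _ _ hi']
          · rw [piecewise_eq_of_notMem _ _ _ hi', piecewise_eq_of_notMem _ _ _ hi',
              Function.update_of_ne hi]
    obtain ⟨Φ, h1, e1⟩ := ih ((subset_insert _ _).trans hV) a
      fun v hv => h v (hv.trans (subset_insert _ _))
    obtain ⟨Φ', h2, e2⟩ := ih ((subset_insert _ _).trans hV) (Function.update a j (b j))
      fun v hv => e v hv ▸ h _ (insert_subset_insert _ hv)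
    refine ⟨_, (h1.dir_sub h2 j fun i _ hi => ?_).congr fun i _ => ?_, ?_⟩
    · by_cases hi' : i ∈ V <;> simp [hi, hi']
    · by_cases hi : i = j
      · subst hi
        simp [hj]
      · by_cases hi' : i ∈ V <;> simp [hi, hi']
    · rw [alt_insert hj, e1, alt_congr fun v hv => by rw [e v hv], e2,
        if_pos (hV (mem_insert_self _ _))]

/-- The alternating sum of the top functions over a cube of directions. -/
theorem gov_alt [inst : DecidableEq ι] (a b : ι → Gam → F3)
    (h : ∀ v ⊆ U, ∃ Φ, Gov U (v.piecewise b a) k Φ) :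
    (∃ Φ, Gov U (a - b) k Φ) ∧ ∀ g, ∑ v ∈ U.powerset,
      (-1) ^ v.card * gov U (v.piecewise b a) k g = gov U (a - b) k g := by
  obtain rfl : inst = fun a b => Classical.propDecidable (a = b) := Subsingleton.elim _ _
  obtain ⟨Φ, h1, e⟩ := gov_alt_aux b U Subset.rfl a h
  have h2 : Gov U (a - b) k Φ := h1.congr fun i hi => piecewise_eq_of_mem _ _ _ hi
  refine ⟨⟨Φ, h2⟩, fun g => ?_⟩
  rw [h2.gov_eq, ← e, ← alt_ring U fun v => gov U (v.piecewise b a) k g]
  exact (map_alt (Pi.evalAddMonoidHom (fun _ : Gam => F3) g) U _).symm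

end Pool.Agent.Lib.MP_696deb_nt.CU
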