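import Pool.Agent.Lib.MP_23455a_nt.H3.BAe
import Pool.Agent.Lib.MP_696deb_nt.Sm.ThueB

/-! Numbers of a field generated by cube roots, and the cochain of their cube roots. -/

set_option autoImplicit false

open Finset
open scoped Classical

namespace Pool.Agent.Lib.MP_696deb_nt.CU.Kt

open B2 hiding zeta cy cyc Gen Kum C2 Spl cup

/-- The cube root of unity with a given exponent. -/
noncomputable def zt (a : ZMod 3) : Qbar := Pool.Agent.H3.zeta 1 ^ a.val

/-- The action on the cube roots of unity. -/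
noncomputable def ch (g : Gam) : ZMod 3 := Pool.Agent.H3.cy 1 g

/-- The complex cube root of unity with a given exponent. -/
noncomputable def ec (a : ZMod 3) : ℂ := ZMod.stdAddChar a

/-- A cube root. -/
noncomputable def cr (x : Qbar) : Qbar := (IsAlgClosed.exists_pow_nat_eq x three_pos).choose

/-- The exponent of the ratio of two numbers with the same cube. -/
noncomputable def ex (x y : Qbar) : ZMod 3 := if h : ∃ a, x = zt a * y then h.choose else 0

/-- The cubic symbol at a place, for the residue field of degree two. -/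
noncomputable def sym (w : Plc) (x : Qbar) : ZMod 3 :=
  if h : ∃ a, w.V (x ^ ((w.p ^ 2 - 1) / 3) - zt a) < 1 then h.choose else 0

variable {U : Type} [Fintype U]

/-- Cube roots `β` of the natural numbers `m`, with their Kummer cocycles `d`. -/
structure Rad (m : U → ℕ) (β : U → Qbar) (d : U → Gam → ZMod 3) : Prop where
  pos : ∀ j, m j ≠ 0
  cube : ∀ j, β j ^ 3 = m j
  act : ∀ j g, g (β j) = zt (d j g) * β j

def dot (γ T : U → ZMod 3) : ZMod 3 := ∑ j, γ j * T j

noncomputable def bT (β : U → Qbar) (T : U → ZMod 3) : Qbar := ∏ j, β j ^ (T j).val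

/-- The conjugates of the number with coordinates `n`. -/
noncomputable def al (β : U → Qbar) (n : (U → ZMod 3) → ℤ) (γ : U → ZMod 3) : Qbar :=
  ∑ T, (n T : Qbar) * (zt (dot γ T) * bT β T)

/-- The action on the indices of the conjugates. -/
noncomputable def ac (d : U → Gam → ZMod 3) (g : Gam) (γ : U → ZMod 3) : U → ZMod 3 :=
  fun j => ch g * γ j + d j g

/-- The cochain of the cube roots of the conjugates. -/
noncomputable def kap (β : U → Qbar) (d : U → Gam → ZMod 3) (n : (U → ZMod 3) → ℤ) (g : Gam)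
    (γ : U → ZMod 3) : ZMod 3 := ex (g (cr (al β n γ))) (cr (al β n (ac d g γ)))

/-- The expansions of the cochain. -/
noncomputable def Ph (β : U → Qbar) (d : U → Gam → ZMod 3) (n : (U → ZMod 3) → ℤ) (T : Finset U)
    (g : Gam) : ZMod 3 := ∑ γ, (∏ j ∈ T, ac d g γ j) * kap β d n g γ

/-- Governing families in the directions `d`. -/
def Fam (d : U → Gam → ZMod 3) (Φ : Finset U → Gam → ZMod 3) : Prop :=
  (∀ T, Sm ⊤ (Φ T)) ∧ ∀ T g h, Φ T (g * h) =
    Φ T g + ∑ R ∈ T.powerset, (∏ j ∈ R, d j g) * ch g ^ ((T \ R).card + 1) * Φ (T \ R) h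

/-- The carries in a product of two basis elements. -/
def car (m : U → ℕ) (T T' : U → ZMod 3) : ℕ :=
  ∏ j, if 3 ≤ (T j).val + (T' j).val then m j else 1

/-- The product in coordinates. -/
noncomputable def mul (m : U → ℕ) (n n' : (U → ZMod 3) → ℤ) (T : U → ZMod 3) : ℤ :=
  ∑ T', n T' * n' (T - T') * car m T' (T - T')

/-- The kernel of the bilinear form. -/
noncomputable def th (β : U → Qbar) (w : Plc) (t : ZMod 3) (n : (U → ZMod 3) → ℤ) : ℂ :=
  if ∀ γ, w.V (al β n γ) = 1 then ec (t * ∑ γ, (∏ j, γ j) * sym w (al β n γ)) else 0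

/-- `σ` is an inertia element that multiplies the cube roots of the prime by the fixed root of
unity. -/
def Gn (w : Plc) (σ : Gam) : Prop := σ ∈ Ine w ∧ ∀ r : Qbar, r ^ 3 = w.p → σ r = zt 1 * r

/-- A place that is good for the radicands, with a Frobenius element that fixes the roots. -/
structure Spt (m : U → ℕ) (d : U → Gam → ZMod 3) (w : Plc) (φ : Gam) : Prop where
  ne3 : w.p ≠ 3
  ndvd : ∀ j, ¬ w.p ∣ m j
  frob : IsFrob w w.p φ
  fix : ∀ j, d j φ = 0

theorem zt_zero : zt 0 = 1 := by simp [zt]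

theorem zt_add (a b : ZMod 3) : zt (a + b) = zt a * zt b := Pool.Agent.H3.zeta_val_add 1 a b

theorem zt_inj {a b : ZMod 3} (h : zt a = zt b) : a = b := Pool.Agent.H3.zeta_val_inj (m := 1) h

theorem zt_cube (a : ZMod 3) : zt a ^ 3 = 1 := Pool.Agent.H3.b3b_pow 1 a

theorem zt_ne (a : ZMod 3) : zt a ≠ 0 := Pool.Agent.H3.b3b_ne 1 a

theorem exists_zt {x : Qbar} (h : x ^ 3 = 1) : ∃ a, x = zt a :=
  Pool.Agent.H3.exists_zeta_val (m := 1) h

theorem smul_zt (g : Gam) (a : ZMod 3) : g (zt a) = zt (ch g * a) :=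
  Pool.Agent.H3.smul_zeta_val 1 g a

theorem zt_pow (a : ZMod 3) (k : ℕ) : zt a ^ k = zt (k * a) := by
  induction k with
  | zero => simp [zt_zero]
  | succ k ih => rw [pow_succ, ih, ← zt_add, Nat.cast_succ, add_mul, one_mul]

theorem zt_sum {ι : Type} (s : Finset ι) (a : ι → ZMod 3) :
    zt (∑ i ∈ s, a i) = ∏ i ∈ s, zt (a i) := by
  induction s using Finset.induction_on with
  | empty => simp [zt_zero]
  | insert i s hi ih => rw [sum_insert hi, prod_insert hi, zt_add, ih]

theorem ch_mul (g h : Gam) : ch (g * h) = ch g * ch h := Pool.Agent.H3.cy_mul 1 g h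

theorem ch_one : ch 1 = 1 := Pool.Agent.H3.cy_one 1

theorem ch_or (g : Gam) : ch g = 1 ∨ ch g = -1 := Pool.Agent.H3.cy_one_or g

theorem ch_sq (g : Gam) : ch g * ch g = 1 := by
  rcases ch_or g with h | h <;> rw [h] <;> ring

theorem ch_sm : Sm ⊤ ch := Pool.Agent.H3.sm_cy 1

theorem ch_ine {w : Plc} (hw : w.p ≠ 3) {g : Gam} (hg : g ∈ Ine w) : ch g = 1 :=
  Pool.Agent.H3.cy_ine (m := 1) hw hg

theorem ch_frob {w : Plc} (hw : w.p ≠ 3) {n : ℕ} {φ : Gam} (hφ : IsFrob w n φ) : ch φ = n := by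
  have h := Pool.Agent.H3.cyc_frob hw hφ
  change PadicInt.toZModPow 1 (Pool.Agent.H3.cyc φ) = _
  rw [h]
  exact map_natCast _ n

theorem V_zt (w : Plc) (a : ZMod 3) : w.V (zt a) = 1 :=
  w.V_root_of_unity three_ne_zero (zt_cube a)

theorem zt_eq_of_V {w : Plc} (hw : w.p ≠ 3) {a b : ZMod 3} (h : w.V (zt a - zt b) < 1) :
    a = b := by
  have h1 : zt a / zt b = 1 := by
    refine w.eq_one_of_root (n := 3) (fun e => hw ((Nat.prime_dvd_prime_iff_eq w.prime
      Nat.prime_three).1 e)) ?_ ?_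
    · rw [div_pow, zt_cube, zt_cube, div_one]
    · rwa [div_sub_one (zt_ne b), map_div₀, V_zt, div_one]
  exact zt_inj ((div_eq_one_iff_eq (zt_ne b)).1 h1)

theorem cr_cube (x : Qbar) : cr x ^ 3 = x :=
  (IsAlgClosed.exists_pow_nat_eq x three_pos).choose_spec

theorem ex_spec {x y : Qbar} (h : x ^ 3 = y ^ 3) : x = zt (ex x y) * y := by
  have h1 : ∃ a, x = zt a * y := by
    by_cases hy : y = 0
    · refine ⟨0, ?_⟩
      rw [hy, zero_pow three_ne_zero] at h
      rw [hy, mul_zero]
      exact pow_eq_zero_iff three_ne_zero |>.1 h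
    · obtain ⟨a, ha⟩ := exists_zt (x := x / y) (by
        rw [div_pow, h, div_self (pow_ne_zero _ hy)])
      exact ⟨a, by rw [← ha, div_mul_cancel₀ _ hy]⟩
  rw [ex, dif_pos h1]
  exact h1.choose_spec

theorem ex_eq {x y : Qbar} {a : ZMod 3} (hy : y ≠ 0) (h : x = zt a * y) : ex x y = a := by
  have h1 := ex_spec (x := x) (y := y) (by rw [h, mul_pow, zt_cube, one_mul])
  exact zt_inj (mul_right_cancel₀ hy (h1.symm.trans h))

theorem ec_zero : ec 0 = 1 := AddChar.map_zero_eq_one _

theorem ec_add (a b : ZMod 3) : ec (a + b) = ec a * ec b := AddChar.map_add_eq_mul _ a b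

theorem norm_ec (a : ZMod 3) : ‖ec a‖ = 1 := by
  rw [ec, ZMod.stdAddChar_apply]
  exact Circle.norm_coe _

theorem ec_ne_one {a : ZMod 3} (h : a ≠ 0) : ec a ≠ 1 := fun e =>
  h (ZMod.injective_stdAddChar (e.trans ec_zero.symm))

end Pool.Agent.Lib.MP_696deb_nt.CU.Kt
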