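import Pool.Agent.Lib.MP_696deb_nt.CU.Kt0

/-! Global properties of the conjugates and of the cochain of cube roots. -/

set_option autoImplicit false

open Finset
open scoped Classical

namespace Pool.Agent.Lib.MP_696deb_nt.CU.Kt

open B2 hiding zeta cy cyc Gen Kum C2 Spl cup

variable {U : Type} [Fintype U] {m : U → ℕ} {β : U → Qbar} {d : U → Gam → ZMod 3}
  {n : (U → ZMod 3) → ℤ}

omit [Fintype U] in
theorem Rad.ne (h : Rad m β d) (j : U) : β j ≠ 0 := fun e => by
  have h1 := h.cube j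
  rw [e, zero_pow three_ne_zero] at h1
  exact h.pos j (Nat.cast_eq_zero.1 h1.symm)

omit [Fintype U] in
theorem Rad.coc (h : Rad m β d) (j : U) (g g' : Gam) : d j (g * g') = d j g + ch g * d j g' := by
  refine zt_inj (mul_right_cancel₀ (h.ne j) ?_)
  rw [← h.act, AlgEquiv.mul_apply, h.act j g', map_mul, smul_zt, h.act j g, zt_add]
  ring

omit [Fintype U] in
theorem Rad.sm (h : Rad m β d) (j : U) : Sm ⊤ (d j) :=
  ((sm_apply (H := ⊤) (β j)).comp fun x => ex x (β j)).congr fun g _ =>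
    ex_eq (h.ne j) (h.act j g)

omit [Fintype U] in
theorem ac_mul (h : Rad m β d) (g g' : Gam) (γ : U → ZMod 3) :
    ac d (g * g') γ = ac d g (ac d g' γ) := by
  funext j
  simp only [ac, h.coc, ch_mul]
  ring

theorem ac_bij (g : Gam) : Function.Bijective (ac d g) := by
  refine Finite.injective_iff_bijective.1 fun γ γ' e => funext fun j => ?_
  have h1 : ch g * γ j = ch g * γ' j := add_right_cancel (congrFun e j)
  rw [← one_mul (γ j), ← ch_sq g, mul_assoc, h1, ← mul_assoc, ch_sq, one_mul]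

theorem kta_smul_bT (h : Rad m β d) (g : Gam) (T : U → ZMod 3) :
    g (bT β T) = zt (∑ j, d j g * T j) * bT β T := by
  rw [bT, map_prod, zt_sum, ← prod_mul_distrib]
  refine prod_congr rfl fun j _ => ?_
  rw [map_pow, h.act, mul_pow, zt_pow, ZMod.natCast_zmod_val, mul_comm (T j)]

theorem smul_al (h : Rad m β d) (g : Gam) (γ : U → ZMod 3) :
    g (al β n γ) = al β n (ac d g γ) := by
  rw [al, al, map_sum]
  refine sum_congr rfl fun T _ => ?_
  have e : dot (ac d g γ) T = ch g * dot γ T + ∑ j, d j g * T j := by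
    simp only [dot, ac, add_mul, sum_add_distrib, mul_sum, mul_assoc]
  rw [map_mul, map_mul, map_intCast, smul_zt, kta_smul_bT h, e, zt_add, mul_assoc]

theorem isIntegral_al (h : Rad m β d) (γ : U → ZMod 3) : IsIntegral ℤ (al β n γ) :=
  IsIntegral.sum _ fun _ _ => (isIntegral_algebraMap (R := ℤ) (A := Qbar) (x := _)).mul
    ((IsIntegral.of_pow three_pos (by rw [zt_cube]; exact isIntegral_one)).mul
      (IsIntegral.prod _ fun j _ => (IsIntegral.of_pow three_pos (by
        rw [h.cube]; exact isIntegral_algebraMap (x := (m j : ℤ)))).pow _))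

theorem dot_comm (γ T : U → ZMod 3) : dot γ T = dot T γ :=
  sum_congr rfl fun _ _ => mul_comm _ _

theorem kta_sum_one (t : ZMod 3) : ∑ x : ZMod 3, zt (x * t) = if t = 0 then 3 else 0 := by
  split_ifs with h
  · simp [h, zt_zero]
  · have h1 : ∑ x : ZMod 3, zt ((x + 1) * t) = ∑ x : ZMod 3, zt (x * t) :=
      Equiv.sum_comp (Equiv.addRight (1 : ZMod 3)) fun x => zt (x * t)
    simp only [add_mul, one_mul, zt_add, ← sum_mul] at h1
    by_contra h2
    exact h (zt_inj ((mul_right_eq_self₀.1 h1).resolve_right h2 |>.trans zt_zero.symm))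

theorem kta_sum (T : U → ZMod 3) :
    ∑ γ : U → ZMod 3, zt (dot γ T) = if T = 0 then 3 ^ Fintype.card U else 0 := by
  simp only [dot, zt_sum]
  rw [← Fintype.piFinset_univ, ← prod_univ_sum (fun _ : U => univ) fun i x => zt (x * T i)]
  simp only [kta_sum_one]
  split_ifs with h
  · simp [h]
  · obtain ⟨i, hi⟩ := Function.ne_iff.1 h
    exact prod_eq_zero (mem_univ i) (if_neg hi)

theorem kta_inv (x : (U → ZMod 3) → Qbar) (T₀ : U → ZMod 3) (s : ZMod 3) (hs : s * s = 1) :
    ∑ γ, zt (-(s * dot γ T₀)) * ∑ T, zt (s * dot γ T) * x T = 3 ^ Fintype.card U * x T₀ := by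
  have e : ∀ T : U → ZMod 3, ∑ γ : U → ZMod 3, zt (-(s * dot γ T₀)) * (zt (s * dot γ T) * x T) =
      if T = T₀ then 3 ^ Fintype.card U * x T else 0 := fun T => by
    have h1 := kta_sum (s • (T - T₀))
    have h2 : ∀ γ : U → ZMod 3, dot γ (s • (T - T₀)) = -(s * dot γ T₀) + s * dot γ T := fun γ => by
      simp only [dot, Pi.smul_apply, Pi.sub_apply, smul_eq_mul, mul_sum, ← sum_neg_distrib,
        ← sum_add_distrib]
      exact sum_congr rfl fun _ _ => by ring
    have h3 : s • (T - T₀) = 0 ↔ T = T₀ := by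
      refine ⟨fun e => sub_eq_zero.1 ?_, fun e => by rw [e, sub_self, smul_zero]⟩
      rw [← one_smul (ZMod 3) (T - T₀), ← hs, mul_smul, e, smul_zero]
    simp only [h2, h3, zt_add] at h1
    simp only [← mul_assoc]
    rw [← sum_mul, h1]
    split_ifs <;> simp
  simp only [mul_sum]
  rw [sum_comm, sum_congr rfl fun T _ => e T]
  simp

/-- Fourier inversion. -/
theorem four (x : (U → ZMod 3) → Qbar) (T₀ : U → ZMod 3) :
    ∑ γ, zt (-dot γ T₀) * ∑ T, zt (dot γ T) * x T = 3 ^ Fintype.card U * x T₀ := by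
  simpa only [one_mul] using kta_inv x T₀ 1 (one_mul 1)

theorem four' (y : (U → ZMod 3) → Qbar) (γ₀ : U → ZMod 3) :
    ∑ T, zt (dot γ₀ T) * ∑ γ, zt (-dot γ T) * y γ = 3 ^ Fintype.card U * y γ₀ := by
  have h := kta_inv y γ₀ (-1) (by ring)
  simp only [neg_mul, one_mul, neg_neg] at h
  rw [← h]
  refine sum_congr rfl fun T _ => ?_
  rw [dot_comm γ₀]
  exact congrArg _ (sum_congr rfl fun γ _ => by rw [dot_comm γ])

theorem al_ne (h : Rad m β d) (hs : ∀ γ : U → ZMod 3, ∃ g, ch g = 1 ∧ ∀ j, d j g = γ j)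
    (hn : n ≠ 0) (γ : U → ZMod 3) : al β n γ ≠ 0 := by
  intro h0
  have h1 : ∀ δ, al β n δ = 0 := fun δ => by
    obtain ⟨g, hg, hd⟩ := hs (δ - γ)
    have h2 := smul_al (n := n) h g γ
    have h3 : ac d g γ = δ := funext fun j => by simp [ac, hg, hd]
    rw [h0, map_zero, h3] at h2
    exact h2.symm
  obtain ⟨T, hT⟩ := Function.ne_iff.1 hn
  have h3 := four (fun T => (n T : Qbar) * bT β T) T
  have h4 : ∀ δ : U → ZMod 3, ∑ T, zt (dot δ T) * ((n T : Qbar) * bT β T) = 0 := fun δ => by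
    rw [← h1 δ, al]
    exact sum_congr rfl fun T _ => by ring
  simp only [h4, mul_zero, sum_const_zero] at h3
  refine mul_ne_zero (pow_ne_zero _ three_ne_zero)
    (mul_ne_zero (Int.cast_ne_zero.2 hT) ?_) h3.symm
  exact prod_ne_zero_iff.2 fun j _ => pow_ne_zero _ (h.ne j)

end Pool.Agent.Lib.MP_696deb_nt.CU.Kt
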