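import Pool.Agent.Lib.MP_696deb_nt.CU.KtA

/-! The cochain of cube roots, norms and products. -/

set_option autoImplicit false

open Finset
open scoped Classical

namespace Pool.Agent.Lib.MP_696deb_nt.CU.Kt

open B2 hiding zeta cy cyc Gen Kum C2 Spl cup

variable {U : Type} [Fintype U] {m : U → ℕ} {β : U → Qbar} {d : U → Gam → ZMod 3}
  {n : (U → ZMod 3) → ℤ}

theorem kap_spec (h : Rad m β d) (g : Gam) (γ : U → ZMod 3) :
    g (cr (al β n γ)) = zt (kap β d n g γ) * cr (al β n (ac d g γ)) :=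
  ex_spec (by rw [← map_pow, cr_cube, cr_cube, smul_al h])

theorem kap_mul (h : Rad m β d) (h0 : ∀ γ, al β n γ ≠ 0) (g g' : Gam) (γ : U → ZMod 3) :
    kap β d n (g * g') γ = kap β d n g (ac d g' γ) + ch g * kap β d n g' γ := by
  refine ex_eq (fun e => h0 (ac d (g * g') γ) ?_) ?_
  · rw [← cr_cube (al β n _), e, zero_pow three_ne_zero]
  · rw [AlgEquiv.mul_apply, kap_spec h g', map_mul, smul_zt, kap_spec h g, ac_mul h, zt_add]
    ring

theorem Ph_fam (h : Rad m β d) (h0 : ∀ γ, al β n γ ≠ 0) : Fam d (Ph β d n) := by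
  refine ⟨fun T => ?_, fun T g g' => ?_⟩
  · have h1 : Sm ⊤ (ac d) := ch_sm.comp₂ (Sm.pi h.sm) fun c e (γ : U → ZMod 3) j => c * γ j + e j
    exact h1.comp₂ (Sm.pi fun δ => sm_apply (cr (al β n δ))) fun a F =>
      ∑ γ, (∏ j ∈ T, a γ j) * ex (F γ) (cr (al β n (a γ)))
  · simp only [Ph, kap_mul h h0, ac_mul h, mul_add, sum_add_distrib]
    congr 1
    · exact (ac_bij g').sum_comp fun γ => (∏ j ∈ T, ac d g γ j) * kap β d n g γ
    · simp only [mul_sum]
      rw [sum_comm]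
      refine sum_congr rfl fun γ _ => ?_
      have e : ∏ j ∈ T, ac d g (ac d g' γ) j = ∏ j ∈ T, (d j g + ch g * ac d g' γ j) :=
        prod_congr rfl fun j _ => add_comm _ _
      rw [e, prod_add, sum_mul]
      refine sum_congr rfl fun R _ => ?_
      rw [prod_mul_distrib, prod_const]
      ring

theorem exists_norm (h : Rad m β d) : ∃ N : ℤ, ∏ γ, al β n γ = N := by
  have h1 : Fx ⊤ (∏ γ, al β n γ) := fun g _ => by
    rw [map_prod]
    simp only [smul_al h]
    exact (ac_bij g).prod_comp (al β n)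
  obtain ⟨r, hr⟩ := fx_top h1
  have h2 : IsIntegral ℤ (algebraMap ℚ Qbar r) := by
    rw [eq_ratCast, ← hr]
    exact IsIntegral.prod _ fun γ _ => isIntegral_al h γ
  obtain ⟨N, hN⟩ := IsIntegrallyClosed.isIntegral_iff.1
    ((isIntegral_algebraMap_iff (algebraMap ℚ Qbar).injective).1 h2)
  exact ⟨N, by rw [hr, ← hN]; simp⟩

theorem kta2_card : Fintype.card (U → ZMod 3) = 3 ^ Fintype.card U := by simp

theorem kta2_zt (a : ZMod 3) : ‖jC (zt a)‖ = 1 :=
  (pow_eq_one_iff_of_nonneg (norm_nonneg _) three_ne_zero).1 (by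
    rw [← norm_pow, ← map_pow, zt_cube, map_one, norm_one])

omit [Fintype U] in
theorem kta2_root (h : Rad m β d) (j : U) (t : ZMod 3) : ‖jC (β j)‖ ^ t.val ≤ m j := by
  have h1 : (1 : ℝ) ≤ m j := by exact_mod_cast Nat.one_le_iff_ne_zero.2 (h.pos j)
  have h2 : ‖jC (β j)‖ ^ 3 = m j := by
    rw [← norm_pow, ← map_pow, h.cube, map_natCast, Complex.norm_natCast]
  rw [← h2] at h1 ⊢
  exact pow_le_pow_right₀ ((one_le_pow_iff_of_nonneg (norm_nonneg _) three_ne_zero).1 h1)
    (ZMod.val_lt t).le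

theorem norm_le (h : Rad m β d) {N : ℤ} (hN : ∏ γ, al β n γ = N) {B : ℕ} (hB : ∀ T, |n T| ≤ B) :
    |N| ≤ ((3 ^ Fintype.card U * ∏ j, m j) ^ 3 ^ Fintype.card U * B ^ 3 ^ Fintype.card U : ℕ) := by
  have h1 : ∀ γ, ‖jC (al β n γ)‖ ≤ (3 ^ Fintype.card U * ∏ i, (m i : ℝ)) * B := fun γ => by
    rw [al, map_sum]
    refine (norm_sum_le _ _).trans ((sum_le_card_nsmul _ _ ((∏ i, (m i : ℝ)) * B)
      fun T _ => ?_).trans_eq ?_)
    · rw [map_mul, map_mul, norm_mul, norm_mul, kta2_zt, one_mul, map_intCast,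
        Complex.norm_intCast, mul_comm, bT, map_prod, norm_prod]
      refine mul_le_mul (prod_le_prod (fun i _ => norm_nonneg _) fun i _ => ?_) ?_ (abs_nonneg _)
        (by positivity)
      · rw [map_pow, norm_pow]
        exact kta2_root h i _
      · exact_mod_cast hB T
    · rw [card_univ, kta2_card, nsmul_eq_mul]
      push_cast
      ring
  have h2 : (|N| : ℝ) ≤ ((3 ^ Fintype.card U * ∏ i, (m i : ℝ)) * B) ^ 3 ^ Fintype.card U := by
    rw [← Complex.norm_intCast, ← map_intCast jC, ← hN, map_prod, norm_prod]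
    refine (prod_le_prod (fun γ _ => norm_nonneg _) fun γ _ => h1 γ).trans_eq ?_
    rw [prod_const, card_univ, kta2_card]
  rw [mul_pow] at h2
  exact_mod_cast h2

theorem kta2_bT (h : Rad m β d) (T T' : U → ZMod 3) :
    bT β T * bT β T' = car m T T' * bT β (T + T') := by
  rw [bT, bT, bT, car, Nat.cast_prod, ← prod_mul_distrib, ← prod_mul_distrib]
  refine prod_congr rfl fun j _ => ?_
  rw [← pow_add, Pi.add_apply]
  split_ifs with k
  · rw [ZMod.val_add_val_of_le k, pow_add, h.cube, mul_comm]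
  · rw [ZMod.val_add_of_lt (not_le.1 k), Nat.cast_one, one_mul]

theorem al_mul (h : Rad m β d) (n n' : (U → ZMod 3) → ℤ) (γ : U → ZMod 3) :
    al β (mul m n n') γ = al β n γ * al β n' γ := by
  simp only [al, mul, Int.cast_sum, sum_mul]
  rw [sum_comm]
  refine sum_congr rfl fun T _ => ?_
  rw [mul_sum, ← Equiv.sum_comp (Equiv.addLeft T)]
  refine sum_congr rfl fun T' _ => ?_
  have e : dot γ (T + T') = dot γ T + dot γ T' := by
    simp only [dot, Pi.add_apply, mul_add, sum_add_distrib]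
  rw [Equiv.coe_addLeft, add_sub_cancel_left, e, zt_add]
  push_cast
  linear_combination (-(n T * n' T' * zt (dot γ T) * zt (dot γ T'))) * kta2_bT h T T'

theorem mul_le (h : Rad m β d) {n n' : (U → ZMod 3) → ℤ} {B B' : ℕ} (hB : ∀ T, |n T| ≤ B)
    (hB' : ∀ T, |n' T| ≤ B') (T : U → ZMod 3) :
    |mul m n n' T| ≤ ((3 ^ Fintype.card U * ∏ j, m j) * B * B' : ℕ) := by
  refine (abs_sum_le_sum_abs _ _).trans ((sum_le_card_nsmul _ _
    ((B : ℤ) * B' * (∏ j, m j : ℕ)) fun T' _ => ?_).trans_eq ?_)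
  · have e : car m T' (T - T') ≤ ∏ j, m j := prod_le_prod' fun j _ => by
      split_ifs
      exacts [le_rfl, Nat.one_le_iff_ne_zero.2 (h.pos j)]
    rw [abs_mul, abs_mul, Nat.abs_cast]
    exact mul_le_mul (mul_le_mul (hB _) (hB' _) (abs_nonneg _) (by positivity))
      (Nat.cast_le.2 e) (by positivity) (by positivity)
  · rw [card_univ, kta2_card, nsmul_eq_mul]
    push_cast
    ring

theorem exists_prod (h : Rad m β d) {t B : ℕ} (v : Fin t → (U → ZMod 3) → ℤ)
    (hv : ∀ i T, |v i T| ≤ B) : ∃ u : (U → ZMod 3) → ℤ,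
      (∀ T, |u T| ≤ (((3 ^ Fintype.card U * ∏ j, m j) * B) ^ t : ℕ)) ∧
        ∀ γ, al β u γ = ∏ i, al β (v i) γ := by
  induction t with
  | zero =>
    refine ⟨Pi.single 0 1, fun T => ?_, fun γ => ?_⟩
    · rw [Pi.single_apply]
      split_ifs <;> simp
    · rw [al, sum_eq_single 0 (fun T _ k => by rw [Pi.single_eq_of_ne k, Int.cast_zero, zero_mul])
        fun k => absurd (mem_univ _) k]
      simp [dot, bT, zt_zero]
  | succ t ih =>
    obtain ⟨u, h1, h2⟩ := ih (fun i => v i.succ) fun i => hv i.succ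
    refine ⟨mul m (v 0) u, fun T => ?_, fun γ => ?_⟩
    · rw [pow_succ']
      exact mul_le h (hv 0) h1 T
    · rw [al_mul h, h2, Fin.prod_univ_succ]

end Pool.Agent.Lib.MP_696deb_nt.CU.Kt
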