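import Pool.Agent.Lib.MP_696deb_nt.CU.KtB

/-! The cochain at inertia elements, and small numbers above a prime. -/

set_option autoImplicit false

open Finset
open scoped Classical NNReal

namespace Pool.Agent.Lib.MP_696deb_nt.CU.Kt

open B2 hiding zeta cy cyc Gen Kum C2 Spl cup

variable {U : Type} [Fintype U] {m : U → ℕ} {β : U → Qbar} {d : U → Gam → ZMod 3}
  {n : (U → ZMod 3) → ℤ} {w : Plc} {σ φ : Gam}

theorem V_al_le (h : Rad m β d) (w : Plc) (γ : U → ZMod 3) : w.V (al β n γ) ≤ 1 :=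
  w.V_le_one_of_isIntegral (isIntegral_al h γ)

theorem ktb2_prod_le (h : Rad m β d) (w : Plc) (s : Finset (U → ZMod 3)) :
    w.V (∏ γ ∈ s, al β n γ) ≤ 1 := by
  rw [map_prod]
  exact prod_le_one' fun γ _ => V_al_le h w γ

theorem ktb2_one (h : Rad m β d) (w : Plc) (γ : U → ZMod 3) :
    w.V (∏ γ, al β n γ) ≤ w.V (al β n γ) := by
  rw [← mul_prod_erase univ _ (mem_univ γ), map_mul]
  exact mul_le_of_le_one_right' (ktb2_prod_le h w _)

theorem ktb2_pair (h : Rad m β d) (w : Plc) {γ γ' : U → ZMod 3} (hγ : γ' ≠ γ) :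
    w.V (∏ γ, al β n γ) ≤ w.V (al β n γ) * w.V (al β n γ') := by
  rw [← mul_prod_erase univ _ (mem_univ γ), ← mul_prod_erase _ _ (mem_erase.2 ⟨hγ, mem_univ γ'⟩),
    map_mul, map_mul, ← mul_assoc]
  exact mul_le_of_le_one_right' (ktb2_prod_le h w _)

omit [Fintype U] in
theorem ktb2_ac (h : Rad m β d) (hw : w.p ≠ 3) (hσ : σ ∈ Ine w) (hm : ∀ j, ¬ w.p ∣ m j)
    (γ : U → ZMod 3) : ac d σ γ = γ :=
  funext fun j => by rw [ac, ch_ine hw hσ, d_ine h hw hσ (hm j), one_mul, add_zero]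

theorem ktb2_fix (h : Rad m β d) (hw : w.p ≠ 3) (hσ : σ ∈ Ine w) (hm : ∀ j, ¬ w.p ∣ m j)
    {γ : U → ZMod 3} (hV : w.V (al β n γ) = 1) : kap β d n σ γ = 0 := by
  have h1 : w.V (cr (al β n γ)) = 1 := by
    rw [← cr_cube (al β n γ), map_pow] at hV
    exact (pow_eq_one_iff_of_nonneg zero_le three_ne_zero).1 hV
  rw [kap, ktb2_ac h hw hσ hm]
  refine ex_eq (fun e => ?_) ?_
  · rw [e, map_zero] at h1
    exact zero_ne_one h1
  · rw [zt_zero, one_mul]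
    exact unit_fix hw hσ h1 (by rw [cr_cube, smul_al h, ktb2_ac h hw hσ hm])

theorem V_al (h : Rad m β d) {N : ℤ} (hN : ∏ γ, al β n γ = N) (hp : ¬ (w.p : ℤ) ∣ N)
    (γ : U → ZMod 3) : w.V (al β n γ) = 1 := by
  refine (V_al_le h w γ).antisymm ?_
  rw [← w.V_int_eq_one.2 hp, ← hN]
  exact ktb2_one h w γ

theorem Ph_ine (h : Rad m β d) (hw : w.p ≠ 3) (hσ : σ ∈ Ine w) (hm : ∀ j, ¬ w.p ∣ m j) {N : ℤ}
    (hN : ∏ γ, al β n γ = N) (hp : ¬ (w.p : ℤ) ∣ N) (T : Finset U) : Ph β d n T σ = 0 :=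
  sum_eq_zero fun γ _ => by rw [ktb2_fix h hw hσ hm (V_al h hN hp γ), mul_zero]

theorem ktb2_gn (h : Rad m β d) (hw : w.p ≠ 3) (hσ : Gn w σ) (hm : ∀ j, ¬ w.p ∣ m j) {c : ℤ}
    (hN : ∏ γ, al β n γ = (c * w.p : ℤ)) (hc : ¬ (w.p : ℤ) ∣ c) (h0 : w.V (al β n 0) < 1)
    (γ : U → ZMod 3) : kap β d n σ γ = if γ = 0 then 1 else 0 := by
  have hp : (0 : ℝ≥0) < (w.p : ℝ≥0)⁻¹ := inv_pos.2 (one_pos.trans (b2a_one_lt w))
  have hV : w.V (∏ γ, al β n γ) = (w.p : ℝ≥0)⁻¹ := by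
    rw [hN, Int.cast_mul, map_mul, w.V_int_eq_one.2 hc, one_mul, Int.cast_natCast, w.hV]
  have h1 : (w.p : ℝ≥0)⁻¹ ≤ w.V (al β n 0) := hV ▸ ktb2_one h w 0
  have a0 : al β n 0 ≠ 0 := fun k => by
    rw [k, map_zero] at h1
    exact hp.not_ge h1
  have h2 : w.V (al β n 0) = (w.p : ℝ≥0)⁻¹ := by
    refine le_antisymm ?_ h1
    obtain ⟨k, hk⟩ := V_of_fx_ine (w := w) (x := al β n 0)
      (fun τ hτ => by rw [smul_al h, ktb2_ac h hw hτ hm]) a0
    rw [hk, ← zpow_neg] at h0 ⊢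
    rw [← zpow_neg_one]
    have := (zpow_lt_one_iff_right₀ (b2a_one_lt w)).1 h0
    exact zpow_le_zpow_right₀ (b2a_one_lt w).le (by omega)
  split_ifs with hγ
  · subst hγ
    rw [kap, ktb2_ac h hw hσ.1 hm]
    refine ex_eq (fun e => a0 ?_) ?_
    · rw [← cr_cube (al β n 0), e, zero_pow three_ne_zero]
    · have := gn_cube hw hσ (x := cr (al β n 0)) (k := 1)
        (by rw [cr_cube, smul_al h, ktb2_ac h hw hσ.1 hm]) (by rw [cr_cube, h2, pow_one])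
      rwa [Nat.cast_one] at this
  · refine ktb2_fix h hw hσ.1 hm ((V_al_le h w γ).antisymm ?_)
    have h3 := ktb2_pair (n := n) h w hγ
    rw [hV, h2] at h3
    exact (le_mul_iff_one_le_right hp).1 h3

theorem Ph_gn (h : Rad m β d) (hw : w.p ≠ 3) (hσ : Gn w σ) (hm : ∀ j, ¬ w.p ∣ m j) {c : ℤ}
    (hN : ∏ γ, al β n γ = (c * w.p : ℤ)) (hc : ¬ (w.p : ℤ) ∣ c) (h0 : w.V (al β n 0) < 1)
    (T : Finset U) : Ph β d n T σ = if T = ∅ then 1 else 0 := by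
  simp only [Ph, ktb2_gn h hw hσ hm hN hc h0, ktb2_ac h hw hσ.1 hm, mul_ite, mul_one, mul_zero,
    sum_ite_eq', mem_univ, if_true]
  split_ifs with hT
  · rw [hT, prod_empty]
  · obtain ⟨j, hj⟩ := nonempty_iff_ne_empty.2 hT
    exact prod_eq_zero hj rfl

theorem ktb2_red (h : Rad m β d) (hw : Spt m d w φ) (T : U → ZMod 3) :
    ∃ a : ℤ, w.V (bT β T - a) < 1 := by
  refine int_of_frob hw.frob ?_ ?_
  · rw [bT, map_prod]
    refine prod_le_one' fun j _ => b2a_pow_le w ?_ _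
    have h1 : w.V (β j) ^ 3 ≤ 1 := by
      rw [← map_pow, h.cube]
      exact_mod_cast w.V_int_le (m j)
    exact (pow_le_one_iff_of_nonneg zero_le three_ne_zero).1 h1
  · have : φ (bT β T) = bT β T := by
      rw [bT, map_prod]
      exact prod_congr rfl fun j _ => by rw [map_pow, h.act, hw.fix, zt_zero, one_mul]
    rw [this, sub_self, map_zero]
    exact zero_lt_one

/-- A small number of the field whose norm is a small multiple of the prime. -/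
theorem exists_ptr (h : Rad m β d) (hs : ∀ γ : U → ZMod 3, ∃ g, ch g = 1 ∧ ∀ j, d j g = γ j)
    (hw : Spt m d w φ) {B : ℕ} (h1 : B ^ 3 ^ Fintype.card U ≤ 2 * w.p)
    (h2 : w.p < (B + 1) ^ 3 ^ Fintype.card U) :
    ∃ (n : (U → ZMod 3) → ℤ) (c : ℤ), (∀ T, |n T| ≤ B) ∧ (∀ γ, al β n γ ≠ 0) ∧ c ≠ 0 ∧
      |c| ≤ (2 * (3 ^ Fintype.card U * ∏ j, m j) ^ 3 ^ Fintype.card U : ℕ) ∧
      ∏ γ, al β n γ = (c * w.p : ℤ) ∧ w.V (al β n 0) < 1 := by
  choose ρ hρ using ktb2_red h hw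
  obtain ⟨n, n0, hB, hn⟩ := Sm.thue ρ w.prime.pos (B := B) (by simpa using h2)
  have a0 := al_ne h hs n0
  have h3 : w.V (al β n 0) < 1 := by
    have e : w.V (al β n 0 - (∑ T, ρ T * n T : ℤ)) < 1 := by
      rw [al, Int.cast_sum, ← sum_sub_distrib]
      refine w.V.map_sum_lt one_ne_zero fun T _ => ?_
      convert b2a_mul_lt w (w.V_int_le (n T)) (hρ T) using 2
      simp only [dot, Pi.zero_apply, zero_mul, sum_const_zero, zt_zero]
      push_cast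
      ring
    simpa using w.V.map_add_lt e (b2c_lt.2 hn)
  obtain ⟨N, hN⟩ := exists_norm (n := n) h
  obtain ⟨c, rfl⟩ : (w.p : ℤ) ∣ N := b2c_lt.1 (hN ▸ (ktb2_one h w 0).trans_lt h3)
  refine ⟨n, c, hB, a0, fun k => ?_, ?_, by rw [hN, mul_comm], h3⟩
  · exact prod_ne_zero_iff.2 (fun γ _ => a0 γ) (by simpa [k] using hN)
  · have h4 := norm_le h hN hB
    have h5 : (0 : ℤ) < w.p := by exact_mod_cast w.prime.pos
    rw [abs_mul, abs_of_pos h5, mul_comm, Nat.cast_mul] at h4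
    have h6 : ((B ^ 3 ^ Fintype.card U : ℕ) : ℤ) ≤ 2 * w.p := by exact_mod_cast h1
    refine le_of_mul_le_mul_right
      ((h4.trans (mul_le_mul_of_nonneg_left h6 (Nat.cast_nonneg _))).trans_eq ?_) h5
    push_cast
    ring

end Pool.Agent.Lib.MP_696deb_nt.CU.Kt
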