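import Pool.Agent.Lib.MP_696deb_nt.CU.KtB2

/-! The kernel: multiplicative, periodic, of mean zero. -/

set_option autoImplicit false

open Finset
open scoped Classical NNReal

namespace Pool.Agent.Lib.MP_696deb_nt.CU.Kt

open B2 hiding zeta cy cyc Gen Kum C2 Spl cup

variable {U : Type} [Fintype U] {m : U → ℕ} {β : U → Qbar} {d : U → Gam → ZMod 3}
  {n : (U → ZMod 3) → ℤ} {w : Plc} {σ φ : Gam}

theorem ktc_three (hw : w.p ≠ 3) : 3 * ((w.p ^ 2 - 1) / 3) + 1 = w.p ^ 2 := by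
  have h0 : w.p % 3 ≠ 0 := fun e =>
    hw ((Nat.prime_dvd_prime_iff_eq Nat.prime_three w.prime).1 (Nat.dvd_of_mod_eq_zero e)).symm
  have h1 : w.p ^ 2 % 3 = 1 := by
    rw [Nat.pow_mod]
    rcases (by omega : w.p % 3 = 1 ∨ w.p % 3 = 2) with e | e <;> rw [e]
  omega

theorem sym_eq (hw : w.p ≠ 3) {x : Qbar} {a : ZMod 3}
    (h : w.V (x ^ ((w.p ^ 2 - 1) / 3) - zt a) < 1) : sym w x = a := by
  have h1 : ∃ a, w.V (x ^ ((w.p ^ 2 - 1) / 3) - zt a) < 1 := ⟨a, h⟩
  rw [sym, dif_pos h1]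
  refine zt_eq_of_V hw ?_
  have h2 := w.V.map_sub_lt h h1.choose_spec
  rwa [sub_sub_sub_cancel_left] at h2

theorem ktc_cube (y : Qbar) : y ^ 3 - 1 = (y - zt 0) * (y - zt 1) * (y - zt 2) := by
  have h1 : zt 1 ≠ 1 := fun e => absurd (zt_inj (e.trans zt_zero.symm)) (by decide)
  have h2 : zt 2 = zt 1 ^ 2 := by rw [pow_two, ← zt_add]; rfl
  have h3 := zt_cube 1
  have h4 : zt 1 ^ 2 + zt 1 + 1 = 0 := by
    refine mul_left_cancel₀ (sub_ne_zero.2 h1) ?_
    linear_combination h3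
  rw [zt_zero, h2]
  linear_combination (y ^ 2 - y) * h4 + (1 - y) * h3

theorem sym_spec (hw : w.p ≠ 3) {x : Qbar} (hx : w.V x = 1) (h : w.V (x ^ w.p ^ 2 - x) < 1) :
    w.V (x ^ ((w.p ^ 2 - 1) / 3) - zt (sym w x)) < 1 := by
  have h1 : ∃ a, w.V (x ^ ((w.p ^ 2 - 1) / 3) - zt a) < 1 := by
    by_contra hc
    push Not at hc
    have e : x ^ w.p ^ 2 - x = x * ((x ^ ((w.p ^ 2 - 1) / 3)) ^ 3 - 1) := by
      conv_lhs => rw [← ktc_three hw]
      ring
    rw [e, ktc_cube, map_mul, map_mul, map_mul, hx, one_mul] at h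
    exact h.not_ge (one_le_mul (one_le_mul (hc 0) (hc 1)) (hc 2))
  obtain ⟨a, ha⟩ := h1
  rwa [sym_eq hw ha]

theorem sym_congr {x y : Qbar} (hx : w.V x ≤ 1) (h : w.V (x - y) < 1) : sym w x = sym w y := by
  have hy : w.V y ≤ 1 := by
    have h1 := w.V.map_sub_le hx h.le
    rwa [sub_sub_cancel] at h1
  have h1 := b2a_pow_sub w hx hy h ((w.p ^ 2 - 1) / 3)
  have key : ∀ P Q : ZMod 3 → Prop, P = Q →
      (if h : ∃ a, P a then h.choose else 0) = (if h : ∃ a, Q a then h.choose else 0) := by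
    rintro P Q rfl
    rfl
  refine key _ _ (funext fun a => propext ⟨fun k => ?_, fun k => ?_⟩)
  · have h2 := w.V.map_sub_lt k h1
    rwa [sub_sub_sub_cancel_left] at h2
  · have h2 := w.V.map_add_lt h1 k
    rwa [sub_add_sub_cancel] at h2

omit [Fintype U] in
theorem ktc_ac (h : Rad m β d) (hw : Spt m d w φ) (γ : U → ZMod 3) : ac d (φ * φ) γ = γ := by
  funext j
  rw [ac, ch_mul, ch_sq, h.coc, hw.fix]
  ring

theorem al_res (h : Rad m β d) (hw : Spt m d w φ) (γ : U → ZMod 3) :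
    w.V (al β n γ ^ w.p ^ 2 - al β n γ) < 1 := by
  have h1 := (hw.frob.mul hw.frob).2 _ (V_al_le (n := n) h w γ)
  rwa [smul_al h, ktc_ac h hw, w.V.map_sub_swap, ← pow_two] at h1

theorem norm_th_le (β : U → Qbar) (w : Plc) (t : ZMod 3) (n : (U → ZMod 3) → ℤ) :
    ‖th β w t n‖ ≤ 1 := by
  rw [th]
  split_ifs
  · exact (norm_ec _).le
  · simp

theorem th_congr (h : Rad m β d) (t : ZMod 3) {v v' : (U → ZMod 3) → ℤ}
    (hv : ∀ T, v T ≡ v' T [ZMOD w.p]) : th β w t v = th β w t v' := by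
  choose c hc using fun T => (hv T).symm.dvd
  have h1 : ∀ γ, w.V (al β v γ - al β v' γ) < 1 := fun γ => by
    have e : al β v γ - al β v' γ = al β c γ * w.p := by
      rw [al, al, al, ← sum_sub_distrib, sum_mul]
      refine sum_congr rfl fun T _ => ?_
      rw [← sub_mul, ← Int.cast_sub, hc]
      push_cast
      ring
    rw [e]
    exact b2a_mul_lt w (V_al_le h w γ) (b2a_p_lt w)
  have h2 : (∀ γ, w.V (al β v γ) = 1) ↔ ∀ γ, w.V (al β v' γ) = 1 := by
    refine forall_congr' fun γ => ⟨fun k => ?_, fun k => ?_⟩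
    · rw [← k]
      exact w.V.map_eq_of_sub_lt (by rw [k, w.V.map_sub_swap]; exact h1 γ)
    · rw [← k]
      exact w.V.map_eq_of_sub_lt (by rw [k]; exact h1 γ)
  rw [th, th]
  refine if_congr h2 ?_ rfl
  congr 2
  exact sum_congr rfl fun γ _ => by rw [sym_congr (V_al_le h w γ) (h1 γ)]

theorem ktc_prod_sub {ι : Type} (s : Finset ι) {x y : ι → Qbar} (hy : ∀ i ∈ s, w.V (y i) ≤ 1)
    (h : ∀ i ∈ s, w.V (x i - y i) < 1) : w.V (∏ i ∈ s, x i - ∏ i ∈ s, y i) < 1 := by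
  induction s using Finset.induction_on with
  | empty => simp
  | insert i s hi ih =>
    have h1 := ih (fun j hj => hy j (mem_insert_of_mem hj)) fun j hj => h j (mem_insert_of_mem hj)
    have h2 := h i (mem_insert_self i s)
    have h3 : w.V (x i) ≤ 1 := by
      have h4 := w.V.map_add_le h2.le (hy i (mem_insert_self i s))
      rwa [sub_add_cancel] at h4
    have h4 : w.V (∏ j ∈ s, y j) ≤ 1 := by
      rw [map_prod]
      exact prod_le_one' fun j hj => hy j (mem_insert_of_mem hj)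
    rw [prod_insert hi, prod_insert hi, show x i * ∏ j ∈ s, x j - y i * ∏ j ∈ s, y j =
      x i * (∏ j ∈ s, x j - ∏ j ∈ s, y j) + (∏ j ∈ s, y j) * (x i - y i) by ring]
    exact w.V.map_add_lt (b2a_mul_lt w h3 h1) (b2a_mul_lt w h4 h2)

theorem ktc_ec_sum {ι : Type} (s : Finset ι) (a : ι → ZMod 3) :
    ec (∑ i ∈ s, a i) = ∏ i ∈ s, ec (a i) := by
  induction s using Finset.induction_on with
  | empty => simp [ec_zero]
  | insert i s hi ih => rw [sum_insert hi, prod_insert hi, ec_add, ih]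

theorem th_prod (h : Rad m β d) (hw : Spt m d w φ) (t : ZMod 3) {ι : Type} (s : Finset ι)
    {u : (U → ZMod 3) → ℤ} {v : ι → (U → ZMod 3) → ℤ}
    (hu : ∀ γ, al β u γ = ∏ i ∈ s, al β (v i) γ) : th β w t u = ∏ i ∈ s, th β w t (v i) := by
  by_cases hall : ∀ i ∈ s, ∀ γ, w.V (al β (v i) γ) = 1
  · have h1 : ∀ γ, w.V (al β u γ) = 1 := fun γ => by
      rw [hu, map_prod]
      exact prod_eq_one fun i hi => hall i hi γ
    have h2 : ∀ γ, sym w (al β u γ) = ∑ i ∈ s, sym w (al β (v i) γ) := fun γ => by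
      refine sym_eq hw.ne3 ?_
      rw [hu, ← prod_pow, zt_sum]
      exact ktc_prod_sub s (fun i _ => (V_zt w _).le) fun i hi =>
        sym_spec hw.ne3 (hall i hi γ) (al_res h hw γ)
    rw [th, if_pos h1, prod_congr rfl fun i hi => (by rw [th, if_pos (hall i hi)] :
      th β w t (v i) = ec (t * ∑ γ, (∏ j, γ j) * sym w (al β (v i) γ))), ← ktc_ec_sum, ← mul_sum,
      sum_comm]
    congr 2
    exact sum_congr rfl fun γ _ => by rw [h2, mul_sum]
  · push Not at hall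
    obtain ⟨i, hi, γ, hγ⟩ := hall
    rw [prod_eq_zero hi (by rw [th, if_neg fun k => hγ (k γ)]), th, if_neg]
    intro k
    have h1 := k γ
    rw [hu, map_prod, ← mul_prod_erase s _ hi, mul_comm] at h1
    exact (mul_lt_one_of_nonneg_of_lt_one_right (prod_le_one' fun j _ => V_al_le h w γ) zero_le
      ((V_al_le h w γ).lt_of_ne hγ)).ne h1

theorem ktc_kap (h : Rad m β d) (hw : Spt m d w φ) {γ : U → ZMod 3} (hV : w.V (al β n γ) = 1) :
    kap β d n (φ * φ) γ = sym w (al β n γ) := by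
  have h1 : w.V (cr (al β n γ)) = 1 := by
    rw [← pow_eq_one_iff_of_nonneg zero_le three_ne_zero, ← map_pow, cr_cube, hV]
  have h2 := (hw.frob.mul hw.frob).2 _ h1.le
  rw [kap_spec h, ktc_ac h hw, ← pow_two w.p, ← ktc_three hw.ne3, pow_succ, pow_mul, cr_cube,
    ← sub_mul, map_mul, h1, mul_one, w.V.map_sub_swap] at h2
  exact (sym_eq hw.ne3 h2).symm

theorem Ph_frob (h : Rad m β d) (hw : Spt m d w φ) (he : ch φ ^ (Fintype.card U + 1) = 1)
    (hV : ∀ γ, w.V (al β n γ) = 1) (t : ZMod 3) :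
    ec (t * Ph β d n univ φ) = th β w (-t) n := by
  have h0 : ∀ γ, al β n γ ≠ 0 := fun γ e => by
    have h1 := hV γ
    rw [e, map_zero] at h1
    exact zero_ne_one h1
  have h1 := (Ph_fam h h0).2 univ φ φ
  rw [sum_eq_single ∅ (fun R _ hR => by
      obtain ⟨j, hj⟩ := nonempty_iff_ne_empty.2 hR
      rw [prod_eq_zero hj (hw.fix j), zero_mul, zero_mul]) (by simp),
    prod_empty, sdiff_empty, card_univ, he, one_mul, one_mul] at h1
  have h2 : Ph β d n univ (φ * φ) = ∑ γ, (∏ j, γ j) * sym w (al β n γ) :=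
    sum_congr rfl fun γ _ => by rw [ktc_ac h hw, ktc_kap h hw (hV γ)]
  have h3 : (3 : ZMod 3) = 0 := by decide
  rw [th, if_pos hV, ← h2, h1]
  congr 1
  linear_combination (t * Ph β d n univ φ) * h3

end Pool.Agent.Lib.MP_696deb_nt.CU.Kt
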