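import Pool.Agent.Lib.MP_696deb_nt.CU.KtC

/-! The kernel has mean zero. -/

set_option autoImplicit false

open Finset
open scoped Classical NNReal

namespace Pool.Agent.Lib.MP_696deb_nt.CU.Kt

open B2 hiding zeta cy cyc Gen Kum C2 Spl cup

variable {U : Type} [Fintype U] {m : U → ℕ} {β : U → Qbar} {d : U → Gam → ZMod 3}
  {n : (U → ZMod 3) → ℤ} {w : Plc} {σ φ : Gam}

theorem ktc2_bT (h : Rad m β d) (hw : Spt m d w φ) (T : U → ZMod 3) : w.V (bT β T) = 1 := by
  rw [bT, map_prod]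
  refine prod_eq_one fun j _ => ?_
  have h1 : w.V (β j) ^ 3 = 1 := by
    rw [← map_pow, h.cube, ← Int.cast_natCast]
    exact w.V_int_eq_one.2 fun k => hw.ndvd j (Int.natCast_dvd_natCast.1 k)
  rw [map_pow, (pow_eq_one_iff_of_nonneg zero_le three_ne_zero).1 h1, one_pow]

theorem ktc2_three (hw : w.p ≠ 3) (k : ℕ) : w.V (3 ^ k) = 1 := by
  have h1 : w.V ((3 : ℤ) : Qbar) = 1 := w.V_int_eq_one.2 fun e =>
    hw ((Nat.prime_dvd_prime_iff_eq w.prime Nat.prime_three).1 (by exact_mod_cast e))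
  rw [map_pow, show (3 : Qbar) = ((3 : ℤ) : Qbar) by norm_num, h1, one_pow]

theorem ktc2_sub (v v' : (U → ZMod 3) → ℤ) (γ : U → ZMod 3) :
    al β (v - v') γ = al β v γ - al β v' γ := by
  simp only [al, Pi.sub_apply, Int.cast_sub, sub_mul, sum_sub_distrib]

theorem ktc2_lt (h : Rad m β d) (hw : Spt m d w φ) (x : (U → ZMod 3) → Qbar)
    (hx : ∀ T, w.V (x T) < 1) (γ : U → ZMod 3) :
    w.V (∑ T, x T * (zt (dot γ T) * bT β T)) < 1 :=
  w.V.map_sum_lt one_ne_zero fun T _ => by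
    rw [map_mul, map_mul, V_zt, ktc2_bT h hw, one_mul, mul_one]
    exact hx T

theorem ktc2_int {a : ℤ} : w.V a < 1 ↔ (w.p : ℤ) ∣ a := by
  rw [(w.V_int_le a).lt_iff_ne, Ne, w.V_int_eq_one, not_not]

/-- A number whose conjugates are all divisible by the place has coordinates divisible by the
prime. -/
theorem dvd_of_V (h : Rad m β d) (hw : Spt m d w φ) (hV : ∀ γ, w.V (al β n γ) < 1)
    (T : U → ZMod 3) : (w.p : ℤ) ∣ n T := by
  have h1 := four (fun T => (n T : Qbar) * bT β T) T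
  have h2 : w.V (∑ γ, zt (-dot γ T) * ∑ T, zt (dot γ T) * ((n T : Qbar) * bT β T)) < 1 :=
    w.V.map_sum_lt one_ne_zero fun γ _ => by
      rw [map_mul, V_zt, one_mul, sum_congr rfl fun T _ => mul_left_comm _ _ _]
      exact hV γ
  rwa [h1, map_mul, map_mul, ktc2_three hw.ne3, ktc2_bT h hw, one_mul, mul_one, ktc2_int] at h2

/-- Prescribed residues of the conjugates. -/
theorem ktc2_res (h : Rad m β d) (hw : Spt m d w φ) (y : (U → ZMod 3) → Qbar)
    (hy : ∀ γ, w.V (y γ) ≤ 1) (hφ : ∀ γ, φ (y γ) = y fun j => ch φ * γ j) :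
    ∃ n : (U → ZMod 3) → ℤ, ∀ γ, w.V (al β n γ - y γ) < 1 := by
  have h3 : ∀ T, w.V (3 ^ Fintype.card U * bT β T) = 1 := fun T => by
    rw [map_mul, ktc2_three hw.ne3, ktc2_bT h hw, one_mul]
  have hb : ∀ T, φ (bT β T) = bT β T := fun T => by
    simp only [bT, map_prod, map_pow, h.act, hw.fix, zt_zero, one_mul]
  have hi : Function.Involutive fun (γ : U → ZMod 3) j => ch φ * γ j := fun γ => funext fun j =>
    (mul_assoc _ _ _).symm.trans (by rw [ch_sq, one_mul])
  choose n hn using fun T => int_of_frob hw.frob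
    (x := (3 ^ Fintype.card U * bT β T)⁻¹ * ∑ γ, zt (-dot γ T) * y γ)
    (by
      rw [map_mul, map_inv₀, h3, inv_one, one_mul]
      exact w.V.map_sum_le fun γ _ => by
        rw [map_mul, V_zt, one_mul]
        exact hy γ)
    (by
      have e : φ (∑ γ, zt (-dot γ T) * y γ) = ∑ γ, zt (-dot γ T) * y γ := by
        rw [map_sum, ← hi.bijective.sum_comp fun γ => zt (-dot γ T) * y γ]
        refine sum_congr rfl fun γ _ => ?_
        rw [map_mul, smul_zt, hφ]
        simp only [dot, mul_neg, mul_sum, mul_assoc]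
      rw [map_mul, map_inv₀, map_mul, map_pow, map_ofNat, hb, e, sub_self, map_zero]
      exact zero_lt_one)
  refine ⟨n, fun γ₀ => ?_⟩
  have h4 : y γ₀ = ∑ T, ((3 ^ Fintype.card U * bT β T)⁻¹ * ∑ γ, zt (-dot γ T) * y γ) *
      (zt (dot γ₀ T) * bT β T) := by
    have h5 : (3 : Qbar) ^ Fintype.card U ≠ 0 := pow_ne_zero _ three_ne_zero
    refine mul_left_cancel₀ h5 ?_
    rw [← four' y γ₀, mul_sum]
    refine sum_congr rfl fun T _ => ?_
    have h6 : bT β T ≠ 0 := fun e => by simpa [e] using ktc2_bT h hw T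
    field_simp
  rw [h4, al, ← sum_sub_distrib]
  simp only [← sub_mul]
  exact ktc2_lt h hw _ (fun T => by rw [w.V.map_sub_swap]; exact hn T) γ₀

/-- The kernel is not trivial. -/
theorem exists_th_ne (h : Rad m β d) (hw : Spt m d w φ) (he : ch φ ^ (Fintype.card U + 1) = 1)
    {t : ZMod 3} (ht : t ≠ 0) :
    ∃ y : (U → ZMod 3) → ℤ, (∀ γ, w.V (al β y γ) = 1) ∧ th β w t y ≠ 1 := by
  have hp := w.prime.two_le
  have h4 : 4 ≤ w.p ^ 2 := by nlinarith
  have : NeZero (w.p ^ 2 - 1) := ⟨by omega⟩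
  obtain ⟨z, hz⟩ := HasEnoughRootsOfUnity.exists_primitiveRoot Qbar (w.p ^ 2 - 1)
  have hc : ch φ = w.p := ch_frob hw.ne3 hw.frob
  have h3 : 3 ∣ w.p ^ 2 - 1 := by
    rw [← ZMod.natCast_eq_zero_iff, Nat.cast_sub (by omega), Nat.cast_pow, ← hc, pow_two, ch_sq,
      Nat.cast_one, sub_self]
  have hV : w.V z = 1 := w.V_root_of_unity (NeZero.ne _) hz.pow_eq_one
  have h0 : z ≠ 0 := hz.ne_zero (NeZero.ne _)
  have hz2 : z ^ w.p ^ 2 = z := by
    rw [← Nat.sub_add_cancel (by omega : 1 ≤ w.p ^ 2), pow_succ, hz.pow_eq_one, one_mul]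
  have hφ : φ z = z ^ w.p := by
    refine (div_eq_one_iff_eq (pow_ne_zero _ h0)).1 (w.eq_one_of_root (n := w.p ^ 2 - 1)
      (fun k => ?_) ?_ ?_)
    · have k1 := (Nat.dvd_sub_iff_right (by omega) (dvd_pow_self w.p two_ne_zero)).1 k
      have := Nat.le_of_dvd one_pos k1
      omega
    · rw [div_pow, ← map_pow, pow_right_comm, hz.pow_eq_one, map_one, one_pow, div_one]
    · rw [div_sub_one (pow_ne_zero _ h0), map_div₀, map_pow, hV, one_pow, div_one]
      exact hw.frob.2 z hV.le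
  obtain ⟨a, ha⟩ := exists_zt (x := z ^ ((w.p ^ 2 - 1) / 3)) (by
    rw [← pow_mul, Nat.div_mul_cancel h3, hz.pow_eq_one])
  have ha0 : a ≠ 0 := fun e => by
    rw [e, zt_zero] at ha
    have := Nat.le_of_dvd (by omega) (hz.dvd_of_pow_eq_one _ ha)
    omega
  have hs : ∀ k : ℕ, sym w (z ^ k) = k * a := fun k => sym_eq hw.ne3 (by
    rw [pow_right_comm, ha, zt_pow, sub_self, map_zero]
    exact zero_lt_one)
  have hu : ch φ ≠ 0 := fun e => by simpa [e] using ch_sq φ
  obtain ⟨n, hn⟩ := ktc2_res h hw (fun γ => z ^ ((if γ = fun _ => 1 then 1 else 0) +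
      w.p * if γ = fun _ => ch φ then 1 else 0)) (fun γ => by rw [map_pow, hV, one_pow])
    fun γ => by
      have e1 : ((fun j => ch φ * γ j) = fun _ => 1) ↔ γ = fun _ => ch φ := by
        simp only [funext_iff]
        exact forall_congr' fun j => by rw [← ch_sq φ, mul_right_inj' hu]
      have e2 : ((fun j => ch φ * γ j) = fun _ => ch φ) ↔ γ = fun _ => 1 := by
        simp only [funext_iff]
        exact forall_congr' fun j => mul_eq_left₀ hu
      simp only [map_pow, hφ, e1, e2]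
      rw [← pow_mul, mul_add, ← mul_assoc, ← pow_two, pow_add, pow_add, pow_mul z (w.p ^ 2), hz2,
        mul_comm]
  have h1 : ∀ γ, w.V (al β n γ) = 1 := fun γ => by
    rw [w.V.map_eq_of_sub_lt (by rw [map_pow, hV, one_pow]; exact hn γ), map_pow, hV, one_pow]
  refine ⟨n, h1, ?_⟩
  rw [th, if_pos h1]
  refine ec_ne_one (mul_ne_zero ht ?_)
  simp only [fun γ => sym_congr (h1 γ).le (hn γ), hs]
  push_cast
  simp only [add_mul, mul_add, sum_add_distrib, mul_ite, ite_mul, mul_zero, zero_mul, mul_one,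
    one_mul, sum_ite_eq', mem_univ, if_true, prod_const, card_univ, one_pow]
  rw [← hc, ← mul_assoc, ← pow_succ, he, one_mul, ← two_mul]
  exact mul_ne_zero (by decide) ha0

theorem th_mean (h : Rad m β d) (hw : Spt m d w φ) (he : ch φ ^ (Fintype.card U + 1) = 1)
    {t : ZMod 3} (ht : t ≠ 0) :
    ∑ v ∈ Fintype.piFinset (fun _ : U → ZMod 3 => Ico (0 : ℤ) w.p), th β w t v = 0 := by
  obtain ⟨y, hy, hne⟩ := exists_th_ne h hw he ht
  have hp : (0 : ℤ) < w.p := Int.natCast_pos.2 w.prime.pos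
  have hm : ∀ v ∈ Fintype.piFinset (fun _ : U → ZMod 3 => Ico (0 : ℤ) w.p),
      (fun T => mul m y v T % w.p) ∈ Fintype.piFinset (fun _ : U → ZMod 3 => Ico (0 : ℤ) w.p) :=
    fun v _ => Fintype.mem_piFinset.2 fun T =>
      mem_Ico.2 ⟨Int.emod_nonneg _ hp.ne', Int.emod_lt_of_pos _ hp⟩
  have hi : Set.InjOn (fun (v : (U → ZMod 3) → ℤ) T => mul m y v T % w.p)
      (Fintype.piFinset (fun _ : U → ZMod 3 => Ico (0 : ℤ) w.p) : Finset _) := by
    intro v hv v' hv' e
    have h1 : ∀ γ, w.V (al β (v - v') γ) < 1 := fun γ => by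
      have h2 : w.V (al β (mul m y v - mul m y v') γ) < 1 := ktc2_lt h hw _
        (fun T => ktc2_int.2 (Int.ModEq.dvd (congrFun e T).symm)) γ
      rwa [ktc2_sub, al_mul h, al_mul h, ← mul_sub, map_mul, hy, one_mul, ← ktc2_sub] at h2
    funext T
    have h3 := mem_Ico.1 (Fintype.mem_piFinset.1 hv T)
    have h4 := mem_Ico.1 (Fintype.mem_piFinset.1 hv' T)
    exact sub_eq_zero.1 (Int.eq_zero_of_abs_lt_dvd (dvd_of_V h hw h1 T)
      (by rw [abs_lt]; omega))
  have h5 := sum_nbij (f := fun v => th β w t y * th β w t v) (g := th β w t) _ hm hi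
    (surjOn_of_injOn_of_card_le _ hm hi le_rfl) fun v _ => by
      rw [th_congr h t (v' := mul m y v) fun T => Int.mod_modEq _ _,
        th_prod h hw t univ (u := mul m y v) (v := ![y, v]) fun γ => by simp [al_mul h]]
      simp
  rw [← mul_sum] at h5
  by_contra k
  exact hne (mul_right_cancel₀ k (h5.trans (one_mul _).symm))

end Pool.Agent.Lib.MP_696deb_nt.CU.Kt
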