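import Pool.Agent.Lib.MP_696deb_nt.Sm.LBil

/-! A bilinear bound for periodic multiplicative kernels, with amplification. -/

set_option autoImplicit false

open Finset
open scoped Classical

namespace Pool.Agent.Lib.MP_696deb_nt.CU.Kt

variable {Γ : Type} [Fintype Γ]

/-- A bounded function with period `r` and mean zero. -/
structure Ker (r : ℕ) (θ : (Γ → ℤ) → ℂ) : Prop where
  le : ∀ v, ‖θ v‖ ≤ 1
  per : ∀ v v', (∀ T, v T ≡ v' T [ZMOD r]) → θ v = θ v'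
  mean : ∑ v ∈ Fintype.piFinset (fun _ : Γ => Ico (0 : ℤ) r), θ v = 0

theorem box_sumC {m : ℕ} (hm : 0 < m) (N : ℕ) {φ : (Γ → ℤ) → ℂ} (h : Ker m φ) :
    ‖∑ v ∈ Fintype.piFinset (fun _ : Γ => Icc (-(N : ℤ)) N), φ v‖ ≤
      2 * (Fintype.card Γ * m * (2 * N + 1 : ℝ) ^ (Fintype.card Γ - 1)) := by
  have h1 := Sm.box_sum hm N (fun v => (φ v).re)
    (fun v => (Complex.abs_re_le_norm _).trans (h.le v)) (fun v v' e => by rw [h.per v v' e])
    (by rw [← Complex.re_sum, h.mean, Complex.zero_re])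
  have h2 := Sm.box_sum hm N (fun v => (φ v).im)
    (fun v => (Complex.abs_im_le_norm _).trans (h.le v)) (fun v v' e => by rw [h.per v v' e])
    (by rw [← Complex.im_sum, h.mean, Complex.zero_im])
  rw [← Complex.re_sum] at h1
  rw [← Complex.im_sum] at h2
  refine (Complex.norm_le_abs_re_add_abs_im _).trans ?_
  linarith

theorem ktl_cube {m : ℕ} [NeZero m] (ψ : (Γ → ZMod m) → ℂ) :
    ∑ v ∈ Fintype.piFinset (fun _ : Γ => Ico (0 : ℤ) m), ψ (fun T => v T) = ∑ u, ψ u := by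
  have h1 := Sm.lbil_cube (m := m) 0 1 fun u => (ψ u).re
  have h2 := Sm.lbil_cube (m := m) 0 1 fun u => (ψ u).im
  rw [Nat.cast_one, Nat.cast_one, one_mul, zero_add, one_pow, one_mul] at h1 h2
  refine Complex.ext ?_ ?_
  · rw [Complex.re_sum, Complex.re_sum, h1]
  · rw [Complex.im_sum, Complex.im_sum, h2]

theorem Ker.pair {r r' : ℕ} (hr : r.Prime) (hr' : r'.Prime) (hne : r ≠ r') {θ θ' : (Γ → ℤ) → ℂ}
    (h : Ker r θ) (h' : Ker r' θ') : Ker (r * r') fun v => θ v * (starRingEnd ℂ) (θ' v) := by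
  have : Fact r.Prime := ⟨hr⟩
  have : Fact r'.Prime := ⟨hr'⟩
  refine ⟨fun v => ?_, fun v v' e => ?_, ?_⟩
  · rw [norm_mul, Complex.norm_conj]
    exact mul_le_one₀ (h.le v) (norm_nonneg _) (h'.le v)
  · push_cast at e
    rw [h.per v v' fun T => (e T).of_mul_right _, h'.per v v' fun T => (e T).of_mul_left _]
  let e := ZMod.chineseRemainder ((Nat.coprime_primes hr hr').2 hne)
  let f : (Γ → ZMod r) → ℂ := fun u => θ fun T => (u T).val
  let g : (Γ → ZMod r') → ℂ := fun u => (starRingEnd ℂ) (θ' fun T => (u T).val)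
  let E : (Γ → ZMod (r * r')) ≃ (Γ → ZMod r) × (Γ → ZMod r') :=
    (Equiv.piCongrRight fun _ => e.toEquiv).trans (Equiv.arrowProdEquivProdArrow _ _ _)
  have h0 : ∑ u, f u = 0 := by
    rw [← ktl_cube f, ← h.mean]
    exact sum_congr rfl fun v _ => (h.per _ _ fun T => Sm.lbil_val (v T)).symm
  have h1 := ktl_cube (m := r * r') fun u => f (E u).1 * g (E u).2
  rw [E.sum_comp fun w => f w.1 * g w.2, Fintype.sum_prod_type, ← Fintype.sum_mul_sum, h0,
    zero_mul] at h1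
  rw [← h1]
  refine sum_congr rfl fun v _ => ?_
  have h3 : E (fun T => v T) = (fun T => (v T : ZMod r), fun T => (v T : ZMod r')) :=
    Prod.ext (funext fun T => (congrArg Prod.fst (map_intCast e (v T))).trans (Prod.fst_intCast _))
      (funext fun T => (congrArg Prod.snd (map_intCast e (v T))).trans (Prod.snd_intCast _))
  rw [h3, h.per v _ fun T => Sm.lbil_val (v T), h'.per v _ fun T => Sm.lbil_val (v T)]

theorem lbil0 {ι : Type} (I : Finset ι) (v : ι → Γ → ℤ) (B μ Rm : ℕ)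
    (hv : ∀ i ∈ I, ∀ T, |v i T| ≤ B) (hμ : ∀ u, ({i ∈ I | v i = u} : Finset ι).card ≤ μ)
    (R : Finset ℕ) (θ : ℕ → (Γ → ℤ) → ℂ) (hR : ∀ r ∈ R, r.Prime ∧ r ≤ Rm ∧ Ker r (θ r))
    (a : ι → ℂ) (b : ℕ → ℂ) (ha : ∀ i, ‖a i‖ ≤ 1) (hb : ∀ r, ‖b r‖ ≤ 1) :
    ‖∑ i ∈ I, ∑ r ∈ R, a i * b r * θ r (v i)‖ ^ 2 ≤
      I.card * μ * ((2 * B + 1 : ℝ) ^ Fintype.card Γ * R.card + (R.card : ℝ) ^ 2 *
        (2 * (Fintype.card Γ * (Rm : ℝ) ^ 2 * (2 * B + 1 : ℝ) ^ (Fintype.card Γ - 1)))) := by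
  let C := Fintype.piFinset fun _ : Γ => Icc (-(B : ℤ)) B
  let G : (Γ → ℤ) → ℂ := fun u => ∑ r ∈ R, b r * θ r u
  have h1 : ‖∑ i ∈ I, ∑ r ∈ R, a i * b r * θ r (v i)‖ ≤ ∑ i ∈ I, 1 * ‖G (v i)‖ := by
    refine (norm_sum_le _ _).trans (sum_le_sum fun i _ => ?_)
    rw [show ∑ r ∈ R, a i * b r * θ r (v i) = a i * G (v i) by simp only [G, mul_sum, mul_assoc],
      norm_mul]
    exact mul_le_mul_of_nonneg_right (ha i) (norm_nonneg _)
  have h2 : ∑ _i ∈ I, (1 : ℝ) ^ 2 = I.card := by simp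
  have h3 : ∑ i ∈ I, ‖G (v i)‖ ^ 2 ≤ μ * ∑ u ∈ C, ‖G u‖ ^ 2 := by
    rw [← sum_fiberwise_of_maps_to' (t := C) (g := v)
      (fun i hi => Fintype.mem_piFinset.2 fun T => mem_Icc.2 (abs_le.1 (hv i hi T)))
      (fun u => ‖G u‖ ^ 2), mul_sum]
    refine sum_le_sum fun u _ => ?_
    rw [sum_const, nsmul_eq_mul]
    exact mul_le_mul_of_nonneg_right (by exact_mod_cast hμ u) (sq_nonneg _)
  have h4 : (C.card : ℝ) = (2 * B + 1 : ℝ) ^ Fintype.card Γ := by
    rw [Fintype.card_piFinset, prod_const, card_univ, Int.card_Icc,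
      show (B : ℤ) + 1 - -B = (2 * B + 1 : ℕ) by push_cast; ring, Int.toNat_natCast]
    push_cast
    rfl
  generalize hK : 2 * (Fintype.card Γ * (Rm : ℝ) ^ 2 * (2 * B + 1 : ℝ) ^ (Fintype.card Γ - 1)) = K
  have h0 : 0 ≤ K := by rw [← hK]; positivity
  have h6 : ∀ r ∈ R, ∀ r' ∈ R, ‖∑ u ∈ C, θ r u * (starRingEnd ℂ) (θ r' u)‖ ≤
      (if r = r' then (C.card : ℝ) else 0) + K := by
    intro r hr r' hr'
    obtain ⟨a1, a3, a4⟩ := hR r hr
    obtain ⟨b1, b3, b4⟩ := hR r' hr'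
    split_ifs with e
    · refine ((norm_sum_le _ _).trans (sum_le_card_nsmul _ _ 1 fun u _ => ?_)).trans ?_
      · rw [norm_mul, Complex.norm_conj]
        exact mul_le_one₀ (a4.le u) (norm_nonneg _) (b4.le u)
      · rw [nsmul_one]
        exact le_add_of_nonneg_right h0
    · refine (box_sumC (mul_pos a1.pos b1.pos) B (Ker.pair a1 b1 e a4 b4)).trans ?_
      rw [zero_add, ← hK, sq]
      push_cast
      gcongr
  have h7 : ∑ u ∈ C, ‖G u‖ ^ 2 ≤
      ∑ r ∈ R, ∑ r' ∈ R, ((if r = r' then (C.card : ℝ) else 0) + K) := by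
    have e1 : ((∑ u ∈ C, ‖G u‖ ^ 2 : ℝ) : ℂ) = ∑ r ∈ R, ∑ r' ∈ R,
        b r * (starRingEnd ℂ) (b r') * ∑ u ∈ C, θ r u * (starRingEnd ℂ) (θ r' u) := by
      push_cast
      simp only [← Complex.mul_conj', G, map_sum, map_mul, sum_mul_sum]
      rw [sum_comm]
      refine sum_congr rfl fun r _ => ?_
      rw [sum_comm]
      refine sum_congr rfl fun r' _ => ?_
      rw [mul_sum]
      exact sum_congr rfl fun u _ => by ring
    refine (le_abs_self _).trans ?_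
    rw [← Real.norm_eq_abs, ← Complex.norm_real, e1]
    refine (norm_sum_le _ _).trans (sum_le_sum fun r hr => ?_)
    refine (norm_sum_le _ _).trans (sum_le_sum fun r' hr' => le_trans ?_ (h6 r hr r' hr'))
    rw [norm_mul, norm_mul, Complex.norm_conj]
    exact mul_le_of_le_one_left (norm_nonneg _) (mul_le_one₀ (hb r) (norm_nonneg _) (hb r'))
  have h8 : ∑ r ∈ R, ∑ r' ∈ R, ((if r = r' then (C.card : ℝ) else 0) + K) =
      C.card * R.card + R.card ^ 2 * K := by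
    rw [sum_congr rfl fun r hr => by rw [sum_add_distrib, sum_ite_eq, if_pos hr, sum_const],
      sum_const, nsmul_eq_mul, nsmul_eq_mul]
    ring
  rw [← h4, ← h8, mul_assoc]
  refine ((pow_le_pow_left₀ (norm_nonneg _) h1 2).trans (sum_mul_sq_le_sq_mul_sq _ _ _)).trans ?_
  rw [h2]
  exact mul_le_mul_of_nonneg_left
    (h3.trans (mul_le_mul_of_nonneg_left h7 (Nat.cast_nonneg _))) (Nat.cast_nonneg _)

end Pool.Agent.Lib.MP_696deb_nt.CU.Kt
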