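import Pool.Agent.Lib.MP_696deb_nt.CU.KtL

/-! Amplification of the bilinear bound. -/

set_option autoImplicit false

open Finset
open scoped Classical

namespace Pool.Agent.Lib.MP_696deb_nt.CU.Kt

variable {Γ : Type} [Fintype Γ]

theorem lbil_amp (P R : Finset ℕ) (n : ℕ → Γ → ℤ) (t B μ Rm : ℕ) (nn : (Fin (t + 1) → ℕ) → Γ → ℤ)
    (θ : ℕ → (Γ → ℤ) → ℂ) (hR : ∀ r ∈ R, r.Prime ∧ r ≤ Rm ∧ Ker r (θ r))
    (hv : ∀ f ∈ Fintype.piFinset fun _ : Fin (t + 1) => P, ∀ T, |nn f T| ≤ B)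
    (hm : ∀ f ∈ Fintype.piFinset fun _ : Fin (t + 1) => P, ∀ r ∈ R,
      θ r (nn f) = ∏ i, θ r (n (f i)))
    (hμ : ∀ u, ({f ∈ Fintype.piFinset fun _ : Fin (t + 1) => P | nn f = u} :
      Finset (Fin (t + 1) → ℕ)).card ≤ μ)
    (a b : ℕ → ℂ) (ha : ∀ p, ‖a p‖ ≤ 1) (hb : ∀ r, ‖b r‖ ≤ 1) :
    ‖∑ p ∈ P, ∑ r ∈ R, a p * b r * θ r (n p)‖ ^ (2 * (t + 1)) ≤
      (R.card : ℝ) ^ (2 * t) * ((P.card : ℝ) ^ (t + 1) * μ *
        ((2 * B + 1 : ℝ) ^ Fintype.card Γ * R.card + (R.card : ℝ) ^ 2 *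
          (2 * (Fintype.card Γ * (Rm : ℝ) ^ 2 * (2 * B + 1 : ℝ) ^ (Fintype.card Γ - 1))))) := by
  let F : ℕ → ℂ := fun r => ∑ p ∈ P, a p * θ r (n p)
  choose b' hb' eb' using fun r => Complex.exists_norm_eq_mul_self (F r ^ (t + 1))
  have h1 : ‖∑ p ∈ P, ∑ r ∈ R, a p * b r * θ r (n p)‖ ≤ ∑ r ∈ R, ‖F r‖ := by
    rw [sum_comm]
    refine (norm_sum_le _ _).trans (sum_le_sum fun r _ => ?_)
    have : ∑ p ∈ P, a p * b r * θ r (n p) = b r * F r := by
      rw [mul_sum]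
      exact sum_congr rfl fun p _ => by ring
    rw [this, norm_mul]
    exact mul_le_of_le_one_left (norm_nonneg _) (hb r)
  have h2 : (∑ r ∈ R, ‖F r‖) ^ (t + 1) ≤ (R.card : ℝ) ^ t * ∑ r ∈ R, ‖F r‖ ^ (t + 1) :=
    pow_sum_le_card_mul_sum_pow (fun _ _ => norm_nonneg _) t
  have h3 : ((∑ r ∈ R, ‖F r‖ ^ (t + 1) : ℝ) : ℂ) =
      ∑ f ∈ Fintype.piFinset fun _ : Fin (t + 1) => P, ∑ r ∈ R,
        (∏ i, a (f i)) * b' r * θ r (nn f) := by
    rw [sum_comm, Complex.ofReal_sum]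
    refine sum_congr rfl fun r hr => ?_
    have : F r ^ (t + 1) = ∑ f ∈ Fintype.piFinset fun _ : Fin (t + 1) => P,
        ∏ i, a (f i) * θ r (n (f i)) := by
      rw [← prod_univ_sum (fun _ : Fin (t + 1) => P) fun _ p => a p * θ r (n p), prod_const,
        card_univ, Fintype.card_fin]
    rw [← norm_pow, eb', this, mul_sum]
    refine sum_congr rfl fun f hf => ?_
    rw [hm f hf r hr, prod_mul_distrib]
    ring
  have h4 := lbil0 _ nn B μ Rm hv hμ R θ hR (fun f => ∏ i, a (f i)) b' (fun f => by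
    rw [norm_prod]
    exact prod_le_one (fun _ _ => norm_nonneg _) fun _ _ => ha _) fun r => (hb' r).le
  rw [← h3, Complex.norm_real, Real.norm_of_nonneg (by positivity), Fintype.card_piFinset,
    prod_const, card_univ, Fintype.card_fin, Nat.cast_pow] at h4
  rw [mul_comm 2 (t + 1), pow_mul, mul_comm 2 t, pow_mul]
  refine (pow_le_pow_left₀ (by positivity)
    ((pow_le_pow_left₀ (norm_nonneg _) h1 _).trans h2) 2).trans ?_
  rw [mul_pow]
  exact mul_le_mul_of_nonneg_left h4 (by positivity)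

/-- A tuple of primes is determined, up to few possibilities, by a product. -/
theorem card_tuple (P : Finset ℕ) (hP : ∀ p ∈ P, p.Prime) (c : ℕ → ℤ)
    (hc : ∀ p ∈ P, ∀ q ∈ P, ¬ (q : ℤ) ∣ c p) (t : ℕ) (N : ℤ) :
    ({f ∈ Fintype.piFinset fun _ : Fin t => P | ∏ i, c (f i) * (f i : ℤ) = N} :
      Finset (Fin t → ℕ)).card ≤ t ^ t := by
  rcases ({f ∈ Fintype.piFinset fun _ : Fin t => P | ∏ i, c (f i) * (f i : ℤ) = N} :
      Finset (Fin t → ℕ)).eq_empty_or_nonempty with h | ⟨g, hg⟩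
  · rw [h]
    exact Nat.zero_le _
  rw [mem_filter, Fintype.mem_piFinset] at hg
  refine (card_le_card (t := Fintype.piFinset fun _ : Fin t => univ.image g) fun f hf => ?_).trans ?_
  · rw [mem_filter, Fintype.mem_piFinset] at hf
    rw [Fintype.mem_piFinset]
    intro i
    have hq := Nat.prime_iff_prime_int.1 (hP _ (hf.1 i))
    have h1 : (f i : ℤ) ∣ ∏ j, c (g j) * (g j : ℤ) := by
      rw [hg.2, ← hf.2]
      exact (dvd_mul_left _ _).trans (dvd_prod_of_mem (fun i => c (f i) * (f i : ℤ)) (mem_univ i))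
    obtain ⟨j, -, hj⟩ := (hq.dvd_finsetProd_iff _).1 h1
    have h2 := (hq.dvd_or_dvd hj).resolve_left (hc _ (hg.1 j) _ (hf.1 i))
    exact mem_image.2 ⟨j, mem_univ j, ((Nat.prime_dvd_prime_iff_eq (hP _ (hf.1 i))
      (hP _ (hg.1 j))).1 (Int.natCast_dvd_natCast.1 h2)).symm⟩
  · rw [Fintype.card_piFinset, prod_const, card_univ, Fintype.card_fin]
    exact Nat.pow_le_pow_left (card_image_le.trans (by rw [card_univ, Fintype.card_fin])) t

end Pool.Agent.Lib.MP_696deb_nt.CU.Kt
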