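import Mathlib

/-! Numerical inequalities for the amplified bound. -/

set_option autoImplicit false

open Finset

namespace Pool.Agent.Lib.MP_696deb_nt.CU.Kt

theorem num_nat {g G tp tr B t M cP cR : ℕ} (hP : cP ≤ tp) (hR : cR ≤ tr) (hg : g ≠ 0)
    (hG : 1 ≤ G) (htr : 1 ≤ tr) (h1 : (2 * tr) ^ 3 ≤ B ^ (t + 1)) (h2 : B ^ g ≤ 2 * tp)
    (h3 : ((2 * g + 1) * (2 * (t + 1)) * (3 * G) ^ g * M ^ 2) ^ (t + 1) ≤ tr) :
    cR ^ (2 * t) * (cP ^ (t + 1) * (t + 1) ^ (t + 1) *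
      ((2 * (G * B) ^ (t + 1) + 1) ^ g * cR + cR ^ 2 *
        (2 * (g * (2 * tr) ^ 2 * (2 * (G * B) ^ (t + 1) + 1) ^ (g - 1))))) * M ^ (2 * (t + 1)) ≤
      (tp * tr) ^ (2 * (t + 1)) := by
  obtain ⟨g, rfl⟩ := Nat.exists_eq_succ_of_ne_zero hg
  have a1 : B ^ (t + 1) ≤ (G * B) ^ (t + 1) := Nat.pow_le_pow_left (Nat.le_mul_of_pos_left _ hG) _
  have a2 : tr * (2 * tr) ^ 2 ≤ (2 * tr) ^ 3 := by
    rw [pow_succ' (2 * tr) 2]
    gcongr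
    omega
  have a3 : 1 ≤ (2 * tr) ^ 3 := Nat.one_le_pow _ _ (by omega)
  have a4 : 3 ≤ 3 ^ (t + 1) := Nat.le_self_pow (by omega) 3
  have a5 : 2 * (G * B) ^ (t + 1) + 1 ≤ (3 * G * B) ^ (t + 1) := by
    rw [mul_assoc 3, mul_pow 3]
    calc _ ≤ 3 * (G * B) ^ (t + 1) := by omega
      _ ≤ _ := Nat.mul_le_mul_right _ a4
  have a0 : tr * (2 * tr) ^ 2 ≤ 2 * (G * B) ^ (t + 1) + 1 := by omega
  generalize 2 * (G * B) ^ (t + 1) + 1 = X at a0 a5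
  have a6 : X ^ (g + 1) ≤ ((3 * G) ^ (g + 1) * (2 * tp)) ^ (t + 1) :=
    calc _ ≤ ((3 * G * B) ^ (t + 1)) ^ (g + 1) := Nat.pow_le_pow_left a5 _
      _ = ((3 * G) ^ (g + 1) * B ^ (g + 1)) ^ (t + 1) := by rw [pow_right_comm, mul_pow]
      _ ≤ _ := by gcongr
  have a7 : X ^ (g + 1) * cR + cR ^ 2 * (2 * ((g + 1) * (2 * tr) ^ 2 * X ^ g)) ≤
      (2 * (g + 1) + 1) * tr * X ^ (g + 1) :=
    calc _ ≤ X ^ (g + 1) * tr + tr ^ 2 * (2 * ((g + 1) * (2 * tr) ^ 2 * X ^ g)) := by gcongr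
      _ = X ^ (g + 1) * tr + 2 * (g + 1) * tr * (tr * (2 * tr) ^ 2 * X ^ g) := by ring
      _ ≤ X ^ (g + 1) * tr + 2 * (g + 1) * tr * (X * X ^ g) := by gcongr
      _ = _ := by ring
  have a8 : 2 * (g + 1) + 1 ≤ (2 * (g + 1) + 1) ^ (t + 1) := Nat.le_self_pow (by omega) _
  calc _ ≤ tr ^ (2 * t) * (tp ^ (t + 1) * (t + 1) ^ (t + 1) * ((2 * (g + 1) + 1) ^ (t + 1) * tr *
        ((3 * G) ^ (g + 1) * (2 * tp)) ^ (t + 1))) * M ^ (2 * (t + 1)) := by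
        gcongr
        exact a7.trans (by gcongr)
    _ = tp ^ (2 * (t + 1)) * tr ^ (2 * t + 1) *
        ((2 * (g + 1) + 1) * (2 * (t + 1)) * (3 * G) ^ (g + 1) * M ^ 2) ^ (t + 1) := by
        generalize (3 * G) ^ (g + 1) = Y, 2 * (g + 1) + 1 = Z
        generalize hs : t + 1 = s
        simp only [mul_pow, ← pow_mul, pow_succ tr]
        ring
    _ ≤ tp ^ (2 * (t + 1)) * tr ^ (2 * t + 1) * tr := by gcongr
    _ = _ := by ring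

theorem num {S : ℝ} {g G tp tr B t M cP cR : ℕ} (hP : cP ≤ tp) (hR : cR ≤ tr) (hg : g ≠ 0)
    (hG : 1 ≤ G) (htr : 1 ≤ tr) (h1 : (2 * tr) ^ 3 ≤ B ^ (t + 1)) (h2 : B ^ g ≤ 2 * tp)
    (h3 : ((2 * g + 1) * (2 * (t + 1)) * (3 * G) ^ g * M ^ 2) ^ (t + 1) ≤ tr)
    (h : S ^ (2 * (t + 1)) ≤ (cR : ℝ) ^ (2 * t) * ((cP : ℝ) ^ (t + 1) * ((t + 1) ^ (t + 1) : ℕ) *
      ((2 * ((G * B) ^ (t + 1) : ℕ) + 1 : ℝ) ^ g * cR + (cR : ℝ) ^ 2 *
        (2 * (g * ((2 * tr : ℕ) : ℝ) ^ 2 * (2 * ((G * B) ^ (t + 1) : ℕ) + 1 : ℝ) ^ (g - 1)))))) :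
    S * M ≤ tp * tr := by
  refine le_of_pow_le_pow_left₀ (n := 2 * (t + 1)) (by omega) (by positivity) ?_
  rw [mul_pow]
  refine (mul_le_mul_of_nonneg_right h (by positivity)).trans ?_
  exact_mod_cast num_nat hP hR hg hG htr h1 h2 h3

theorem exists_tau {Q B tr W : ℕ} (h2 : 2 ≤ Q) (hQ : Q ≤ tr) (hB : Q ^ 12 ≤ B)
    (hW : 2 * tr ≤ 4 ^ W) (h0 : 1 ≤ W) :
    ∃ t, t + 1 ≤ 6 * W ∧ (2 * tr) ^ 3 ≤ B ^ (t + 1) ∧ Q ^ (t + 1) ≤ tr := by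
  have b2 : 2 ≤ B := h2.trans ((Nat.le_self_pow (by omega) Q).trans hB)
  have e : (2 * tr) ^ 3 ≤ B ^ (6 * W - 1 + 1) :=
    calc _ ≤ (4 ^ W) ^ 3 := Nat.pow_le_pow_left hW _
      _ = 2 ^ (6 * W - 1 + 1) := by
        rw [Nat.sub_add_cancel (by omega), show 4 = 2 ^ 2 from rfl, ← pow_mul, ← pow_mul]
        congr 1
        ring
      _ ≤ _ := Nat.pow_le_pow_left b2 _
  have ex : ∃ t, (2 * tr) ^ 3 ≤ B ^ (t + 1) := ⟨_, e⟩
  refine ⟨Nat.find ex, ?_, Nat.find_spec ex, ?_⟩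
  · have := Nat.find_min' ex e
    omega
  · rcases Nat.eq_zero_or_eq_succ_pred (Nat.find ex) with h | h
    · rwa [h, zero_add, pow_one]
    · have k := not_le.1 (Nat.find_min ex (m := (Nat.find ex).pred) (by omega))
      rw [h]
      generalize (Nat.find ex).pred = s at k
      refine (Nat.pow_le_pow_iff_left (n := 12) (by omega)).1 ?_
      calc _ = (Q ^ 12) ^ (s + 1 + 1) := pow_right_comm _ _ _
        _ ≤ B ^ (s + 1 + 1) := Nat.pow_le_pow_left hB _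
        _ ≤ B ^ ((s + 1) * 2) := Nat.pow_le_pow_right (by omega) (by omega)
        _ ≤ ((2 * tr) ^ 3) ^ 2 := by
          rw [pow_mul]
          exact Nat.pow_le_pow_left k.le _
        _ ≤ ((tr * tr) ^ 3) ^ 2 := by
          gcongr
          omega
        _ = _ := by ring

/-- Bounded by a power of `W` as long as `D` is. -/
def Pb (a : ℕ) (F : ℕ → ℕ → ℕ) : Prop := ∃ K, ∀ W D, 2 ≤ W → D ≤ W ^ a → F W D ≤ W ^ K

theorem Pb.const (a c : ℕ) : Pb a fun _ _ => c :=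
  ⟨c, fun _ _ h _ => Nat.lt_two_pow_self.le.trans (Nat.pow_le_pow_left h c)⟩

theorem Pb.fst (a : ℕ) : Pb a fun W _ => W := ⟨1, fun _ _ _ _ => (pow_one _).ge⟩

theorem Pb.snd (a : ℕ) : Pb a fun _ D => D := ⟨a, fun _ _ _ h => h⟩

theorem Pb.mul {a : ℕ} {F G : ℕ → ℕ → ℕ} (h : Pb a F) (k : Pb a G) :
    Pb a fun W D => F W D * G W D := by
  obtain ⟨K, h⟩ := h
  obtain ⟨L, k⟩ := k
  exact ⟨K + L, fun W D x y => pow_add W K L ▸ Nat.mul_le_mul (h W D x y) (k W D x y)⟩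

theorem Pb.pow {a : ℕ} {F : ℕ → ℕ → ℕ} (h : Pb a F) (e : ℕ) : Pb a fun W D => F W D ^ e := by
  obtain ⟨K, h⟩ := h
  exact ⟨K * e, fun W D x y => pow_mul W K e ▸ Nat.pow_le_pow_left (h W D x y) e⟩

/-- The bound for the cofactors. -/
def C0 (n D : ℕ) : ℕ := 2 * (3 ^ n * D) ^ 3 ^ n

/-- The bound for the number of classes. -/
def L0 (n k D : ℕ) : ℕ := 3 * C0 n D * (3 ^ k * (C0 n D * D) ^ 2) ^ 2 ^ n

/-- The total loss. -/
def Q0 (n k E W D : ℕ) : ℕ :=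
  (2 * 3 ^ n + 1) * (12 * W) * (3 * (3 ^ n * D)) ^ 3 ^ n * (L0 n k D * W ^ E) ^ 2

theorem Q0_pb (a n k E : ℕ) : Pb a fun W D => (Q0 n k E W D ^ 12) ^ 3 ^ n := by
  have c := Pb.const a
  have h : Pb a fun _ D => C0 n D := (c 2).mul (((c _).mul (Pb.snd a)).pow _)
  have l : Pb a fun _ D => L0 n k D :=
    ((c 3).mul h).mul (((c _).mul ((h.mul (Pb.snd a)).pow 2)).pow _)
  exact ((((((c _).mul ((c 12).mul (Pb.fst a))).mul (((c 3).mul ((c _).mul (Pb.snd a))).pow _)).mul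
    ((l.mul ((Pb.fst a).pow E)).pow 2))).pow 12).pow _

theorem le_C0 (n : ℕ) {D : ℕ} : 2 * D ≤ C0 n D :=
  Nat.mul_le_mul_left 2 ((Nat.le_mul_of_pos_left D (by positivity)).trans
    (Nat.le_self_pow (by positivity) _))

theorem C0_le (n k E : ℕ) {W D : ℕ} (hW : 1 ≤ W) (hD : 1 ≤ D) : 3 * C0 n D ≤ Q0 n k E W D := by
  have h : 0 < C0 n D := lt_of_lt_of_le (by omega) (le_C0 n (D := D))
  have a : 3 * C0 n D ≤ L0 n k D := Nat.le_mul_of_pos_right _ (by positivity)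
  have b : L0 n k D ≤ L0 n k D * W ^ E := Nat.le_mul_of_pos_right _ (by positivity)
  exact (a.trans (b.trans (Nat.le_self_pow two_ne_zero _))).trans
    (Nat.le_mul_of_pos_left _ (by positivity))

theorem three_pow_le {N : ℕ} (h : N ≠ 0) : 3 ^ N.primeFactors.card ≤ N ^ 2 :=
  calc _ ≤ (2 ^ 2) ^ N.primeFactors.card := Nat.pow_le_pow_left (by norm_num) _
    _ = (2 ^ N.primeFactors.card) ^ 2 := pow_right_comm _ _ _
    _ ≤ _ := Nat.pow_le_pow_left ((pow_card_le_prod _ _ _ fun _ hp =>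
      (Nat.prime_of_mem_primeFactors hp).two_le).trans
        (Nat.le_of_dvd (Nat.pos_of_ne_zero h) (Nat.prod_primeFactors_dvd N))) _

theorem class_bound {X : Type} [DecidableEq X] (P : Finset ℕ) (lab : ℕ → X) (F : ℕ → ℂ) {δ M : ℝ}
    (hM : 0 ≤ M) (h : ∀ p ∈ P, ‖∑ q ∈ P with lab q = lab p, F q‖ * M ≤ δ) :
    ‖∑ p ∈ P, F p‖ * M ≤ (P.image lab).card * δ := by
  rw [← sum_fiberwise_of_maps_to (t := P.image lab) fun p hp => mem_image_of_mem lab hp]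
  refine (mul_le_mul_of_nonneg_right (norm_sum_le _ _) hM).trans ?_
  rw [sum_mul, ← nsmul_eq_mul]
  refine sum_le_card_nsmul _ _ _ fun l hl => ?_
  obtain ⟨p, hp, rfl⟩ := mem_image.1 hl
  exact h p hp

end Pool.Agent.Lib.MP_696deb_nt.CU.Kt
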