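import Pool.Agent.Lib.MP_696deb_nt.CU.KtC2
import Pool.Agent.Lib.MP_696deb_nt.CU.KtL2
import Pool.Agent.Lib.MP_696deb_nt.CU.KtM

/-! The bilinear bound for governing families. -/

set_option autoImplicit false

open Finset
open scoped Classical NNReal

namespace Pool.Agent.Lib.MP_696deb_nt.CU.Kt

open B2 hiding zeta cy cyc Gen Kum C2 Spl cup

variable {U : Type} [Fintype U] {m : U → ℕ} {β : U → Qbar} {d : U → Gam → ZMod 3}
  {w : ℕ → Plc} {s : ℕ → Gam} {tst : Finset Gam}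

/-- Places, inertia generators and a finite set of test elements that detect cocycles. -/
structure Sys (w : ℕ → Plc) (s : ℕ → Gam) (tst : Finset Gam) : Prop where
  p : ∀ q : ℕ, q.Prime → (w q).p = q
  gn : ∀ q : ℕ, q.Prime → q ≠ 3 → Gn (w q) (s q)
  unr : ∀ (e : ℕ) (u : Gam → ZMod 3), Sm ⊤ u → (∀ g h, u (g * h) = u g + ch g ^ e * u h) →
    (∀ g ∈ tst, u g = 0) → (∀ q : ℕ, q.Prime → q ≠ 3 → u (s q) = 0) → u = 0

omit [Fintype U] in
theorem Fam.sub {Φ Φ' : Finset U → Gam → ZMod 3} (h : Fam d Φ) (h' : Fam d Φ') (e : ZMod 3) :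
    Fam d fun T g => Φ T g - e * Φ' T g := by
  refine ⟨fun T => (h.1 T).comp₂ (h'.1 T) fun x y => x - e * y, fun T g k => ?_⟩
  simp only [h.2 T g k, h'.2 T g k, mul_sub, sum_sub_distrib, mul_add, mul_sum, mul_left_comm e]
  ring

omit [Fintype U] in
theorem Fam.uniq (hy : Sys w s tst) {Φ Φ' : Finset U → Gam → ZMod 3} (h : Fam d Φ) (h' : Fam d Φ')
    (h1 : ∀ T, ∀ g ∈ tst, Φ T g = Φ' T g)
    (h2 : ∀ T, ∀ q : ℕ, q.Prime → q ≠ 3 → Φ T (s q) = Φ' T (s q)) : Φ = Φ' := by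
  have k := h.sub h' 1
  simp only [one_mul] at k
  suffices ∀ T, (fun g => Φ T g - Φ' T g) = 0 from
    funext fun T => funext fun g => sub_eq_zero.1 (congrFun (this T) g)
  intro T
  induction T using Finset.strongInduction with
  | H T ih =>
    refine hy.unr (T.card + 1) _ (k.1 T) (fun g g' => ?_) (fun g hg => sub_eq_zero.2 (h1 T g hg))
      fun q a b => sub_eq_zero.2 (h2 T q a b)
    refine (k.2 T g g').trans ?_
    rw [sum_eq_single_of_mem ∅ (empty_mem_powerset T)]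
    · simp
    · intro R hR h0
      exact mul_eq_zero_of_right _ (congrFun (ih (T \ R)
        (sdiff_ssubset (mem_powerset.1 hR) (nonempty_iff_ne_empty.2 h0))) g')

/-- The bound for the kernel itself. -/
theorem amp_bound (h : Rad m β d) {tp tr W B M : ℕ} {P R : Finset ℕ} {f : ℕ → Gam}
    (hP : ∀ p ∈ P, p.Prime ∧ tp < p ∧ p ≤ 2 * tp)
    (hR : ∀ r ∈ R, tr < r ∧ r ≤ 2 * tr ∧ (w r).p = r ∧ Spt m d (w r) (f r) ∧
      ch (f r) ^ (Fintype.card U + 1) = 1)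
    {n : ℕ → (U → ZMod 3) → ℤ} {c : ℕ → ℤ} (hn : ∀ p ∈ P, ∀ T, |n p T| ≤ B)
    (hN : ∀ p ∈ P, ∏ γ, al β (n p) γ = (c p * p : ℤ)) (hc : ∀ p ∈ P, ∀ q ∈ P, ¬ (q : ℤ) ∣ c p)
    (hB : B ^ 3 ^ Fintype.card U ≤ 2 * tp) (hW : 2 * tr ≤ 4 ^ W) (h0 : 1 ≤ W) (hM : 1 ≤ M)
    {Q : ℕ} (hQ : (2 * 3 ^ Fintype.card U + 1) * (12 * W) *
      (3 * (3 ^ Fintype.card U * ∏ j, m j)) ^ 3 ^ Fintype.card U * M ^ 2 = Q)
    (h1 : Q ≤ tr) (h2 : Q ^ 12 ≤ B) {t : ZMod 3} (ht : t ≠ 0) (a b : ℕ → ℂ) (ha : ∀ p, ‖a p‖ ≤ 1)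
    (hb : ∀ r, ‖b r‖ ≤ 1) :
    ‖∑ p ∈ P, ∑ r ∈ R, a p * b r * th β (w r) t (n p)‖ * M ≤ tp * tr := by
  have hD : 0 < ∏ j, m j := prod_pos fun j _ => Nat.pos_of_ne_zero (h.pos j)
  have q2 : 2 ≤ Q := by
    rw [← hQ, mul_assoc, mul_assoc, mul_left_comm]
    exact (show 2 ≤ 12 * W by omega).trans (Nat.le_mul_of_pos_right _ (by positivity))
  obtain ⟨τ, t1, t2, t3⟩ := exists_tau q2 h1 h2 hW h0
  have cd : ∀ {t : ℕ} {P : Finset ℕ}, (∀ p ∈ P, t < p ∧ p ≤ 2 * t) → P.card ≤ t := fun {t P} k =>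
    (card_le_card (t := Ioc t (2 * t)) fun p hp => mem_Ioc.2 (k p hp)).trans (by
      rw [Nat.card_Ioc]; omega)
  have ex : ∀ v : Fin (τ + 1) → ℕ, ∃ u : (U → ZMod 3) → ℤ,
      v ∈ Fintype.piFinset (fun _ => P) →
      (∀ T, |u T| ≤ (((3 ^ Fintype.card U * ∏ j, m j) * B) ^ (τ + 1) : ℕ)) ∧
        ∀ γ, al β u γ = ∏ i, al β (n (v i)) γ := fun v => by
    by_cases hv : v ∈ Fintype.piFinset (fun _ => P)
    · obtain ⟨u, hu⟩ := exists_prod h (fun i => n (v i)) fun i =>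
        hn _ (Fintype.mem_piFinset.1 hv i)
      exact ⟨u, fun _ => hu⟩
    · exact ⟨0, fun k => absurd k hv⟩
  choose nn hnn using ex
  have key := lbil_amp P R n τ _ ((τ + 1) ^ (τ + 1)) (2 * tr) nn (fun r => th β (w r) t)
    (fun r hr => by
      obtain ⟨-, r2, r3, r4, r5⟩ := hR r hr
      refine ⟨r3 ▸ (w r).prime, r2, norm_th_le _ _ _, fun v v' k => th_congr h t (r3.symm ▸ k), ?_⟩
      have := th_mean h r4 r5 ht
      rw [r3] at this
      refine Eq.trans (sum_congr (Finset.ext fun v => ?_) fun _ _ => rfl) this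
      simp only [Fintype.mem_piFinset])
    (fun v hv => (hnn v hv).1) (fun v hv r hr => th_prod h (hR r hr).2.2.2.1 t univ (hnn v hv).2)
    (fun u => by
      obtain ⟨N, e⟩ := exists_norm (n := u) h
      refine (card_le_card fun v hv => ?_).trans
        (card_tuple P (fun p hp => (hP p hp).1) c hc (τ + 1) N)
      obtain ⟨hu, rfl⟩ := mem_filter.1 hv
      refine mem_filter.2 ⟨hu, Int.cast_injective (α := Qbar) ?_⟩
      rw [← e, prod_congr rfl fun γ _ => (hnn v hu).2 γ, prod_comm, Int.cast_prod]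
      exact prod_congr rfl fun i _ => (hN _ (Fintype.mem_piFinset.1 hu i)).symm) a b ha hb
  rw [Fintype.card_fun, ZMod.card] at key
  refine num (cd fun p hp => (hP p hp).2) (cd fun r hr => ⟨(hR r hr).1, (hR r hr).2.1⟩)
    (by positivity) (Nat.succ_le_of_lt (by positivity)) (by omega) t2 hB
    ((Nat.pow_le_pow_left ?_ _).trans t3) key
  rw [← hQ]
  gcongr _ * ?_ * _ * _
  omega

theorem core (n k E : ℕ) : ∃ K : ℕ, ∀ (U : Type) [Fintype U] (m : U → ℕ) (β : U → Qbar)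
    (d : U → Gam → ZMod 3) (w : ℕ → Plc) (s f : ℕ → Gam) (tst : Finset Gam) (W tp tr : ℕ)
    (P R : Finset ℕ) (Ψ : ℕ → Finset U → Gam → ZMod 3) (z : Finset U → ℕ → ZMod 3) (e t : ZMod 3)
    (a b : ℕ → ℂ), Fintype.card U = n → tst.card = k → Rad m β d →
    (∀ γ : U → ZMod 3, ∃ g, ch g = 1 ∧ ∀ j, d j g = γ j) → Sys w s tst →
    (∀ q : ℕ, q.Prime → IsFrob (w q) q (f q)) → 2 ≤ W → (∀ j, m j ≤ W ^ 6) → 2 * tr ≤ 4 ^ W →
    W ^ K ≤ tp → W ^ K ≤ tr →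
    (∀ p ∈ P, p.Prime ∧ tp < p ∧ p ≤ 2 * tp ∧ (∀ j, d j (f p) = 0) ∧ Fam d (Ψ p) ∧
      ∀ T, ∀ q : ℕ, q.Prime → q ≠ 3 → Ψ p T (s q) = z T q + if q = p ∧ T = ∅ then e else 0) →
    (∀ r ∈ R, r.Prime ∧ tr < r ∧ r ≤ 2 * tr ∧ (∀ j, d j (f r) = 0) ∧ ch (f r) ^ (n + 1) = 1 ∧
      r ∉ P) → e ≠ 0 → t ≠ 0 → (∀ p, ‖a p‖ ≤ 1) → (∀ r, ‖b r‖ ≤ 1) →
    ‖∑ p ∈ P, ∑ r ∈ R, a p * b r * ec (t * Ψ p univ (f r))‖ * W ^ E ≤ tp * tr := by
  obtain ⟨K, hK⟩ := Q0_pb (6 * n) n k E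
  refine ⟨K, fun U _ m β d w s f tst W tp tr P R Ψ z e t a b hn hk h hs hy hf hW hm hr k1 k2 hP hR
    he ht ha hb => ?_⟩
  subst hn hk
  set n := Fintype.card U with hn
  set D := ∏ j, m j with hD
  have D0 : 0 < D := prod_pos fun j _ => Nat.pos_of_ne_zero (h.pos j)
  have g0 : 3 ^ n ≠ 0 := by positivity
  have q1 := hK W D hW ((prod_le_pow_card _ _ _ fun j _ => hm j).trans
    (by rw [card_univ, ← pow_mul]))
  have q2 := C0_le n tst.card E (one_le_two.trans hW) D0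
  have q3 := le_C0 n (D := D)
  set Q := Q0 n tst.card E W D with hQ
  have q4 : Q ≤ W ^ K := ((Nat.le_self_pow (by omega) Q).trans (Nat.le_self_pow g0 _)).trans q1
  obtain ⟨B, b1, b2⟩ : ∃ B, B ^ 3 ^ n ≤ 2 * tp ∧ 2 * tp < (B + 1) ^ 3 ^ n :=
    ⟨_, Nat.pow_nthRoot_le_iff.2 (Or.inl g0), Nat.lt_pow_nthRoot_add_one g0 _⟩
  have b3 : Q ^ 12 ≤ B := Nat.lt_succ_iff.1 (lt_of_pow_lt_pow_left₀ (3 ^ n) (Nat.zero_le _)
    ((q1.trans (k1.trans (by omega))).trans_lt b2))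
  have sp : ∀ q : ℕ, q.Prime → Q < q → (∀ j, d j (f q) = 0) → Spt m d (w q) (f q) :=
    fun q a1 a2 a3 => by
      refine ⟨?_, fun j k => ?_, (hy.p q a1).symm ▸ hf q a1, a3⟩
      · rw [hy.p q a1]
        omega
      · rw [hy.p q a1] at k
        have := Nat.le_of_dvd D0 (k.trans (dvd_prod_of_mem m (mem_univ j)))
        omega
  have ex : ∀ p : ℕ, ∃ (v : (U → ZMod 3) → ℤ) (c : ℤ), p ∈ P → (∀ T, |v T| ≤ B) ∧
      (∀ γ, al β v γ ≠ 0) ∧ c ≠ 0 ∧ |c| ≤ C0 n D ∧ ∏ γ, al β v γ = (c * p : ℤ) ∧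
        (w p).V (al β v 0) < 1 := fun p => by
    by_cases hp : p ∈ P
    · obtain ⟨p1, p2, p3, p4, -⟩ := hP p hp
      obtain ⟨v, c, hv⟩ := exists_ptr h hs (sp p p1 (by omega) p4) (B := B)
        (by rw [hy.p p p1, ← hn]; omega) (by rw [hy.p p p1, ← hn]; omega)
      rw [hy.p p p1] at hv
      exact ⟨v, c, fun _ => hv⟩
    · exact ⟨0, 0, fun k => absurd k hp⟩
  choose v c hv using ex
  have nd : ∀ p ∈ P, ∀ q : ℕ, Q < q → ¬ (q : ℤ) ∣ c p := fun p hp q hq k => by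
    have := Int.le_of_dvd (abs_pos.2 (hv p hp).2.2.1) ((dvd_abs _ _).2 k)
    have := (hv p hp).2.2.2.1
    omega
  have nd' : ∀ p ∈ P, ∀ q : ℕ, q.Prime → q ≠ p → ¬ (q : ℤ) ∣ c p → ¬ ((w q).p : ℤ) ∣ c p * p :=
    fun p hp q a1 a2 a3 k => by
      rw [hy.p q a1] at k
      exact ((Nat.prime_iff_prime_int.1 a1).dvd_or_dvd k).elim a3 fun k =>
        a2 ((Nat.prime_dvd_prime_iff_eq a1 (hP p hp).1).1 (Int.natCast_dvd_natCast.1 k))
  let Ξ : ℕ → Finset U → Gam → ZMod 3 := fun p T g => Ψ p T g - e * Ph β d (v p) T g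
  let G : ℤ → Finset Gam := fun c => tst ∪ (c.natAbs * D).primeFactors.image s
  let lab : ℕ → Σ c : ℤ, Finset U → G c → ZMod 3 := fun p => ⟨c p, fun T g => Ξ p T g⟩
  have x1 : ∀ p ∈ P, ∀ T, ∀ q : ℕ, q.Prime → q ≠ 3 → ¬ q ∣ (c p).natAbs * D →
      Ξ p T (s q) = z T q := fun p hp T q a1 a2 a3 => by
    have a4 : ∀ j, ¬ (w q).p ∣ m j := fun j k => a3 (Dvd.dvd.mul_left
      ((hy.p q a1 ▸ k).trans (dvd_prod_of_mem m (mem_univ j))) _)
    have a5 : ¬ (q : ℤ) ∣ c p := fun k => a3 ((Int.natCast_dvd.1 k).mul_right _)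
    have a6 : (w q).p ≠ 3 := (hy.p q a1).symm ▸ a2
    change Ψ p T (s q) - e * Ph β d (v p) T (s q) = _
    rw [(hP p hp).2.2.2.2.2 T q a1 a2]
    by_cases k : q = p
    · subst k
      rw [Ph_gn h a6 (hy.gn q a1 a2) a4 (c := c q) (by rw [hy.p q a1]; exact (hv q hp).2.2.2.2.1)
        (by rwa [hy.p q a1]) (hv q hp).2.2.2.2.2]
      by_cases k : T = ∅ <;> simp [k]
    · rw [Ph_ine h a6 (hy.gn q a1 a2).1 a4 (hv p hp).2.2.2.2.1 (nd' p hp q a1 k a5)]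
      simp [k]
  have x2 : ∀ p ∈ P, ∀ p' ∈ P, lab p = lab p' → Ξ p = Ξ p' := fun p hp p' hp' k => by
    obtain ⟨k1, k2⟩ := Sigma.mk.inj_iff.1 k
    have k3 : ∀ T, ∀ g ∈ G (c p), Ξ p T g = Ξ p' T g := by
      revert k2
      generalize c p' = y at k1
      subst k1
      exact fun k2 T g hg => congrFun (congrFun (eq_of_heq k2) T) ⟨g, hg⟩
    refine Fam.uniq hy ((hP p hp).2.2.2.2.1.sub (Ph_fam h (hv p hp).2.1) e)
      ((hP p' hp').2.2.2.2.1.sub (Ph_fam h (hv p' hp').2.1) e)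
      (fun T g hg => k3 T g (mem_union_left _ hg)) fun T q a1 a2 => ?_
    by_cases a3 : q ∣ (c p).natAbs * D
    · exact k3 T _ (mem_union_right _ (mem_image_of_mem s (Nat.mem_primeFactors.2 ⟨a1, a3,
        mul_ne_zero (Int.natAbs_ne_zero.2 (hv p hp).2.2.1) D0.ne'⟩)))
    · exact (x1 p hp T q a1 a2 a3).trans (x1 p' hp' T q a1 a2 (k1 ▸ a3)).symm
  have x3 : (P.image lab).card ≤ L0 n tst.card D := by
    refine (card_le_card (t := (Icc (-(C0 n D : ℤ)) (C0 n D)).sigma fun _ => univ) fun l hl => ?_).trans ?_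
    · obtain ⟨p, hp, rfl⟩ := mem_image.1 hl
      exact mem_sigma.2 ⟨mem_Icc.2 (abs_le.1 (hv p hp).2.2.2.1), mem_univ _⟩
    · rw [card_sigma]
      refine (sum_le_card_nsmul _ _ ((3 ^ tst.card * (C0 n D * D) ^ 2) ^ 2 ^ n) fun y hy => ?_).trans
        (Nat.mul_le_mul_right _ (by rw [Int.card_Icc]; omega))
      rw [card_univ, Fintype.card_fun, Fintype.card_fun, ZMod.card, Fintype.card_finset,
        Fintype.card_coe]
      refine Nat.pow_le_pow_left ((Nat.pow_le_pow_right three_pos ((card_union_le _ _).trans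
        (Nat.add_le_add_left card_image_le _))).trans ?_) _
      rw [pow_add]
      refine Nat.mul_le_mul_left _ ?_
      rcases eq_or_ne (y.natAbs * D) 0 with k | k
      · rw [k, Nat.primeFactors_zero, card_empty, pow_zero]
        exact Nat.one_le_pow _ _ (Nat.mul_pos (by omega) D0)
      · have := mem_Icc.1 hy
        exact (three_pow_le k).trans (Nat.pow_le_pow_left (Nat.mul_le_mul_right _ (by omega)) _)
  have L1 : 0 < L0 n tst.card D := by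
    have : 0 < C0 n D := by omega
    unfold L0
    positivity
  have L2 : (0 : ℝ) < L0 n tst.card D := by exact_mod_cast L1
  refine (class_bound P lab _ (δ := tp * tr / L0 n tst.card D) (by positivity) fun p hp => ?_).trans
    ((mul_le_mul_of_nonneg_right (Nat.cast_le.2 x3) (by positivity)).trans
      (mul_div_cancel₀ _ L2.ne').le)
  have mP : ∀ q ∈ ({q ∈ P | lab q = lab p} : Finset ℕ), q ∈ P := fun q hq => (mem_filter.1 hq).1
  have key := amp_bound h (P := {q ∈ P | lab q = lab p}) (R := R) (w := w) (f := f) (n := v) (c := c)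
    (M := L0 n tst.card D * W ^ E) (Q := Q)
    (fun q hq => ⟨(hP q (mP q hq)).1, (hP q (mP q hq)).2.1, (hP q (mP q hq)).2.2.1⟩)
    (fun r k => by
      obtain ⟨r1, r2, r3, r4, r5, -⟩ := hR r k
      exact ⟨r2, r3, hy.p r r1, sp r r1 (by omega) r4, r5⟩)
    (fun q hq => (hv q (mP q hq)).1) (fun q hq => (hv q (mP q hq)).2.2.2.2.1)
    (fun q hq q' hq' => nd q (mP q hq) q' (by have := (hP q' (mP q' hq')).2.1; omega))
    b1 hr (one_le_two.trans hW) (Nat.succ_le_of_lt (by positivity)) rfl (q4.trans k2) b3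
    (neg_ne_zero.2 (mul_ne_zero ht he)) a (fun r => b r * ec (t * Ξ p univ (f r))) ha
    fun r => by rw [norm_mul, norm_ec, mul_one]; exact hb r
  rw [le_div_iff₀ L2, mul_assoc, mul_comm _ (L0 n tst.card D : ℝ)]
  rw [Nat.cast_mul, Nat.cast_pow] at key
  refine le_of_eq_of_le ?_ key
  congr 2
  refine sum_congr rfl fun q hq => sum_congr rfl fun r k => ?_
  obtain ⟨r1, r2, r3, r4, r5, r6⟩ := hR r k
  rw [← Ph_frob h (sp r r1 (by omega) r4) r5 (V_al h (hv q (mP q hq)).2.2.2.2.1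
    (nd' q (mP q hq) r r1 (fun e => r6 (e ▸ mP q hq)) (nd q (mP q hq) r (by omega)))),
    ← x2 q (mP q hq) p hp (mem_filter.1 hq).2, mul_assoc (a q) (_ * _), mul_assoc (b r), ← ec_add,
    mul_assoc (a q)]
  congr 3
  change _ = t * (Ψ q univ (f r) - e * _) + _
  ring

end Pool.Agent.Lib.MP_696deb_nt.CU.Kt
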