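import Pool.Agent.Lib.MP_696deb_nt.CU.SB

/-! Growth of the groups of Selmer cocycles. The theorem `gro_of` is in the file `Z1`. -/

set_option autoImplicit false

open scoped Classical
open Finset

namespace Pool.Agent.Lib.MP_696deb_nt.CU

variable {n e l m : ℕ} {c c' : Gam → A}

theorem card_Zs_succ (hn : n ≠ 0) (e l : ℕ) : Nat.card (Zs n e (l + 1)) =
    Nat.card (Zs n e l) * Nat.card ((Zs n e (l + 1)).map
      (DistribSMul.toAddMonoidHom (Gam → A) (th ^ l))) := by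
  have _ := hn
  exact card_top n e l

theorem AA_le (n m : ℕ) (hm : 1 ≤ m) : AA n m ≤ Zs n 1 1 := by
  have _ := hm
  exact AA_le1 n m

theorem AA_succ (n : ℕ) (hm : 1 ≤ m) : AA n (m + 1) ≤ AA n m := AA_anti hm (Nat.le_succ m)

theorem chi_mem_AA (n : ℕ) (hm : 1 ≤ m) : kC (fun g => chi g - 1) ∈ AA n m := chi_AA hm

theorem Big.le (hn : n ≠ 0) (hm : 1 ≤ m) (h : Big n m) : 81 ≤ Nat.card (AA n m) := by
  have _ := hm
  exact h.le81 hn

theorem Big.card (hn : n ≠ 0) (h : Big n (m + 1)) : 81 ^ m ≤ Nat.card (Zs n 0 (2 * m + 1)) :=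
  (h.card0 hn (Nat.le_succ m)).trans (card_Zs_mono hn 0 (Nat.le_succ _))

end Pool.Agent.Lib.MP_696deb_nt.CU
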