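import Pool.Agent.Lib.MP_696deb_nt.CU.Box
import Pool.Agent.Lib.MP_696deb_nt.B6.SBe

/-! Smooth parts, good integers and their boxes. -/

set_option autoImplicit false

open scoped Classical
open Finset

namespace Pool.Agent.Lib.MP_696deb_nt.CU.An

open Pool.Agent.Lib.MP_696deb_nt.Sa Pool.Agent.B6.S

/-- The prime factors above `T`. -/
def up (T n : ℕ) : Finset ℕ := n.primeFactors.filter fun p => T < p

/-- The cofactor of their product. -/
def lo (T n : ℕ) : ℕ := n / ∏ p ∈ up T n, p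

/-- The square part is small. -/
def G0 (m n : ℕ) : Prop := ∃ a b, a ≤ m ∧ Squarefree b ∧ n = a ^ 2 * b

/-- The lower end of the upper window. -/
def TT (m : ℕ) : ℕ := 2 ^ aa m 1

/-- The class of a large prime. -/
noncomputable def Ck (m X p : ℕ) : Finset ℕ :=
  Wn (YY m) X fun q => q.Prime ∧ kap m q = kap m p ∧ q % 3 = p % 3

def H4 (m X n : ℕ) : Prop := ∀ p ∈ lP m n, (1 / 2 : ℝ) ^ m ^ 5 * p ≤ (Ck m X p).card

def H5 (m n : ℕ) : Prop := m ^ 2 ≤ ((lP m n).filter fun p => p % 3 = 2).card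

/-- Cubic characters of small conductor are seen by a large prime. -/
def C1 (m n : ℕ) : Prop := ∀ ψ : ℕ → ZMod 3,
  (∀ a b, a.Coprime (3 * lo (YY m) n) → b.Coprime (3 * lo (YY m) n) → ψ (a * b) = ψ a + ψ b) →
  (∀ a b, a.Coprime (3 * lo (YY m) n) → a ≡ b [MOD 9 * lo (YY m) n] → ψ a = ψ b) →
  (∀ p ∈ lP m n, ψ p = 0) → ∀ a, a.Coprime (3 * lo (YY m) n) → ψ a = 0

/-- The product of the primes of `3 d`. -/
def rd (d : ℕ) : ℕ := ∏ p ∈ (3 * d).primeFactors, p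

/-- Products of lower primes are not cubes modulo some upper prime. -/
def P1 (m n : ℕ) : Prop := ∀ d, d ∣ rd (lo (2 * TT m) n) ^ 2 → d ≠ 1 →
  ∃ q ∈ up (2 * TT m) n, q % 3 = 1 ∧ ¬ ∃ y : ℕ, y ^ 3 ≡ d [MOD q]

structure Gn (m X n : ℕ) : Prop where
  pos : 1 ≤ n
  le : n ≤ X
  g0 : G0 m n
  g1 : G1 m n
  g2 : G2 m n
  g3 : G3 m n
  h4 : H4 m X n
  h5 : H5 m n
  g6 : G6 m n

noncomputable def bx (m X n : ℕ) : Bx where
  r := (lP m n).card
  N0 := lo (YY m) n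
  X j := Ck m X (xs m n j)
  t j := sInf (Ck m X (xs m n j) : Set ℕ) - 1
  J := univ.filter fun j => xs m n j % 3 = 1
  I k := univ.filter fun j => xs m n j ∈ Win m k
  Up := univ.filter fun j => TT m < xs m n j
  H := m ^ 2
  Y := YY m
  θ := (1 / 2) ^ m ^ 5

variable {T m X n p q : ℕ}

theorem mem_up : p ∈ up T n ↔ p ∈ n.primeFactors ∧ T < p := mem_filter

theorem up_prime (h : p ∈ up T n) : p.Prime := Nat.prime_of_mem_primeFactors (mem_up.1 h).1

theorem lo_mul (T n : ℕ) : lo T n * ∏ p ∈ up T n, p = n :=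
  Nat.div_mul_cancel ((prod_dvd_prod_of_subset _ _ _ (filter_subset _ _)).trans
    (Nat.prod_primeFactors_dvd n))

theorem lo_dvd (T n : ℕ) : lo T n ∣ n := Dvd.intro _ (lo_mul T n)

theorem lo_ne (h : n ≠ 0) : lo T n ≠ 0 := ne_zero_of_dvd_ne_zero h (lo_dvd T n)

theorem lo_small (h : G0 m n) (h0 : n ≠ 0) (hT : m ≤ T) (hp : p.Prime) (k : p ∣ lo T n) :
    p ≤ T := by
  by_contra hc
  obtain ⟨a, b, a1, a2, a3⟩ := h
  have h1 : p * p ∣ a ^ 2 * b := by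
    rw [← a3, ← lo_mul T n]
    exact mul_dvd_mul k (dvd_prod_of_mem _ (mem_up.2
      ⟨Nat.mem_primeFactors.2 ⟨hp, k.trans (lo_dvd T n), h0⟩, by omega⟩))
  have a0 : a ≠ 0 := fun e => h0 (by simp [a3, e])
  have h2 : p.Coprime a := (Nat.coprime_of_lt_prime a0 (by omega) hp)
  exact hp.not_isUnit (a2 p (((h2.mul_left h2).pow_right 2).dvd_of_dvd_mul_left h1))

theorem dvd_lo (hp : p.Prime) (k : p ∣ n) (hT : p ≤ T) : p ∣ lo T n := by
  rw [← lo_mul T n] at k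
  refine (Nat.Coprime.prod_right fun q hq => ?_).dvd_of_dvd_mul_right k
  exact (Nat.coprime_primes hp (up_prime hq)).2 fun e => by have := (mem_up.1 hq).2; omega

theorem lo_pf (h : G0 m n) (h0 : n ≠ 0) (hT : m ≤ T) :
    (lo T n).primeFactors = n.primeFactors.filter fun p => p ≤ T := by
  ext p
  simp only [mem_filter, Nat.mem_primeFactors]
  exact ⟨fun k => ⟨⟨k.1, k.2.1.trans (lo_dvd T n), h0⟩, lo_small h h0 hT k.1 k.2.1⟩,
    fun k => ⟨k.1.1, dvd_lo k.1.1 k.1.2.1 k.2, lo_ne h0⟩⟩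

theorem lo_le (h : G0 m n) (h0 : n ≠ 0) :
    lo T n ≤ m ^ 2 * T ^ (n.primeFactors.filter fun p => p ≤ T).card := by
  obtain ⟨a, b, a1, a2, a3⟩ := h
  have a0 : a ≠ 0 := fun e => h0 (by simp [a3, e])
  have h1 : b ∣ (∏ p ∈ n.primeFactors.filter fun p => p ≤ T, p) * ∏ p ∈ up T n, p := by
    rw [show up T n = n.primeFactors.filter fun p => ¬ p ≤ T from filter_congr fun p _ => by simp,
      prod_filter_mul_prod_filter_not, ← Nat.prod_primeFactors_of_squarefree a2]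
    exact prod_dvd_prod_of_subset _ _ _ (Nat.primeFactors_mono (Dvd.intro_left _ a3.symm) h0)
  have h2 : lo T n ∣ a ^ 2 * ∏ p ∈ n.primeFactors.filter fun p => p ≤ T, p := by
    refine Nat.dvd_of_mul_dvd_mul_right (prod_pos fun p (hp : p ∈ up T n) => (up_prime hp).pos) ?_
    rw [lo_mul, mul_assoc]
    exact a3.dvd.trans (mul_dvd_mul_left _ h1)
  refine (Nat.le_of_dvd (Nat.mul_pos (by positivity) (prod_pos fun p hp =>
    (Nat.prime_of_mem_primeFactors (mem_filter.1 hp).1).pos)) h2).trans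
    (Nat.mul_le_mul (Nat.pow_le_pow_left a1 2) (prod_le_pow_card _ _ _ fun p hp =>
      (mem_filter.1 hp).2))

theorem mem_Ck : q ∈ Ck m X p ↔ YY m < q ∧ q ≤ X ∧ q.Prime ∧ kap m q = kap m p ∧
    q % 3 = p % 3 := mem_Wn

theorem Ck_eq (h : q ∈ Ck m X p) : Ck m X q = Ck m X p := by
  obtain ⟨-, -, -, a, b⟩ := mem_Ck.1 h
  ext x
  rw [mem_Ck, mem_Ck, a, b]

theorem Gn.ne (h : Gn m X n) : n ≠ 0 := by have := h.pos; omega

theorem Gn.self (h : Gn m X n) (hp : p ∈ lP m n) : p ∈ Ck m X p :=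
  mem_Ck.2 ⟨(mem_up.1 hp).2, (Nat.le_of_mem_primeFactors (mem_up.1 hp).1).trans h.le,
    up_prime hp, rfl, rfl⟩

theorem Gn.small (h : Gn m X n) (hp : p.Prime) (k : p ∣ lo (YY m) n) : p ≤ YY m :=
  lo_small h.g0 h.ne (le_YY m) hp k

theorem mem_J {j : Fin (lP m n).card} : j ∈ (bx m X n).J ↔ xs m n j % 3 = 1 :=
  anf_mem_filter (P := fun j => xs m n j % 3 = 1) _ j

theorem mem_I {k : Fin 2} {j : Fin (lP m n).card} : j ∈ (bx m X n).I k ↔ xs m n j ∈ Win m k :=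
  anf_mem_filter (P := fun j => xs m n j ∈ Win m k) _ j

theorem mem_Up {j : Fin (lP m n).card} : j ∈ (bx m X n).Up ↔ TT m < xs m n j :=
  anf_mem_filter (P := fun j => TT m < xs m n j) _ j

theorem bx_wf (hm : 2 ≤ m) (h : Gn m X n) : (bx m X n).Wf := by
  have hY := anf_YY hm
  refine ⟨lo_ne h.ne, fun j p hp => (mem_Ck.1 hp).2.2.1, fun j p hp k => ?_, fun i j p hi hj => ?_,
    fun j => ⟨_, h.self (anG_xs j)⟩, fun j hj p hp => ?_, fun j hj p hp => ?_⟩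
  · obtain ⟨a, -, b, -⟩ := mem_Ck.1 hp
    rcases (Nat.Prime.dvd_mul b).1 k with k | k
    · have := Nat.le_of_dvd three_pos k
      omega
    · exact (h.small b k).not_gt a
  · exact anG_xs_inj (h.g3 _ (anG_xs i) _ (anG_xs j)
      ((mem_Ck.1 hi).2.2.2.1.symm.trans (mem_Ck.1 hj).2.2.2.1))
  · exact (mem_Ck.1 hp).2.2.2.2.trans (mem_J.1 hj)
  · obtain ⟨a, -, b, -, c⟩ := mem_Ck.1 hp
    have d : p % 3 ≠ 1 := fun e => hj (mem_J.2 (c ▸ e))
    have e : ¬ 3 ∣ p := fun k => by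
      have := (Nat.prime_dvd_prime_iff_eq Nat.prime_three b).1 k
      omega
    omega

theorem bx_rng (hm : 2 ≤ m) {j : Fin (lP m n).card} (hp : p ∈ (bx m X n).X j) :
    (bx m X n).t j < p ∧ p ≤ 2 * (bx m X n).t j ∧ YY m ≤ (bx m X n).t j := by
  have hr : sInf (Ck m X (xs m n j) : Set ℕ) ∈ Ck m X (xs m n j) :=
    Nat.sInf_mem (s := (Ck m X (xs m n j) : Set ℕ)) ⟨p, hp⟩
  have h1 : sInf (Ck m X (xs m n j) : Set ℕ) ≤ p := Nat.sInf_le hp
  change sInf (Ck m X (xs m n j) : Set ℕ) - 1 < p ∧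
    p ≤ 2 * (sInf (Ck m X (xs m n j) : Set ℕ) - 1) ∧ YY m ≤ sInf (Ck m X (xs m n j) : Set ℕ) - 1
  generalize sInf (Ck m X (xs m n j) : Set ℕ) = R at hr h1
  have h2 := (mem_Ck.1 hr).1
  have h3 := anf_YY hm
  have h4 := kap_ratio (m := m) (p := R) (p' := p) (by omega) (by omega) (by omega)
    ((mem_Ck.1 hr).2.2.2.1.trans (mem_Ck.1 hp).2.2.2.1.symm)
  have h5 : (4 : ℝ) ≤ (m : ℝ) ^ 11 := by
    exact_mod_cast le_trans (by norm_num) (Nat.pow_le_pow_left hm 11)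
  have h6 : Real.exp (1 / (m : ℝ) ^ 11) ≤ 4 / 3 :=
    ((Real.exp_le_exp.2 (one_div_le_one_div_of_le (by norm_num) h5)).trans
      (Real.exp_bound_div_one_sub_of_interval (x := 1 / 4) (by norm_num) (by norm_num))).trans_eq
      (by norm_num)
  have h7 := h4.trans (mul_le_mul_of_nonneg_right h6 (Nat.cast_nonneg R))
  have h8 : 3 * p ≤ 4 * R := by exact_mod_cast (show (3 * p : ℝ) ≤ 4 * R by linarith)
  omega

theorem bx_k0 (h : Gn m X n) : (bx m X n).k0 ≤ m + 1 := by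
  change (3 * lo (YY m) n).primeFactors.card ≤ _
  rw [Nat.primeFactors_mul three_ne_zero (lo_ne h.ne), lo_pf h.g0 h.ne (le_YY m),
    Nat.prime_three.primeFactors]
  have h1 := card_union_le {3} (sP m n)
  have h2 : (sP m n).card ≤ m := h.g2
  rw [card_singleton] at h1
  exact h1.trans (by omega)

theorem bx_hyp {c : ℕ} (hm : 5 * c + 17 ≤ m) (hX : Sz m X) (h : Gn m X n) :
    (bx m X n).Hyp c := by
  have hm2 : 2 ≤ m := by omega
  have hk := bx_k0 h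
  have hx := fun j => bx_rng (X := X) hm2 (h.self (anG_xs (m := m) (n := n) j))
  have w0 : ∀ k : ℕ, YY m ≤ 2 ^ aa m k := fun k => Nat.pow_le_pow_right two_pos
    (le_trans (by simp [aa]) (anf_aa_mono (by omega) (Nat.zero_le k)))
  have a3 := anf_aa_succ (m := m) 0
  have a4 : 0 < aa m 0 * 2 ^ m ^ 3 := by unfold aa; positivity
  refine ⟨bx_wf hm2 h, fun j p hp => ⟨(bx_rng hm2 hp).1, (bx_rng hm2 hp).2.1⟩, ?_, ?_, fun j => ?_,
    fun j => ?_, fun j => (hx j).2.2, ?_, ?_, ?_, fun k => ?_, fun j hj => ?_, ?_,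
    fun i hi j hj => ?_⟩
  · change (0 : ℝ) < (1 / 2) ^ m ^ 5
    positivity
  · exact pow_le_one₀ (by norm_num) (by norm_num)
  · refine le_trans ?_ (h.h4 _ (anG_xs j))
    exact mul_le_mul_of_nonneg_left (Nat.cast_le.2 (hx j).1.le)
      (by change (0 : ℝ) ≤ (1 / 2) ^ m ^ 5; positivity)
  · have b1 : (bx m X n).t j ≤ X := (hx j).1.le.trans (mem_Ck.1 (h.self (anG_xs j))).2.1
    have b2 : 32 ≤ (bx m X n).t j := (anf_YY hm2).trans (hx j).2.2
    have b3 : (0 : ℝ) < (bx m X n).t j := by exact_mod_cast (by omega : 0 < (bx m X n).t j)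
    have b4 := Real.log_le_log b3 (Nat.cast_le.2 b1)
    have b5 := hX.log_le (by omega)
    have b6 : (2 : ℝ) ^ (16 * m ^ 4 + 1) ≤ 2 ^ m ^ 5 := pow_le_pow_right₀ one_le_two (by
      have := Nat.one_le_pow 4 m (by omega)
      rw [pow_succ m 4]
      nlinarith)
    have b7 : (1 : ℝ) ≤ 2 ^ (16 * m ^ 4) := one_le_pow₀ one_le_two
    change _ ≤ 1 / (1 / 2 : ℝ) ^ m ^ 5
    rw [Real.log_mul two_ne_zero b3.ne', one_div_pow, one_div_one_div]
    rw [pow_succ] at b6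
    linarith [anA_log2]
  · have h1 := anf_exp (c := c) (r := (bx m X n).r) (k := (bx m X n).k0) hm2 (by omega)
      ((card_filter_le _ _).trans h.g1) (by omega)
    change ((2 : ℝ) ^ (((bx m X n).r + (bx m X n).k0 + 1) ^ 2) / (1 / 2) ^ m ^ 5) ^ c ≤
      ((2 ^ m ^ 24 : ℕ) : ℝ)
    rw [one_div, inv_pow, div_inv_eq_mul, ← pow_add, ← pow_mul, Nat.cast_pow, Nat.cast_ofNat]
    exact pow_le_pow_right₀ (by norm_num) h1
  · change c * ((bx m X n).k0 + 1) ≤ m ^ 2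
    nlinarith
  · refine h.h5.trans (anf_card_le (filter_subset _ _) fun j hj => mem_compl.2 fun e => ?_)
    have a := (mem_filter.1 hj).2
    have b := mem_J.1 e
    omega
  · refine (h.g6 k (by omega)).trans (anf_card_le (fun p hp => ?_) fun j hj => ?_)
    · exact mem_filter.2 ⟨(mem_inter.1 hp).1, (w0 k).trans_lt (mem_Ioc.1 (mem_inter.1 hp).2).1⟩
    · exact mem_I.2 (mem_inter.1 hj).2
  · exact mem_Up.2 (mem_Ioc.1 (mem_I.1 hj)).1
  · refine disjoint_left.2 fun j a b => ?_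
    have a1 : xs m n j ≤ 2 ^ (aa m 0 * 2 ^ m ^ 3) := (mem_Ioc.1 (mem_I.1 a)).2
    refine (mem_Up.1 b).not_ge (a1.trans (Nat.pow_le_pow_right two_pos ?_))
    rw [a3]
    exact Nat.le_mul_of_pos_left _ (by omega)
  · have a1 : xs m n i ≤ 2 ^ (aa m 0 * 2 ^ m ^ 3) := (mem_Ioc.1 (mem_I.1 hi)).2
    have a2 : 2 ^ aa m 1 < xs m n j := mem_Up.1 hj
    rw [a3] at a2
    generalize aa m 0 * 2 ^ m ^ 3 = E at a1 a2 a4
    have a7 : (bx m X n).t i ^ c ≤ 2 ^ (c * E) := by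
      rw [mul_comm, pow_mul]; exact Nat.pow_le_pow_left ((hx i).1.le.trans a1) c
    have a8 : 2 ^ (c * E + 1) ≤ 2 ^ (m * E) := Nat.pow_le_pow_right two_pos (by nlinarith)
    have a9 := (hx j).2.1
    rw [pow_succ] at a8
    omega

end Pool.Agent.Lib.MP_696deb_nt.CU.An
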