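import Pool.Agent.Lib.MP_696deb_nt.CU.N0

/-! The boxes of good integers cover them economically. -/

set_option autoImplicit false

open scoped Classical
open Finset

namespace Pool.Agent.Lib.MP_696deb_nt.CU.An

open Pool.Agent.Lib.MP_696deb_nt.Sa Pool.Agent.B6.S

/-- The invariant that determines the box. -/
noncomputable def ky (m X n : ℕ) : ℕ × Finset (Finset ℕ) := (lo (YY m) n, (lP m n).image (Ck m X))

variable {m X n : ℕ} {x y : Fin (lP m n).card → ℕ}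

theorem pt_mem (hx : x ∈ (bx m X n).pts) (j : Fin (lP m n).card) : x j ∈ Ck m X (xs m n j) :=
  Fintype.mem_piFinset.1 hx j

theorem Gn.idx (h : Gn m X n) (hx : x ∈ (bx m X n).pts) (hy : y ∈ (bx m X n).pts)
    {i j : Fin (lP m n).card} (e : x i = y j) : i = j :=
  anG_xs_inj (h.g3 _ (anG_xs i) _ (anG_xs j)
    ((mem_Ck.1 (pt_mem hx i)).2.2.2.1.symm.trans (e ▸ (mem_Ck.1 (pt_mem hy j)).2.2.2.1)))

theorem Gn.prod (h : Gn m X n) (hx : x ∈ (bx m X n).pts) (s : Finset (Fin (lP m n).card)) :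
    ∏ j ∈ s, x j = ∏ p ∈ s.image x, p :=
  (prod_image (f := fun p => p) fun _ _ _ _ e => h.idx hx hx e).symm

theorem Gn.val (h : Gn m X n) (hx : x ∈ (bx m X n).pts) :
    lP m ((bx m X n).nn x) = univ.image x ∧ lo (YY m) ((bx m X n).nn x) = lo (YY m) n := by
  have h1 : ∀ p ∈ univ.image x, p.Prime ∧ YY m < p := fun p hp => by
    obtain ⟨j, -, rfl⟩ := mem_image.1 hp
    exact ⟨(mem_Ck.1 (pt_mem hx j)).2.2.1, (mem_Ck.1 (pt_mem hx j)).1⟩
  have h0 : 0 < ∏ p ∈ univ.image x, p := prod_pos fun p hp => (h1 p hp).1.pos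
  have e : (bx m X n).nn x = lo (YY m) n * ∏ p ∈ univ.image x, p := congrArg _ (h.prod hx univ)
  have h2 : up (YY m) ((bx m X n).nn x) = univ.image x := by
    ext p
    rw [mem_up, e, Nat.primeFactors_mul (lo_ne h.ne) h0.ne',
      Nat.primeFactors_prod fun p hp => (h1 p hp).1, mem_union]
    exact ⟨fun k => k.1.resolve_left fun a => (h.small (Nat.prime_of_mem_primeFactors a)
      (Nat.dvd_of_mem_primeFactors a)).not_gt k.2, fun k => ⟨.inr k, (h1 p k).2⟩⟩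
  exact ⟨h2, by rw [lo, h2, e, Nat.mul_div_cancel _ h0]⟩

theorem Gn.key (h : Gn m X n) (hx : x ∈ (bx m X n).pts) :
    ky m X ((bx m X n).nn x) = ky m X n := by
  obtain ⟨h1, h2⟩ := h.val hx
  rw [ky, ky, h1, h2]
  refine congrArg _ (Finset.ext fun C => ?_)
  conv_rhs => rw [← anG_image]
  simp only [mem_image, mem_univ, true_and, exists_exists_eq_and, Ck_eq (pt_mem hx _)]

theorem Gn.val_mem (hm : 2 ≤ m) (h : Gn m X n) (hx : x ∈ (bx m X n).pts) :
    (bx m X n).nn x ∈ Icc 1 (2 * X) := by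
  have p1 : ∀ j, 0 < x j := fun j => (mem_Ck.1 (pt_mem hx j)).2.2.1.pos
  refine mem_Icc.2 ⟨Nat.mul_pos (lo_ne h.ne).bot_lt (prod_pos fun j _ => p1 j), ?_⟩
  have h1 : ((∏ j, x j : ℕ) : ℝ) ≤ ∏ j, (Real.exp (1 / (m : ℝ) ^ 11) * xs m n j) := by
    rw [Nat.cast_prod]
    exact prod_le_prod (fun _ _ => Nat.cast_nonneg _) fun j _ => kap_ratio (by omega)
      (up_prime (anG_xs j)).pos (p1 j) (mem_Ck.1 (pt_mem hx j)).2.2.2.1.symm
  have h2 : ∏ j, xs m n j = ∏ p ∈ lP m n, p := by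
    conv_rhs => rw [← anG_image]
    exact (prod_image (f := fun p => p) fun _ _ _ _ e => anG_xs_inj e).symm
  have m2 : (2 : ℝ) ≤ m := by exact_mod_cast hm
  have h3 : ((lP m n).card : ℝ) ≤ (m : ℝ) ^ 10 := by
    exact_mod_cast (card_filter_le _ _).trans h.g1
  have h4 : Real.exp (1 / (m : ℝ) ^ 11) ^ (lP m n).card ≤ 2 := by
    rw [← Real.exp_nat_mul, ← Real.le_log_iff_exp_le two_pos]
    refine le_trans ?_ (le_trans (by norm_num : (1 / 2 : ℝ) ≤ 0.6931471803) Real.log_two_gt_d9.le)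
    rw [mul_one_div, div_le_iff₀ (by positivity), pow_succ]
    nlinarith [pow_pos (by linarith : (0 : ℝ) < m) 10]
  rw [prod_mul_distrib, prod_const, card_univ, Fintype.card_fin, ← Nat.cast_prod, h2] at h1
  have h5 : ∏ j, x j ≤ 2 * ∏ p ∈ up (YY m) n, p := by
    exact_mod_cast h1.trans (mul_le_mul_of_nonneg_right h4 (Nat.cast_nonneg _))
  refine (Nat.mul_le_mul_left (lo (YY m) n) h5).trans ?_
  rw [mul_left_comm, lo_mul]
  exact Nat.mul_le_mul_left _ h.le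

theorem Gn.val_inj (h : Gn m X n) (hx : x ∈ (bx m X n).pts) (hy : y ∈ (bx m X n).pts)
    (hxy : (bx m X n).nn x = (bx m X n).nn y) : x = y := by
  have h1 : univ.image x = univ.image y := (h.val hx).1.symm.trans (hxy ▸ (h.val hy).1)
  funext j
  obtain ⟨i, -, e⟩ := mem_image.1 (h1 ▸ mem_image_of_mem x (mem_univ j))
  rw [← e, h.idx hy hx e]

theorem Gn.exists_val {a : ℕ} (h : Gn m X n) (h' : Gn m X a) (hk : ky m X a = ky m X n) :
    ∃ x ∈ (bx m X n).pts, (bx m X n).nn x = a := by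
  obtain ⟨h1, h2⟩ := Prod.ext_iff.1 hk
  change lo (YY m) a = lo (YY m) n at h1
  change (lP m a).image (Ck m X) = (lP m n).image (Ck m X) at h2
  choose x a1 b using fun j : Fin (lP m n).card =>
    mem_image.1 (h2.symm.subset (mem_image_of_mem (Ck m X) (anG_xs j)))
  have hx : x ∈ (bx m X n).pts :=
    Fintype.mem_piFinset.2 fun j => (b j ▸ h'.self (a1 j) : x j ∈ Ck m X (xs m n j))
  have h3 : univ.image x = up (YY m) a := by
    refine Finset.ext fun p => ⟨fun hp => ?_, fun hp => ?_⟩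
    · obtain ⟨j, -, rfl⟩ := mem_image.1 hp
      exact a1 j
    · obtain ⟨q, hq, e⟩ := mem_image.1 (h2.subset (mem_image_of_mem (Ck m X) hp))
      rw [← anG_image] at hq
      obtain ⟨j, -, rfl⟩ := mem_image.1 hq
      have k : p ∈ Ck m X (x j) := by
        rw [b, e]
        exact h'.self hp
      exact mem_image.2 ⟨j, mem_univ j, (h'.g3 _ hp _ (a1 j) (mem_Ck.1 k).2.2.2.1).symm⟩
  refine ⟨x, hx, ?_⟩
  change lo (YY m) n * ∏ j : Fin (lP m n).card, x j = _
  rw [h.prod hx, h3, ← h1, lo_mul]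

theorem cover (hm : 2 ≤ m) : ∃ (N : ℕ) (f : Fin N → ℕ),
    (∀ i, Gn m X (f i)) ∧ ∑ i, (bx m X (f i)).pts.card ≤ 2 * X ∧
      ∀ n, Gn m X n → ∃ i, ∃ x ∈ (bx m X (f i)).pts, (bx m X (f i)).nn x = n := by
  let K := ((Icc 1 X).filter (Gn m X)).image (ky m X)
  choose f a b using fun k : K => mem_image.1 k.2
  have g : ∀ k, Gn m X (f k) := fun k => (mem_filter.1 (a k)).2
  refine ⟨K.card, fun i => f (K.equivFin.symm i), fun i => g _, ?_, fun n hn => ?_⟩
  · rw [← card_sigma]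
    refine (card_le_card_of_injOn (t := Icc 1 (2 * X))
      (fun z => (bx m X (f (K.equivFin.symm z.1))).nn z.2)
      (fun z hz => (g _).val_mem (x := z.2) hm (mem_sigma.1 hz).2) ?_).trans (by simp)
    rintro ⟨i, x⟩ hx ⟨j, y⟩ hy e
    have hx := (mem_sigma.1 hx).2
    have hy := (mem_sigma.1 hy).2
    obtain rfl : i = j := K.equivFin.symm.injective (Subtype.ext ((b _).symm.trans
      (((g _).key hx).symm.trans ((congrArg (ky m X) e).trans (((g _).key hy).trans (b _))))))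
    exact congrArg _ ((g _).val_inj hx hy e)
  · let k : K := ⟨ky m X n, mem_image_of_mem _ (mem_filter.2 ⟨mem_Icc.2 ⟨hn.pos, hn.le⟩, hn⟩)⟩
    refine ⟨K.equivFin k, (g _).exists_val hn ?_⟩
    rw [b, Equiv.symm_apply_apply]

theorem Gn.b1c (h : Gn m X n) (hx : x ∈ (bx m X n).pts) (k : C1 m ((bx m X n).nn x)) :
    (bx m X n).B1c x := fun ψ a b c => by
  obtain ⟨h1, h2⟩ := h.val hx
  rw [C1, h1, h2] at k
  refine k ψ a b fun p hp => ?_
  obtain ⟨j, -, rfl⟩ := mem_image.1 hp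
  exact c j

theorem YY_TT (hm : 1 ≤ m) : YY m ≤ TT m := Nat.pow_le_pow_right two_pos
  (le_trans (by simp [aa]) (anf_aa_mono hm (Nat.zero_le 1)))

theorem val_dvd {B : Bx} (h : B.Wf) {x : B.Pt} (hx : x ∈ B.pts) {A : B.Pat}
    (a1 : ∀ j ∈ B.Up, A.2 j = 0) {s : Finset ℕ} (h1 : B.S0 ⊆ s) (h2 : ∀ j ∉ B.Up, x j ∈ s) :
    B.val x A ∣ (∏ p ∈ s, p) ^ 2 := by
  have hx := Fintype.mem_piFinset.1 hx
  have v2 : ∀ a : ZMod 3, a.val ≤ 2 := by decide
  refine Dvd.dvd.trans (b := ((∏ q ∈ B.S0, q) * ∏ j ∈ B.Upᶜ, x j) ^ 2) ?_ (pow_dvd_pow_of_dvd ?_ 2)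
  · rw [mul_pow, ← prod_pow, ← prod_pow, ← prod_coe_sort]
    refine mul_dvd_mul (prod_dvd_prod_of_dvd _ _ fun q _ => pow_dvd_pow _ (v2 _)) ?_
    rw [← prod_subset (subset_univ B.Upᶜ) fun j _ hj => by
      rw [a1 j (notMem_compl.1 hj), ZMod.val_zero, pow_zero]]
    exact prod_dvd_prod_of_dvd _ _ fun j _ => pow_dvd_pow _ (v2 _)
  · rw [← prod_image (g := x) (f := fun p => p) fun i _ j _ e => h.disj i j _ (hx i) ((show x i = x j from e) ▸ hx j),
      ← prod_union (disjoint_left.2 fun p a b => ?_)]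
    · refine prod_dvd_prod_of_subset _ _ _ (union_subset h1 fun p a => ?_)
      obtain ⟨j, b, rfl⟩ := mem_image.1 a
      exact h2 j (mem_compl.1 b)
    · obtain ⟨j, -, rfl⟩ := mem_image.1 b
      exact h.cop j _ (hx j) (Nat.dvd_of_mem_primeFactors a)

theorem val_ne_one {B : Bx} (h : B.Wf) {x : B.Pt} (hx : x ∈ B.pts) {A : B.Pat} (a0 : A ≠ 0) :
    B.val x A ≠ 1 := fun e => by
  obtain ⟨e1, e2⟩ := mul_eq_one.1 e
  rw [prod_eq_one_iff] at e1 e2
  refine a0 (Prod.ext (funext fun q => (ZMod.val_eq_zero _).1 ?_)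
    (funext fun j => (ZMod.val_eq_zero _).1 ?_))
  · exact (Nat.pow_eq_one.1 (e1 q (mem_univ q))).resolve_left
      (Nat.prime_of_mem_primeFactors q.2).one_lt.ne'
  · exact (Nat.pow_eq_one.1 (e2 j (mem_univ j))).resolve_left
      (h.prime j _ (Fintype.mem_piFinset.1 hx j)).one_lt.ne'

theorem Gn.b1p (hm : 2 ≤ m) (h : Gn m X n) (hx : x ∈ (bx m X n).pts)
    (k : P1 m ((bx m X n).nn x)) : (bx m X n).B1p x := fun A a0 a1 => by
  have hT := YY_TT (m := m) (by omega)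
  have n0 : (bx m X n).nn x ≠ 0 := by have := (mem_Icc.1 (h.val_mem hm hx)).1; omega
  have r1 := fun j => bx_rng (X := X) hm (pt_mem hx j)
  have r2 := fun j => bx_rng (X := X) hm (h.self (anG_xs (m := m) (n := n) j))
  have n3 := mul_ne_zero three_ne_zero (lo_ne (T := 2 * TT m) n0)
  have mem : ∀ p, p.Prime → p ∣ (bx m X n).nn x → p ≤ 2 * TT m →
      p ∈ (3 * lo (2 * TT m) ((bx m X n).nn x)).primeFactors := fun p a b c =>
    Nat.mem_primeFactors.2 ⟨a, (dvd_lo a b c).mul_left 3, n3⟩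
  obtain ⟨q, q1, q2⟩ := k _ (val_dvd (bx_wf hm h) hx a1 (fun p hp => by
    have a := Nat.prime_of_mem_primeFactors hp
    rcases a.dvd_mul.1 (Nat.dvd_of_mem_primeFactors hp) with e | e
    · exact Nat.mem_primeFactors.2 ⟨a, e.mul_right _, n3⟩
    · exact mem p a (e.mul_right _) (by have := h.small a e; omega)) fun j b => by
    refine mem _ (mem_Ck.1 (pt_mem hx j)).2.2.1 ((dvd_prod_of_mem x (mem_univ j)).mul_left _) ?_
    have := mem_Up.not.1 b
    have := r1 j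
    have := r2 j
    omega) (val_ne_one (bx_wf hm h) hx a0)
  have q3 : q ∈ univ.image x := by
    rw [← (h.val hx).1]
    exact mem_up.2 ⟨(mem_up.1 q1).1, by have := (mem_up.1 q1).2; omega⟩
  obtain ⟨j, -, rfl⟩ := mem_image.1 q3
  refine ⟨j, mem_Up.2 ?_, q2⟩
  have := (mem_up.1 q1).2
  have := r1 j
  have := r2 j
  omega

end Pool.Agent.Lib.MP_696deb_nt.CU.An
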