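import Pool.Agent.Lib.MP_696deb_nt.CU.Z1

/-! Finiteness and growth of the groups of Selmer cocycles. The theorems `finite_unr`, `finite_Zs`,
`finite_Pre`, `finite_WW`, `zero_mem_WW` and `rl_of_mem` are in the imported file. -/

set_option autoImplicit false

open scoped Classical
open Finset

namespace Pool.Agent.Lib.MP_696deb_nt.CU

variable {n e l m : ℕ} {c c' : Gam → A}

theorem card_WW (hn : n ≠ 0) : (WW n).ncard ≤ K3 * 3 ^ (3 * n).primeFactors.card := card_WW_le hn

theorem rl_iff : RL n (l + 1) c ↔ th • c ∈ Zs n 1 l ∧ IsLift n (th • c) c :=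
  ⟨fun h => ⟨h.th_mem, h.isLift⟩, fun h => ((rl_lift h.1).2 h.2).1⟩

theorem RL.add (h : RL n l c) (h' : RL n l c') : RL n l (c + c') :=
  ⟨⟨h.coc.add h'.coc, fun g => by rw [Pi.add_apply, smul_add, h.kil, h'.kil, add_zero],
    fun q hq k => by rw [Pi.add_apply, h.unr q hq k, h'.unr q hq k, add_zero]⟩,
    fun q hq k => by
      rw [smul_add]
      exact (h.loc q hq k).add (h'.loc q hq k)⟩

theorem RL.mono {l' : ℕ} (h : RL n l c) (k : l ≤ l') : RL n l' c := by
  obtain ⟨j, rfl⟩ := Nat.exists_eq_add_of_le' k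
  exact ⟨⟨h.coc, fun g => by rw [pow_add, mul_smul, h.kil, smul_zero], h.unr⟩, h.loc⟩

/-- The number of relaxed lifts of one cocycle. -/
theorem card_lifts (hn : n ≠ 0) (h : c ∈ Zs n 1 l) :
    {c' | RL n (l + 1) c' ∧ th • c' = c}.ncard = (WW n).ncard := by
  have _ := hn
  rw [← card_lift h]
  exact congrArg _ (Set.ext fun _ => rl_lift h)

end Pool.Agent.Lib.MP_696deb_nt.CU
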