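import Pool.Agent.Lib.MP_696deb_nt.CU.SA
import Pool.Agent.Lib.MP_696deb_nt.CU.SB

/-! Selmer patterns and the pairing. -/

set_option autoImplicit false

open scoped Classical
open Finset

namespace Pool.Agent.Lib.MP_696deb_nt.CU

namespace Bx

variable {B : Bx} {x : B.Pt} {a a' b b' : B.Pat} {c : Gam → A} {l : ℕ}

theorem sc_prime (h : B.Wf) (hx : x ∈ B.pts) (j : Fin B.r) : (x j).Prime :=
  h.prime j _ (mem_pts.1 hx j)

theorem sc_dvd (h : B.Wf) (hx : x ∈ B.pts) (j : Fin B.r) : x j ∣ 3 * B.nn x :=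
  (h.dvd_iff hx (sc_prime h hx j)).2 (.inr ⟨j, rfl⟩)

theorem sc_sq (h : B.Wf) (hx : x ∈ B.pts) (j : Fin B.r) : kk (B.nn x) (sq (x j)) = 1 := by
  rw [← kA_tau h hx, kA_sq h hx]
  rfl

theorem sc_chi (n : ℕ) (j : F3) : (kC fun g => j * (chi g - 1)) ∈ Zs n 1 1 := by
  have e : (kC fun g => j * (chi g - 1)) = j.val • kC fun g => chi g - 1 := funext fun g => by
    rw [Pi.smul_apply, ← map_nsmul, nsmul_eq_mul, ZMod.natCast_zmod_val]
  rw [e]
  exact nsmul_mem (chi_mem_Zs n) _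

theorem sc_zero {t : F3} (h : kT t = 0) : t = 0 := kT_inj (h.trans (map_zero kT).symm)

/-- A combination of the characters of prime conductor. -/
noncomputable def sc_U (x : B.Pt) (e : Fin B.r → F3) (g : Gam) : F3 := ∑ i, e i * uq (x i) g

theorem sc_kc (x : B.Pt) (e : Fin B.r → F3) : Kc 0 ⊤ (sc_U x e) :=
  Kc.sum univ fun i _ => (kc_uq (x i)).smul (e i)

theorem sc_U_sq (h : B.Wf) (hx : x ∈ B.pts) {e : Fin B.r → F3} (he : ∀ j ∉ B.J, e j = 0)
    (i : Fin B.r) : sc_U x e (sq (x i)) = e i := by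
  rw [sc_U, sum_eq_single i (fun j _ k => by
    rw [uq_ne (sc_prime h hx i) (h.ne_three hx i) fun e => k (h.inj hx e).symm, mul_zero])
    fun k => absurd (mem_univ i) k]
  by_cases k : i ∈ B.J
  · rw [uq_self (sc_prime h hx i) (h.m1 i k _ (mem_pts.1 hx i)), mul_one]
  · rw [he i k, zero_mul]

theorem sc_U_unr (h : B.Wf) (hx : x ∈ B.pts) (e : Fin B.r → F3) {q : ℕ} (hq : q.Prime)
    (k : ¬ q ∣ 3 * B.nn x) : sc_U x e (sq q) = 0 :=
  sum_eq_zero fun i _ => by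
    rw [uq_ne hq (fun e => k (e.symm ▸ dvd_mul_right 3 _)) fun e => k (e ▸ sc_dvd h hx i),
      mul_zero]

theorem sc_dec (h : B.Wf) (hx : x ∈ B.pts) {u : Gam → F3} (hu : u ∈ WW (B.nn x)) :
    (∀ j ∉ B.J, u (sq (x j)) = 0) ∧ (u - sc_U x fun j => u (sq (x j))) ∈ WW B.N0 := by
  have e : ∀ j ∉ B.J, u (sq (x j)) = 0 := fun j k =>
    (hu.1.mono le_top).ev (sc_prime h hx j) (h.m2 j k _ (mem_pts.1 hx j))
  refine ⟨e, hu.1.sub (sc_kc x _), fun q hq k => ?_⟩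
  by_cases d : q ∣ 3 * B.nn x
  · rcases (h.dvd_iff hx hq).1 d with k' | ⟨i, rfl⟩
    · exact absurd (Nat.dvd_of_mem_primeFactors k') k
    · rw [Pi.sub_apply, sc_U_sq h hx e, sub_self]
  · rw [Pi.sub_apply, hu.2 q hq d, sc_U_unr h hx _ hq d, sub_zero]

theorem tau_mem (h : B.Wf) (hx : x ∈ B.pts) : B.tau ∈ B.V x := by
  rw [mem_V, kA_tau h hx]
  exact kk_mem_Zs _

theorem L1_le (h : B.Wf) (hx : x ∈ B.pts) : B.L1 ≤ B.V x := by
  exact AddSubgroup.zmultiples_le_of_mem (tau_mem h hx)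

theorem exists_pat (h : B.Wf) (hx : x ∈ B.pts) (hc : c ∈ Zs (B.nn x) 1 1) :
    ∃ a ∈ B.V x, ∃ j : F3, c = kC (B.kA x a) + kC fun g => j * (chi g - 1) := by
  obtain ⟨u, hu, rfl⟩ := zs_one hc
  have n0 : 3 * B.nn x ≠ 0 := mul_ne_zero (by decide) (h.nn_ne hx)
  obtain ⟨a, j, e⟩ := kummer_S hu (3 * B.nn x).primeFactors
    (fun q hq => Nat.prime_of_mem_primeFactors hq)
    (Nat.mem_primeFactors.2 ⟨Nat.prime_three, dvd_mul_right 3 _, n0⟩)
    fun q hq k => sc_zero (hc.unr q hq fun d => k (Nat.mem_primeFactors.2 ⟨hq, d, n0⟩))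
  have e1 : kC u = kC (B.kA x (fun q => a q, fun i => a (x i))) + kC fun g => j * (chi g - 1) :=
    funext fun g => by
      rw [Pi.add_apply, ← map_add, kA_apply, sum_coe_sort B.S0 fun q => a q * kk q g,
        ← h.sum_pf hx fun q => a q * kk q g, ← e]
  refine ⟨_, mem_V.2 ?_, j, e1⟩
  rw [← sub_eq_iff_eq_add.2 e1]
  exact sub_mem hc (sc_chi _ j)

theorem card_Z1 (h : B.Wf) (hx : x ∈ B.pts) :
    Nat.card (Zs (B.nn x) 1 1) ≤ 3 * (B.VF x).card := by
  refine (Nat.card_le_card_of_surjective (fun p : F3 × B.VF x =>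
    (⟨kC (B.kA x p.2) + kC fun g => p.1 * (chi g - 1),
      add_mem (mem_V.1 (mem_VF.1 p.2.2)) (sc_chi _ _)⟩ : Zs (B.nn x) 1 1)) fun c => ?_).trans_eq ?_
  · obtain ⟨a, ha, j, e⟩ := exists_pat h hx c.2
    exact ⟨(j, ⟨a, mem_VF.2 ha⟩), Subtype.ext e.symm⟩
  · rw [Nat.card_prod, Nat.card_zmod, Nat.card_eq_finsetCard]

/-- Membership in terms of local conditions at the small primes and rows. -/
theorem mem_V_iff (h : B.Wf) (hx : x ∈ B.pts) : a ∈ B.V x ↔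
    (∀ q ∈ B.S0, Loc (B.nn x) 1 q (kC (B.kA x a))) ∧
      ∀ j ∈ B.J, B.kA x a (fq (x j)) = a.2 j * kk (B.nn x) (fq (x j)) := by
  have f := fun j => f1_one (sc_prime h hx j) (h.ne_three hx j) (sc_sq h hx j)
    ((kc_kA h hx a).mono le_top)
  simp only [kA_sq h hx] at f
  refine ⟨fun k => ⟨fun q hq => ?_, fun j hj => ?_⟩, fun k => ⟨coc_kC.2 (kc_kA h hx a),
    fun g => pow_one th ▸ th_kT _, fun q hq d => ?_,
    fun q hq d => (congrArg kT (kA_unr h hx a hq d)).trans (map_zero _)⟩⟩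
  · have p := Nat.prime_of_mem_primeFactors hq
    exact (mem_V.1 k).loc q p ((h.dvd_iff hx p).2 (.inl hq))
  · have := h.m1 j hj _ (mem_pts.1 hx j)
    exact ((f j).1 ((mem_V.1 k).loc _ (sc_prime h hx j) (sc_dvd h hx j))).resolve_left (by omega)
  · rcases (h.dvd_iff hx hq).1 d with k' | ⟨j, rfl⟩
    · exact k.1 q k'
    · by_cases hj : j ∈ B.J
      exacts [(f j).2 (.inr (k.2 j hj)), (f j).2 (.inl (h.m2 j hj _ (mem_pts.1 hx j)))]

variable (x) in
/-- The local data of a pattern. -/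
noncomputable def sc_phi : B.Pat →+ (Gam → F3) × (B.S0 → F3 × F3) × (B.J → F3) :=
  AddMonoidHom.mk' (fun a => (H3.rs (Gq 3) (B.kA x a),
    fun q => (B.kA x a (sq q), B.kA x a (fq q)),
    fun j => B.kA x a (fq (x j)) - a.2 j * kk (B.nn x) (fq (x j)))) fun a b => by
      refine Prod.ext (by simp only [map_add, Prod.fst_add]) (Prod.ext (funext fun q => ?_)
        (funext fun j => ?_))
      · simp only [map_add, Pi.add_apply, Prod.mk_add_mk]
      · simp only [map_add, Pi.add_apply, Prod.snd_add]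
        ring

theorem sc_ker (h : B.Wf) (hx : x ∈ B.pts) : (sc_phi x).ker ≤ B.V x := fun a ha => by
  have e : sc_phi x a = 0 := ha
  refine (mem_V_iff h hx).2 ⟨fun q hq => ⟨0, fun g hg => ?_⟩, fun j hj =>
    sub_eq_zero.1 (congrFun (congrArg (·.2.2) e) ⟨j, hj⟩)⟩
  rw [cob_zero, ← map_zero kT]
  refine congrArg kT ?_
  by_cases k : q = 3
  · subst k
    exact (H3.rs_of_mem hg _).symm.trans (congrFun (congrArg (·.1) e) g)
  · have := congrFun (congrArg (·.2.1) e) ⟨q, hq⟩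
    exact ((kc_kA h hx a).mono le_top).det (Nat.prime_of_mem_primeFactors hq) k
      (congrArg (·.1) this) (congrArg (·.2) this) hg

theorem card_V (h : B.Wf) (hx : x ∈ B.pts) :
    3 ^ (B.k0 + B.r) ≤ K3 * 9 ^ B.k0 * 3 ^ B.J.card * (B.VF x).card := by
  rw [← card_Pat, ← Nat.card_eq_fintype_card, ← (sc_phi x).ker.card_mul_index,
    AddSubgroup.index_ker, mul_comm]
  refine Nat.mul_le_mul ?_ ?_
  · have k : SetLike.coe (sc_phi x).range ⊆ Z3 1 ×ˢ Set.univ := by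
      rintro _ ⟨a, rfl⟩
      exact ⟨⟨((kc_kA h hx a).mono le_top).congr fun g hg => (H3.rs_of_mem hg _).symm,
        fun g hg => H3.rs_of_notMem hg _⟩, trivial⟩
    refine (Set.ncard_le_ncard k ((finite_Z3 1).prod Set.finite_univ)).trans ?_
    rw [Set.ncard_prod, Set.ncard_univ, mul_assoc]
    refine Nat.mul_le_mul (card_Z3 1) (le_of_eq ?_)
    simp [k0]
  · refine (AddSubgroup.card_le_of_le (sc_ker h hx)).trans_eq ?_
    rw [Nat.card_eq_fintype_card, Fintype.card_subtype]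
    rfl

theorem card_WW_nn (h : B.Wf) (hx : x ∈ B.pts) : (WW (B.nn x)).ncard = B.wB := by
  obtain ⟨E, E1, E2⟩ : ∃ E : (B.J → F3) → Fin B.r → F3, (∀ e, ∀ j ∉ B.J, E e j = 0) ∧
      ∀ e (j : B.J), E e j = e j :=
    ⟨fun e j => if k : j ∈ B.J then e ⟨j, k⟩ else 0, fun _ _ k => dif_neg k,
      fun _ j => dif_pos j.2⟩
  have m : ∀ p : WW B.N0 × (B.J → F3), p.1.1 + sc_U x (E p.2) ∈ WW (B.nn x) := fun p =>
    ⟨p.1.2.1.add (sc_kc x _), fun q hq k => by
      rw [Pi.add_apply, sc_U_unr h hx _ hq k, add_zero]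
      exact p.1.2.2 q hq fun d => k (d.trans (mul_dvd_mul_left 3 (dvd_mul_right _ _)))⟩
  have v : ∀ (p : WW B.N0 × (B.J → F3)) (j : B.J), (p.1.1 + sc_U x (E p.2)) (sq (x j)) = p.2 j :=
    fun p j => by
      rw [Pi.add_apply, sc_U_sq h hx (E1 _), E2,
        p.1.2.2 _ (sc_prime h hx j) (h.cop j _ (mem_pts.1 hx j)), zero_add]
  have b : Function.Bijective fun p : WW B.N0 × (B.J → F3) =>
      (⟨p.1.1 + sc_U x (E p.2), m p⟩ : WW (B.nn x)) := by
    refine ⟨fun p p' e => ?_, fun u => ?_⟩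
    · have e1 : p.1.1 + sc_U x (E p.2) = p'.1.1 + sc_U x (E p'.2) := congrArg Subtype.val e
      have e2 : p.2 = p'.2 := funext fun j => by rw [← v, e1, v]
      rw [e2] at e1
      exact Prod.ext (Subtype.ext (add_right_cancel e1)) e2
    · obtain ⟨k1, k2⟩ := sc_dec h hx u.2
      have e : (E fun j => u.1 (sq (x j))) = fun j => u.1 (sq (x j)) := funext fun j => by
        by_cases k : j ∈ B.J
        exacts [E2 _ ⟨j, k⟩, (E1 _ j k).trans (k1 j k).symm]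
      exact ⟨(⟨_, k2⟩, fun j => u.1 (sq (x j))), Subtype.ext (by simp only [e, sub_add_cancel])⟩
  rw [← Nat.card_coe_set_eq, ← Nat.card_eq_of_bijective _ b, Nat.card_prod, Nat.card_coe_set_eq,
    wB]
  simp

theorem wB_pos (h : B.Wf) : 0 < B.wB := by
  exact mul_pos ((Set.ncard_pos (finite_WW h.n0)).2 ⟨0, zero_mem_WW _⟩) (by positivity)

theorem G1.bot (h : B.Wf) (hx : x ∈ B.pts) (k : B.G1 x) : Zs (B.nn x) 0 1 = ⊥ := by
  refine eq_bot_iff.2 fun c hc => ?_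
  obtain ⟨u, hu, rfl⟩ := zs_one hc
  obtain ⟨k1, k2⟩ := sc_dec h hx (u := u) ⟨hu, fun q hq d => sc_zero (hc.unr q hq d)⟩
  obtain ⟨e1, e2⟩ := k _ k1 _ k2 fun j => by
    rw [← f1_zero (sc_prime h hx j) (h.ne_three hx j) (sc_sq h hx j)
      (hc.loc _ (sc_prime h hx j) (sc_dvd h hx j)) (fq_mem (sc_prime h hx j))]
    exact add_sub_cancel _ _
  rw [e1, sub_eq_zero] at e2
  refine funext fun g => ?_
  simp [e2, sc_U, kC]

theorem B1p.g0 (h : B.Wf) (hx : x ∈ B.pts) (k : B.B1p x) : B.G0 x := by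
  intro a ha hu
  by_contra a0
  obtain ⟨j, hj, h1, h2⟩ := k a a0 hu
  have p := sc_prime h hx j
  have hJ : j ∈ B.J := by
    by_contra k'
    have := h.m2 j k' _ (mem_pts.1 hx j)
    omega
  have r := ((mem_V_iff h hx).1 ha).2 j hJ
  have d : ¬ x j ∣ B.val x a := fun d => by
    rcases p.dvd_mul.1 d with d | d
    · obtain ⟨q, -, e⟩ := (p.prime.dvd_finsetProd_iff _).1 d
      exact h.notMem hx j ((Nat.prime_dvd_prime_iff_eq p
        (Nat.prime_of_mem_primeFactors q.2)).1 (p.dvd_of_dvd_pow e) ▸ q.2)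
    · obtain ⟨i, -, e⟩ := (p.prime.dvd_finsetProd_iff _).1 d
      obtain rfl := h.inj hx ((Nat.prime_dvd_prime_iff_eq p (sc_prime h hx i)).1
        (p.dvd_of_dvd_pow e))
      rw [hu j hj, ZMod.val_zero, pow_zero] at e
      exact p.not_dvd_one e
  rw [hu j hj, zero_mul, kA_val h hx, kk_fq_eq_zero p d h1] at r
  obtain ⟨t, ht⟩ := r
  have := NeZero.mk p.ne_zero
  refine h2 ⟨t.val, (ZMod.natCast_eq_natCast_iff _ _ _).1 ?_⟩
  rw [Nat.cast_pow, ZMod.natCast_zmod_val, ht]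

end Bx

end Pool.Agent.Lib.MP_696deb_nt.CU
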