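import Pool.Agent.Lib.MP_696deb_nt.CU.SC

/-! Relaxed lifts and the pairing on patterns. -/

set_option autoImplicit false

open scoped Classical
open Finset

namespace Pool.Agent.Lib.MP_696deb_nt.CU

namespace Bx

variable {B : Bx} {x : B.Pt} {a a' b b' : B.Pat} {c : Gam → A} {l : ℕ}

theorem mem_Om (h : B.Wf) (hx : x ∈ B.pts) :
    c ∈ B.Om x l a ↔ c ∈ Zs (B.nn x) 0 l ∧ th ^ (l - 1) • c = kC (B.kA x a) := by
  refine mem_fs ?_
  exact (finite_Zs (h.nn_ne hx) 0 l).subset fun _ k => k.1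

theorem mem_RF (h : B.Wf) (hx : x ∈ B.pts) :
    c ∈ B.RF x l a ↔ RL (B.nn x) l c ∧ th ^ (l - 1) • c = kC (B.kA x a) := by
  refine mem_fs ?_
  exact (finite_Pre (h.nn_ne hx) l).subset fun _ k => k.1.toPre

theorem dx_eq (h : B.Wf) (hx : x ∈ B.pts) (hc : RL (B.nn x) (l + 1) c) (hb : b ∈ B.V x) :
    B.Dx x c b = DD (B.nn x) (th • c) (B.kA x b) := by
  exact (dd_eq (h.nn_ne hx) (rl_iff.1 hc).1 (rl_iff.1 hc).2 hb).symm

theorem dx_two (h : B.Wf) (hx : x ∈ B.pts) (hc : c ∈ B.RF x 2 a) (hb : b ∈ B.V x) :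
    B.Dx x c b = B.CT x a b := by
  obtain ⟨h1, h2⟩ := (mem_RF h hx).1 hc
  rw [dx_eq h hx h1 hb, CT, ← h2, pow_one]

theorem card_RF_two (h : B.Wf) (hx : x ∈ B.pts) (ha : a ∈ B.V x) : (B.RF x 2 a).card = B.wB := by
  rw [← card_WW_nn h hx, ← card_lifts (h.nn_ne hx) (mem_V.1 ha), ← Set.ncard_coe_finset]
  congr 1
  ext c
  rw [mem_coe, mem_RF h hx, pow_one]
  rfl

theorem mem_V_of_RF (h : B.Wf) (hx : x ∈ B.pts) (hc : c ∈ B.RF x 2 a) : a ∈ B.V x := by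
  obtain ⟨h1, h2⟩ := (mem_RF h hx).1 hc
  rw [mem_V, ← h2, pow_one]
  exact (rl_iff.1 h1).1

theorem ct_add_left (h : B.Wf) (hx : x ∈ B.pts) (ha : a ∈ B.V x) (ha' : a' ∈ B.V x)
    (hb : b ∈ B.V x) : B.CT x (a + a') b = B.CT x a b + B.CT x a' b := by
  rw [CT, map_add, ← kM_apply, map_add]
  exact dd_add_left (h.nn_ne hx) ha ha' hb

theorem ct_add_right (h : B.Wf) (hx : x ∈ B.pts) (ha : a ∈ B.V x) (hb : b ∈ B.V x)
    (hb' : b' ∈ B.V x) : B.CT x a (b + b') = B.CT x a b + B.CT x a b' := by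
  rw [CT, map_add]
  exact dd_add_right (h.nn_ne hx) ha hb hb'

theorem ct_smul_left (h : B.Wf) (hx : x ∈ B.pts) (ha : a ∈ B.V x) (hb : b ∈ B.V x) (s : F3) :
    B.CT x (s • a) b = s * B.CT x a b := by
  rcases F3_cases s with rfl | rfl | rfl
  · have := ct_add_left h hx (zero_mem _) (zero_mem _) hb
    rw [add_zero] at this
    rw [zero_smul, zero_mul, left_eq_add.1 this]
  · rw [one_smul, one_mul]
  · rw [two_smul, two_mul, ct_add_left h hx ha ha hb]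

theorem ct_smul_right (h : B.Wf) (hx : x ∈ B.pts) (ha : a ∈ B.V x) (hb : b ∈ B.V x) (s : F3) :
    B.CT x a (s • b) = s * B.CT x a b := by
  rcases F3_cases s with rfl | rfl | rfl
  · have := ct_add_right h hx ha (zero_mem _) (zero_mem _)
    rw [add_zero] at this
    rw [zero_smul, zero_mul, left_eq_add.1 this]
  · rw [one_smul, one_mul]
  · rw [two_smul, two_mul, ct_add_right h hx ha hb hb]

theorem ct_alt (h : B.Wf) (hx : x ∈ B.pts) (ha : a ∈ B.V x) (hb : b ∈ B.V x) :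
    B.CT x a b = -B.CT x b a := by
  exact dd_alt (h.nn_ne hx) ha hb

theorem ct_self (h : B.Wf) (hx : x ∈ B.pts) (ha : a ∈ B.V x) : B.CT x a a = 0 := by
  exact (by decide : ∀ t : F3, t = -t → t = 0) _ (ct_alt h hx ha ha)

theorem ct_tau (h : B.Wf) (hx : x ∈ B.pts) (hb : b ∈ B.V x) : B.CT x B.tau b = 0 := by
  rw [CT, kA_tau h hx]
  exact dd_kk (h.nn_ne hx) hb

theorem rad_add (h : B.Wf) (hx : x ∈ B.pts) (ha : a ∈ B.Rad x) (hb : b ∈ B.Rad x) :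
    a + b ∈ B.Rad x := by
  exact ⟨add_mem ha.1 hb.1, fun d hd => by
    rw [ct_add_left h hx ha.1 hb.1 hd, ha.2 d hd, hb.2 d hd, add_zero]⟩

theorem rad_sub (h : B.Wf) (hx : x ∈ B.pts) (ha : a ∈ B.Rad x) (hb : b ∈ B.Rad x) :
    a - b ∈ B.Rad x := by
  refine ⟨sub_mem ha.1 hb.1, fun d hd => ?_⟩
  have := ct_add_left h hx (sub_mem ha.1 hb.1) hb.1 hd
  rw [sub_add_cancel, ha.2 d hd, hb.2 d hd, add_zero] at this
  exact this.symm

end Bx

end Pool.Agent.Lib.MP_696deb_nt.CU
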